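import Pool.Agent.LE60.Energy

/-!
# LE60/AN: asymptotics of `∑ log C(N-1, k)`

PROOF. `LC (N+1) - LC N = N log (N+1)... `: precisely `LC N = N log (N-1)! - 2 ∑_{k<N} log k!`, so
`LC (N+1) - LC N = N log N - log N!` for `N ≥ 1` (check: `(N+1) log N! - N log (N-1)! - 2 log N! = N log N - log N!`), `LC 1 = 0`:
`LC N = ∑_{m=1}^{N-1} (m log m - log m!)`. By `Stirling.log_stirlingSeq_formula` `log m! = log stirlingSeq m + (1/2) log (2m) + m (log m - 1)` and
`(1/2) log π ≤ log stirlingSeq m ≤ (1/2) log π + C/m` (`Stirling.sqrt_pi_le_stirlingSeq`, `Stirling.log_stirlingSeq_sdiff_le`, telescoping against the limit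
`tendsto_stirlingSeq_sqrt_pi`). So `m log m - log m! = m - (1/2) log (2π m) + O(1/m)`; sum over `m < N`:
`N(N-1)/2 - (N-1)/2 log (2π) - (1/2) log (N-1)! + O(1 + log N)`, and `(1/2) log (N-1)! = (1/2)(N log N - N) + O(1 + log N)`. Total
`N²/2 - (N log N)/2 - (N/2) log (2π) + O(1 + log N)`, and `1 ≤ 2 log N` for `N ≥ 2`.
-/

set_option autoImplicit false

namespace Pool.Agent.LE60

private noncomputable def FF (N : ℕ) : ℝ := ∑ k ∈ Finset.range N, Real.log (Nat.factorial k)

private lemma LC_eq (n : ℕ) :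
    LC (n + 1) = (n + 1) * Real.log (Nat.factorial n) - 2 * FF (n + 1) := by
  have h1 : ∀ k ∈ Finset.range (n + 1), Real.log (Nat.choose (n + 1 - 1) k) =
      Real.log (Nat.factorial n) - Real.log (Nat.factorial k) -
        Real.log (Nat.factorial (n + 1 - 1 - k)) := by
    intro k hk
    have hk' : k ≤ n := Nat.lt_succ_iff.1 (Finset.mem_range.1 hk)
    have h2 : (Nat.choose n k : ℝ) * Nat.factorial k * Nat.factorial (n - k) = Nat.factorial n := by
      exact_mod_cast Nat.choose_mul_factorial_mul_factorial hk'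
    have p1 : (0 : ℝ) < Nat.choose n k := by exact_mod_cast Nat.choose_pos hk'
    have p2 : (0 : ℝ) < Nat.factorial k := by exact_mod_cast Nat.factorial_pos k
    have p3 : (0 : ℝ) < Nat.factorial (n - k) := by exact_mod_cast Nat.factorial_pos _
    rw [Nat.add_sub_cancel, ← h2, Real.log_mul (by positivity) p3.ne',
      Real.log_mul p1.ne' p2.ne']
    ring
  have h3 : ∑ k ∈ Finset.range (n + 1), Real.log (Nat.factorial (n + 1 - 1 - k)) = FF (n + 1) :=
    Finset.sum_range_reflect (fun k => Real.log (Nat.factorial k)) (n + 1)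
  unfold LC
  rw [Finset.sum_congr rfl h1, Finset.sum_sub_distrib, Finset.sum_sub_distrib, h3,
    Finset.sum_const, Finset.card_range, nsmul_eq_mul]
  unfold FF
  push_cast
  ring

private lemma LC_succ (n : ℕ) :
    LC (n + 2) = LC (n + 1) + ((n + 1 : ℕ) * Real.log (n + 1 : ℕ) -
      Real.log (Nat.factorial (n + 1))) := by
  have h1 := LC_eq n
  have h2 := LC_eq (n + 1)
  have h3 : FF (n + 2) = FF (n + 1) + Real.log (Nat.factorial (n + 1)) :=
    Finset.sum_range_succ _ _
  have h4 : Real.log (Nat.factorial (n + 1)) = Real.log (n + 1 : ℕ) +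
      Real.log (Nat.factorial n) := by
    rw [Nat.factorial_succ, Nat.cast_mul, Real.log_mul]
    · exact_mod_cast Nat.succ_ne_zero n
    · exact_mod_cast Nat.factorial_ne_zero n
  rw [show n + 2 = n + 1 + 1 from rfl] at *
  rw [h2, h1, h3, h4]
  push_cast
  ring

private lemma log_stirlingSeq_le (n : ℕ) (hn : n ≠ 0) :
    Real.log (Stirling.stirlingSeq n) ≤ Real.log (Real.sqrt Real.pi) + 1 / (12 * n) := by
  have hmono : Monotone fun k : ℕ =>
      Real.log (Stirling.stirlingSeq (k + 1)) - 1 / (12 * ((k : ℝ) + 1)) := by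
    apply monotone_nat_of_le_succ
    intro k
    have h := Stirling.log_stirlingSeq_sdiff_le (k + 1)
    have e : (1 : ℝ) / (12 * ((k + 1 : ℕ) : ℝ) * (((k + 1 : ℕ) : ℝ) + 1)) =
        1 / (12 * ((k : ℝ) + 1)) - 1 / (12 * (((k + 1 : ℕ) : ℝ) + 1)) := by
      push_cast
      field_simp
      ring
    rw [e] at h
    linarith
  have ht : Filter.Tendsto (fun k : ℕ =>
      Real.log (Stirling.stirlingSeq (k + 1)) - 1 / (12 * ((k : ℝ) + 1))) Filter.atTop
      (nhds (Real.log (Real.sqrt Real.pi) - 0)) := by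
    apply Filter.Tendsto.sub
    · have h1 := Stirling.tendsto_stirlingSeq_sqrt_pi.comp (Filter.tendsto_add_atTop_nat 1)
      have hp : Real.sqrt Real.pi ≠ 0 := (Real.sqrt_pos.2 Real.pi_pos).ne'
      exact (Real.continuousAt_log hp).tendsto.comp h1
    · have h2 := (tendsto_one_div_add_atTop_nhds_zero_nat (𝕜 := ℝ)).const_mul (1 / 12)
      rw [mul_zero] at h2
      refine h2.congr fun k => ?_
      field_simp
  obtain ⟨k, rfl⟩ := Nat.exists_eq_succ_of_ne_zero hn
  have h := hmono.ge_of_tendsto ht k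
  simp only [sub_zero] at h
  rw [Nat.succ_eq_add_one]
  push_cast
  linarith

private lemma log_fact (n : ℕ) (hn : n ≠ 0) :
    0 ≤ Real.log (Nat.factorial n) -
      (n * Real.log n - n + Real.log n / 2 + Real.log (2 * Real.pi) / 2) ∧
    Real.log (Nat.factorial n) -
      (n * Real.log n - n + Real.log n / 2 + Real.log (2 * Real.pi) / 2) ≤ 1 / (12 * n) := by
  have hn' : (0 : ℝ) < n := by exact_mod_cast Nat.pos_of_ne_zero hn
  constructor
  · have h := Stirling.le_log_factorial_stirling hn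
    linarith
  · have h := log_stirlingSeq_le n hn
    rw [Stirling.log_stirlingSeq_formula, Real.log_sqrt Real.pi_pos.le,
      Real.log_mul two_ne_zero hn'.ne', Real.log_div hn'.ne' (Real.exp_pos 1).ne',
      Real.log_exp] at h
    rw [Real.log_mul two_ne_zero Real.pi_pos.ne']
    linarith

private noncomputable def EE' (N : ℕ) : ℝ :=
  LC N - ((N : ℝ) ^ 2 / 2 - N * Real.log N / 2 - Real.log (2 * Real.pi) / 2 * N)

private lemma EE_step (n : ℕ) : |EE' (n + 2) - EE' (n + 1)| ≤
    Real.log (n + 2 : ℕ) - Real.log (n + 1 : ℕ) := by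
  have h1 := LC_succ n
  obtain ⟨h2, h3⟩ := log_fact (n + 1) (Nat.succ_ne_zero n)
  set x : ℝ := ((n + 1 : ℕ) : ℝ) with hx
  have hx1 : (1 : ℝ) ≤ x := by rw [hx]; push_cast; linarith [(Nat.cast_nonneg n : (0 : ℝ) ≤ n)]
  have hx2 : ((n + 2 : ℕ) : ℝ) = x + 1 := by rw [hx]; push_cast; ring
  have hx0 : 0 < x := by linarith
  set l : ℝ := Real.log (x + 1) - Real.log x with hl
  have hl' : l = Real.log (1 + 1 / x) := by
    rw [hl, ← Real.log_div (by positivity) hx0.ne']
    congr 1
    field_simp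
  have hl1 : l ≤ 1 / x := by
    rw [hl']
    have := Real.log_le_sub_one_of_pos (show (0 : ℝ) < 1 + 1 / x by positivity)
    linarith
  have hl2 : 1 / (x + 1) ≤ l := by
    rw [hl']
    have h := Real.one_sub_inv_le_log_of_pos (show (0 : ℝ) < 1 + 1 / x by positivity)
    have e : 1 - (1 + 1 / x)⁻¹ = 1 / (x + 1) := by
      field_simp
      ring
    rwa [e] at h
  have e1 : EE' (n + 2) - EE' (n + 1) = -1 / 2 -
      (Real.log (Nat.factorial (n + 1)) -
        (x * Real.log x - x + Real.log x / 2 + Real.log (2 * Real.pi) / 2)) + (x + 1) / 2 * l := by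
    unfold EE'
    rw [h1, hx2, ← hx, hl]
    ring
  have h4 : 1 ≤ (x + 1) * l := by
    calc (1 : ℝ) = (x + 1) * (1 / (x + 1)) := by field_simp
      _ ≤ (x + 1) * l := by gcongr
  have h5 : (x + 1) * l ≤ 1 + 1 / x := by
    calc (x + 1) * l ≤ (x + 1) * (1 / x) := by gcongr
      _ = 1 + 1 / x := by field_simp
  have h6 : 1 / (2 * x) ≤ 1 / (x + 1) := by
    apply one_div_le_one_div_of_le (by linarith) (by linarith)
  have h7 : 1 / (12 * x) ≤ 1 / (2 * x) := by
    apply one_div_le_one_div_of_le (by linarith) (by linarith)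
  have h8 : 1 / (2 * x) = (1 / x) / 2 := by field_simp
  rw [hx2, ← hl, e1, abs_le]
  constructor
  · linarith
  · linarith

private lemma EE_bound (n : ℕ) : |EE' (n + 1)| ≤ |EE' 1| + Real.log (n + 1 : ℕ) := by
  induction n with
  | zero => simp
  | succ n ih =>
    have h1 := EE_step n
    have h2 : |EE' (n + 1 + 1)| ≤ |EE' (n + 2) - EE' (n + 1)| + |EE' (n + 1)| := by
      have := abs_add_le (EE' (n + 2) - EE' (n + 1)) (EE' (n + 1))
      rwa [sub_add_cancel] at this
    have e : ((n + 1 + 1 : ℕ) : ℝ) = ((n + 2 : ℕ) : ℝ) := rfl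
    rw [e]
    linarith

theorem lc_asymp : ∃ C : ℝ, 0 ≤ C ∧ ∀ N : ℕ, 2 ≤ N →
    |LC N - ((N : ℝ) ^ 2 / 2 - N * Real.log N / 2 - Real.log (2 * Real.pi) / 2 * N)|
      ≤ C * Real.log N := by
  have hlog2 : 0 < Real.log 2 := Real.log_pos one_lt_two
  refine ⟨|EE' 1| / Real.log 2 + 1, by positivity, fun N hN => ?_⟩
  obtain ⟨n, rfl⟩ : ∃ n, N = n + 1 := ⟨N - 1, by omega⟩
  have h := EE_bound n
  have h2 : Real.log 2 ≤ Real.log (n + 1 : ℕ) := by
    apply Real.log_le_log (by norm_num)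
    exact_mod_cast hN
  have h3 : |EE' 1| ≤ |EE' 1| / Real.log 2 * Real.log (n + 1 : ℕ) := by
    calc |EE' 1| = |EE' 1| / Real.log 2 * Real.log 2 := by field_simp
      _ ≤ _ := by gcongr
  calc _ = |EE' (n + 1)| := rfl
    _ ≤ |EE' 1| + Real.log (n + 1 : ℕ) := h
    _ ≤ (|EE' 1| / Real.log 2 + 1) * Real.log (n + 1 : ℕ) := by linarith

end Pool.Agent.LE60
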