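import Pool.Agent.LE60.HP

/-!
# LE60/AddP: adding a point, and the overfill estimate

PROOFS.
* `add_point`: if `gdet kp f = 0` (then `det G = 0`, real) take any `w ∈ B` (`B` is nonempty since its area
  is positive): `gdet kp (snoc f w) ≥ 0`. If `det G ≠ 0`: `∫_B hh ≤ ∫ hh = π n` (`hh ≥ 0`), so there is
  `w ∈ B` with `hh kp f w ≤ π n / area B` (otherwise the integral over `B` would be larger:
  `exists_setAverage_le`/`MeasureTheory.exists_le_setAverage`), and
  `gdet kp (snoc f w) = gdet kp f (1 - hh) ≥ gdet kp f (1 - π n/area B)`, as `gdet kp f ≥ 0`.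
* `overfill`: `m = n + 1` points. If `gdet kp f = 0`, any `i` works (right side `≥ 0`). Otherwise split
  `π m = ∫ hh = ∫_{B'} hh + ∫_{B'ᶜ} hh ≤ area B' + tr(G⁻¹) m 2π e^{-L²/2}` (`hh ≤ 1`;
  `integral_hp_tail` with `W = B'ᶜ`: `w ∉ B'` gives `‖w - f i‖ ≥ L` by `hB'`). With
  `area B' + π ≤ π m`: `tr(G⁻¹) ≥ e^{L²/2}/(2 m)`, so some diagonal entry has
  `(G⁻¹)_ii ≥ e^{L²/2}/(2 m²)`; `inv_diag`: `gdet kp (f ∘ i.succAbove) ≥ gdet kp f e^{L²/2}/(2 m²)`.
-/

set_option autoImplicit false

namespace Pool.Agent.LE60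

open MeasureTheory Matrix
open scoped ComplexOrder ComplexConjugate

variable {n : ℕ}

theorem add_point {B : Set ℂ} (hB : MeasurableSet B) (hpos : 0 < area B) (f : Fin n → ℂ) :
    ∃ w ∈ B, (1 - Real.pi * n / area B) * gdet kp f
      ≤ gdet kp (Fin.snoc f w : Fin (n + 1) → ℂ) := by
  have h0 : volume B ≠ 0 := by
    intro h
    rw [area, h] at hpos
    simp at hpos
  have h1 : volume B ≠ ⊤ := by
    intro h
    rw [area, h] at hpos
    simp at hpos
  by_cases hdet : (gram kp f).det = 0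
  · obtain ⟨w, hw⟩ : B.Nonempty := by
      rw [Set.nonempty_iff_ne_empty]
      rintro rfl
      simp at h0
    refine ⟨w, hw, ?_⟩
    have h2 : gdet kp f = 0 := by rw [gdet, hdet, Complex.zero_re]
    rw [h2, mul_zero]
    exact det_re_nonneg (kp_psd _)
  · obtain ⟨w, hw, hw2⟩ := exists_le_setAverage h0 h1 (integrable_hp f).integrableOn
    refine ⟨w, hw, ?_⟩
    rw [gdet_snoc kp_conj f w hdet (kp_self w), mul_comm]
    apply mul_le_mul_of_nonneg_left _ (det_re_nonneg (kp_psd f))
    have h3 : ∫ x in B, hh kp f x ≤ Real.pi * n := by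
      rw [← integral_hp f hdet]
      exact setIntegral_le_integral (integrable_hp f)
        (Filter.Eventually.of_forall fun x => (hp_bounds f hdet x).1)
    rw [setAverage_eq, smul_eq_mul] at hw2
    have h4 : hh kp f w ≤ Real.pi * n / area B := by
      refine hw2.trans ?_
      rw [div_eq_inv_mul]
      exact mul_le_mul_of_nonneg_left h3 (inv_nonneg.2 hpos.le)
    linarith

theorem overfill {B' : Set ℂ} (hB' : MeasurableSet B') (hfin : volume B' ≠ ⊤) {L : ℝ}
    (hL : 0 ≤ L) (f : Fin (n + 1) → ℂ) (hf : ∀ i w, ‖w - f i‖ < L → w ∈ B')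
    (harea : area B' + Real.pi ≤ Real.pi * (n + 1)) :
    ∃ i : Fin (n + 1), gdet kp f ≤
      2 * (n + 1) ^ 2 * Real.exp (-(L ^ 2) / 2) * gdet kp (f ∘ i.succAbove) := by
  by_cases hdet : (gram kp f).det = 0
  · refine ⟨0, ?_⟩
    have h2 : gdet kp f = 0 := by rw [gdet, hdet, Complex.zero_re]
    rw [h2]
    have h3 : 0 ≤ gdet kp (f ∘ (0 : Fin (n + 1)).succAbove) := det_re_nonneg (kp_psd _)
    positivity
  · have hg0 : 0 < gdet kp f := by
      have h2 : 0 ≤ gdet kp f := det_re_nonneg (kp_psd f)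
      refine lt_of_le_of_ne h2 fun h => hdet ?_
      rw [det_eq_re (kp_psd f).isHermitian]
      have : (gram kp f).det.re = 0 := h.symm
      rw [this, Complex.ofReal_zero]
    have h1 : ∫ x in B', hh kp f x ≤ area B' := by
      have h2 : ∫ x in B', hh kp f x ≤ ∫ x in B', (1 : ℝ) := by
        apply setIntegral_mono (integrable_hp f).integrableOn
        · exact integrableOn_const hfin
        · intro x
          exact (hp_bounds f hdet x).2
      refine h2.trans (le_of_eq ?_)
      rw [setIntegral_const, smul_eq_mul, mul_one]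
      rfl
    have h2 := integral_hp_tail f hdet hL hB'.compl (fun w hw i => by
      by_contra hcon
      exact hw (hf i w (not_le.1 hcon)))
    have h3 := integral_add_compl hB' (integrable_hp f)
    rw [integral_hp f hdet] at h3
    obtain ⟨E, hE⟩ : ∃ E, E = Real.exp (-(L ^ 2) / 2) := ⟨_, rfl⟩
    have hE0 : 0 < E := by rw [hE]; exact Real.exp_pos _
    rw [← hE] at h2 ⊢
    have htr : ((gram kp f)⁻¹).trace.re = ∑ i, ((gram kp f)⁻¹ i i).re := by
      rw [Matrix.trace, Complex.re_sum]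
      rfl
    obtain ⟨t, ht⟩ : ∃ t, t = ((gram kp f)⁻¹).trace.re := ⟨_, rfl⟩
    rw [← ht] at h2
    push_cast at h2 h3
    have h4 : Real.pi * 1 ≤ Real.pi * (2 * (n + 1) * E * t) := by
      nlinarith
    have h5 : 1 ≤ 2 * (n + 1) * E * t := le_of_mul_le_mul_left h4 Real.pi_pos
    by_contra hcon
    push Not at hcon
    have h6 : ∀ i, ((gram kp f)⁻¹ i i).re < 1 / (2 * ((n : ℝ) + 1) ^ 2 * E) := by
      intro i
      rw [inv_diag kp_conj f hdet i, div_lt_div_iff₀ hg0 (by positivity)]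
      have := hcon i
      linarith
    have h7 : ∑ i, ((gram kp f)⁻¹ i i).re < ∑ _i : Fin (n + 1), 1 / (2 * ((n : ℝ) + 1) ^ 2 * E) :=
      Finset.sum_lt_sum_of_nonempty Finset.univ_nonempty fun i _ => h6 i
    rw [← htr, ← ht, Finset.sum_const, Finset.card_univ, Fintype.card_fin, nsmul_eq_mul] at h7
    push_cast at h7
    have h8 : ((n : ℝ) + 1) * (1 / (2 * ((n : ℝ) + 1) ^ 2 * E)) = 1 / (2 * ((n : ℝ) + 1) * E) := by
      field_simp
    rw [h8, lt_div_iff₀ (by positivity)] at h7
    linarith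

end Pool.Agent.LE60
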