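import Pool.Agent.LE60.MatA

/-!
# LE60/MatB: bordered Gram determinants and the diagonal of the inverse

PROOFS.
* `gdet_snoc`: the Gram matrix of `Fin.snoc f w` is (after reindexing `Fin (n+1) ≃ Fin n ⊕ Unit`) the
  block matrix `[[G, g], [g*, K w w]]`, `g i = K (f i) w`, `K w (f i) = conj (K (f i) w)` (from
  `hs`), so by `Matrix.det_fromBlocks₁₁` (G invertible) `det = det G * (K w w - g* G⁻¹ g)`; `K w w = 1`.
  `det G` is real (`det_eq_re`), so the real part factors (`hh` is by definition the real part of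
  `g* G⁻¹ g`).
* `inv_diag`: `Matrix.inv_def`, `Matrix.adjugate_fin_succ_eq_det_submatrix`; sign `(-1)^(i+i) = 1`.
* `hh_nonneg`: `G⁻¹` is PSD.
* `hh_le_one`: if `gdet K f ≠ 0` it is `> 0` (`det_re_nonneg`), and
  `0 ≤ gdet K (snoc f w) = gdet K f * (1 - hh)`.
* `gdet_le_removeNth`: (adding a point with `K x x = 1` does not increase the determinant) Fischer for
  one point; direct: if `gdet K (f ∘ i.succAbove) = 0`, then the big matrix is not PosDef, so
  `gdet K f = 0`; else move index `i` to the end and use `gdet_snoc`, `hh_nonneg`.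
-/

set_option autoImplicit false

namespace Pool.Agent.LE60

open Matrix
open scoped ComplexOrder ComplexConjugate

variable {X : Type*} {K : X → X → ℂ} {n : ℕ}

private theorem gram_herm (hs : ∀ x y, K y x = conj (K x y)) {m : ℕ} (f : Fin m → X) :
    (gram K f).IsHermitian := by
  apply Matrix.IsHermitian.ext
  intro i j
  simp only [gram, Matrix.of_apply]
  rw [hs (f i) (f j)]
  simp

private theorem gram_det (hs : ∀ x y, K y x = conj (K x y)) {m : ℕ} (f : Fin m → X) :
    (gram K f).det = (gdet K f : ℂ) := det_eq_re (gram_herm hs f)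

theorem gdet_snoc (hs : ∀ x y, K y x = conj (K x y)) (f : Fin n → X) (w : X)
    (hdet : (gram K f).det ≠ 0) (hw : K w w = 1) :
    gdet K (Fin.snoc f w : Fin (n + 1) → X) = gdet K f * (1 - hh K f w) := by
  have hu : IsUnit (gram K f).det := isUnit_iff_ne_zero.2 hdet
  let _ : Invertible (gram K f) := Matrix.invertibleOfIsUnitDet _ hu
  have hblk : (gram K (Fin.snoc f w : Fin (n + 1) → X)).submatrix
      (finSumFinEquiv : Fin n ⊕ Fin 1 ≃ Fin (n + 1)) finSumFinEquiv =
      Matrix.fromBlocks (gram K f) (Matrix.of fun i _ => K (f i) w)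
        (Matrix.of fun _ j => conj (K (f j) w)) (Matrix.of fun _ _ => (1 : ℂ)) := by
    ext a b
    rcases a with a | a <;> rcases b with b | b
    · simp only [Matrix.submatrix_apply, gram, Matrix.of_apply, Matrix.fromBlocks_apply₁₁,
        finSumFinEquiv_apply_left]
      rw [show Fin.castAdd 1 a = Fin.castSucc a from rfl, show Fin.castAdd 1 b = Fin.castSucc b from rfl,
        Fin.snoc_castSucc, Fin.snoc_castSucc]
    · have hb : Fin.natAdd n b = Fin.last n := by
        ext; simp
      simp only [Matrix.submatrix_apply, gram, Matrix.of_apply, Matrix.fromBlocks_apply₁₂,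
        finSumFinEquiv_apply_left, finSumFinEquiv_apply_right]
      rw [show Fin.castAdd 1 a = Fin.castSucc a from rfl, hb, Fin.snoc_castSucc, Fin.snoc_last]
    · have ha : Fin.natAdd n a = Fin.last n := by
        ext; simp
      simp only [Matrix.submatrix_apply, gram, Matrix.of_apply, Matrix.fromBlocks_apply₂₁,
        finSumFinEquiv_apply_left, finSumFinEquiv_apply_right]
      rw [show Fin.castAdd 1 b = Fin.castSucc b from rfl, ha, Fin.snoc_castSucc, Fin.snoc_last]
      exact hs _ _
    · have ha : Fin.natAdd n a = Fin.last n := by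
        ext; simp
      have hb : Fin.natAdd n b = Fin.last n := by
        ext; simp
      simp only [Matrix.submatrix_apply, gram, Matrix.of_apply, Matrix.fromBlocks_apply₂₂,
        finSumFinEquiv_apply_right]
      rw [ha, hb, Fin.snoc_last]
      exact hw
  have h1 : (gram K (Fin.snoc f w : Fin (n + 1) → X)).det = (gram K f).det *
      (1 - star (fun i => K (f i) w) ⬝ᵥ ((gram K f)⁻¹ *ᵥ (fun i => K (f i) w))) := by
    rw [← Matrix.det_submatrix_equiv_self (finSumFinEquiv : Fin n ⊕ Fin 1 ≃ Fin (n + 1)), hblk,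
      Matrix.det_fromBlocks₁₁, Matrix.det_fin_one, Matrix.sub_apply, Matrix.invOf_eq_nonsing_inv,
      Matrix.mul_assoc]
    congr 2
  have h2 : gdet K (Fin.snoc f w : Fin (n + 1) → X) =
      (gram K (Fin.snoc f w : Fin (n + 1) → X)).det.re := rfl
  rw [h2, h1, gram_det hs f, Complex.re_ofReal_mul, Complex.sub_re, Complex.one_re]
  rfl

theorem inv_diag (hs : ∀ x y, K y x = conj (K x y)) (f : Fin (n + 1) → X)
    (hdet : (gram K f).det ≠ 0) (i : Fin (n + 1)) :
    (((gram K f)⁻¹) i i).re = gdet K (f ∘ i.succAbove) / gdet K f := by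
  have h1 : (gram K f)⁻¹ i i = ((gdet K (f ∘ i.succAbove) / gdet K f : ℝ) : ℂ) := by
    rw [Matrix.inv_def, Matrix.smul_apply, Matrix.adjugate_fin_succ_eq_det_submatrix,
      Ring.inverse_eq_inv', smul_eq_mul]
    have h2 : (gram K f).submatrix i.succAbove i.succAbove = gram K (f ∘ i.succAbove) := rfl
    rw [h2, gram_det hs, gram_det hs, Even.neg_one_pow ⟨(i : ℕ), rfl⟩, one_mul]
    push_cast
    rw [div_eq_inv_mul]
  rw [h1, Complex.ofReal_re]

theorem hh_nonneg (f : Fin n → X) (w : X) (hG : (gram K f).PosSemidef) : 0 ≤ hh K f w := by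
  have h1 := hG.inv.dotProduct_mulVec_nonneg (fun i => K (f i) w)
  exact (Complex.le_def.1 h1).1

theorem hh_le_one (hs : ∀ x y, K y x = conj (K x y)) (f : Fin n → X) (w : X)
    (hG : (gram K (Fin.snoc f w : Fin (n + 1) → X)).PosSemidef)
    (hdet : (gram K f).det ≠ 0) (hw : K w w = 1) : hh K f w ≤ 1 := by
  have h1 : (gram K f).PosSemidef := by
    have h2 := hG.submatrix (Fin.castSucc : Fin n → Fin (n + 1))
    have h3 : (gram K (Fin.snoc f w : Fin (n + 1) → X)).submatrix Fin.castSucc Fin.castSucc =
        gram K f := by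
      ext a b
      simp only [Matrix.submatrix_apply, gram, Matrix.of_apply, Fin.snoc_castSucc]
    rwa [h3] at h2
  have h4 : 0 ≤ gdet K f := det_re_nonneg h1
  have h5 : gdet K f ≠ 0 := by
    intro h
    apply hdet
    rw [gram_det hs, h, Complex.ofReal_zero]
  have h6 : 0 < gdet K f := lt_of_le_of_ne h4 (Ne.symm h5)
  have h7 : 0 ≤ gdet K (Fin.snoc f w : Fin (n + 1) → X) := det_re_nonneg hG
  rw [gdet_snoc hs f w hdet hw] at h7
  by_contra hc
  push Not at hc
  nlinarith

theorem gdet_le_removeNth (hs : ∀ x y, K y x = conj (K x y)) (f : Fin (n + 1) → X)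
    (hG : (gram K f).PosSemidef) (i : Fin (n + 1)) (hi : K (f i) (f i) = 1) :
    gdet K f ≤ gdet K (f ∘ i.succAbove) := by
  have h1 : (gram K (f ∘ i.succAbove)).PosSemidef := hG.submatrix i.succAbove
  have h2 : 0 ≤ gdet K (f ∘ i.succAbove) := det_re_nonneg h1
  by_cases hd : (gram K (f ∘ i.succAbove)).det = 0
  · have h3 : (gram K f).det = 0 := by
      by_contra hne
      have h4 := (hG.posDef_iff_det_ne_zero).2 hne
      have h5 : (gram K (f ∘ i.succAbove)).PosDef :=
        h4.submatrix (Fin.succAbove_right_injective)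
      exact (h1.posDef_iff_det_ne_zero).1 h5 hd
    have h4 : gdet K f = 0 := by
      change (gram K f).det.re = 0
      rw [h3, Complex.zero_re]
    rw [h4]
    exact h2
  · have h3 : gdet K (Fin.snoc (f ∘ i.succAbove) (f i) : Fin (n + 1) → X) = gdet K f := by
      have he : (Fin.snoc (f ∘ i.succAbove) (f i) : Fin (n + 1) → X) =
          f ∘ ((finSuccEquiv' (Fin.last n)).trans (finSuccEquiv' i).symm) := by
        funext j
        refine Fin.lastCases ?_ (fun j => ?_) j
        · rw [Fin.snoc_last]
          simp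
        · rw [Fin.snoc_castSucc]
          simp only [Function.comp_apply, Equiv.trans_apply]
          rw [finSuccEquiv'_last_apply_castSucc]
          rfl
      rw [he]
      change ((gram K f).submatrix _ _).det.re = _
      rw [Matrix.det_submatrix_equiv_self]
      rfl
    rw [← h3, gdet_snoc hs (f ∘ i.succAbove) (f i) hd hi]
    have h4 := hh_nonneg (f ∘ i.succAbove) (f i) h1
    nlinarith

end Pool.Agent.LE60
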