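import Pool.Agent.LE60.KerS
import Pool.Agent.LE60.MatB

/-!
# LE60/AddS: adding a point on the sphere

PROOF. `K = ks (N-1)`, `n' = N - 1`, `G = gram K f`. If `gdet K f = 0` (then `det G = 0`) or `n ≥ N`: any unit `v`,
since `gdet ≥ 0`. Otherwise, for unit `v`, `gdet K (snoc f v) = gdet K f (1 - hh K f v)` (`gdet_snoc`), so it
suffices to find a unit `v` with `hh K f v ≤ n/N`. For `ω` with `ω^N = 1`, `t ∈ [0,1]` let `v(t, ω) = (√t ω, √(1-t))`. With
`f i = (a_i, b_i)`: `hh K f v = Re ∑_{i,j} (G⁻¹)_ij K(v, f i) K(f j, v)` and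
`K(v, f i) K(f j, v) = (√t ω ā_i + √(1-t) b̄_i)^{n'} (a_j √t ω̄ + b_j √(1-t))^{n'}`. Average over the `N` roots `ω`
(only the diagonal terms survive since `|k - l| < N`): `∑_k C(n',k)² t^k (1-t)^{n'-k} (a_j ā_i)^k (b_j b̄_i)^{n'-k}`.
`∫_0^1 t^k (1-t)^{n'-k} dt = 1/(N C(n',k))` (Beta integral; `Complex.betaIntegral` / induction by parts). So the double average is
`(1/N) ∑_k C(n',k) (a_j ā_i)^k (b_j b̄_i)^{n'-k} = (1/N) K(f j, f i) = (1/N) G_ji`, and the average of `hh` is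
`(1/N) Re tr (G⁻¹ G) = n/N`. Hence some `v(t, ω)` has `hh ≤ n/N` (a continuous function on `[0,1]`, finite sum over `ω`).
(Integrating over the whole circle instead of the roots of unity is equally good.)
-/

set_option autoImplicit false

namespace Pool.Agent.LE60

open Matrix MeasureTheory
open scoped ComplexOrder ComplexConjugate


private theorem beta_int (k : ℕ) : ∀ m : ℕ,
    ∫ t in (0 : ℝ)..1, t ^ k * (1 - t) ^ m = 1 / ((k + m + 1 : ℝ) * ((k + m).choose k : ℝ)) := by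
  induction k with
  | zero =>
    intro m
    have h1 : ∫ t in (0 : ℝ)..1, t ^ 0 * (1 - t) ^ m = ∫ t in (0 : ℝ)..1, (1 - t) ^ m := by
      congr 1
      funext t
      rw [pow_zero, one_mul]
    rw [h1, intervalIntegral.integral_comp_sub_left (fun x : ℝ => x ^ m) 1]
    simp [integral_pow]
  | succ k ih =>
    intro m
    have h1 : ∀ t : ℝ, HasDerivAt (fun x : ℝ => x ^ (k + 1) * (1 - x) ^ (m + 1))
        ((k + 1 : ℝ) * (t ^ k * (1 - t) ^ (m + 1)) - (m + 1 : ℝ) * (t ^ (k + 1) * (1 - t) ^ m)) t := by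
      intro t
      have e1 : HasDerivAt (fun x : ℝ => x ^ (k + 1)) (((k + 1 : ℕ) : ℝ) * t ^ k) t := by
        simpa using hasDerivAt_pow (k + 1) t
      have e2 : HasDerivAt (fun x : ℝ => (1 - x) ^ (m + 1)) (((m + 1 : ℕ) : ℝ) * (1 - t) ^ m * (-1)) t := by
        have e3 : HasDerivAt (fun x : ℝ => 1 - x) (-1) t := by
          simpa using (hasDerivAt_id t).const_sub 1
        simpa using e3.fun_pow (m + 1)
      refine (e1.fun_mul e2).congr_deriv ?_
      push_cast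
      ring
    have hc : ∀ a b : ℕ, IntervalIntegrable (fun t : ℝ => t ^ a * (1 - t) ^ b) volume 0 1 := by
      intro a b
      exact (by fun_prop : Continuous (fun t : ℝ => t ^ a * (1 - t) ^ b)).intervalIntegrable _ _
    have h2 := intervalIntegral.integral_eq_sub_of_hasDerivAt (a := (0 : ℝ)) (b := 1)
      (fun t _ => h1 t) (((hc k (m + 1)).const_mul _).sub ((hc (k + 1) m).const_mul _))
    rw [intervalIntegral.integral_sub ((hc k (m + 1)).const_mul _) ((hc (k + 1) m).const_mul _),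
      intervalIntegral.integral_const_mul, intervalIntegral.integral_const_mul, ih (m + 1)] at h2
    have h3 : ((1 : ℝ) ^ (k + 1) * (1 - 1) ^ (m + 1) - 0 ^ (k + 1) * (1 - 0) ^ (m + 1)) = 0 := by
      simp
    rw [h3] at h2
    have h4 := Nat.choose_succ_right_eq (k + m + 1) k
    have h5 : k + m + 1 - k = m + 1 := by omega
    rw [h5] at h4
    have h6 : ((k + m + 1).choose (k + 1) : ℝ) * (k + 1) = ((k + m + 1).choose k : ℝ) * (m + 1) := by
      exact_mod_cast h4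
    have h7 : ((k + m + 1).choose (k + 1) : ℝ) ≠ 0 := by
      have := Nat.choose_pos (show k + 1 ≤ k + m + 1 by omega)
      exact_mod_cast this.ne'
    have h8 : ((k + m + 1).choose k : ℝ) ≠ 0 := by
      have := Nat.choose_pos (show k ≤ k + m + 1 by omega)
      exact_mod_cast this.ne'
    have e1 : k + (m + 1) = k + m + 1 := by ring
    have e2 : k + 1 + m = k + m + 1 := by ring
    rw [e1] at h2
    rw [e2]
    have hm : (m + 1 : ℝ) ≠ 0 := by positivity
    have hk : (k + m + 2 : ℝ) ≠ 0 := by positivity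
    have h9 : ∫ t in (0 : ℝ)..1, t ^ (k + 1) * (1 - t) ^ m =
        (k + 1) / (m + 1) * (1 / ((k + (m + 1 : ℕ) + 1 : ℝ) * ((k + m + 1).choose k : ℝ))) := by
      field_simp
      field_simp at h2
      linarith
    rw [h9]
    push_cast
    have hk2 : (k + 1 + m + 1 : ℝ) ≠ 0 := by positivity
    have hk3 : (k + (m + 1) + 1 : ℝ) ≠ 0 := by positivity
    rw [div_mul_div_comm, div_eq_div_iff (by positivity) (by positivity)]
    linear_combination (k + m + 2 : ℝ) * h6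

private theorem root_sum {N : ℕ} (hN : 1 ≤ N) {ζ : ℂ} (hζ : IsPrimitiveRoot ζ N) {k l : ℕ}
    (hk : k < N) (hl : l < N) :
    ∑ s ∈ Finset.range N, (ζ ^ s) ^ k * ((ζ⁻¹) ^ s) ^ l = if k = l then (N : ℂ) else 0 := by
  have hz : ζ ≠ 0 := hζ.ne_zero (by omega)
  have h1 : ∀ s : ℕ, (ζ ^ s) ^ k * ((ζ⁻¹) ^ s) ^ l = (ζ ^ k * (ζ⁻¹) ^ l) ^ s := by
    intro s
    rw [mul_pow, ← pow_mul, ← pow_mul, ← pow_mul, ← pow_mul, mul_comm s k, mul_comm s l]
  simp only [h1]
  split_ifs with h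
  · subst h
    have : ζ ^ k * (ζ⁻¹) ^ k = 1 := by rw [← mul_pow, mul_inv_cancel₀ hz, one_pow]
    simp only [this, one_pow, Finset.sum_const, Finset.card_range, nsmul_eq_mul, mul_one]
  · have hne : ζ ^ k * (ζ⁻¹) ^ l ≠ 1 := by
      intro h2
      apply h
      apply hζ.pow_inj hk hl
      rw [inv_pow] at h2
      exact (mul_inv_eq_one₀ (pow_ne_zero _ hz)).1 h2
    rw [geom_sum_eq hne, mul_pow, ← pow_mul, ← pow_mul, mul_comm k N, mul_comm l N, pow_mul, pow_mul,
      inv_pow, hζ.pow_eq_one]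
    simp

private theorem avg_alg {d : ℕ} {ζ : ℂ} (hζ : IsPrimitiveRoot ζ (d + 1)) (x y x' y' : ℂ) :
    ∑ s ∈ Finset.range (d + 1), (x * ζ ^ s + y) ^ d * (x' * (ζ⁻¹) ^ s + y') ^ d =
      ((d + 1 : ℕ) : ℂ) * ∑ k ∈ Finset.range (d + 1), ((d.choose k : ℂ)) ^ 2 * (x * x') ^ k * (y * y') ^ (d - k) := by
  have h1 : ∀ s : ℕ, (x * ζ ^ s + y) ^ d * (x' * (ζ⁻¹) ^ s + y') ^ d =
      ∑ k ∈ Finset.range (d + 1), ∑ l ∈ Finset.range (d + 1),
        (x ^ k * y ^ (d - k) * (d.choose k : ℂ) * (x' ^ l * y' ^ (d - l) * (d.choose l : ℂ))) *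
          ((ζ ^ s) ^ k * ((ζ⁻¹) ^ s) ^ l) := by
    intro s
    rw [add_pow, add_pow, Finset.sum_mul_sum]
    refine Finset.sum_congr rfl fun k _ => Finset.sum_congr rfl fun l _ => ?_
    rw [mul_pow, mul_pow]
    ring
  simp only [h1]
  rw [Finset.sum_comm, Finset.mul_sum]
  refine Finset.sum_congr rfl fun k hk => ?_
  rw [Finset.sum_comm]
  have h2 : ∀ l ∈ Finset.range (d + 1), (∑ s ∈ Finset.range (d + 1),
      (x ^ k * y ^ (d - k) * (d.choose k : ℂ) * (x' ^ l * y' ^ (d - l) * (d.choose l : ℂ))) *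
          ((ζ ^ s) ^ k * ((ζ⁻¹) ^ s) ^ l)) = if k = l then
      (x ^ k * y ^ (d - k) * (d.choose k : ℂ) * (x' ^ l * y' ^ (d - l) * (d.choose l : ℂ))) *
        ((d + 1 : ℕ) : ℂ) else 0 := by
    intro l hl
    rw [← Finset.mul_sum, root_sum (by omega) hζ (Finset.mem_range.1 hk) (Finset.mem_range.1 hl)]
    split_ifs <;> simp
  rw [Finset.sum_congr rfl h2, Finset.sum_ite_eq, if_pos hk, mul_pow, mul_pow]
  ring

private theorem hh_sum {n : ℕ} (K : ℂ × ℂ → ℂ × ℂ → ℂ) (f : Fin n → ℂ × ℂ) (w : ℂ × ℂ) :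
    hh K f w = (∑ i, ∑ j, ((gram K f)⁻¹ i j) * (conj (K (f i) w) * K (f j) w)).re := by
  unfold hh
  congr 1
  simp only [dotProduct, Matrix.mulVec, Pi.star_apply, Complex.star_def, Finset.mul_sum]
  refine Finset.sum_congr rfl fun i _ => Finset.sum_congr rfl fun j _ => ?_
  ring

private theorem exists_small {d n : ℕ} (f : Fin n → ℂ × ℂ) (hdet : (gram (ks d) f).det ≠ 0) :
    ∃ v : ℂ × ℂ, Unit2 v ∧ hh (ks d) f v ≤ (n : ℝ) / ((d + 1 : ℕ) : ℝ) := by
  by_contra hcon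
  push Not at hcon
  set ζ : ℂ := Complex.exp (2 * Real.pi * Complex.I / ((d + 1 : ℕ) : ℂ)) with hζd
  have hζ : IsPrimitiveRoot ζ (d + 1) := Complex.isPrimitiveRoot_exp (d + 1) (by omega)
  have hz1 : ‖ζ‖ = 1 := hζ.norm'_eq_one (by omega)
  have hzc : conj ζ = ζ⁻¹ := by
    rw [Complex.inv_def, Complex.normSq_eq_norm_sq, hz1]
    simp
  have hzc2 : conj (ζ⁻¹) = ζ := by rw [← hzc, Complex.conj_conj]
  set H := (gram (ks d) f)⁻¹ with hH
  let v : ℕ → ℝ → ℂ × ℂ := fun s t => (((Real.sqrt t : ℝ) : ℂ) * ζ ^ s, ((Real.sqrt (1 - t) : ℝ) : ℂ))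
  have hv : ∀ s : ℕ, ∀ t ∈ Set.Icc (0 : ℝ) 1, Unit2 (v s t) := by
    intro s t ht
    simp only [Unit2, v, norm_mul, norm_pow, hz1, one_pow, mul_one, Complex.norm_real,
      Real.norm_eq_abs, sq_abs]
    rw [Real.sq_sqrt ht.1, Real.sq_sqrt (by linarith [ht.2])]
    ring
  -- the averages
  let c : ℕ → ℂ := fun k => ∑ i, ∑ j, H i j *
    ((conj (f i).1 * (f j).1) ^ k * (conj (f i).2 * (f j).2) ^ (d - k))
  let F : ℝ → ℝ := fun t => ∑ k ∈ Finset.range (d + 1),
    (((d + 1 : ℕ) : ℝ) * (d.choose k : ℝ) ^ 2 * (c k).re) * (t ^ k * (1 - t) ^ (d - k))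
  have hF : ∀ t ∈ Set.Icc (0 : ℝ) 1, ∑ s ∈ Finset.range (d + 1), hh (ks d) f (v s t) = F t := by
    intro t ht
    have hr : ((Real.sqrt t : ℝ) : ℂ) * ((Real.sqrt t : ℝ) : ℂ) = ((t : ℝ) : ℂ) := by
      rw [← Complex.ofReal_mul, Real.mul_self_sqrt ht.1]
    have hr2 : ((Real.sqrt (1 - t) : ℝ) : ℂ) * ((Real.sqrt (1 - t) : ℝ) : ℂ) = ((1 - t : ℝ) : ℂ) := by
      rw [← Complex.ofReal_mul, Real.mul_self_sqrt (by linarith [ht.2])]
    have h1 : ∀ i j : Fin n, ∑ s ∈ Finset.range (d + 1),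
        (conj (ks d (f i) (v s t)) * ks d (f j) (v s t)) =
        ((d + 1 : ℕ) : ℂ) * ∑ k ∈ Finset.range (d + 1), ((d.choose k : ℂ)) ^ 2 *
          ((conj (f i).1 * (f j).1) ^ k * (conj (f i).2 * (f j).2) ^ (d - k)) *
          (((t ^ k * (1 - t) ^ (d - k) : ℝ)) : ℂ) := by
      intro i j
      have h2 := avg_alg hζ (conj (f i).1 * ((Real.sqrt t : ℝ) : ℂ))
        (conj (f i).2 * ((Real.sqrt (1 - t) : ℝ) : ℂ)) ((f j).1 * ((Real.sqrt t : ℝ) : ℂ))
        ((f j).2 * ((Real.sqrt (1 - t) : ℝ) : ℂ))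
      have h3 : ∀ s ∈ Finset.range (d + 1), (conj (ks d (f i) (v s t)) * ks d (f j) (v s t)) =
          (conj (f i).1 * ((Real.sqrt t : ℝ) : ℂ) * ζ ^ s + conj (f i).2 * ((Real.sqrt (1 - t) : ℝ) : ℂ)) ^ d *
          ((f j).1 * ((Real.sqrt t : ℝ) : ℂ) * ζ⁻¹ ^ s + (f j).2 * ((Real.sqrt (1 - t) : ℝ) : ℂ)) ^ d := by
        intro s _
        simp only [ks, v, map_pow, map_add, map_mul, Complex.conj_ofReal, hzc, hzc2]
        congr 2 <;> ring
      rw [Finset.sum_congr rfl h3, h2]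
      congr 1
      refine Finset.sum_congr rfl fun k _ => ?_
      have e1 : conj (f i).1 * ((Real.sqrt t : ℝ) : ℂ) * ((f j).1 * ((Real.sqrt t : ℝ) : ℂ)) =
          (conj (f i).1 * (f j).1) * ((t : ℝ) : ℂ) := by
        rw [← hr]; ring
      have e2 : conj (f i).2 * ((Real.sqrt (1 - t) : ℝ) : ℂ) * ((f j).2 * ((Real.sqrt (1 - t) : ℝ) : ℂ)) =
          (conj (f i).2 * (f j).2) * ((1 - t : ℝ) : ℂ) := by
        rw [← hr2]; ring
      rw [e1, e2, mul_pow (conj (f i).1 * (f j).1) _ k, mul_pow (conj (f i).2 * (f j).2) _ (d - k)]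
      push_cast
      ring
    have h4 : ∑ s ∈ Finset.range (d + 1), hh (ks d) f (v s t) =
        (∑ k ∈ Finset.range (d + 1), (((d + 1 : ℕ) : ℂ) * (d.choose k : ℂ) ^ 2 * c k) *
          (((t ^ k * (1 - t) ^ (d - k) : ℝ)) : ℂ)).re := by
      simp only [hh_sum]
      rw [← Complex.re_sum]
      congr 1
      rw [Finset.sum_comm]
      have h5 : ∀ i ∈ (Finset.univ : Finset (Fin n)), (∑ s ∈ Finset.range (d + 1), ∑ j,
          H i j * (conj (ks d (f i) (v s t)) * ks d (f j) (v s t))) =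
          ∑ j, H i j * (((d + 1 : ℕ) : ℂ) * ∑ k ∈ Finset.range (d + 1), ((d.choose k : ℂ)) ^ 2 *
          ((conj (f i).1 * (f j).1) ^ k * (conj (f i).2 * (f j).2) ^ (d - k)) *
          (((t ^ k * (1 - t) ^ (d - k) : ℝ)) : ℂ)) := by
        intro i _
        rw [Finset.sum_comm]
        refine Finset.sum_congr rfl fun j _ => ?_
        rw [← Finset.mul_sum, h1]
      rw [Finset.sum_congr rfl h5]
      simp only [c, Finset.mul_sum, Finset.sum_mul]
      have h6 : ∀ i ∈ (Finset.univ : Finset (Fin n)), (∑ j, ∑ k ∈ Finset.range (d + 1),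
          H i j * (((d + 1 : ℕ) : ℂ) * (((d.choose k : ℂ)) ^ 2 *
          ((conj (f i).1 * (f j).1) ^ k * (conj (f i).2 * (f j).2) ^ (d - k)) *
          (((t ^ k * (1 - t) ^ (d - k) : ℝ)) : ℂ)))) = ∑ k ∈ Finset.range (d + 1), ∑ j,
          H i j * (((d + 1 : ℕ) : ℂ) * (((d.choose k : ℂ)) ^ 2 *
          ((conj (f i).1 * (f j).1) ^ k * (conj (f i).2 * (f j).2) ^ (d - k)) *
          (((t ^ k * (1 - t) ^ (d - k) : ℝ)) : ℂ))) := fun i _ => Finset.sum_comm
      rw [Finset.sum_congr rfl h6, Finset.sum_comm]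
      refine Finset.sum_congr rfl fun k _ => Finset.sum_congr rfl fun i _ =>
        Finset.sum_congr rfl fun j _ => ?_
      ring
    rw [h4, Complex.re_sum]
    refine Finset.sum_congr rfl fun k _ => ?_
    rw [Complex.re_mul_ofReal]
    congr 1
    have e3 : ((d + 1 : ℕ) : ℂ) * (d.choose k : ℂ) ^ 2 * c k =
        ((((d + 1 : ℕ) : ℝ) * (d.choose k : ℝ) ^ 2 : ℝ) : ℂ) * c k := by
      push_cast
      ring
    rw [e3, Complex.re_ofReal_mul]
  -- the integral
  have hint : ∫ t in (0 : ℝ)..1, F t = n := by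
    have hc : ∀ k ∈ Finset.range (d + 1), IntervalIntegrable (fun t : ℝ =>
        (((d + 1 : ℕ) : ℝ) * (d.choose k : ℝ) ^ 2 * (c k).re) * (t ^ k * (1 - t) ^ (d - k))) volume 0 1 := by
      intro k _
      exact (by fun_prop : Continuous (fun t : ℝ =>
        (((d + 1 : ℕ) : ℝ) * (d.choose k : ℝ) ^ 2 * (c k).re) * (t ^ k * (1 - t) ^ (d - k)))).intervalIntegrable _ _
    rw [intervalIntegral.integral_finsetSum hc]
    have h1 : ∀ k ∈ Finset.range (d + 1), (∫ t in (0 : ℝ)..1,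
        (((d + 1 : ℕ) : ℝ) * (d.choose k : ℝ) ^ 2 * (c k).re) * (t ^ k * (1 - t) ^ (d - k))) =
        ((d.choose k : ℂ) * c k).re := by
      intro k hk
      have hk' : k ≤ d := by
        have := Finset.mem_range.1 hk
        omega
      rw [intervalIntegral.integral_const_mul, beta_int]
      have e1 : k + (d - k) = d := by omega
      have e2 : ((k : ℝ) + ((d - k : ℕ) : ℝ) + 1) = ((d + 1 : ℕ) : ℝ) := by
        rw [Nat.cast_sub hk']
        push_cast
        ring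
      rw [e1, e2]
      have h7 : (d.choose k : ℝ) ≠ 0 := by
        have := Nat.choose_pos hk'
        exact_mod_cast this.ne'
      have h8 : ((d + 1 : ℕ) : ℝ) ≠ 0 := by positivity
      have e4 : ((d.choose k : ℂ) * c k).re = (d.choose k : ℝ) * (c k).re := by
        rw [← Complex.ofReal_natCast, Complex.re_ofReal_mul]
      rw [e4]
      field_simp
    rw [Finset.sum_congr rfl h1, ← Complex.re_sum]
    have h2 : ∑ k ∈ Finset.range (d + 1), ((d.choose k : ℂ) * c k) =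
        ∑ i, ∑ j, H i j * gram (ks d) f j i := by
      simp only [c, Finset.mul_sum]
      rw [Finset.sum_comm]
      refine Finset.sum_congr rfl fun i _ => ?_
      rw [Finset.sum_comm]
      refine Finset.sum_congr rfl fun j _ => ?_
      simp only [gram, ks, Matrix.of_apply]
      rw [add_pow, Finset.mul_sum]
      refine Finset.sum_congr rfl fun k _ => ?_
      rw [mul_comm (conj (f i).1), mul_comm (conj (f i).2)]
      ring
    have h3 : ∑ i, ∑ j, H i j * gram (ks d) f j i = (n : ℂ) := by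
      have h4 : (H * gram (ks d) f).trace = (n : ℂ) := by
        rw [hH, Matrix.nonsing_inv_mul _ (isUnit_iff_ne_zero.2 hdet), Matrix.trace_one]
        simp
      rw [← h4]
      simp [Matrix.trace, Matrix.mul_apply]
    rw [h2, h3, Complex.natCast_re]
  -- contradiction
  have hcont : Continuous F := by
    simp only [F]
    fun_prop
  have hpos : ∀ t ∈ Set.Ioo (0 : ℝ) 1, 0 < F t - n := by
    intro t ht
    have ht' : t ∈ Set.Icc (0 : ℝ) 1 := ⟨ht.1.le, ht.2.le⟩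
    rw [← hF t ht']
    have h1 : ∑ s ∈ Finset.range (d + 1), (n : ℝ) / ((d + 1 : ℕ) : ℝ) <
        ∑ s ∈ Finset.range (d + 1), hh (ks d) f (v s t) :=
      Finset.sum_lt_sum_of_nonempty ⟨0, by simp⟩ fun s _ => hcon _ (hv s t ht')
    have h2 : ∑ s ∈ Finset.range (d + 1), (n : ℝ) / ((d + 1 : ℕ) : ℝ) = n := by
      rw [Finset.sum_const, Finset.card_range, nsmul_eq_mul, mul_div_cancel₀]
      positivity
    linarith
  have hI : 0 < ∫ t in (0 : ℝ)..1, (F t - n) :=
    intervalIntegral.intervalIntegral_pos_of_pos_on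
      ((hcont.sub continuous_const).intervalIntegrable _ _) hpos zero_lt_one
  rw [intervalIntegral.integral_sub (hcont.intervalIntegrable _ _) (by simp), hint] at hI
  simp at hI

theorem add_sphere {N n : ℕ} (hN : 1 ≤ N) (f : Fin n → ℂ × ℂ) (hf : ∀ i, Unit2 (f i)) :
    ∃ v : ℂ × ℂ, Unit2 v ∧ (1 - (n : ℝ) / N) * gdet (ks (N - 1)) f
      ≤ gdet (ks (N - 1)) (Fin.snoc f v : Fin (n + 1) → ℂ × ℂ) := by
  have hs : ∀ x y, ks (N - 1) y x = conj (ks (N - 1) x y) := fun x y => ks_conj (N - 1) x y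
  have h0 : ∀ v : ℂ × ℂ, 0 ≤ gdet (ks (N - 1)) (Fin.snoc f v : Fin (n + 1) → ℂ × ℂ) :=
    fun v => det_re_nonneg (ks_psd (N - 1) _)
  by_cases hdet : (gram (ks (N - 1)) f).det = 0
  · refine ⟨(1, 0), by simp [Unit2], ?_⟩
    have : gdet (ks (N - 1)) f = 0 := by
      rw [gdet, hdet, Complex.zero_re]
    rw [this, mul_zero]
    exact h0 _
  · obtain ⟨v, hv, hle⟩ := exists_small (d := N - 1) f hdet
    refine ⟨v, hv, ?_⟩
    rw [gdet_snoc hs f v hdet (ks_self _ hv), mul_comm]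
    have h1 : 0 ≤ gdet (ks (N - 1)) f := det_re_nonneg (ks_psd (N - 1) f)
    have e1 : N - 1 + 1 = N := by omega
    rw [e1] at hle
    exact mul_le_mul_of_nonneg_left (by linarith) h1

/-- completing `n` points to `N` points costs at most a factor `N^(N-n)` -/
theorem complete_sphere {N : ℕ} (hN : 1 ≤ N) {ι : Type*} [Fintype ι] [DecidableEq ι]
    (f : ι → ℂ × ℂ) (hf : ∀ i, Unit2 (f i)) (hn : Fintype.card ι ≤ N) :
    ∃ g : Fin N → ℂ × ℂ, (∀ i, Unit2 (g i)) ∧
      gdet (ks (N - 1)) f ≤ (N : ℝ) ^ (N - Fintype.card ι) * gdet (ks (N - 1)) g := by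
  have key : ∀ m : ℕ, ∀ n : ℕ, n + m = N → ∀ f : Fin n → ℂ × ℂ, (∀ i, Unit2 (f i)) →
      ∃ g : Fin N → ℂ × ℂ, (∀ i, Unit2 (g i)) ∧
        gdet (ks (N - 1)) f ≤ (N : ℝ) ^ m * gdet (ks (N - 1)) g := by
    intro m
    induction m with
    | zero =>
      intro n hnm f hf
      have : n = N := by omega
      subst this
      exact ⟨f, hf, by simp⟩
    | succ m ih =>
      intro n hnm f hf
      obtain ⟨v, hv, hle⟩ := add_sphere hN f hf
      obtain ⟨g, hg, hle2⟩ := ih (n + 1) (by omega) (Fin.snoc f v : Fin (n + 1) → ℂ × ℂ) (by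
        intro i
        refine Fin.lastCases ?_ (fun j => ?_) i
        · rw [Fin.snoc_last]; exact hv
        · rw [Fin.snoc_castSucc]; exact hf j)
      refine ⟨g, hg, ?_⟩
      have hNpos : (0 : ℝ) < N := by exact_mod_cast (by omega : 0 < N)
      have h1 : 0 ≤ gdet (ks (N - 1)) f := det_re_nonneg (ks_psd (N - 1) f)
      have h2 : (1 : ℝ) / N ≤ 1 - (n : ℝ) / N := by
        have h3 : (n : ℝ) + 1 ≤ N := by exact_mod_cast (by omega : n + 1 ≤ N)
        rw [one_sub_div hNpos.ne']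
        exact div_le_div_of_nonneg_right (by linarith) hNpos.le
      have h4 : (1 : ℝ) / N * gdet (ks (N - 1)) f ≤ (N : ℝ) ^ m * gdet (ks (N - 1)) g :=
        (mul_le_mul_of_nonneg_right h2 h1).trans (hle.trans hle2)
      calc gdet (ks (N - 1)) f = N * ((1 : ℝ) / N * gdet (ks (N - 1)) f) := by
            field_simp
        _ ≤ N * ((N : ℝ) ^ m * gdet (ks (N - 1)) g) := mul_le_mul_of_nonneg_left h4 hNpos.le
        _ = (N : ℝ) ^ (m + 1) * gdet (ks (N - 1)) g := by ring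
  let e := Fintype.equivFin ι
  obtain ⟨g, hg, hle⟩ := key (N - Fintype.card ι) (Fintype.card ι) (by omega) (f ∘ e.symm)
    (fun i => hf _)
  refine ⟨g, hg, ?_⟩
  have h1 : gdet (ks (N - 1)) (f ∘ e.symm) = gdet (ks (N - 1)) f := by
    unfold gdet
    have h2 : gram (ks (N - 1)) (f ∘ e.symm) = (gram (ks (N - 1)) f).submatrix e.symm e.symm := rfl
    rw [h2, Matrix.det_submatrix_equiv_self]
  rw [← h1]
  exact hle

end Pool.Agent.LE60
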