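import Mathlib

/-!
# LE60/Att: the minimal logarithmic energy is attained
-/

set_option autoImplicit false

namespace Pool.Agent.LE60

open Set

/-- Euclidean three-space -/
abbrev E3' := EuclideanSpace ℝ (Fin 3)

/-- the product of all distances (ordered pairs) -/
noncomputable def prodDist {N : ℕ} (x : Fin N → E3') : ℝ :=
  ∏ i, ∏ j ∈ Finset.univ.erase i, ‖x i - x j‖

theorem continuous_prodDist (N : ℕ) : Continuous (prodDist (N := N)) := by
  unfold prodDist
  refine continuous_finsetProd _ fun i _ => continuous_finsetProd _ fun j _ => ?_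
  exact ((continuous_apply i).sub (continuous_apply j)).norm

theorem prodDist_pos_iff {N : ℕ} (x : Fin N → E3') : 0 < prodDist x ↔ Function.Injective x := by
  constructor
  · intro h i j hij
    by_contra hne
    have : prodDist x = 0 := by
      unfold prodDist
      refine Finset.prod_eq_zero (Finset.mem_univ i) ?_
      refine Finset.prod_eq_zero (i := j) (Finset.mem_erase.2 ⟨fun h => hne h.symm, Finset.mem_univ j⟩) ?_
      rw [hij, sub_self, norm_zero]
    rw [this] at h
    exact lt_irrefl _ h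
  · intro h
    unfold prodDist
    refine Finset.prod_pos fun i _ => Finset.prod_pos fun j hj => ?_
    rw [norm_pos_iff, sub_ne_zero]
    intro he
    exact (Finset.mem_erase.1 hj).1 (h he).symm

theorem energy_eq_log {N : ℕ} (x : Fin N → E3') (h : Function.Injective x) :
    ∑ i, ∑ j ∈ Finset.univ.erase i, Real.log (1 / ‖x i - x j‖) = - Real.log (prodDist x) := by
  unfold prodDist
  have hpos : ∀ i, ∀ j ∈ Finset.univ.erase i, ‖x i - x j‖ ≠ 0 := by
    intro i j hj
    rw [norm_ne_zero_iff, sub_ne_zero]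
    intro he
    exact (Finset.mem_erase.1 hj).1 (h he).symm
  rw [Real.log_prod fun i _ => Finset.prod_ne_zero_iff.2 (hpos i), ← Finset.sum_neg_distrib]
  refine Finset.sum_congr rfl fun i _ => ?_
  rw [Real.log_prod (hpos i), ← Finset.sum_neg_distrib]
  refine Finset.sum_congr rfl fun j _ => ?_
  rw [one_div, Real.log_inv]

theorem exists_inj (N : ℕ) : ∃ x : Fin N → E3', (∀ i, ‖x i‖ = 1) ∧ Function.Injective x := by
  let f : ℕ → E3' := fun n => !₂[Real.cos (1 / (n + 1)), Real.sin (1 / (n + 1)), 0]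
  refine ⟨fun i => f i, fun i => ?_, ?_⟩
  · rw [EuclideanSpace.norm_eq, Real.sqrt_eq_one]
    simp [f, Fin.sum_univ_three]
  · intro i j hij
    have h1 : Real.sin (1 / ((i : ℕ) + 1)) = Real.sin (1 / ((j : ℕ) + 1)) := by
      have := congrArg (fun v : E3' => v 1) hij
      simpa [f] using this
    have hb : ∀ n : ℕ, (1 / ((n : ℝ) + 1)) ∈ Icc (-(Real.pi / 2)) (Real.pi / 2) := by
      intro n
      have h2 : (0 : ℝ) < n + 1 := by positivity
      constructor
      · have : (0 : ℝ) ≤ 1 / ((n : ℝ) + 1) := by positivity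
        linarith [Real.pi_pos]
      · have : 1 / ((n : ℝ) + 1) ≤ 1 := by
          rw [div_le_one h2]
          have : (0 : ℝ) ≤ n := Nat.cast_nonneg n
          linarith
        linarith [Real.pi_gt_three]
    have h3 := Real.injOn_sin (hb i) (hb j) h1
    have h4 : (0 : ℝ) < (i : ℕ) + 1 := by positivity
    have h5 : (0 : ℝ) < (j : ℕ) + 1 := by positivity
    rw [div_eq_div_iff h4.ne' h5.ne'] at h3
    have h6 : ((i : ℕ) : ℝ) = (j : ℕ) := by linarith
    exact Fin.ext (by exact_mod_cast h6)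

theorem attained (N : ℕ) : ∃ x : Fin N → E3', (∀ i, ‖x i‖ = 1) ∧ Function.Injective x ∧
    ∀ y : Fin N → E3', (∀ i, ‖y i‖ = 1) → Function.Injective y →
      ∑ i, ∑ j ∈ Finset.univ.erase i, Real.log (1 / ‖x i - x j‖) ≤
        ∑ i, ∑ j ∈ Finset.univ.erase i, Real.log (1 / ‖y i - y j‖) := by
  have hK : IsCompact {x : Fin N → E3' | ∀ i, ‖x i‖ = 1} := by
    have h1 : {x : Fin N → E3' | ∀ i, ‖x i‖ = 1} =
        Set.pi Set.univ fun _ => Metric.sphere (0 : E3') 1 := by
      ext x; simp
    rw [h1]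
    exact isCompact_univ_pi fun _ => isCompact_sphere _ _
  obtain ⟨x₀, hx₀, hinj₀⟩ := exists_inj N
  obtain ⟨x, hx, hmax⟩ := hK.exists_isMaxOn ⟨x₀, hx₀⟩ (continuous_prodDist N).continuousOn
  have hpos : 0 < prodDist x := lt_of_lt_of_le ((prodDist_pos_iff x₀).2 hinj₀) (hmax hx₀)
  have hinj := (prodDist_pos_iff x).1 hpos
  refine ⟨x, hx, hinj, fun y hy hyi => ?_⟩
  rw [energy_eq_log x hinj, energy_eq_log y hyi, neg_le_neg_iff]
  exact Real.log_le_log ((prodDist_pos_iff y).2 hyi) (hmax hy)

end Pool.Agent.LE60
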