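import Pool.Agent.LE60.Defs

/-!
# LE60/Thick: convex sets, dilations, areas

PROOFS.
* `thick_out`: `L = 0` trivial. `w - o = (z - o) + (w - z)`. Divide by `1 + L/r`:
  `(w - o)/(1 + L/r) = (1/(1+L/r)) (z - o) + ((L/r)/(1+L/r)) ((r/L)(w - z))`, a convex combination of
  `z - o` and a vector of norm `≤ r`; so `o + (w - o)/(1+L/r) ∈ B`.
* `thick_in`: `z = o + (1 - L/r)(b - o)`, `b ∈ B`; `w = (1 - L/r) b + (L/r)(o + (r/L)(w - z))`, for `L > 0`;
  `o + (r/L)(w-z) ∈ closedBall o r ⊆ B`.
* `area_dil`: `Measure.addHaar_smul` / `addHaar_image_homothety` (`finrank ℝ ℂ = 2`), `t ^ 2 = |t ^ 2|`.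
* `Fat` facts: `B` closed and bounded is compact; areas of balls: `Complex.volume_closedBall`
  (`volume (closedBall a r) = .ofReal r ^ 2 * π`).
* `dil_tri`: an affine map sends the convex hull to the convex hull of the image.
-/

set_option autoImplicit false

namespace Pool.Agent.LE60

open MeasureTheory

theorem thick_out {B : Set ℂ} (hB : Convex ℝ B) {o : ℂ} {r L : ℝ} (hr : 0 < r) (hL : 0 ≤ L)
    (ho : Metric.closedBall o r ⊆ B) {z w : ℂ} (hz : z ∈ B) (hw : ‖w - z‖ ≤ L) :
    w ∈ dil o (1 + L / r) B := by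
  have ht : (0 : ℝ) < 1 + L / r := by positivity
  have htc : ((1 + L / r : ℝ) : ℂ) ≠ 0 := by exact_mod_cast ht.ne'
  have hrc : (r : ℂ) ≠ 0 := by exact_mod_cast hr.ne'
  refine ⟨o + ((1 + L / r : ℝ) : ℂ)⁻¹ * (w - o), ?_, ?_⟩
  · rcases hL.eq_or_lt with h0 | h0
    · rw [← h0] at hw ⊢
      have : w = z := by
        have := norm_le_zero_iff.1 hw
        exact sub_eq_zero.1 this
      rw [this]
      simpa using hz
    · have hLc : (L : ℂ) ≠ 0 := by exact_mod_cast h0.ne'
      have hy : o + ((r / L : ℝ) : ℂ) * (w - z) ∈ B := by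
        apply ho
        rw [Metric.mem_closedBall, dist_eq_norm, add_sub_cancel_left, norm_mul,
          Complex.norm_real, Real.norm_of_nonneg (by positivity)]
        calc r / L * ‖w - z‖ ≤ r / L * L := mul_le_mul_of_nonneg_left hw (by positivity)
          _ = r := by field_simp
      have hrL : (0 : ℝ) < r + L := by positivity
      have hrLc : ((r : ℂ) + (L : ℂ)) ≠ 0 := by exact_mod_cast hrL.ne'
      have h1 := hB hz hy (a := r / (r + L)) (b := L / (r + L)) (by positivity) (by positivity)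
        (by field_simp)
      convert h1 using 1
      rw [Complex.real_smul, Complex.real_smul]
      push_cast
      have h2 : (1 : ℂ) + L / r ≠ 0 := by
        have := htc
        push_cast at this
        exact this
      field_simp
      ring
  · change o + ((1 + L / r : ℝ) : ℂ) * (o + ((1 + L / r : ℝ) : ℂ)⁻¹ * (w - o) - o) = w
    rw [add_sub_cancel_left, mul_inv_cancel_left₀ htc, add_sub_cancel]

theorem thick_in {B : Set ℂ} (hB : Convex ℝ B) {o : ℂ} {r L : ℝ} (hr : 0 < r) (hL : 0 ≤ L)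
    (hLr : L ≤ r) (ho : Metric.closedBall o r ⊆ B) {z w : ℂ} (hz : z ∈ dil o (1 - L / r) B)
    (hw : ‖w - z‖ ≤ L) : w ∈ B := by
  have hrc : (r : ℂ) ≠ 0 := by exact_mod_cast hr.ne'
  obtain ⟨b, hb, rfl⟩ := hz
  rcases hL.eq_or_lt with h0 | h0
  · rw [← h0] at hw
    have : w = o + ((1 - 0 / r : ℝ) : ℂ) * (b - o) := sub_eq_zero.1 (norm_le_zero_iff.1 hw)
    rw [this]
    simpa using hb
  · have hLc : (L : ℂ) ≠ 0 := by exact_mod_cast h0.ne'
    have hy : o + ((r / L : ℝ) : ℂ) * (w - (o + ((1 - L / r : ℝ) : ℂ) * (b - o))) ∈ B := by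
      apply ho
      rw [Metric.mem_closedBall, dist_eq_norm, add_sub_cancel_left, norm_mul,
        Complex.norm_real, Real.norm_of_nonneg (by positivity)]
      calc r / L * ‖w - (o + ((1 - L / r : ℝ) : ℂ) * (b - o))‖ ≤ r / L * L :=
            mul_le_mul_of_nonneg_left hw (by positivity)
        _ = r := by field_simp
    have h1 := hB hb hy (a := 1 - L / r) (b := L / r)
      (by rw [sub_nonneg, div_le_one hr]; exact hLr) (by positivity) (by ring)
    convert h1 using 1
    rw [Complex.real_smul, Complex.real_smul]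
    push_cast
    field_simp
    ring

private theorem dil_eq (o : ℂ) (t : ℝ) (B : Set ℂ) : dil o t B = AffineMap.homothety o t '' B := by
  unfold dil
  refine Set.image_congr fun z _ => ?_
  rw [AffineMap.homothety_apply, vsub_eq_sub, vadd_eq_add, Complex.real_smul, add_comm]

theorem area_dil (o : ℂ) (t : ℝ) (B : Set ℂ) : area (dil o t B) = t ^ 2 * area B := by
  unfold area
  rw [dil_eq, Measure.addHaar_image_homothety, ENNReal.toReal_mul, Complex.finrank_real_complex,
    ENNReal.toReal_ofReal (abs_nonneg _), abs_of_nonneg (sq_nonneg t)]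

theorem measurable_dil (o : ℂ) (t : ℝ) {B : Set ℂ} (hB : IsCompact B) :
    MeasurableSet (dil o t B) ∧ volume (dil o t B) ≠ ⊤ := by
  have h : IsCompact (dil o t B) := by
    unfold dil
    exact hB.image (by fun_prop)
  exact ⟨h.measurableSet, h.measure_lt_top.ne⟩

theorem dil_subset {B : Set ℂ} (hB : Convex ℝ B) {o : ℂ} (ho : o ∈ B) {t : ℝ} (h0 : 0 ≤ t)
    (h1 : t ≤ 1) : dil o t B ⊆ B := by
  rintro _ ⟨b, hb, rfl⟩
  have h2 := hB ho hb (a := 1 - t) (b := t) (by linarith) h0 (by ring)
  convert h2 using 1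
  rw [Complex.real_smul, Complex.real_smul]
  push_cast
  ring

theorem dil_tri (o : ℂ) (t : ℝ) (p q r : ℂ) :
    dil o t (tri p q r) = tri (o + t * (p - o)) (o + t * (q - o)) (o + t * (r - o)) := by
  unfold tri
  rw [dil_eq, AffineMap.image_convexHull, Set.image_insert_eq, Set.image_insert_eq,
    Set.image_singleton]
  have e : ∀ z : ℂ, AffineMap.homothety o t z = o + t * (z - o) := by
    intro z
    rw [AffineMap.homothety_apply, vsub_eq_sub, vadd_eq_add, Complex.real_smul, add_comm]
  rw [e, e, e]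

theorem Fat.compact {s : ℝ} {B : Set ℂ} (h : Fat s B) : IsCompact B := by
  obtain ⟨o, -, h2⟩ := h.balls
  exact Metric.isCompact_of_isClosed_isBounded h.closed (Metric.isBounded_closedBall.subset h2)

private theorem area_ball (o : ℂ) {r : ℝ} (hr : 0 ≤ r) :
    (volume (Metric.closedBall o r)).toReal = Real.pi * r ^ 2 := by
  rw [Complex.volume_closedBall, ENNReal.toReal_mul, ENNReal.toReal_pow,
    ENNReal.toReal_ofReal hr, mul_comm]
  rfl

theorem Fat.area_le {s : ℝ} (hs : 0 ≤ s) {B : Set ℂ} (h : Fat s B) :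
    area B ≤ Real.pi * s ^ 2 := by
  obtain ⟨o, -, h2⟩ := h.balls
  rw [← area_ball o hs]
  exact ENNReal.toReal_mono (isCompact_closedBall o s).measure_lt_top.ne (measure_mono h2)

theorem Fat.le_area {s : ℝ} (hs : 0 ≤ s) {B : Set ℂ} (h : Fat s B) :
    Real.pi * (s / 100) ^ 2 ≤ area B := by
  obtain ⟨o, h1, -⟩ := h.balls
  rw [← area_ball o (by positivity)]
  exact ENNReal.toReal_mono h.compact.measure_lt_top.ne (measure_mono h1)

theorem Fat.vol_ne_top {s : ℝ} {B : Set ℂ} (h : Fat s B) : volume B ≠ ⊤ := by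
  exact h.compact.measure_lt_top.ne

theorem Fat.measurable {s : ℝ} {B : Set ℂ} (h : Fat s B) : MeasurableSet B := by
  exact h.closed.measurableSet

end Pool.Agent.LE60
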