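import Pool.Agent.LE60.Tile
import Pool.Agent.LE60.Thick

/-!
# LE60/CVg, covering: a fat set of size `S` is covered by few copies of a triangle of size `s`

PROOF. Take `(a, e, τ)` from `tiling` (the area of `T = tri p q r` is positive, `Fat.le_area`). Let `F` be the set of
indices `c` such that the fibre `τ⁻¹{c}` meets `B`. For `c ∈ F` the fibre is contained in
`B' = dil o (1 + 200 s/S) B` (`thick_out` with `r = S/100`, `L = 2 s`, as the tile has diameter `≤ 2 s`:
`T ⊆ closedBall o' s`). The fibres are disjoint, measurable, have area `area T`, so `F` is finite and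
`|F| area T ≤ area B' = (1 + 200 s/S)² area B ≤ area B + 600 (s/S) π S²` (`200 s ≤ S`). The fibres of `c ∈ F` cover
`B`: `area B ≤ |F| area T`. Let `K = |F|`, enumerate `F ≃ Fin K`; define the new `τ z` as the number of the old
index if it is in `F`, otherwise arbitrary (`F` is nonempty because `B` is).
-/

set_option autoImplicit false

namespace Pool.Agent.LE60

open MeasureTheory

theorem cover {s S : ℝ} (hs : 0 < s) (hS : 200 * s ≤ S) {p q r : ℂ} (hT : Fat s (tri p q r))
    {B : Set ℂ} (hB : Fat S B) :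
    ∃ (K : ℕ) (a e : Fin K → ℂ) (τ : ℂ → Fin K),
      (∀ c, e c = 1 ∨ e c = -1) ∧
      (∀ z ∈ B, ∃ x ∈ tri p q r, z = a (τ z) + e (τ z) * x) ∧
      area B ≤ K * area (tri p q r) ∧
      K * area (tri p q r) ≤ area B + 600 * Real.pi * (s * S) := by
  classical
  obtain ⟨o, ho1, ho2⟩ := hB.balls
  obtain ⟨o', ho1', ho2'⟩ := hT.balls
  have hS0 : 0 < S := by linarith
  have hpi := Real.pi_pos
  have hTa : 0 < area (tri p q r) := lt_of_lt_of_le (by positivity) (hT.le_area hs.le)
  obtain ⟨a, e, τ, he, hcov, hmeas, harea, -⟩ := tiling p q r hTa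
  have hvol : ∀ c, volume (τ ⁻¹' {c}) = ENNReal.ofReal (area (tri p q r)) := by
    intro c
    have h1 := harea c
    have htop : volume (τ ⁻¹' {c}) ≠ ⊤ := by
      intro htop
      have h2 : area (τ ⁻¹' {c}) = 0 := by
        unfold area
        rw [htop, ENNReal.toReal_top]
      linarith
    rw [← h1]
    unfold area
    rw [ENNReal.ofReal_toReal htop]
  have hsub : ∀ c, (∃ z ∈ B, τ z = c) → τ ⁻¹' {c} ⊆ dil o (1 + 200 * s / S) B := by
    rintro c ⟨z, hz, rfl⟩ w hw
    have hw' : τ w = τ z := hw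
    obtain ⟨x, hx, hzx⟩ := hcov z
    obtain ⟨x', hx', hwx⟩ := hcov w
    rw [hw'] at hwx
    have hn : ‖w - z‖ ≤ 2 * s := by
      have e1 : w - z = e (τ z) * (x' - x) := by
        rw [hzx, hwx]
        have : τ (a (τ z) + e (τ z) * x) = τ z := by rw [← hzx]
        rw [this]
        ring
      have e2 : ‖e (τ z)‖ = 1 := by
        rcases he (τ z) with h | h <;> rw [h] <;> simp
      rw [e1, norm_mul, e2, one_mul]
      have h1 := ho2' hx
      have h2 := ho2' hx'
      rw [Metric.mem_closedBall, dist_eq_norm] at h1 h2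
      have e3 : x' - x = (x' - o') - (x - o') := by ring
      rw [e3]
      exact le_trans (norm_sub_le _ _) (by linarith)
    have := thick_out hB.conv (show 0 < S / 100 by positivity) (show 0 ≤ 2 * s by positivity)
      ho1 hz hn
    have e4 : 1 + 2 * s / (S / 100) = 1 + 200 * s / S := by
      field_simp
      ring
    rw [e4] at this
    exact this
  have hcount : ∀ F0 : Finset (ℤ × ℤ × Bool), (∀ c ∈ F0, ∃ z ∈ B, τ z = c) →
      (F0.card : ℝ) * area (tri p q r) ≤ (1 + 200 * s / S) ^ 2 * area B := by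
    intro F0 hF0
    have h1 : volume (⋃ c ∈ F0, τ ⁻¹' {c}) = ∑ c ∈ F0, volume (τ ⁻¹' {c}) := by
      refine MeasureTheory.measure_biUnion_finset ?_ (fun c _ => hmeas c)
      intro c _ c' _ hne
      exact Set.disjoint_left.2 fun z hz hz' => hne (Eq.trans (Eq.symm hz) hz')
    have h2 : volume (⋃ c ∈ F0, τ ⁻¹' {c}) ≤ volume (dil o (1 + 200 * s / S) B) :=
      MeasureTheory.measure_mono (Set.iUnion₂_subset fun c hc => hsub c (hF0 c hc))
    have h3 := ENNReal.toReal_mono (measurable_dil o (1 + 200 * s / S) hB.compact).2 h2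
    rw [h1] at h3
    simp only [hvol, Finset.sum_const, nsmul_eq_mul] at h3
    rw [ENNReal.toReal_mul, ENNReal.toReal_natCast, ENNReal.toReal_ofReal hTa.le] at h3
    refine le_trans h3 (le_of_eq ?_)
    exact area_dil o (1 + 200 * s / S) B
  have hfin : {c | ∃ z ∈ B, τ z = c}.Finite := by
    by_contra hinf
    obtain ⟨n, hn⟩ := exists_nat_gt ((1 + 200 * s / S) ^ 2 * area B / area (tri p q r))
    obtain ⟨t, ht1, ht2⟩ := Set.Infinite.exists_subset_card_eq hinf n
    have h1 := hcount t (fun c hc => ht1 hc)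
    rw [ht2] at h1
    rw [div_lt_iff₀ hTa] at hn
    linarith
  have hmem : ∀ z ∈ B, τ z ∈ hfin.toFinset := fun z hz => by
    rw [Set.Finite.mem_toFinset]
    exact ⟨z, hz, rfl⟩
  have hoB : o ∈ B := ho1 (Metric.mem_closedBall_self (by positivity))
  refine ⟨hfin.toFinset.card, fun k => a (hfin.toFinset.equivFin.symm k).1,
    fun k => e (hfin.toFinset.equivFin.symm k).1,
    fun z => if h : τ z ∈ hfin.toFinset then hfin.toFinset.equivFin ⟨τ z, h⟩ else
      hfin.toFinset.equivFin ⟨τ o, hmem o hoB⟩, fun c => he _, ?_, ?_, ?_⟩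
  · intro z hz
    obtain ⟨x, hx, hzx⟩ := hcov z
    refine ⟨x, hx, ?_⟩
    simp only [dif_pos (hmem z hz), Equiv.symm_apply_apply]
    exact hzx
  · have h1 : B ⊆ ⋃ c ∈ hfin.toFinset, τ ⁻¹' {c} := by
      intro z hz
      exact Set.mem_iUnion₂.2 ⟨τ z, hmem z hz, rfl⟩
    have h2 : volume B ≤ ∑ c ∈ hfin.toFinset, volume (τ ⁻¹' {c}) :=
      le_trans (MeasureTheory.measure_mono h1) (MeasureTheory.measure_biUnion_finset_le _ _)
    simp only [hvol, Finset.sum_const, nsmul_eq_mul] at h2
    have h3 := ENNReal.toReal_mono (ENNReal.mul_ne_top (ENNReal.natCast_ne_top _)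
      ENNReal.ofReal_ne_top) h2
    rw [ENNReal.toReal_mul, ENNReal.toReal_natCast, ENNReal.toReal_ofReal hTa.le] at h3
    exact h3
  · have h1 := hcount hfin.toFinset (fun c hc => by
      rw [Set.Finite.mem_toFinset] at hc
      exact hc)
    refine le_trans h1 ?_
    have h2 := hB.area_le hS0.le
    have h3 : 0 ≤ area B := ENNReal.toReal_nonneg
    have hx0 : 0 ≤ 200 * s / S := by positivity
    have hx1 : 200 * s / S ≤ 1 := by
      rw [div_le_one hS0]
      exact hS
    have h4 : (1 + 200 * s / S) ^ 2 ≤ 1 + 3 * (200 * s / S) := by nlinarith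
    calc (1 + 200 * s / S) ^ 2 * area B ≤ (1 + 3 * (200 * s / S)) * area B :=
          mul_le_mul_of_nonneg_right h4 h3
      _ = area B + 3 * (200 * s / S) * area B := by ring
      _ ≤ area B + 3 * (200 * s / S) * (Real.pi * S ^ 2) := by
          have := mul_le_mul_of_nonneg_left h2 (show 0 ≤ 3 * (200 * s / S) by positivity)
          linarith
      _ = area B + 600 * Real.pi * (s * S) := by
          field_simp
          ring

end Pool.Agent.LE60
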