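import Pool.Agent.LE60.MatA

/-!
# LE60/MatF: Fischer's inequality

PROOFS.
* `fischer_sum`: `A` PSD on `ι ⊕ κ`. Put `A11 = A.toBlocks₁₁` etc. If `det A11 = 0` then `A` is not
  PosDef (a principal submatrix of a PosDef matrix is PosDef, `PosDef.submatrix` with injective
  `Sum.inl`), so `det A = 0` by `PosSemidef.posDef_iff_det_ne_zero`, and the right side is `≥ 0`.
  Otherwise `A11` is PosDef and `det A = det A11 * det (A22 - A21 A11⁻¹ A12)`
  (`Matrix.det_fromBlocks₁₁`), the Schur complement is PSD (`Matrix.PosSemidef.fromBlocks₁₁` /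
  `Matrix.PosDef.fromBlocks₁₁`), `A22 - (A22 - A21 A11⁻¹ A12) = A21 A11⁻¹ A12` is PSD
  (`A21 = A12ᴴ`), so `det_mono` gives the claim.
* `fischer`: induction on the finset `s`; statement for `s`: for every index type `ι'` with
  `c : ι' → κ` into `s`. Step: `insert k s`, `k ∉ s`: `ι ≃ {i // c i = k} ⊕ {i // c i ≠ k}`
  (`Equiv.sumCompl`), `Matrix.det_submatrix_equiv_self`, apply `fischer_sum` and the induction
  hypothesis to `{i // c i ≠ k}`. Empty `s`: `ι` is empty, `det = 1`.
* `fischer_gdet` is the case of Gram matrices.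
-/

set_option autoImplicit false

universe u

namespace Pool.Agent.LE60

open Matrix
open scoped ComplexOrder ComplexConjugate

theorem fischer_sum {ι κ : Type*} [Fintype ι] [DecidableEq ι] [Fintype κ] [DecidableEq κ]
    {A : Matrix (ι ⊕ κ) (ι ⊕ κ) ℂ} (hA : A.PosSemidef) :
    A.det.re ≤ (A.submatrix Sum.inl Sum.inl).det.re * (A.submatrix Sum.inr Sum.inr).det.re := by
  set A11 := A.submatrix Sum.inl Sum.inl with h11
  set A22 := A.submatrix Sum.inr Sum.inr with h22
  set A12 : Matrix ι κ ℂ := A.submatrix Sum.inl Sum.inr with h12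
  have hA11 : A11.PosSemidef := hA.submatrix _
  have hblk : A = Matrix.fromBlocks A11 A12 A12ᴴ A22 := by
    have h21 : A12ᴴ = A.submatrix Sum.inr Sum.inl := by
      ext i j
      exact congrFun (congrFun hA.1 (Sum.inr i)) (Sum.inl j)
    rw [h21]
    exact (Matrix.fromBlocks_toBlocks A).symm
  by_cases h0 : A11.det = 0
  · have hd : A.det = 0 := by
      by_contra hne
      have hPD : A.PosDef := hA.posDef_iff_det_ne_zero.2 hne
      have h11' : A11.PosDef := hPD.submatrix Sum.inl_injective
      exact (hA11.posDef_iff_det_ne_zero.1 h11') h0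
    rw [hd, h0]
    simp
  · have hPD : A11.PosDef := hA11.posDef_iff_det_ne_zero.2 h0
    haveI : Invertible A11 := A11.invertibleOfIsUnitDet (isUnit_iff_ne_zero.2 h0)
    have hS : (A22 - A12ᴴ * A11⁻¹ * A12).PosSemidef := by
      rw [← Matrix.PosDef.fromBlocks₁₁ A12 A22 hPD, ← hblk]
      exact hA
    have hQ : (A22 - (A22 - A12ᴴ * A11⁻¹ * A12)).PosSemidef := by
      rw [sub_sub_cancel]
      exact hPD.inv.posSemidef.conjTranspose_mul_mul_same A12
    have hdet : A.det = A11.det * (A22 - A12ᴴ * A11⁻¹ * A12).det := by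
      conv_lhs => rw [hblk]
      rw [Matrix.det_fromBlocks₁₁, Matrix.invOf_eq_nonsing_inv]
    have h1 := det_mono hS hQ
    have h2 : A.det.re = A11.det.re * (A22 - A12ᴴ * A11⁻¹ * A12).det.re := by
      rw [hdet, det_eq_re hA11.1, det_eq_re hS.1, ← Complex.ofReal_mul]
      simp only [Complex.ofReal_re]
    rw [h2]
    exact mul_le_mul_of_nonneg_left h1 (det_re_nonneg hA11)

private theorem fischer_aux {κ : Type*} [DecidableEq κ] (s : Finset κ) :
    ∀ (ι : Type u) [Fintype ι] [DecidableEq ι] (c : ι → κ) (_ : ∀ i, c i ∈ s)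
      (A : Matrix ι ι ℂ) (_ : A.PosSemidef),
      A.det.re ≤ ∏ k ∈ s, (A.submatrix (Subtype.val : {i // c i = k} → ι)
        (Subtype.val : {i // c i = k} → ι)).det.re := by
  induction s using Finset.induction_on with
  | empty =>
    intro ι _ _ c hc A hA
    haveI : IsEmpty ι := ⟨fun i => by simpa using hc i⟩
    rw [Matrix.det_isEmpty]
    simp
  | insert k s hk ih =>
    intro ι _ _ c hc A hA
    have h1 := fischer_sum (hA.submatrix (Equiv.sumCompl (fun i => c i = k)))
    rw [Matrix.det_submatrix_equiv_self, Matrix.submatrix_submatrix,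
      Matrix.submatrix_submatrix] at h1
    have e1 : (Equiv.sumCompl (fun i => c i = k)) ∘ Sum.inl =
        (Subtype.val : {i // c i = k} → ι) := rfl
    have e2 : (Equiv.sumCompl (fun i => c i = k)) ∘ Sum.inr =
        (Subtype.val : {i // ¬ c i = k} → ι) := rfl
    rw [e1, e2] at h1
    have h2 := ih {i // ¬ c i = k} (fun i => c i.1) (fun i => by
      have := hc i.1
      rw [Finset.mem_insert] at this
      exact this.resolve_left i.2) (A.submatrix Subtype.val Subtype.val) (hA.submatrix _)
    rw [Finset.prod_insert hk]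
    refine le_trans h1 (mul_le_mul_of_nonneg_left (le_trans h2 (le_of_eq ?_))
      (det_re_nonneg (hA.submatrix _)))
    refine Finset.prod_congr rfl fun k' hk' => ?_
    have hne : k' ≠ k := fun h => hk (h ▸ hk')
    let e : {i : {i // ¬ c i = k} // c i.1 = k'} ≃ {i // c i = k'} :=
      { toFun := fun x => ⟨x.1.1, x.2⟩
        invFun := fun y => ⟨⟨y.1, fun h => hne (y.2.symm.trans h)⟩, y.2⟩
        left_inv := fun x => rfl
        right_inv := fun y => rfl }
    have h3 := Matrix.det_submatrix_equiv_self e (A.submatrix (Subtype.val : {i // c i = k'} → ι)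
      (Subtype.val : {i // c i = k'} → ι))
    rw [← h3]
    rfl

theorem fischer {ι κ : Type*} [Fintype ι] [DecidableEq ι] [DecidableEq κ]
    (c : ι → κ) (s : Finset κ) (hc : ∀ i, c i ∈ s) {A : Matrix ι ι ℂ} (hA : A.PosSemidef) :
    A.det.re ≤ ∏ k ∈ s, (A.submatrix (Subtype.val : {i // c i = k} → ι)
      (Subtype.val : {i // c i = k} → ι)).det.re := by
  exact fischer_aux s ι c hc A hA

theorem fischer_gdet {X ι κ : Type*} [Fintype ι] [DecidableEq ι] [DecidableEq κ]
    (K : X → X → ℂ) (f : ι → X) (c : ι → κ) (s : Finset κ) (hc : ∀ i, c i ∈ s)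
    (hA : (gram K f).PosSemidef) :
    gdet K f ≤ ∏ k ∈ s, gdet K (fun i : {i // c i = k} => f i) := by
  exact fischer c s hc hA

end Pool.Agent.LE60
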