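import Pool.Agent.LE60.LB
import Pool.Agent.LE60.CVg
import Pool.Agent.LE60.MatF

/-!
# LE60/CV: energy of large regions from below

PROOF. `T = tri p q r`, `nT = nB T`, `Δ = dP T nT ∈ (0, 1]` (`dP_pos`, `nB_le`). `(K, a, e, τ)` from `cover`
(`S ≥ s² ≥ 200 s` for `s ≥ s₀`). Let `Z : Fin (nB B) → B`. Fischer (`fischer_gdet`, `kp_psd`) with the cell map
`i ↦ τ (Z i)`, `s = univ`: `gdet kp Z ≤ ∏_c gdet kp (Z | cell c)`. On the cell of `c`: `Z i = a c + e c x_i`, `x_i ∈ T`, so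
by `gdet_kp_mv` and `gdet_le_dP` the factor is `≤ dP T n_c ≤ Δ exp (4 log s (nT - n_c) + C₁ s er s)` (`lb`),
`n_c` the number of points of the cell, `∑ n_c = nB B`. So
`gdet kp Z ≤ Δ^K exp (4 log s (K nT - nB B) + K C₁ s er s)`; supremum over `Z`: the same bound for `dP B (nB B) > 0`.
Logarithms: `- en B ≤ - K en T + 4 log s (K nT - nB B) + K C₁ s er s`. Now
`K ≥ area B/area T` and `en T ≥ 0`; `K nT ≤ K area T/π ≤ area B/π + 600 s S ≤ nB B + 1 + 600 s S`;
`s S ≤ S²/s` (`S ≥ s²`), `1 ≤ S²/s`, `log s ≤ er s`; `K ≤ (area B + 600 π s S)/area T ≤ C S²/s²`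
(`Fat.area_le`, `Fat.le_area`), so `K C₁ s er s ≤ C' (S²/s) er s`.
-/

set_option autoImplicit false

namespace Pool.Agent.LE60

open Matrix
open scoped ComplexOrder ComplexConjugate

private theorem cv_sum_cells {N K : ℕ} (g : Fin N → Fin K) :
    ∑ c : Fin K, Fintype.card {i : Fin N // g i = c} = N := by
  classical
  rw [← Fintype.card_sigma]
  rw [Fintype.card_congr (Equiv.sigmaFiberEquiv g)]
  simp

private theorem cv_gdet {s A : ℝ} {T B : Set ℂ}
    (hlb : ∀ n : ℕ, dP T n ≤ dP T (nB T) * Real.exp (4 * Real.log s * ((nB T : ℝ) - n) + A))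
    {K : ℕ} {a e : Fin K → ℂ} {τ : ℂ → Fin K} (he : ∀ c, e c = 1 ∨ e c = -1)
    (hτ : ∀ z ∈ B, ∃ x ∈ T, z = a (τ z) + e (τ z) * x)
    {N : ℕ} (Z : Fin N → ℂ) (hZ : ∀ i, Z i ∈ B) :
    gdet kp Z ≤ dP T (nB T) ^ K *
      Real.exp (4 * Real.log s * ((K : ℝ) * nB T - N) + K * A) := by
  classical
  have hx : ∀ i, ∃ x ∈ T, Z i = a (τ (Z i)) + e (τ (Z i)) * x := fun i => hτ _ (hZ i)
  choose x hxT hxe using hx
  have h1 := fischer_gdet kp Z (fun i => τ (Z i)) Finset.univ (fun i => Finset.mem_univ _)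
    (kp_psd Z)
  have h2 : ∀ c : Fin K, gdet kp (fun i : {i // τ (Z i) = c} => Z i) ≤
      dP T (nB T) * Real.exp (4 * Real.log s * ((nB T : ℝ) -
        (Fintype.card {i // τ (Z i) = c} : ℕ)) + A) := by
    intro c
    have h3 : (fun i : {i // τ (Z i) = c} => Z i) =
        (fun i : {i // τ (Z i) = c} => a c + e c * x i) := by
      funext i
      have h4 := hxe i
      rw [i.2] at h4
      exact h4
    rw [h3]
    have h5 := gdet_kp_mv (a c) (e c) (he c) (fun i : {i // τ (Z i) = c} => x i)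
    rw [h5]
    exact (gdet_le_dP (fun i : {i // τ (Z i) = c} => x i) (fun i => hxT i)).trans (hlb _)
  have h0 : ∀ c : Fin K, 0 ≤ gdet kp (fun i : {i // τ (Z i) = c} => Z i) := fun c =>
    det_re_nonneg (kp_psd _)
  have h6 : ∏ c : Fin K, gdet kp (fun i : {i // τ (Z i) = c} => Z i) ≤
      ∏ c : Fin K, (dP T (nB T) * Real.exp (4 * Real.log s * ((nB T : ℝ) -
        (Fintype.card {i // τ (Z i) = c} : ℕ)) + A)) :=
    Finset.prod_le_prod (fun c _ => h0 c) (fun c _ => h2 c)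
  refine h1.trans (h6.trans (le_of_eq ?_))
  rw [Finset.prod_mul_distrib, Finset.prod_const, Finset.card_univ, Fintype.card_fin,
    ← Real.exp_sum]
  congr 2
  rw [Finset.sum_add_distrib, ← Finset.mul_sum, Finset.sum_sub_distrib]
  have h7 : ∑ c : Fin K, ((Fintype.card {i // τ (Z i) = c} : ℕ) : ℝ) = (N : ℝ) := by
    rw [← Nat.cast_sum, cv_sum_cells (fun i => τ (Z i))]
  rw [h7]
  simp

theorem cv : ∃ C s₀ : ℝ, 0 ≤ C ∧ 3 ≤ s₀ ∧ ∀ s : ℝ, s₀ ≤ s → ∀ S : ℝ, s ^ 2 ≤ S →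
    ∀ p q r : ℂ, Fat s (tri p q r) → ∀ B : Set ℂ, Fat S B →
    area B / area (tri p q r) * en (tri p q r) - C * (S ^ 2 / s * er s) ≤ en B := by
  obtain ⟨C₁, s₁, hC₁, hs₁, hlb⟩ := lb
  refine ⟨2404 + 6010000 * C₁, max s₁ 200, by positivity, le_trans hs₁ (le_max_left _ _), ?_⟩
  intro s hs S hS p q r hT B hB
  have hss₁ : s₁ ≤ s := le_trans (le_max_left _ _) hs
  have hs200 : (200 : ℝ) ≤ s := le_trans (le_max_right _ _) hs
  have hs0 : (0 : ℝ) < s := by linarith
  have hS200 : 200 * s ≤ S := by nlinarith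
  have hS0 : (0 : ℝ) < S := by nlinarith
  have hsS : s ≤ S := by nlinarith
  set T := tri p q r with hTdef
  have hareaT : 0 < area T := by
    have h := Fat.le_area hs0.le hT
    have h2 : 0 < Real.pi * (s / 100) ^ 2 := by positivity
    linarith
  have hareaB : 0 < area B := by
    have h := Fat.le_area hS0.le hB
    have h2 : 0 < Real.pi * (S / 100) ^ 2 := by positivity
    linarith
  have hΔ : 0 < dP T (nB T) := dP_pos (Fat.measurable hT) hareaT _ nB_le
  have hΔ1 : dP T (nB T) ≤ 1 := dP_le_one _ _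
  have hDB : 0 < dP B (nB B) := dP_pos (Fat.measurable hB) hareaB _ nB_le
  have hlog1 : 1 ≤ Real.log s := by
    rw [Real.le_log_iff_exp_le hs0]
    have := Real.exp_one_lt_d9
    linarith
  have her : Real.log s ≤ er s := by
    unfold er
    have h : 1 ≤ Real.sqrt (Real.log s) := by
      rw [show (1 : ℝ) = Real.sqrt 1 by simp]
      exact Real.sqrt_le_sqrt hlog1
    nlinarith
  have her0 : 0 ≤ er s := by linarith
  obtain ⟨K, a, e, τ, he, hτ, hK1, hK2⟩ := cover hs0 hS200 hT hB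
  have hlb' : ∀ n : ℕ, dP T n ≤ dP T (nB T) *
      Real.exp (4 * Real.log s * ((nB T : ℝ) - n) + C₁ * (s * er s)) := hlb s hss₁ T hT
  have hsup : dP B (nB B) ≤ dP T (nB T) ^ K *
      Real.exp (4 * Real.log s * ((K : ℝ) * nB T - nB B) + K * (C₁ * (s * er s))) := by
    conv_lhs => unfold dP
    refine Real.sSup_le ?_ (by positivity)
    rintro _ ⟨Z, hZ, rfl⟩
    exact cv_gdet hlb' he hτ Z hZ
  have hlogs := Real.log_le_log hDB hsup
  rw [Real.log_mul (by positivity) (by positivity), Real.log_exp, Real.log_pow] at hlogs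
  have henT : 0 ≤ en T := by
    unfold en
    have := Real.log_nonpos hΔ.le hΔ1
    linarith
  have h1 : (K : ℝ) * en T - 4 * Real.log s * ((K : ℝ) * nB T - nB B)
      - K * (C₁ * (s * er s)) ≤ en B := by
    have e1 : en T = - Real.log (dP T (nB T)) := rfl
    have e2 : en B = - Real.log (dP B (nB B)) := rfl
    rw [e1, e2]
    linarith
  have h2 : area B / area T * en T ≤ (K : ℝ) * en T := by
    apply mul_le_mul_of_nonneg_right _ henT
    rw [div_le_iff₀ hareaT]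
    exact hK1
  have hπ := Real.pi_pos
  have h3 : (K : ℝ) * nB T - nB B ≤ 1 + 600 * (s * S) := by
    have h4 : Real.pi * nB T ≤ area T := nB_le
    have h5 : area B < Real.pi * (nB B + 1) := lt_nB
    have h6 : (K : ℝ) * (Real.pi * nB T) ≤ K * area T :=
      mul_le_mul_of_nonneg_left h4 (Nat.cast_nonneg K)
    have h7 : Real.pi * ((K : ℝ) * nB T - nB B) ≤ Real.pi * (1 + 600 * (s * S)) := by
      nlinarith
    exact le_of_mul_le_mul_left h7 hπ
  have hsS2 : s * S ≤ S ^ 2 / s := by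
    rw [le_div_iff₀ hs0]
    nlinarith
  have hone : 1 ≤ s * S := by nlinarith
  have hQ0 : 0 ≤ S ^ 2 / s := by positivity
  have h4 : 4 * Real.log s * ((K : ℝ) * nB T - nB B) ≤ 2404 * (S ^ 2 / s * er s) := by
    have h5 : 4 * Real.log s * ((K : ℝ) * nB T - nB B) ≤
        4 * Real.log s * (1 + 600 * (s * S)) :=
      mul_le_mul_of_nonneg_left h3 (by linarith)
    have h6 : 4 * Real.log s * (1 + 600 * (s * S)) ≤ 4 * Real.log s * (601 * (S ^ 2 / s)) :=
      mul_le_mul_of_nonneg_left (by linarith) (by linarith)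
    have h7 : 4 * Real.log s * (601 * (S ^ 2 / s)) ≤ 4 * er s * (601 * (S ^ 2 / s)) :=
      mul_le_mul_of_nonneg_right (by linarith) (by positivity)
    nlinarith
  have hKle : (K : ℝ) ≤ 6010000 * (S ^ 2 / s ^ 2) := by
    have h5 : Real.pi * (s / 100) ^ 2 ≤ area T := Fat.le_area hs0.le hT
    have h6 : area B ≤ Real.pi * S ^ 2 := Fat.area_le hS0.le hB
    have h7 : (K : ℝ) * (Real.pi * (s / 100) ^ 2) ≤ K * area T :=
      mul_le_mul_of_nonneg_left h5 (Nat.cast_nonneg K)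
    have h8 : s * S ≤ S ^ 2 := by nlinarith
    have h9 : (K : ℝ) * (Real.pi * (s / 100) ^ 2) ≤ 601 * (Real.pi * S ^ 2) := by
      have : Real.pi * (s * S) ≤ Real.pi * S ^ 2 := mul_le_mul_of_nonneg_left h8 hπ.le
      nlinarith
    have h10 : Real.pi * ((K : ℝ) * s ^ 2) ≤ Real.pi * (6010000 * S ^ 2) := by
      nlinarith
    have h11 := le_of_mul_le_mul_left h10 hπ
    rw [← mul_div_assoc, le_div_iff₀ (by positivity)]
    exact h11
  have h5 : (K : ℝ) * (C₁ * (s * er s)) ≤ 6010000 * C₁ * (S ^ 2 / s * er s) := by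
    have h6 : (K : ℝ) * (C₁ * (s * er s)) ≤
        6010000 * (S ^ 2 / s ^ 2) * (C₁ * (s * er s)) :=
      mul_le_mul_of_nonneg_right hKle (by positivity)
    have h7 : 6010000 * (S ^ 2 / s ^ 2) * (C₁ * (s * er s)) =
        6010000 * C₁ * (S ^ 2 / s * er s) := by
      field_simp
    linarith
  have h6 : (2404 + 6010000 * C₁) * (S ^ 2 / s * er s) =
      2404 * (S ^ 2 / s * er s) + 6010000 * C₁ * (S ^ 2 / s * er s) := by ring
  rw [h6]
  linarith

end Pool.Agent.LE60
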