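import Pool.Agent.LE60.Cen

/-!
# LE60/CelD: separation of the cells

PROOF. `x, x'` unit vectors; `x` has positive height over the centre of `c` and its gnomonic coordinate
`g = ell p x/hgt p x` lies in `(1-η) TT c`; `x'` lies in the cone of `c'`. Claim: `‖x - x'‖ ≥ η/(144 m)`.
Suppose not. `r = 1/(24 m)`; `closedBall 0 r ⊆ TT c` (`Cen.ball_in`) and convexity give `closedBall g (η r) ⊆ TT c`
(`g = (1-η) g₁`; `g + v = (1-η) g₁ + η (v/η)`). `‖g‖ ≤ 2/m ≤ 1/20`, `‖x‖ = 1`, `‖ell‖² + hgt² = 1` give `hgt p x = 1/√(1+‖g‖²) ≥ 9/10`, and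
`|hgt p x - hgt p x'| ≤ ‖x - x'‖ ≤ 1/10` so `hgt p x' ≥ 1/2`.
`g' = ell p x'/hgt p x'`; `g - g' = (ell x - ell x')/hgt x + ell x' (1/hgt x - 1/hgt x')`, with `‖ell (x - x')‖ ≤ ‖x - x'‖`, `‖ell x'‖ ≤ 1`,
`|hgt x - hgt x'| ≤ ‖x - x'‖`: `‖g - g'‖ ≤ 2 ‖x-x'‖ + 4 ‖x - x'‖ = 6 ‖x - x'‖ < η r`. So a small ball around `g'` lies in `TT c`:
`Cen.open_cone`: `x'` is a strictly positive combination of the `X c k`; as it is also in the cone of `c'`, `hdis` gives `c = c'`.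
-/

set_option autoImplicit false

namespace Pool.Agent.LE60

private theorem cd_ell_sub (p : ℂ × ℂ) (x y : E3) : ell p (x - y) = ell p x - ell p y := by
  unfold ell
  simp only [PiLp.sub_apply, Complex.ofReal_sub]
  ring

private theorem cd_hgt_sub (p : ℂ × ℂ) (x y : E3) : hgt p (x - y) = hgt p x - hgt p y := by
  unfold hgt
  rw [← Finset.sum_sub_distrib]
  refine Finset.sum_congr rfl fun k _ => ?_
  simp only [PiLp.sub_apply]
  ring

private theorem cd_ell_le {p : ℂ × ℂ} (hp : Unit2 p) (x : E3) : ‖ell p x‖ ≤ ‖x‖ := by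
  have h := ell_hgt_norm hp x
  have h2 : ‖ell p x‖ ^ 2 ≤ ‖x‖ ^ 2 := by nlinarith [sq_nonneg (hgt p x)]
  exact le_of_sq_le_sq h2 (norm_nonneg _)

private theorem cd_hgt_le {p : ℂ × ℂ} (hp : Unit2 p) (x : E3) : |hgt p x| ≤ ‖x‖ := by
  have h := ell_hgt_norm hp x
  have h2 : |hgt p x| ^ 2 ≤ ‖x‖ ^ 2 := by
    rw [sq_abs]
    nlinarith [sq_nonneg ‖ell p x‖]
  exact le_of_sq_le_sq h2 (norm_nonneg _)

theorem cell_sep {m : ℕ} (hm : 40 ≤ m) {K : ℕ} {X : Fin K → Fin 3 → E3} {p : Fin K → ℂ × ℂ}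
    (hc : ∀ c, Cen m (p c) (X c))
    (hdis : ∀ c c' (t t' : Fin 3 → ℝ), (∀ k, 0 < t k) → (∀ k, 0 ≤ t' k) →
      ∑ k, t k • X c k = ∑ k, t' k • X c' k → c = c')
    {c c' : Fin K} (hcc : c ≠ c') {η : ℝ} (hη : 0 < η) (hη1 : η ≤ 1) {x x' : E3} {g₁ : ℂ}
    (hx : ‖x‖ = 1) (hx' : ‖x'‖ = 1) (hpos : 0 < hgt (p c) x) (hg₁ : g₁ ∈ TT (p c) (X c))
    (hg : ell (p c) x / (hgt (p c) x : ℂ) = ((1 - η : ℝ) : ℂ) * g₁)
    (hx'c : ∃ t : Fin 3 → ℝ, (∀ k, 0 ≤ t k) ∧ x' = ∑ k, t k • X c' k) :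
    η / (144 * m) ≤ ‖x - x'‖ := by
  by_contra hcon
  push Not at hcon
  have hm' : (40 : ℝ) ≤ m := by exact_mod_cast hm
  have hm0 : (0 : ℝ) < m := by linarith
  have hp := (hc c).unit
  obtain ⟨D, hD⟩ : ∃ D, D = ‖x - x'‖ := ⟨_, rfl⟩
  rw [← hD] at hcon
  have hD0 : 0 ≤ D := by rw [hD]; exact norm_nonneg _
  obtain ⟨r, hr⟩ : ∃ r : ℝ, r = 1 / (24 * m) := ⟨_, rfl⟩
  have hr0 : 0 < r := by rw [hr]; positivity
  have hDr : 6 * D < η * r := by
    have e : η / (144 * m) = η * r / 6 := by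
      rw [hr]
      field_simp
      norm_num
    rw [e] at hcon
    linarith
  have hr1 : r ≤ 1 / 960 := by
    rw [hr]
    exact one_div_le_one_div_of_le (by norm_num) (by linarith)
  have hD1 : D ≤ 1 / 10 := by nlinarith
  have hball : Metric.closedBall 0 r ⊆ TT (p c) (X c) := by
    rw [hr]
    exact (hc c).ball_in hm
  have hconv : Convex ℝ (TT (p c) (X c)) := by
    unfold TT tri
    exact convex_convexHull ℝ _
  obtain ⟨g, hgd⟩ : ∃ g : ℂ, g = ((1 - η : ℝ) : ℂ) * g₁ := ⟨_, rfl⟩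
  have hg' : ell (p c) x / (hgt (p c) x : ℂ) = g := by rw [hgd]; exact hg
  have hηc : ((η : ℝ) : ℂ) ≠ 0 := by exact_mod_cast hη.ne'
  have hbig : Metric.closedBall g (η * r) ⊆ TT (p c) (X c) := by
    intro v hv
    rw [Metric.mem_closedBall, dist_eq_norm] at hv
    have h1 : (v - g) / (η : ℂ) ∈ TT (p c) (X c) := by
      apply hball
      rw [mem_closedBall_zero_iff, norm_div, Complex.norm_real, Real.norm_eq_abs, abs_of_pos hη,
        div_le_iff₀ hη]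
      linarith
    have h2 := hconv hg₁ h1 (a := 1 - η) (b := η) (by linarith) hη.le (by ring)
    have h3 : (1 - η) • g₁ + η • ((v - g) / (η : ℂ)) = v := by
      rw [Complex.real_smul, Complex.real_smul, mul_div_cancel₀ _ hηc, hgd]
      ring
    rwa [h3] at h2
  have hgn : ‖g‖ ≤ 1 / 20 := by
    have h1 := (hc c).ball_out hm hg₁
    rw [mem_closedBall_zero_iff] at h1
    have h2 : (2 : ℝ) / m ≤ 1 / 20 := by
      rw [div_le_div_iff₀ hm0 (by norm_num)]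
      linarith
    rw [hgd, norm_mul, Complex.norm_real, Real.norm_eq_abs, abs_of_nonneg (by linarith)]
    have h3 : (1 - η) * ‖g₁‖ ≤ 1 * ‖g₁‖ :=
      mul_le_mul_of_nonneg_right (by linarith) (norm_nonneg _)
    linarith
  have hxc : ((hgt (p c) x : ℝ) : ℂ) ≠ 0 := by exact_mod_cast hpos.ne'
  have hellx : ‖ell (p c) x‖ = ‖g‖ * hgt (p c) x := by
    have h1 : ell (p c) x = g * (hgt (p c) x : ℂ) := by
      rw [← hg', div_mul_cancel₀ _ hxc]
    rw [h1, norm_mul, Complex.norm_real, Real.norm_eq_abs, abs_of_pos hpos]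
  have hH : 9 / 10 ≤ hgt (p c) x := by
    have h1 := ell_hgt_norm hp x
    rw [hx, hellx] at h1
    have h2 : ‖g‖ ^ 2 ≤ (1 / 20) ^ 2 := pow_le_pow_left₀ (norm_nonneg _) hgn 2
    by_contra h3
    push Not at h3
    have h4 : hgt (p c) x ^ 2 < (9 / 10) ^ 2 := pow_lt_pow_left₀ h3 hpos.le (by norm_num)
    have h5 : (‖g‖ * hgt (p c) x) ^ 2 ≤ (1 / 20) ^ 2 * (9 / 10) ^ 2 := by
      rw [mul_pow]
      exact mul_le_mul h2 h4.le (sq_nonneg _) (by norm_num)
    nlinarith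
  have hdh : |hgt (p c) x - hgt (p c) x'| ≤ D := by
    rw [← cd_hgt_sub, hD]
    exact cd_hgt_le hp _
  have hde : ‖ell (p c) x - ell (p c) x'‖ ≤ D := by
    rw [← cd_ell_sub, hD]
    exact cd_ell_le hp _
  have hH' : 1 / 2 ≤ hgt (p c) x' := by
    have := (abs_le.1 hdh).2
    linarith
  have hpos' : 0 < hgt (p c) x' := by linarith
  have hxc' : ((hgt (p c) x' : ℝ) : ℂ) ≠ 0 := by exact_mod_cast hpos'.ne'
  have he' : ‖ell (p c) x'‖ ≤ 1 := by
    have := cd_ell_le hp x'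
    rwa [hx'] at this
  have hgg : ‖ell (p c) x' / (hgt (p c) x' : ℂ) - g‖ ≤ 6 * D := by
    have e : ell (p c) x' / (hgt (p c) x' : ℂ) - g =
        -((ell (p c) x - ell (p c) x') / (hgt (p c) x : ℂ)) +
        ell (p c) x' * (((hgt (p c) x - hgt (p c) x' : ℝ) : ℂ) /
          ((hgt (p c) x : ℂ) * (hgt (p c) x' : ℂ))) := by
      rw [← hg']
      push_cast
      field_simp
      ring
    rw [e]
    refine (norm_add_le _ _).trans ?_
    rw [norm_neg, norm_div, norm_mul, norm_div, norm_mul, Complex.norm_real, Complex.norm_real,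
      Complex.norm_real, Real.norm_eq_abs, Real.norm_eq_abs, Real.norm_eq_abs, abs_of_pos hpos,
      abs_of_pos hpos']
    have h1 : ‖ell (p c) x - ell (p c) x'‖ / hgt (p c) x ≤ 2 * D := by
      rw [div_le_iff₀ hpos]
      nlinarith
    have h2 : |hgt (p c) x - hgt (p c) x'| / (hgt (p c) x * hgt (p c) x') ≤ 4 * D := by
      rw [div_le_iff₀ (by positivity)]
      have h3 : 1 / 4 ≤ hgt (p c) x * hgt (p c) x' := by nlinarith
      nlinarith
    have h4 : ‖ell (p c) x'‖ * (|hgt (p c) x - hgt (p c) x'| / (hgt (p c) x * hgt (p c) x')) ≤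
        1 * (4 * D) := mul_le_mul he' h2 (by positivity) zero_le_one
    linarith
  obtain ⟨t, ht, hxt⟩ := (hc c).open_cone hm hpos' (δ := η * r - 6 * D) (by linarith) (by
    intro v hv
    apply hbig
    rw [Metric.mem_ball, dist_eq_norm] at hv
    rw [Metric.mem_closedBall, dist_eq_norm]
    have h1 : v - g = (v - ell (p c) x' / (hgt (p c) x' : ℂ)) +
        (ell (p c) x' / (hgt (p c) x' : ℂ) - g) := by ring
    rw [h1]
    refine (norm_add_le _ _).trans ?_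
    linarith)
  obtain ⟨t', ht', hxt'⟩ := hx'c
  exact hcc (hdis c c' t t' ht ht' (hxt.symm.trans hxt'))

end Pool.Agent.LE60
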