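import Pool.Agent.LE60.Cen

/-!
# LE60/CelS: the areas of the planar triangles add up to `4π` up to a factor `1 + 28/m²`

PROOF. `(K, X)` as in `oct`, `p c` centres. `Y c k = (1/hgt_k) • X c k` (`hgt_k = hgt (p c) (X c k)`): `|det3 (Y c)| = (1/m²)/∏ hgt_k
= 2 area (TT c)` (`Cen.area_eq`, `Trip.det`), so by `vol_tet` the closed and the open tetrahedron of `Y c` have volume `area (TT c)/3`.
LOWER BOUND: the unit ball is covered by the `tet (Y c)`: `x = ∑ t_k X_k` with `t_k ≥ 0`, `∑ t_k hgt_k = hgt x ≤ ‖x‖ ≤ 1`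
(`ell_hgt_norm`), `x = ∑ (t_k hgt_k) Y_k`. So `4π/3 ≤ ∑ area (TT c)/3`.
UPPER BOUND: `h₀ = 1/√(1 + 4/m²)`. The sets `otet (h₀ • Y c)` (volume `h₀³ area/3`) are contained in the unit ball: for
`x = ∑ t_k h₀ Y_k`, `‖x‖ ≤ h₀ max ‖Y_k‖`, `‖Y_k‖² = ‖X_k‖²/hgt_k² = 1 + ‖PP k‖² ≤ 1 + 4/m²`. They are pairwise disjoint by the last
property of `oct` (a point of the open tetrahedron of `c` is a strictly positive combination of the `X c k`). So
`∑ h₀³ area (TT c)/3 ≤ 4π/3`, and `h₀^{-3} = (1+4/m²)^{3/2} ≤ 1 + 28/m²` (`(1+x)^{3/2} ≤ (1+x)² ≤ 1 + 3x` for `0 ≤ x ≤ 1`).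
-/

set_option autoImplicit false

namespace Pool.Agent.LE60

open MeasureTheory

private theorem det3_smul (Y : Fin 3 → E3) (v : Fin 3 → ℝ) :
    det3 (fun k => v k • Y k) = (∏ k, v k) * det3 Y := by
  unfold det3
  rw [← Matrix.det_mul_column]
  rfl

private noncomputable def YY (p : ℂ × ℂ) (X : Fin 3 → E3) (k : Fin 3) : E3 :=
  (1 / hgt p (X k)) • X k

private theorem det_YY {m : ℕ} (hm : 40 ≤ m) {p : ℂ × ℂ} {X : Fin 3 → E3} (h : Cen m p X) :
    |det3 (YY p X)| = 2 * area (TT p X) := by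
  have h1 : det3 (YY p X) = (∏ k, (1 / hgt p (X k))) * det3 X := det3_smul X _
  have hpos : ∀ k, 0 < hgt p (X k) := fun k => lt_of_lt_of_le (by norm_num) (h.lo k)
  have hP : 0 < ∏ k, hgt p (X k) := Finset.prod_pos fun k _ => hpos k
  have hm0 : (0 : ℝ) < m := by
    have : (40 : ℝ) ≤ m := by exact_mod_cast hm
    linarith
  rw [h1, abs_mul, h.trip.det, Cen.area_eq hm h, Finset.prod_div_distrib, Finset.prod_const_one,
    abs_of_pos (by positivity)]
  field_simp

private theorem norm_YY {m : ℕ} (hm : 40 ≤ m) {p : ℂ × ℂ} {X : Fin 3 → E3} (h : Cen m p X)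
    (k : Fin 3) : ‖YY p X k‖ ≤ Real.sqrt (1 + 4 / (m : ℝ) ^ 2) := by
  have hpos : 0 < hgt p (X k) := lt_of_lt_of_le (by norm_num) (h.lo k)
  have hm0 : (0 : ℝ) < m := by
    have : (40 : ℝ) ≤ m := by exact_mod_cast hm
    linarith
  refine Real.le_sqrt_of_sq_le ?_
  have h1 : ‖YY p X k‖ ^ 2 = 1 + ‖PP p X k‖ ^ 2 := by
    have e1 : ‖YY p X k‖ ^ 2 = ‖X k‖ ^ 2 / hgt p (X k) ^ 2 := by
      unfold YY
      rw [norm_smul, Real.norm_eq_abs, mul_pow, sq_abs]
      ring
    have e2 : ‖PP p X k‖ ^ 2 = ‖ell p (X k)‖ ^ 2 / hgt p (X k) ^ 2 := by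
      unfold PP
      rw [norm_div, Complex.norm_real, Real.norm_eq_abs, div_pow, sq_abs]
    rw [e1, e2, ← ell_hgt_norm h.unit (X k)]
    field_simp
    try ring
  rw [h1]
  have h2 := Cen.norm_PP hm h k
  have h3 : ‖PP p X k‖ ^ 2 ≤ (2 / (m : ℝ)) ^ 2 := by gcongr
  have h4 : (2 / (m : ℝ)) ^ 2 = 4 / (m : ℝ) ^ 2 := by ring
  linarith

theorem area_sum {m : ℕ} (hm : 40 ≤ m) {K : ℕ} {X : Fin K → Fin 3 → E3} {p : Fin K → ℂ × ℂ}
    (hc : ∀ c, Cen m (p c) (X c))
    (hcov : ∀ x : E3, ∃ c, ∃ t : Fin 3 → ℝ, (∀ k, 0 ≤ t k) ∧ x = ∑ k, t k • X c k)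
    (hdis : ∀ c c' (t t' : Fin 3 → ℝ), (∀ k, 0 < t k) → (∀ k, 0 ≤ t' k) →
      ∑ k, t k • X c k = ∑ k, t' k • X c' k → c = c') :
    4 * Real.pi ≤ ∑ c, area (TT (p c) (X c)) ∧
      ∑ c, area (TT (p c) (X c)) ≤ 4 * Real.pi * (1 + 28 / (m : ℝ) ^ 2) := by
  have hm1 : (40 : ℝ) ≤ m := by exact_mod_cast hm
  have hm0 : (0 : ℝ) < m := by linarith
  have hpos : ∀ c k, 0 < hgt (p c) (X c k) := fun c k =>
    lt_of_lt_of_le (by norm_num) ((hc c).lo k)
  obtain ⟨hb1, hb2⟩ := vol_ball3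
  constructor
  · have hsub : Metric.closedBall (0 : E3) 1 ⊆ ⋃ c, tet (YY (p c) (X c)) := by
      intro x hx
      rw [mem_closedBall_zero_iff] at hx
      obtain ⟨c, t, ht, hxt⟩ := hcov x
      rw [Set.mem_iUnion]
      refine ⟨c, fun k => t k * hgt (p c) (X c k), fun k => mul_nonneg (ht k) (hpos c k).le, ?_, ?_⟩
      · rw [← hgt_sum (p c) Finset.univ t (X c), ← hxt]
        have h1 := ell_hgt_norm (hc c).unit x
        have h2 : hgt (p c) x ^ 2 ≤ ‖x‖ ^ 2 := by nlinarith [sq_nonneg ‖ell (p c) x‖]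
        exact (le_abs_self _).trans ((abs_le_of_sq_le_sq h2 (norm_nonneg x)).trans hx)
      · rw [hxt]
        refine Finset.sum_congr rfl fun k _ => ?_
        unfold YY
        rw [smul_smul]
        congr 1
        field_simp [(hpos c k).ne']
    have h1 : volume (Metric.closedBall (0 : E3) 1) ≤ ∑ c, volume (tet (YY (p c) (X c))) := by
      refine (measure_mono hsub).trans ?_
      have := measure_iUnion_fintype_le volume (fun c => tet (YY (p c) (X c)))
      exact this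
    have h2 : ∀ c, volume (tet (YY (p c) (X c))) ≠ ⊤ := fun c => (vol_tet _).2
    have h3 := ENNReal.toReal_mono (ENNReal.sum_ne_top.2 fun c _ => h2 c) h1
    rw [hb1, ENNReal.toReal_sum fun c _ => h2 c] at h3
    have h4 : ∑ c, (volume (tet (YY (p c) (X c)))).toReal = ∑ c, area (TT (p c) (X c)) / 3 := by
      refine Finset.sum_congr rfl fun c _ => ?_
      rw [(vol_tet _).1, det_YY hm (hc c)]
      ring
    rw [h4, ← Finset.sum_div] at h3
    linarith
  · obtain ⟨a, ha⟩ : ∃ a : ℝ, a = Real.sqrt (1 + 4 / (m : ℝ) ^ 2) := ⟨_, rfl⟩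
    have ha2 : a ^ 2 = 1 + 4 / (m : ℝ) ^ 2 := by rw [ha]; exact Real.sq_sqrt (by positivity)
    have ha1 : 1 ≤ a := by
      rw [ha]
      refine Real.le_sqrt_of_sq_le ?_
      have : 0 ≤ 4 / (m : ℝ) ^ 2 := by positivity
      linarith
    have ha0 : 0 < a := by linarith
    have hsub : (⋃ c, otet (fun k => (1 / a) • YY (p c) (X c) k)) ⊆ Metric.closedBall (0 : E3) 1 := by
      intro x hx
      rw [Set.mem_iUnion] at hx
      obtain ⟨c, t, ht, hts, rfl⟩ := hx
      rw [mem_closedBall_zero_iff]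
      refine (norm_sum_le _ _).trans ?_
      refine le_trans ?_ hts.le
      refine Finset.sum_le_sum fun k _ => ?_
      rw [norm_smul, norm_smul, Real.norm_eq_abs, Real.norm_eq_abs, abs_of_pos (ht k),
        abs_of_pos (by positivity)]
      have h1 := norm_YY hm (hc c) k
      rw [← ha] at h1
      have h2 : 1 / a * ‖YY (p c) (X c) k‖ ≤ 1 := by
        rw [div_mul_eq_mul_div, one_mul, div_le_one ha0]
        exact h1
      calc t k * (1 / a * ‖YY (p c) (X c) k‖) ≤ t k * 1 :=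
            mul_le_mul_of_nonneg_left h2 (ht k).le
        _ = t k := mul_one _
    have hpd : Pairwise (fun c c' => Disjoint (otet (fun k => (1 / a) • YY (p c) (X c) k))
        (otet (fun k => (1 / a) • YY (p c') (X c') k))) := by
      intro c c' hcc
      rw [Set.disjoint_left]
      rintro x ⟨t, ht, -, hx⟩ ⟨t', ht', -, hx'⟩
      apply hcc
      refine hdis c c' (fun k => t k * (1 / a) * (1 / hgt (p c) (X c k)))
        (fun k => t' k * (1 / a) * (1 / hgt (p c') (X c' k))) (fun k => ?_) (fun k => ?_) ?_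
      · have := ht k
        have := hpos c k
        positivity
      · have := ht' k
        have := hpos c' k
        positivity
      · have h1 : x = ∑ k, (t k * (1 / a) * (1 / hgt (p c) (X c k))) • X c k := by
          rw [hx]
          refine Finset.sum_congr rfl fun k _ => ?_
          unfold YY
          rw [smul_smul, smul_smul]
        have h2 : x = ∑ k, (t' k * (1 / a) * (1 / hgt (p c') (X c' k))) • X c' k := by
          rw [hx']
          refine Finset.sum_congr rfl fun k _ => ?_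
          unfold YY
          rw [smul_smul, smul_smul]
        rw [← h1, ← h2]
    have h1 : ∑ c, volume (otet (fun k => (1 / a) • YY (p c) (X c) k)) ≤
        volume (Metric.closedBall (0 : E3) 1) := by
      have h2 := measure_iUnion (μ := (volume : Measure E3)) hpd (fun c => (vol_otet _).2.1)
      rw [tsum_fintype] at h2
      rw [← h2]
      exact measure_mono hsub
    have h3 := ENNReal.toReal_mono hb2 h1
    rw [hb1, ENNReal.toReal_sum fun c _ => (vol_otet _).2.2] at h3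
    have h4 : ∀ c, (volume (otet (fun k => (1 / a) • YY (p c) (X c) k))).toReal =
        (1 / a) ^ 3 * (area (TT (p c) (X c)) / 3) := by
      intro c
      rw [(vol_otet _).1, det3_smul (YY (p c) (X c)) (fun _ => 1 / a), abs_mul, det_YY hm (hc c),
        Finset.prod_const, Finset.card_univ, Fintype.card_fin, abs_of_pos (by positivity)]
      ring
    rw [Finset.sum_congr rfl (fun c _ => h4 c), ← Finset.mul_sum, ← Finset.sum_div] at h3
    have h5 : ∑ c, area (TT (p c) (X c)) ≤ 4 * Real.pi * a ^ 3 := by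
      have h6 : (1 / a) ^ 3 * ((∑ c, area (TT (p c) (X c))) / 3) * (3 * a ^ 3) =
          ∑ c, area (TT (p c) (X c)) := by
        field_simp
      rw [← h6]
      have h7 : 0 ≤ 3 * a ^ 3 := by positivity
      calc (1 / a) ^ 3 * ((∑ c, area (TT (p c) (X c))) / 3) * (3 * a ^ 3)
          ≤ 4 * Real.pi / 3 * (3 * a ^ 3) := mul_le_mul_of_nonneg_right h3 h7
        _ = _ := by ring
    refine h5.trans ?_
    refine mul_le_mul_of_nonneg_left ?_ (by positivity)
    obtain ⟨y, hy⟩ : ∃ y : ℝ, y = 4 / (m : ℝ) ^ 2 := ⟨_, rfl⟩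
    have hy0 : 0 ≤ y := by rw [hy]; positivity
    have hy1 : y ≤ 1 := by
      rw [hy, div_le_one (by positivity)]
      nlinarith
    have h28 : 28 / (m : ℝ) ^ 2 = 7 * y := by rw [hy]; ring
    rw [h28]
    rw [← hy] at ha2
    have hay : a ≤ 1 + y := by nlinarith
    calc a ^ 3 = a * a ^ 2 := by ring
      _ = a * (1 + y) := by rw [ha2]
      _ ≤ (1 + y) * (1 + y) := mul_le_mul_of_nonneg_right hay (by linarith)
      _ ≤ 1 + 7 * y := by nlinarith

end Pool.Agent.LE60
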