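import Pool.Agent.LE60.CelS
import Pool.Agent.LE60.CelD

/-!
# LE60/Cells: the cell decomposition, and scaled cells

PROOFS.
* `cells`: `oct`, `exists_cen` (choose `p c` for every `c`), `area_sum`.
* `AA_fat`: `AA t p X = {t z : z ∈ TT p X}` (`mem_tri_smul`), so `closedBall 0 (t/(24m)) ⊆ AA ⊆ closedBall 0 (2t/m)` by
  `Cen.ball_in`, `Cen.ball_out`; `(2t/m)/100 = t/(50m) ≤ t/(24m)`; triangles are closed and convex
  (convex hull of a finite set is compact).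
* `AA_area`: `area_tri`. `mem_AA`: `smul_mem_tri` with factor `r/t ≤ 1` (`0 ∈ TT`).
-/

set_option autoImplicit false

namespace Pool.Agent.LE60

/-- scaled planar triangle of a cell -/
noncomputable def AA (t : ℝ) (p : ℂ × ℂ) (X : Fin 3 → E3) : Set ℂ :=
  tri (t * PP p X 0) (t * PP p X 1) (t * PP p X 2)

/-- a decomposition of the sphere into cells -/
structure Dec (m K : ℕ) (p : Fin K → ℂ × ℂ) (X : Fin K → Fin 3 → E3) : Prop where
  card : K ≤ 8 * m ^ 2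
  cen : ∀ c, Cen m (p c) (X c)
  cov : ∀ x : E3, ∃ c, ∃ t : Fin 3 → ℝ, (∀ k, 0 ≤ t k) ∧ x = ∑ k, t k • X c k
  dis : ∀ c c' (t t' : Fin 3 → ℝ), (∀ k, 0 < t k) → (∀ k, 0 ≤ t' k) →
      ∑ k, t k • X c k = ∑ k, t' k • X c' k → c = c'
  lo : 4 * Real.pi ≤ ∑ c, area (TT (p c) (X c))
  hi : ∑ c, area (TT (p c) (X c)) ≤ 4 * Real.pi * (1 + 28 / (m : ℝ) ^ 2)

theorem cells {m : ℕ} (hm : 40 ≤ m) : ∃ (K : ℕ) (p : Fin K → ℂ × ℂ) (X : Fin K → Fin 3 → E3),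
    Dec m K p X := by
  obtain ⟨K, X, hK, hT, hcov, hdis⟩ := oct m (by omega)
  choose p hp using fun c => exists_cen hm (hT c)
  obtain ⟨h1, h2⟩ := area_sum hm hp hcov hdis
  exact ⟨K, p, X, hK, hp, hcov, hdis, h1, h2⟩

private theorem mem_AA_iff {t : ℝ} (ht : 0 < t) (p : ℂ × ℂ) (X : Fin 3 → E3) (z : ℂ) :
    z ∈ AA t p X ↔ ((1 / t : ℝ) : ℂ) * z ∈ TT p X := mem_tri_smul ht

private theorem norm_scale {t : ℝ} (ht : 0 < t) (z : ℂ) : ‖((1 / t : ℝ) : ℂ) * z‖ = ‖z‖ / t := by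
  rw [norm_mul, Complex.norm_real, Real.norm_eq_abs, abs_of_pos (by positivity)]
  ring

private theorem zero_mem_TT {m : ℕ} (hm : 40 ≤ m) {p : ℂ × ℂ} {X : Fin 3 → E3} (h : Cen m p X) :
    (0 : ℂ) ∈ TT p X := by
  refine h.ball_in hm (Metric.mem_closedBall_self ?_)
  positivity

theorem AA_fat {m : ℕ} (hm : 40 ≤ m) {p : ℂ × ℂ} {X : Fin 3 → E3} (h : Cen m p X) {t : ℝ}
    (ht : 0 < t) : Fat (2 * t / m) (AA t p X) := by
  have hm0 : (0 : ℝ) < m := by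
    have : (40 : ℝ) ≤ m := by exact_mod_cast hm
    linarith
  refine ⟨convex_convexHull ℝ _, ?_, 0, ?_, ?_⟩
  · exact (Set.Finite.isCompact_convexHull (𝕜 := ℝ) (Set.toFinite _)).isClosed
  · intro z hz
    rw [mem_AA_iff ht]
    refine h.ball_in hm ?_
    rw [mem_closedBall_zero_iff] at hz ⊢
    rw [norm_scale ht, div_le_iff₀ ht]
    refine hz.trans ?_
    rw [div_div, div_le_iff₀ (by positivity)]
    have : 1 / (24 * (m : ℝ)) * t * (m * 100) = 100 / 24 * t := by field_simp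
    rw [this]
    linarith
  · intro z hz
    rw [mem_AA_iff ht] at hz
    have h1 := h.ball_out hm hz
    rw [mem_closedBall_zero_iff] at h1 ⊢
    rw [norm_scale ht, div_le_iff₀ ht] at h1
    refine h1.trans (le_of_eq ?_)
    ring

theorem AA_area {t : ℝ} (ht : 0 < t) (p : ℂ × ℂ) (X : Fin 3 → E3) :
    area (AA t p X) = t ^ 2 * area (TT p X) := by
  unfold AA TT
  rw [area_tri, area_tri]
  have e : ((t : ℂ) * PP p X 1 - t * PP p X 0) * (starRingEnd ℂ) ((t : ℂ) * PP p X 2 - t * PP p X 0) =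
      ((t ^ 2 : ℝ) : ℂ) * ((PP p X 1 - PP p X 0) * (starRingEnd ℂ) (PP p X 2 - PP p X 0)) := by
    rw [← mul_sub, ← mul_sub, map_mul, Complex.conj_ofReal]
    push_cast
    ring
  rw [e, Complex.im_ofReal_mul, abs_mul, abs_of_pos (by positivity : (0 : ℝ) < t ^ 2)]
  ring

theorem mem_AA {m : ℕ} (hm : 40 ≤ m) {p : ℂ × ℂ} {X : Fin 3 → E3} (h : Cen m p X) {t r : ℝ}
    (ht : 0 < t) (hr : 0 ≤ r) (hrt : r ≤ t) {z : ℂ} (hz : z ∈ TT p X) :
    (r : ℂ) * z ∈ AA t p X := by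
  rw [mem_AA_iff ht]
  have e : ((1 / t : ℝ) : ℂ) * ((r : ℂ) * z) = ((r / t : ℝ) : ℂ) * z := by
    push_cast
    ring
  rw [e]
  exact smul_mem_tri (zero_mem_TT hm h) hz (by positivity) ((div_le_one ht).2 hrt)

theorem AA_mem {p : ℂ × ℂ} {X : Fin 3 → E3} {t : ℝ} (ht : 0 < t) {z : ℂ} (hz : z ∈ AA t p X) :
    ∃ g ∈ TT p X, z = (t : ℂ) * g := by
  rw [mem_AA_iff ht] at hz
  refine ⟨_, hz, ?_⟩
  have h1 : (t : ℂ) ≠ 0 := by exact_mod_cast ht.ne'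
  rw [← mul_assoc]
  push_cast
  rw [mul_one_div_cancel h1, one_mul]

end Pool.Agent.LE60
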