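import Pool.Agent.LE60.Tet

/-!
# LE60/Oct: triangulation of the octahedron

There are `K ≤ 8 m²` triples `X c 0, X c 1, X c 2` of points of the octahedron `|x_0| + |x_1| + |x_2| = 1` whose cones
cover `ℝ³`, with disjoint interiors.

CONSTRUCTION. Signs `σ ∈ {±1}³`. Up cells: `i ∈ ℕ³`, `i_0 + i_1 + i_2 = m - 1`, vertices `X_k = σ · (i + e_k)/m`; down cells:
`i ∈ ℕ³`, all `i_k ≥ 1`, `i_0 + i_1 + i_2 = m + 1`, vertices `X_k = σ · (i - e_k)/m` (`σ ·` = coordinatewise product,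
`e_k` the unit vectors). Number: `8 (C(m+1,2) + C(m,2)) = 8 m²` (only `≤` is needed: inject the cells into
`{±1}³ × (…)`, e.g. `(i_0, i_1)` of an up cell with `i_0 + i_1 ≤ m - 1` and of a down cell; the map
`up ↦ (i_0, i_1)`, `down ↦ (m - i_0, m - i_1)` (…) into `Fin m × Fin m` is injective: for up cells `i_0 + i_1 ≤ m-1`; for down
cells `i_0 + i_1 = m + 1 - i_2 ≤ m`, so `(m - i_0) + (m - i_1) ≥ m`, both coordinates in `[0, m-1]`.)
PROPERTIES.
* norms: `‖X‖ ≤ |x_0|+|x_1|+|x_2| = 1`, `‖X‖ ≥ 1/√3 ≥ 57/100` (Cauchy-Schwarz).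
* differences: `‖X_k - X_l‖ = √2/m ≤ 3/(2m)` (`k ≠ l`).
* determinant: `det (i + e_k)_k /m³`: `det (1 1ᵀ-type)`: the matrix with rows `i + e_k` is `I + 1 iᵀ`, determinant
  `1 + i_0 + i_1 + i_2 = m`; rows `i - e_k`: `-(I - 1 iᵀ)`, determinant `-(1 - (i_0+i_1+i_2)) = m`. The signs multiply by `±1`. So `|det3| = m/m³`.
* cover: `x = 0` lies in every cone. `x ≠ 0`: `σ` a sign vector with `σ_k x_k ≥ 0`, `y_k = m σ_k x_k/(∑|x_l|) ≥ 0`, `∑ y_k = m`. `j_k = ⌊y_k⌋`,
  `f_k = y_k - j_k`, `∑ f_k ∈ {0, 1, 2}`. If 1: up cell `i = j`, `y = ∑ f_k (i + e_k)` (as `∑ f_k = 1`). If 2: down cell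
  `i = j + 1`, `y = ∑ (1 - f_k)(i - e_k)` (`∑ (1 - f_k) = 1`). If 0: all `f_k = 0`, some `j_k ≥ 1`, up cell `i = j - e_k`, `y = i + e_k`.
* disjointness: `x = ∑ t_k X_{c,k} = ∑ t'_k X_{c',k}`, all `t_k > 0`, `t'_k ≥ 0`. The `ℓ¹` norm of `x` is `∑ t_k = ∑ t'_k > 0`
  (all vertices of a cell lie in one octant); normalise it to 1. `y_k = m |x_k|`. Cell `c` up: `y_k = i_k + t_k` with `0 < t_k < 1`
  (all three positive with sum 1), down: `y_k = i_k - t_k`. So `y_k > 0`, hence `x_k ≠ 0` and the sign vectors agree; `y_k` is not an integer,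
  `⌊y_k⌋ = i_k` (up) or `i_k - 1` (down) and `∑ fract y_k = 1` (up), `= 2` (down). For `c'`: `y_k = i'_k + t'_k` or `i'_k - t'_k` with
  `t'_k ∈ [0,1]`, not an integer so `t'_k ∈ (0,1)`, same formulas; so the types and indices agree.
Enumerate the cells by `Fin K`.
-/

set_option autoImplicit false

namespace Pool.Agent.LE60

/-- triples of mesh `1/m` -/
structure Trip (m : ℕ) (X : Fin 3 → E3) : Prop where
  lo : ∀ k, 57 / 100 ≤ ‖X k‖
  hi : ∀ k, ‖X k‖ ≤ 1
  diam : ∀ k l, ‖X k - X l‖ ≤ 3 / (2 * m)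
  det : |det3 X| = 1 / (m : ℝ) ^ 2

private noncomputable def sg (s : Bool) : ℝ := if s then 1 else -1

private theorem sg_sq (s : Bool) : sg s * sg s = 1 := by
  unfold sg
  cases s <;> norm_num

/-- orientation of the cell `(a, b)` -/
private def ep (m a b : ℕ) : ℤ := if a + b < m then 1 else -1

/-- base point of the cell `(a, b)` -/
private def ba (m a b : ℕ) (l : Fin 3) : ℤ :=
  if a + b < m then ![(a : ℤ), b, m - 1 - a - b] l else ![(m : ℤ) - a, m - b, a + b + 1 - m] l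

private theorem ep_cases (m a b : ℕ) : ep m a b = 1 ∨ ep m a b = -1 := by
  unfold ep
  split_ifs <;> simp

private theorem ep_sq (m a b : ℕ) : ((ep m a b : ℤ) : ℝ) * (ep m a b : ℤ) = 1 := by
  rcases ep_cases m a b with h | h <;> rw [h] <;> norm_num

private theorem ba_sum (m a b : ℕ) : ba m a b 0 + ba m a b 1 + ba m a b 2 = m - ep m a b := by
  unfold ba ep
  split_ifs
  · simp only [Matrix.cons_val_zero, Matrix.cons_val_one, Matrix.cons_val]
    ring
  · simp only [Matrix.cons_val_zero, Matrix.cons_val_one, Matrix.cons_val]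
    ring

private theorem ba_up {m a b : ℕ} (h : ep m a b = 1) :
    a + b < m ∧ ba m a b 0 = a ∧ ba m a b 1 = b ∧ ∀ l, 0 ≤ ba m a b l := by
  have h1 : a + b < m := by
    by_contra hc
    unfold ep at h
    rw [if_neg hc] at h
    omega
  refine ⟨h1, ?_, ?_, fun l => ?_⟩
  · unfold ba
    rw [if_pos h1]
    rfl
  · unfold ba
    rw [if_pos h1]
    rfl
  · unfold ba
    rw [if_pos h1]
    fin_cases l
    · show (0 : ℤ) ≤ (a : ℤ)
      omega
    · show (0 : ℤ) ≤ (b : ℤ)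
      omega
    · show (0 : ℤ) ≤ (m : ℤ) - 1 - a - b
      omega

private theorem ba_down {m a b : ℕ} (ha : a < m) (hb : b < m) (h : ep m a b = -1) :
    ba m a b 0 = m - a ∧ ba m a b 1 = m - b ∧ ∀ l, 1 ≤ ba m a b l := by
  have h1 : ¬ a + b < m := by
    intro hc
    unfold ep at h
    rw [if_pos hc] at h
    omega
  refine ⟨?_, ?_, fun l => ?_⟩
  · unfold ba
    rw [if_neg h1]
    rfl
  · unfold ba
    rw [if_neg h1]
    rfl
  · unfold ba
    rw [if_neg h1]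
    fin_cases l
    · show (1 : ℤ) ≤ (m : ℤ) - a
      omega
    · show (1 : ℤ) ≤ (m : ℤ) - b
      omega
    · show (1 : ℤ) ≤ (a : ℤ) + b + 1 - m
      omega

/-- vertices of the cells -/
private noncomputable def vx (m : ℕ) (c : (Fin 3 → Bool) × Fin m × Fin m) (k : Fin 3) : E3 :=
  WithLp.toLp 2 fun l => sg (c.1 l) * (((ba m c.2.1 c.2.2 l : ℤ) : ℝ) +
    ((ep m c.2.1 c.2.2 : ℤ) : ℝ) * (if k = l then 1 else 0)) / m

private theorem vx_apply (m : ℕ) (c : (Fin 3 → Bool) × Fin m × Fin m) (k l : Fin 3) :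
    vx m c k l = sg (c.1 l) * (((ba m c.2.1 c.2.2 l : ℤ) : ℝ) +
      ((ep m c.2.1 c.2.2 : ℤ) : ℝ) * (if k = l then 1 else 0)) / m := rfl

private theorem comb_coord (m : ℕ) (c : (Fin 3 → Bool) × Fin m × Fin m) (t : Fin 3 → ℝ)
    (l : Fin 3) : (∑ k, t k • vx m c k) l =
      sg (c.1 l) * ((t 0 + t 1 + t 2) * ((ba m c.2.1 c.2.2 l : ℤ) : ℝ) +
        ((ep m c.2.1 c.2.2 : ℤ) : ℝ) * t l) / m := by
  rw [Fin.sum_univ_three]
  simp only [PiLp.add_apply, PiLp.smul_apply, smul_eq_mul, vx_apply]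
  fin_cases l
  · simp only [Fin.zero_eta, Fin.reduceEq, if_true, if_false]
    ring
  · simp only [Fin.mk_one, Fin.reduceEq, if_true, if_false]
    ring
  · simp only [Fin.reduceFinMk, Fin.reduceEq, if_true, if_false]
    ring

private theorem y_nonneg {m : ℕ} (c : (Fin 3 → Bool) × Fin m × Fin m) (k l : Fin 3) :
    0 ≤ ((ba m c.2.1 c.2.2 l : ℤ) : ℝ) +
      ((ep m c.2.1 c.2.2 : ℤ) : ℝ) * (if k = l then 1 else 0) := by
  rcases ep_cases m c.2.1 c.2.2 with h | h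
  · have h1 := (ba_up h).2.2.2 l
    have h2 : (0 : ℝ) ≤ ((ba m c.2.1 c.2.2 l : ℤ) : ℝ) := by exact_mod_cast h1
    rw [h]
    split_ifs
    · push_cast
      linarith
    · push_cast
      linarith
  · have h1 := (ba_down c.2.1.2 c.2.2.2 h).2.2 l
    have h2 : (1 : ℝ) ≤ ((ba m c.2.1 c.2.2 l : ℤ) : ℝ) := by exact_mod_cast h1
    rw [h]
    split_ifs
    · push_cast
      linarith
    · push_cast
      linarith

private theorem ba_sum' (m a b : ℕ) : ((ba m a b 0 : ℤ) : ℝ) + ((ba m a b 1 : ℤ) : ℝ) +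
    ((ba m a b 2 : ℤ) : ℝ) = m - ((ep m a b : ℤ) : ℝ) := by
  have h := ba_sum m a b
  exact_mod_cast h

private theorem vx_norm {m : ℕ} (hm : 1 ≤ m) (c : (Fin 3 → Bool) × Fin m × Fin m) (k : Fin 3) :
    57 / 100 ≤ ‖vx m c k‖ ∧ ‖vx m c k‖ ≤ 1 := by
  have hm0 : (0 : ℝ) < m := by
    have : (1 : ℝ) ≤ m := by exact_mod_cast hm
    linarith
  obtain ⟨y, hy⟩ : ∃ y : Fin 3 → ℝ, ∀ l, y l = ((ba m c.2.1 c.2.2 l : ℤ) : ℝ) +
      ((ep m c.2.1 c.2.2 : ℤ) : ℝ) * (if k = l then 1 else 0) := ⟨_, fun _ => rfl⟩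
  have hy0 : ∀ l, 0 ≤ y l := by
    intro l
    rw [hy]
    exact y_nonneg c k l
  have hys : y 0 + y 1 + y 2 = m := by
    have h1 := ba_sum' m c.2.1 c.2.2
    have h2 : (if k = 0 then (1 : ℝ) else 0) + (if k = 1 then 1 else 0) +
        (if k = 2 then 1 else 0) = 1 := by
      fin_cases k <;> simp
    rw [hy, hy, hy]
    linear_combination h1 + ((ep m c.2.1 c.2.2 : ℤ) : ℝ) * h2
  have hn : ‖vx m c k‖ ^ 2 = (y 0 ^ 2 + y 1 ^ 2 + y 2 ^ 2) / (m : ℝ) ^ 2 := by
    rw [EuclideanSpace.norm_sq_eq, Fin.sum_univ_three]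
    have h1 : ∀ l, ‖vx m c k l‖ ^ 2 = y l ^ 2 / (m : ℝ) ^ 2 := by
      intro l
      rw [Real.norm_eq_abs, sq_abs, vx_apply, ← hy]
      have := sg_sq (c.1 l)
      rw [div_pow, mul_pow, pow_two (sg (c.1 l)), this, one_mul]
    rw [h1, h1, h1]
    ring
  have h0 := hy0 0
  have h1 := hy0 1
  have h2 := hy0 2
  have hm2 : (m : ℝ) ^ 2 = (y 0 + y 1 + y 2) ^ 2 := by rw [hys]
  constructor
  · refine le_of_sq_le_sq ?_ (norm_nonneg _)
    rw [hn, le_div_iff₀ (by positivity), hm2]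
    nlinarith [sq_nonneg (y 0 - y 1), sq_nonneg (y 0 - y 2), sq_nonneg (y 1 - y 2),
      sq_nonneg (y 0 + y 1 + y 2)]
  · refine le_of_sq_le_sq ?_ zero_le_one
    rw [hn, one_pow, div_le_one (by positivity), hm2]
    nlinarith [mul_nonneg h0 h1, mul_nonneg h0 h2, mul_nonneg h1 h2]

private theorem vx_diam {m : ℕ} (hm : 1 ≤ m) (c : (Fin 3 → Bool) × Fin m × Fin m) (k l : Fin 3) :
    ‖vx m c k - vx m c l‖ ≤ 3 / (2 * m) := by
  have hm0 : (0 : ℝ) < m := by
    have : (1 : ℝ) ≤ m := by exact_mod_cast hm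
    linarith
  refine le_of_sq_le_sq ?_ (by positivity)
  have h1 : ∀ j, ‖(vx m c k - vx m c l) j‖ ^ 2 ≤
      ((if k = j then 1 else 0) + (if l = j then 1 else 0)) / (m : ℝ) ^ 2 := by
    intro j
    rw [Real.norm_eq_abs, sq_abs, PiLp.sub_apply, vx_apply, vx_apply]
    have e : (sg (c.1 j) * (((ba m c.2.1 c.2.2 j : ℤ) : ℝ) +
      ((ep m c.2.1 c.2.2 : ℤ) : ℝ) * (if k = j then 1 else 0)) / m -
      sg (c.1 j) * (((ba m c.2.1 c.2.2 j : ℤ) : ℝ) +
      ((ep m c.2.1 c.2.2 : ℤ) : ℝ) * (if l = j then 1 else 0)) / m) ^ 2 =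
      (sg (c.1 j) * sg (c.1 j)) * (((ep m c.2.1 c.2.2 : ℤ) : ℝ) * ((ep m c.2.1 c.2.2 : ℤ) : ℝ)) *
        ((if k = j then 1 else 0) - (if l = j then 1 else 0)) ^ 2 / (m : ℝ) ^ 2 := by ring
    rw [e, sg_sq, ep_sq, one_mul, one_mul]
    refine div_le_div_of_nonneg_right ?_ (by positivity)
    split_ifs <;> norm_num
  rw [EuclideanSpace.norm_sq_eq, Fin.sum_univ_three]
  have h2 : ∀ k : Fin 3, (if k = 0 then (1 : ℝ) else 0) + (if k = 1 then 1 else 0) +
      (if k = 2 then 1 else 0) = 1 := by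
    intro k
    fin_cases k <;> simp
  have h3 := h1 0
  have h4 := h1 1
  have h5 := h1 2
  have h6 : ((if k = 0 then 1 else 0) + (if l = 0 then 1 else 0)) / (m : ℝ) ^ 2 +
      ((if k = 1 then 1 else 0) + (if l = 1 then 1 else 0)) / (m : ℝ) ^ 2 +
      ((if k = 2 then 1 else 0) + (if l = 2 then 1 else 0)) / (m : ℝ) ^ 2 = 2 / (m : ℝ) ^ 2 := by
    rw [← add_div, ← add_div]
    congr 1
    linear_combination h2 k + h2 l
  have h7 : (3 / (2 * (m : ℝ))) ^ 2 = 9 / 4 / (m : ℝ) ^ 2 := by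
    field_simp
    norm_num
  rw [h7]
  have h8 : 2 / (m : ℝ) ^ 2 ≤ 9 / 4 / (m : ℝ) ^ 2 :=
    div_le_div_of_nonneg_right (by norm_num) (by positivity)
  linarith

private theorem vx_det {m : ℕ} (hm : 1 ≤ m) (c : (Fin 3 → Bool) × Fin m × Fin m) :
    |det3 (vx m c)| = 1 / (m : ℝ) ^ 2 := by
  have hm0 : (0 : ℝ) < m := by
    have : (1 : ℝ) ≤ m := by exact_mod_cast hm
    linarith
  have h1 := ba_sum' m c.2.1 c.2.2
  have h2 := ep_sq m c.2.1 c.2.2
  have h3 : det3 (vx m c) = sg (c.1 0) * sg (c.1 1) * sg (c.1 2) * (1 / (m : ℝ) ^ 2) := by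
    unfold det3
    rw [Matrix.det_fin_three]
    simp only [Matrix.of_apply, vx_apply, Fin.reduceEq, if_true, if_false]
    generalize ((ba m c.2.1 c.2.2 0 : ℤ) : ℝ) = b0 at *
    generalize ((ba m c.2.1 c.2.2 1 : ℤ) : ℝ) = b1 at *
    generalize ((ba m c.2.1 c.2.2 2 : ℤ) : ℝ) = b2 at *
    generalize ((ep m c.2.1 c.2.2 : ℤ) : ℝ) = ε at *
    generalize sg (c.1 0) = s0
    generalize sg (c.1 1) = s1
    generalize sg (c.1 2) = s2
    have h4 : s0 * (b0 + ε * 1) / (m : ℝ) * (s1 * (b1 + ε * 1) / m) * (s2 * (b2 + ε * 1) / m) -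
        s0 * (b0 + ε * 1) / m * (s2 * (b2 + ε * 0) / m) * (s1 * (b1 + ε * 0) / m) -
        s1 * (b1 + ε * 0) / m * (s0 * (b0 + ε * 0) / m) * (s2 * (b2 + ε * 1) / m) +
        s1 * (b1 + ε * 0) / m * (s2 * (b2 + ε * 0) / m) * (s0 * (b0 + ε * 0) / m) +
        s2 * (b2 + ε * 0) / m * (s0 * (b0 + ε * 0) / m) * (s1 * (b1 + ε * 0) / m) -
        s2 * (b2 + ε * 0) / m * (s1 * (b1 + ε * 1) / m) * (s0 * (b0 + ε * 0) / m) =
        s0 * s1 * s2 * ((ε * ε) * (ε + (b0 + b1 + b2))) / (m : ℝ) ^ 3 := by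
      field_simp
      ring
    rw [h4, h2, h1]
    field_simp
    ring
  have h5 : |sg (c.1 0) * sg (c.1 1) * sg (c.1 2)| = 1 := by
    have habs : ∀ s, |sg s| = 1 := by
      intro s
      unfold sg
      cases s <;> norm_num
    rw [abs_mul, abs_mul, habs, habs, habs]
    norm_num
  rw [h3, abs_mul, h5, one_mul, abs_of_pos (by positivity)]

private theorem exists_ab {m : ℕ} (hm : 1 ≤ m) (y : Fin 3 → ℝ) (hy : ∀ l, 0 ≤ y l)
    (hs : y 0 + y 1 + y 2 = m) : ∃ a b : ℕ, a < m ∧ b < m ∧ ∃ g : Fin 3 → ℝ, (∀ l, 0 ≤ g l) ∧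
      g 0 + g 1 + g 2 = 1 ∧
      ∀ l, y l = ((ba m a b l : ℤ) : ℝ) + ((ep m a b : ℤ) : ℝ) * g l := by
  obtain ⟨j0, f0, hj0, hf0, hf0'⟩ : ∃ (j : ℕ) (f : ℝ), y 0 = j + f ∧ 0 ≤ f ∧ f < 1 :=
    ⟨⌊y 0⌋₊, y 0 - ⌊y 0⌋₊, by ring, sub_nonneg.2 (Nat.floor_le (hy 0)), by
      have := Nat.lt_floor_add_one (y 0)
      linarith⟩
  obtain ⟨j1, f1, hj1, hf1, hf1'⟩ : ∃ (j : ℕ) (f : ℝ), y 1 = j + f ∧ 0 ≤ f ∧ f < 1 :=
    ⟨⌊y 1⌋₊, y 1 - ⌊y 1⌋₊, by ring, sub_nonneg.2 (Nat.floor_le (hy 1)), by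
      have := Nat.lt_floor_add_one (y 1)
      linarith⟩
  obtain ⟨j2, f2, hj2, hf2, hf2'⟩ : ∃ (j : ℕ) (f : ℝ), y 2 = j + f ∧ 0 ≤ f ∧ f < 1 :=
    ⟨⌊y 2⌋₊, y 2 - ⌊y 2⌋₊, by ring, sub_nonneg.2 (Nat.floor_le (hy 2)), by
      have := Nat.lt_floor_add_one (y 2)
      linarith⟩
  have hsum : (m : ℝ) = j0 + j1 + j2 + (f0 + f1 + f2) := by
    rw [← hs, hj0, hj1, hj2]
    ring
  have hlo : j0 + j1 + j2 ≤ m := by
    have : ((j0 + j1 + j2 : ℕ) : ℝ) ≤ m := by
      push_cast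
      linarith
    exact_mod_cast this
  have hhi : m < j0 + j1 + j2 + 3 := by
    have : (m : ℝ) < ((j0 + j1 + j2 + 3 : ℕ) : ℝ) := by
      push_cast
      linarith
    exact_mod_cast this
  have hthree : ∀ (a b : ℕ) (g : Fin 3 → ℝ),
      (y 0 = ((ba m a b 0 : ℤ) : ℝ) + ((ep m a b : ℤ) : ℝ) * g 0) →
      (y 1 = ((ba m a b 1 : ℤ) : ℝ) + ((ep m a b : ℤ) : ℝ) * g 1) →
      (y 2 = ((ba m a b 2 : ℤ) : ℝ) + ((ep m a b : ℤ) : ℝ) * g 2) →
      ∀ l, y l = ((ba m a b l : ℤ) : ℝ) + ((ep m a b : ℤ) : ℝ) * g l := by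
    intro a b g h0 h1 h2 l
    fin_cases l
    · exact h0
    · exact h1
    · exact h2
  have hup : ∀ (a b i2 : ℕ) (g : Fin 3 → ℝ), a + b + i2 + 1 = m → (∀ l, 0 ≤ g l) →
      g 0 + g 1 + g 2 = 1 → y 0 = a + g 0 → y 1 = b + g 1 → y 2 = i2 + g 2 →
      ∃ a b : ℕ, a < m ∧ b < m ∧ ∃ g : Fin 3 → ℝ, (∀ l, 0 ≤ g l) ∧
      g 0 + g 1 + g 2 = 1 ∧
      ∀ l, y l = ((ba m a b l : ℤ) : ℝ) + ((ep m a b : ℤ) : ℝ) * g l := by
    intro a b i2 g hab hg hgs h0 h1 h2
    have hlt : a + b < m := by omega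
    refine ⟨a, b, by omega, by omega, g, hg, hgs, hthree a b g ?_ ?_ ?_⟩
    · unfold ba ep
      rw [if_pos hlt, if_pos hlt]
      show y 0 = (((a : ℤ)) : ℝ) + ((1 : ℤ) : ℝ) * g 0
      rw [h0]
      push_cast
      ring
    · unfold ba ep
      rw [if_pos hlt, if_pos hlt]
      show y 1 = (((b : ℤ)) : ℝ) + ((1 : ℤ) : ℝ) * g 1
      rw [h1]
      push_cast
      ring
    · unfold ba ep
      rw [if_pos hlt, if_pos hlt]
      show y 2 = (((m : ℤ) - 1 - a - b : ℤ) : ℝ) + ((1 : ℤ) : ℝ) * g 2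
      have : (m : ℤ) - 1 - a - b = i2 := by omega
      rw [this, h2]
      push_cast
      ring
  obtain h | h | h : m = j0 + j1 + j2 ∨ m = j0 + j1 + j2 + 1 ∨ m = j0 + j1 + j2 + 2 := by omega
  · have hfs : f0 + f1 + f2 = 0 := by
      have : (m : ℝ) = j0 + j1 + j2 := by exact_mod_cast h
      linarith
    have e0 : f0 = 0 := by linarith
    have e1 : f1 = 0 := by linarith
    have e2 : f2 = 0 := by linarith
    obtain h3 | h3 | h3 : 1 ≤ j0 ∨ 1 ≤ j1 ∨ 1 ≤ j2 := by omega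
    · obtain ⟨i0, rfl⟩ := Nat.exists_eq_add_of_le h3
      refine hup i0 j1 j2 ![1, 0, 0] (by omega) (fun l => ?_) ?_ ?_ ?_ ?_
      · fin_cases l <;> norm_num
      · show (1 : ℝ) + 0 + 0 = 1
        norm_num
      · rw [hj0, e0]
        show ((1 + i0 : ℕ) : ℝ) + 0 = (i0 : ℝ) + 1
        push_cast
        ring
      · rw [hj1, e1]
        rfl
      · rw [hj2, e2]
        rfl
    · obtain ⟨i1, rfl⟩ := Nat.exists_eq_add_of_le h3
      refine hup j0 i1 j2 ![0, 1, 0] (by omega) (fun l => ?_) ?_ ?_ ?_ ?_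
      · fin_cases l <;> norm_num
      · show (0 : ℝ) + 1 + 0 = 1
        norm_num
      · rw [hj0, e0]
        rfl
      · rw [hj1, e1]
        show ((1 + i1 : ℕ) : ℝ) + 0 = (i1 : ℝ) + 1
        push_cast
        ring
      · rw [hj2, e2]
        rfl
    · obtain ⟨i2, rfl⟩ := Nat.exists_eq_add_of_le h3
      refine hup j0 j1 i2 ![0, 0, 1] (by omega) (fun l => ?_) ?_ ?_ ?_ ?_
      · fin_cases l <;> norm_num
      · show (0 : ℝ) + 0 + 1 = 1
        norm_num
      · rw [hj0, e0]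
        rfl
      · rw [hj1, e1]
        rfl
      · rw [hj2, e2]
        show ((1 + i2 : ℕ) : ℝ) + 0 = (i2 : ℝ) + 1
        push_cast
        ring
  · have hfs : f0 + f1 + f2 = 1 := by
      have : (m : ℝ) = j0 + j1 + j2 + 1 := by exact_mod_cast h
      linarith
    refine hup j0 j1 j2 ![f0, f1, f2] (by omega) (fun l => ?_) hfs hj0 hj1 hj2
    fin_cases l
    · exact hf0
    · exact hf1
    · exact hf2
  · have hfs : f0 + f1 + f2 = 2 := by
      have : (m : ℝ) = j0 + j1 + j2 + 2 := by exact_mod_cast h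
      linarith
    have hlt : ¬ (j1 + j2 + 1) + (j0 + j2 + 1) < m := by omega
    refine ⟨j1 + j2 + 1, j0 + j2 + 1, by omega, by omega, ![1 - f0, 1 - f1, 1 - f2],
      fun l => ?_, ?_, hthree _ _ _ ?_ ?_ ?_⟩
    · fin_cases l
      · show 0 ≤ 1 - f0
        linarith
      · show 0 ≤ 1 - f1
        linarith
      · show 0 ≤ 1 - f2
        linarith
    · show 1 - f0 + (1 - f1) + (1 - f2) = 1
      linarith
    · unfold ba ep
      rw [if_neg hlt, if_neg hlt]
      show y 0 = (((m : ℤ) - (j1 + j2 + 1 : ℕ) : ℤ) : ℝ) + ((-1 : ℤ) : ℝ) * (1 - f0)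
      have : (m : ℤ) - (j1 + j2 + 1 : ℕ) = j0 + 1 := by omega
      rw [this, hj0]
      push_cast
      ring
    · unfold ba ep
      rw [if_neg hlt, if_neg hlt]
      show y 1 = (((m : ℤ) - (j0 + j2 + 1 : ℕ) : ℤ) : ℝ) + ((-1 : ℤ) : ℝ) * (1 - f1)
      have : (m : ℤ) - (j0 + j2 + 1 : ℕ) = j1 + 1 := by omega
      rw [this, hj1]
      push_cast
      ring
    · unfold ba ep
      rw [if_neg hlt, if_neg hlt]
      show y 2 = ((((j1 + j2 + 1 : ℕ) : ℤ) + (j0 + j2 + 1 : ℕ) + 1 - m : ℤ) : ℝ) +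
        ((-1 : ℤ) : ℝ) * (1 - f2)
      have : ((j1 + j2 + 1 : ℕ) : ℤ) + (j0 + j2 + 1 : ℕ) + 1 - m = j2 + 1 := by omega
      rw [this, hj2]
      push_cast
      ring

private theorem cover {m : ℕ} (hm : 1 ≤ m) (x : E3) :
    ∃ c, ∃ t : Fin 3 → ℝ, (∀ k, 0 ≤ t k) ∧ x = ∑ k, t k • vx m c k := by
  have hm0 : (0 : ℝ) < m := by
    have : (1 : ℝ) ≤ m := by exact_mod_cast hm
    linarith
  obtain ⟨N, hN⟩ : ∃ N : ℝ, N = |x 0| + |x 1| + |x 2| := ⟨_, rfl⟩
  have hN0 : 0 ≤ N := by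
    rw [hN]
    positivity
  rcases hN0.eq_or_lt with h0 | h0
  · refine ⟨(fun _ => true, ⟨0, hm⟩, ⟨0, hm⟩), fun _ => 0, fun _ => le_refl _, ?_⟩
    have h1 : x 0 = 0 := by
      have := abs_nonneg (x 0)
      have := abs_nonneg (x 1)
      have := abs_nonneg (x 2)
      exact abs_eq_zero.1 (by linarith)
    have h2 : x 1 = 0 := by
      have := abs_nonneg (x 0)
      have := abs_nonneg (x 1)
      have := abs_nonneg (x 2)
      exact abs_eq_zero.1 (by linarith)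
    have h3 : x 2 = 0 := by
      have := abs_nonneg (x 0)
      have := abs_nonneg (x 1)
      have := abs_nonneg (x 2)
      exact abs_eq_zero.1 (by linarith)
    simp only [zero_smul, Finset.sum_const_zero]
    ext l
    fin_cases l
    · exact h1
    · exact h2
    · exact h3
  · obtain ⟨a, b, ha, hb, g, hg, hgs, hy⟩ := exists_ab hm (fun l => m * |x l| / N)
      (fun l => by positivity) (by
        show m * |x 0| / N + m * |x 1| / N + m * |x 2| / N = m
        rw [← add_div, ← add_div, ← mul_add, ← mul_add, ← hN]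
        field_simp)
    refine ⟨(fun l => decide (0 ≤ x l), ⟨a, ha⟩, ⟨b, hb⟩), fun k => N * g k,
      fun k => mul_nonneg h0.le (hg k), ?_⟩
    ext l
    rw [comb_coord]
    have h1 : N * g 0 + N * g 1 + N * g 2 = N := by
      rw [← mul_add, ← mul_add, hgs, mul_one]
    rw [h1]
    have h2 := hy l
    have h3 : x l = sg (decide (0 ≤ x l)) * |x l| := by
      unfold sg
      by_cases hx : 0 ≤ x l
      · rw [decide_eq_true hx, abs_of_nonneg hx]
        simp
      · rw [decide_eq_false hx, abs_of_neg (not_le.1 hx)]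
        simp
    have h4 : |x l| = (N * ((ba m a b l : ℤ) : ℝ) + ((ep m a b : ℤ) : ℝ) * (N * g l)) / m := by
      have h5 : m * |x l| / N = ((ba m a b l : ℤ) : ℝ) + ((ep m a b : ℤ) : ℝ) * g l := h2
      rw [eq_div_iff hm0.ne']
      rw [div_eq_iff h0.ne'] at h5
      linear_combination h5
    show x l = sg (decide (0 ≤ x l)) * (N * ((ba m a b l : ℤ) : ℝ) +
      ((ep m a b : ℤ) : ℝ) * (N * g l)) / m
    rw [mul_div_assoc, ← h4, ← h3]

private theorem disj {m : ℕ} (hm : 1 ≤ m) (c c' : (Fin 3 → Bool) × Fin m × Fin m)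
    (t t' : Fin 3 → ℝ) (ht : ∀ k, 0 < t k) (ht' : ∀ k, 0 ≤ t' k)
    (h : ∑ k, t k • vx m c k = ∑ k, t' k • vx m c' k) : c = c' := by
  have hm0 : (0 : ℝ) < m := by
    have : (1 : ℝ) ≤ m := by exact_mod_cast hm
    linarith
  obtain ⟨σ, a, b⟩ := c
  obtain ⟨σ', a', b'⟩ := c'
  obtain ⟨T, hT⟩ : ∃ T : ℝ, T = t 0 + t 1 + t 2 := ⟨_, rfl⟩
  obtain ⟨T', hT'⟩ : ∃ T' : ℝ, T' = t' 0 + t' 1 + t' 2 := ⟨_, rfl⟩
  have q0 := ht 0
  have q1 := ht 1
  have q2 := ht 2
  have q0' := ht' 0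
  have q1' := ht' 1
  have q2' := ht' 2
  have hlt : ∀ l, t l < T := by
    intro l
    fin_cases l
    · show t 0 < T
      linarith
    · show t 1 < T
      linarith
    · show t 2 < T
      linarith
  have hle : ∀ l, t' l ≤ T' := by
    intro l
    fin_cases l
    · show t' 0 ≤ T'
      linarith
    · show t' 1 ≤ T'
      linarith
    · show t' 2 ≤ T'
      linarith
  have hT0 : 0 < T := by linarith
  have hT0' : 0 ≤ T' := by linarith
  -- the coordinates
  obtain ⟨u, hu⟩ : ∃ u : Fin 3 → ℝ, ∀ l, u l = T * ((ba m a b l : ℤ) : ℝ) +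
      ((ep m a b : ℤ) : ℝ) * t l := ⟨_, fun _ => rfl⟩
  obtain ⟨u', hu'⟩ : ∃ u' : Fin 3 → ℝ, ∀ l, u' l = T' * ((ba m a' b' l : ℤ) : ℝ) +
      ((ep m a' b' : ℤ) : ℝ) * t' l := ⟨_, fun _ => rfl⟩
  have hupos : ∀ l, 0 < u l := by
    intro l
    rw [hu]
    rcases ep_cases m a b with h1 | h1
    · have h2 := (ba_up h1).2.2.2 l
      have h3 : (0 : ℝ) ≤ ((ba m a b l : ℤ) : ℝ) := by exact_mod_cast h2
      rw [h1]
      push_cast
      have := mul_nonneg hT0.le h3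
      have := ht l
      linarith
    · have h2 := (ba_down a.2 b.2 h1).2.2 l
      have h3 : (1 : ℝ) ≤ ((ba m a b l : ℤ) : ℝ) := by exact_mod_cast h2
      rw [h1]
      push_cast
      have h4 : T * 1 ≤ T * ((ba m a b l : ℤ) : ℝ) := mul_le_mul_of_nonneg_left h3 hT0.le
      have := hlt l
      linarith
  have hupos' : ∀ l, 0 ≤ u' l := by
    intro l
    rw [hu']
    rcases ep_cases m a' b' with h1 | h1
    · have h2 := (ba_up h1).2.2.2 l
      have h3 : (0 : ℝ) ≤ ((ba m a' b' l : ℤ) : ℝ) := by exact_mod_cast h2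
      rw [h1]
      push_cast
      have := mul_nonneg hT0' h3
      have := ht' l
      linarith
    · have h2 := (ba_down a'.2 b'.2 h1).2.2 l
      have h3 : (1 : ℝ) ≤ ((ba m a' b' l : ℤ) : ℝ) := by exact_mod_cast h2
      rw [h1]
      push_cast
      have h4 : T' * 1 ≤ T' * ((ba m a' b' l : ℤ) : ℝ) := mul_le_mul_of_nonneg_left h3 hT0'
      have := hle l
      linarith
  have heq : ∀ l, sg (σ l) * u l = sg (σ' l) * u' l := by
    intro l
    have h1 : (∑ k, t k • vx m (σ, a, b) k) l = (∑ k, t' k • vx m (σ', a', b') k) l := by rw [h]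
    rw [comb_coord, comb_coord, ← hT, ← hT'] at h1
    have h2 : sg (σ l) * (T * ((ba m a b l : ℤ) : ℝ) + ((ep m a b : ℤ) : ℝ) * t l) / m =
        sg (σ' l) * (T' * ((ba m a' b' l : ℤ) : ℝ) + ((ep m a' b' : ℤ) : ℝ) * t' l) / m := h1
    rw [← hu, ← hu', div_left_inj' hm0.ne'] at h2
    exact h2
  have hsg : ∀ l, σ l = σ' l ∧ u l = u' l := by
    intro l
    have h1 := heq l
    have h2 := hupos l
    have h3 := hupos' l
    unfold sg at h1
    cases h4 : σ l <;> cases h5 : σ' l <;> rw [h4, h5] at h1 <;>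
      simp only [Bool.false_eq_true, if_true, if_false] at h1
    · exact ⟨rfl, by linarith⟩
    · exfalso
      linarith
    · exfalso
      linarith
    · exact ⟨rfl, by linarith⟩
  have hσ : σ = σ' := funext fun l => (hsg l).1
  have huu : ∀ l, T * ((ba m a b l : ℤ) : ℝ) + ((ep m a b : ℤ) : ℝ) * t l =
      T' * ((ba m a' b' l : ℤ) : ℝ) + ((ep m a' b' : ℤ) : ℝ) * t' l := by
    intro l
    rw [← hu, ← hu']
    exact (hsg l).2
  have hTT : T = T' := by
    have h1 := huu 0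
    have h2 := huu 1
    have h3 := huu 2
    have h4 := ba_sum' m a b
    have h5 := ba_sum' m a' b'
    have h6 : T * m = T' * m := by
      have e1 : T * (((ba m a b 0 : ℤ) : ℝ) + ((ba m a b 1 : ℤ) : ℝ) + ((ba m a b 2 : ℤ) : ℝ)) +
          ((ep m a b : ℤ) : ℝ) * T =
          T' * (((ba m a' b' 0 : ℤ) : ℝ) + ((ba m a' b' 1 : ℤ) : ℝ) +
            ((ba m a' b' 2 : ℤ) : ℝ)) + ((ep m a' b' : ℤ) : ℝ) * T' := by
        rw [hT, hT'] at h1 h2 h3 ⊢
        linear_combination h1 + h2 + h3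
      rw [h4, h5] at e1
      linear_combination e1
    exact mul_right_cancel₀ hm0.ne' h6
  rw [← hTT] at huu hle
  -- integers
  have hint : ∀ (d : ℤ), -T < T * (d : ℝ) → T * (d : ℝ) < T → d = 0 := by
    intro d h1 h2
    have h3 : (-1 : ℝ) < d := by
      by_contra hc
      push Not at hc
      have := mul_le_mul_of_nonneg_left hc hT0.le
      linarith
    have h4 : (d : ℝ) < 1 := by
      by_contra hc
      push Not at hc
      have := mul_le_mul_of_nonneg_left hc hT0.le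
      linarith
    have h5 : (-1 : ℤ) < d := by exact_mod_cast h3
    have h6 : d < (1 : ℤ) := by exact_mod_cast h4
    omega
  have hint2 : ∀ (d : ℤ), 0 < T * (d : ℝ) → T * (d : ℝ) < 2 * T → d = 1 := by
    intro d h1 h2
    have h3 : (0 : ℝ) < d := by
      by_contra hc
      push Not at hc
      have := mul_le_mul_of_nonneg_left hc hT0.le
      linarith
    have h4 : (d : ℝ) < 2 := by
      by_contra hc
      push Not at hc
      have := mul_le_mul_of_nonneg_left hc hT0.le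
      linarith
    have h5 : (0 : ℤ) < d := by exact_mod_cast h3
    have h6 : d < (2 : ℤ) := by exact_mod_cast h4
    omega
  have hfin : ep m a b = ep m a' b' → (∀ l, ba m a b l = ba m a' b' l) →
      ((σ, a, b) : (Fin 3 → Bool) × Fin m × Fin m) = (σ', a', b') := by
    intro h1 h2
    have h3 : a = a' ∧ b = b' := by
      rcases ep_cases m a b with h4 | h4
      · have h5 := ba_up h4
        rw [h1] at h4
        have h6 := ba_up h4
        have e1 := h2 0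
        have e2 := h2 1
        rw [h5.2.1, h6.2.1] at e1
        rw [h5.2.2.1, h6.2.2.1] at e2
        exact ⟨Fin.ext (by exact_mod_cast e1), Fin.ext (by exact_mod_cast e2)⟩
      · have h5 := ba_down a.2 b.2 h4
        rw [h1] at h4
        have h6 := ba_down a'.2 b'.2 h4
        have e1 := h2 0
        have e2 := h2 1
        rw [h5.1, h6.1] at e1
        rw [h5.2.1, h6.2.1] at e2
        exact ⟨Fin.ext (by omega), Fin.ext (by omega)⟩
    rw [hσ, h3.1, h3.2]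
  rcases ep_cases m a b with h1 | h1 <;> rcases ep_cases m a' b' with h2 | h2
  · refine hfin (h1.trans h2.symm) fun l => ?_
    have h3 := huu l
    rw [h1, h2] at h3
    push_cast at h3
    have h4 := ht l
    have h5 := hlt l
    have h6 := ht' l
    have h7 := hle l
    have h8 := hint (ba m a b l - ba m a' b' l) (by push_cast; linarith) (by push_cast; linarith)
    omega
  · exfalso
    have h3 : ∀ l, t l + t' l = T := by
      intro l
      have h3 := huu l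
      rw [h1, h2] at h3
      push_cast at h3
      have h4 := ht l
      have h5 := hlt l
      have h6 := ht' l
      have h7 := hle l
      have h8 := hint2 (ba m a' b' l - ba m a b l) (by push_cast; linarith)
        (by push_cast; linarith)
      have h9 : ((ba m a' b' l : ℤ) : ℝ) - ((ba m a b l : ℤ) : ℝ) = 1 := by exact_mod_cast h8
      have h10 : T * (((ba m a' b' l : ℤ) : ℝ) - ((ba m a b l : ℤ) : ℝ)) = T := by
        rw [h9, mul_one]
      linarith
    have e0 := h3 0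
    have e1 := h3 1
    have e2 := h3 2
    linarith
  · exfalso
    have h3 : ∀ l, t l + t' l = T := by
      intro l
      have h3 := huu l
      rw [h1, h2] at h3
      push_cast at h3
      have h4 := ht l
      have h5 := hlt l
      have h6 := ht' l
      have h7 := hle l
      have h8 := hint2 (ba m a b l - ba m a' b' l) (by push_cast; linarith)
        (by push_cast; linarith)
      have h9 : ((ba m a b l : ℤ) : ℝ) - ((ba m a' b' l : ℤ) : ℝ) = 1 := by exact_mod_cast h8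
      have h10 : T * (((ba m a b l : ℤ) : ℝ) - ((ba m a' b' l : ℤ) : ℝ)) = T := by
        rw [h9, mul_one]
      linarith
    have e0 := h3 0
    have e1 := h3 1
    have e2 := h3 2
    linarith
  · refine hfin (h1.trans h2.symm) fun l => ?_
    have h3 := huu l
    rw [h1, h2] at h3
    push_cast at h3
    have h4 := ht l
    have h5 := hlt l
    have h6 := ht' l
    have h7 := hle l
    have h8 := hint (ba m a b l - ba m a' b' l) (by push_cast; linarith) (by push_cast; linarith)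
    omega

theorem oct (m : ℕ) (hm : 1 ≤ m) : ∃ (K : ℕ) (X : Fin K → Fin 3 → E3), K ≤ 8 * m ^ 2 ∧
    (∀ c, Trip m (X c)) ∧
    (∀ x : E3, ∃ c, ∃ t : Fin 3 → ℝ, (∀ k, 0 ≤ t k) ∧ x = ∑ k, t k • X c k) ∧
    (∀ c c' (t t' : Fin 3 → ℝ), (∀ k, 0 < t k) → (∀ k, 0 ≤ t' k) →
      ∑ k, t k • X c k = ∑ k, t' k • X c' k → c = c') := by
  obtain ⟨e⟩ : Nonempty ((Fin 3 → Bool) × Fin m × Fin m ≃
      Fin (Fintype.card ((Fin 3 → Bool) × Fin m × Fin m))) := ⟨Fintype.equivFin _⟩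
  refine ⟨Fintype.card ((Fin 3 → Bool) × Fin m × Fin m), fun c => vx m (e.symm c), ?_,
    fun c => ⟨fun k => (vx_norm hm _ k).1, fun k => (vx_norm hm _ k).2, fun k l =>
      vx_diam hm _ k l, vx_det hm _⟩, fun x => ?_, fun c c' t t' ht ht' h => ?_⟩
  · simp only [Fintype.card_prod, Fintype.card_fin, Fintype.card_pi, Fintype.card_bool,
      Finset.prod_const, Finset.card_univ]
    have : m * m = m ^ 2 := by ring
    rw [this]
    norm_num
  · obtain ⟨c, t, ht, hx⟩ := cover hm x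
    refine ⟨e c, t, ht, ?_⟩
    show x = ∑ k, t k • vx m (e.symm (e c)) k
    rw [e.symm_apply_apply]
    exact hx
  · exact e.symm.injective (disj hm _ _ t t' ht ht' h)

end Pool.Agent.LE60
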