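import Pool.Agent.LE60.Defs

/-!
# LE60/Simp: area of triangles

PROOF of `area_tri`: `tri p q r = p + L (S)`, `S = {(x, y) : x, y ≥ 0, x + y ≤ 1}` (convex hull of three points),
`L (x, y) = x (q - p) + y (r - p)`, real linear map `ℝ² → ℂ ≅ ℝ²` with determinant
`± ((q-p) conj (r-p)).im`; `volume S = 1/2` (region under a graph / `∫_0^1 (1-x) dx`);
`MeasureTheory.Measure.addHaar_image_linearMap`, translation invariance,
`Complex.volume_preserving_equiv_real_prod`. If the determinant is 0 the triangle lies in a line.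
* `mem_tri`: barycentric coordinates: `convexHull_insert`/`mem_convexHull_iff_…`, or
  `Finset.mem_convexHull`.
* `zero_ball_tri`: let `z` with `|z| ≤ 2 a t/d`. Let `λ_k(z)` be the barycentric coordinates (affine
  functions, `λ_0(z) = ((P 1 - z) × (P 2 - z))/((P 1 - P 0) × (P 2 - P 0))` etc., `×` = `Im (conj · *)`).
  `λ_k(z) - λ_k(0)` is linear in `z` with `|λ_k(z) - λ_k(0)| ≤ |z| |P i - P j|/(2 a) ≤ |z| d/(2a) ≤ t ≤ λ_k(0)`.
  So `λ_k(z) ≥ 0` and `z ∈ tri`. Here `2 a = |(P 1 - P 0) × (P 2 - P 0)|`.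
-/

set_option autoImplicit false

namespace Pool.Agent.LE60

open MeasureTheory
open scoped ComplexConjugate

theorem mem_tri (p q r z : ℂ) : z ∈ tri p q r ↔
    ∃ a b c : ℝ, 0 ≤ a ∧ 0 ≤ b ∧ 0 ≤ c ∧ a + b + c = 1 ∧ z = a * p + b * q + c * r := by
  constructor
  · intro h
    have hmin : convexHull ℝ ({p, q, r} : Set ℂ) ⊆ {z : ℂ | ∃ a b c : ℝ, 0 ≤ a ∧ 0 ≤ b ∧ 0 ≤ c ∧
        a + b + c = 1 ∧ z = a * p + b * q + c * r} := by
      apply convexHull_min
      · rintro w hw
        rcases hw with rfl | rfl | rfl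
        · exact ⟨1, 0, 0, by norm_num, le_rfl, le_rfl, by norm_num, by push_cast; ring⟩
        · exact ⟨0, 1, 0, le_rfl, by norm_num, le_rfl, by norm_num, by push_cast; ring⟩
        · exact ⟨0, 0, 1, le_rfl, le_rfl, by norm_num, by norm_num, by push_cast; ring⟩
      · rintro w ⟨a, b, c, ha, hb, hc, hs, rfl⟩ w' ⟨a', b', c', ha', hb', hc', hs', rfl⟩ s s' h1 h2 h3
        refine ⟨s * a + s' * a', s * b + s' * b', s * c + s' * c', by positivity, by positivity,
          by positivity, ?_, ?_⟩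
        · calc s * a + s' * a' + (s * b + s' * b') + (s * c + s' * c')
              = s * (a + b + c) + s' * (a' + b' + c') := by ring
            _ = 1 := by rw [hs, hs', mul_one, mul_one, h3]
        · rw [Complex.real_smul, Complex.real_smul]
          push_cast
          ring
    exact hmin h
  · rintro ⟨a, b, c, ha, hb, hc, hs, rfl⟩
    have h := (convex_convexHull ℝ ({p, q, r} : Set ℂ)).sum_mem (t := Finset.univ)
      (w := ![a, b, c]) (z := ![p, q, r])
      (by
        intro i _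
        fin_cases i
        · exact ha
        · exact hb
        · exact hc)
      (by rw [Fin.sum_univ_three]; exact hs)
      (by
        intro i _
        fin_cases i
        · exact subset_convexHull ℝ _ (by simp)
        · exact subset_convexHull ℝ _ (by simp)
        · exact subset_convexHull ℝ _ (by simp))
    rw [Fin.sum_univ_three] at h
    have e : ((![a, b, c] 0 : ℝ) • (![p, q, r] 0 : ℂ) + (![a, b, c] 1 : ℝ) • (![p, q, r] 1 : ℂ)
        + (![a, b, c] 2 : ℝ) • (![p, q, r] 2 : ℂ)) = a * p + b * q + c * r := by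
      show a • p + b • q + c • r = _
      rw [Complex.real_smul, Complex.real_smul, Complex.real_smul]
    rw [e] at h
    exact h

/-- the standard triangle -/
private theorem vol_std : volume {z : ℝ × ℝ | 0 ≤ z.1 ∧ 0 ≤ z.2 ∧ z.1 + z.2 ≤ 1} =
    ENNReal.ofReal (1 / 2) := by
  have hm : MeasurableSet {z : ℝ × ℝ | 0 ≤ z.1 ∧ 0 ≤ z.2 ∧ z.1 + z.2 ≤ 1} := by
    apply IsClosed.measurableSet
    apply IsClosed.inter (isClosed_le continuous_const continuous_fst)
    exact IsClosed.inter (isClosed_le continuous_const continuous_snd)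
      (isClosed_le (continuous_fst.add continuous_snd) continuous_const)
  rw [Measure.volume_eq_prod, Measure.prod_apply hm]
  have h1 : ∀ x : ℝ, volume (Prod.mk x ⁻¹' {z : ℝ × ℝ | 0 ≤ z.1 ∧ 0 ≤ z.2 ∧ z.1 + z.2 ≤ 1}) =
      (Set.Icc (0 : ℝ) 1).indicator (fun x => ENNReal.ofReal (1 - x)) x := by
    intro x
    by_cases hx : x ∈ Set.Icc (0 : ℝ) 1
    · rw [Set.indicator_of_mem hx]
      have e : Prod.mk x ⁻¹' {z : ℝ × ℝ | 0 ≤ z.1 ∧ 0 ≤ z.2 ∧ z.1 + z.2 ≤ 1} =
          Set.Icc 0 (1 - x) := by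
        ext y
        simp only [Set.mem_preimage, Set.mem_ofPred_eq, Set.mem_Icc]
        constructor
        · rintro ⟨_, h2, h3⟩
          exact ⟨h2, by linarith⟩
        · rintro ⟨h2, h3⟩
          exact ⟨hx.1, h2, by linarith⟩
      rw [e, Real.volume_Icc, sub_zero]
    · rw [Set.indicator_of_notMem hx]
      have e : Prod.mk x ⁻¹' {z : ℝ × ℝ | 0 ≤ z.1 ∧ 0 ≤ z.2 ∧ z.1 + z.2 ≤ 1} = ∅ := by
        ext y
        simp only [Set.mem_preimage, Set.mem_ofPred_eq, Set.mem_empty_iff_false, iff_false]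
        rintro ⟨h1, h2, h3⟩
        exact hx ⟨h1, by linarith⟩
      rw [e, measure_empty]
  rw [lintegral_congr h1, lintegral_indicator measurableSet_Icc,
    ← ofReal_integral_eq_lintegral_ofReal]
  · congr 1
    rw [integral_Icc_eq_integral_Ioc, ← intervalIntegral.integral_of_le zero_le_one]
    rw [intervalIntegral.integral_sub (by simp) (by simp), integral_id]
    simp
    norm_num
  · exact (continuous_const.sub continuous_id).integrableOn_Icc
  · rw [Filter.EventuallyLE, ae_restrict_iff' measurableSet_Icc]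
    exact Filter.Eventually.of_forall fun x hx => sub_nonneg.2 hx.2

private theorem vol_std' : volume {z : ℂ | 0 ≤ z.re ∧ 0 ≤ z.im ∧ z.re + z.im ≤ 1} =
    ENNReal.ofReal (1 / 2) := by
  rw [← vol_std, ← Complex.volume_preserving_equiv_real_prod.measure_preimage_equiv]
  rfl

theorem area_tri (p q r : ℂ) : area (tri p q r) = |((q - p) * conj (r - p)).im| / 2 := by
  set L : ℂ →ₗ[ℝ] ℂ := Complex.reLm.smulRight (q - p) + Complex.imLm.smulRight (r - p) with hL
  have hLz : ∀ z : ℂ, L z = z.re * (q - p) + z.im * (r - p) := by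
    intro z
    rw [hL]
    simp
  have hdet : LinearMap.det L = (q - p).re * (r - p).im - (r - p).re * (q - p).im := by
    rw [← LinearMap.det_toMatrix Complex.basisOneI, Matrix.det_fin_two]
    simp only [LinearMap.toMatrix_apply, hLz]
    simp
  have himg : tri p q r = (fun z => p + z) '' (L '' {z : ℂ | 0 ≤ z.re ∧ 0 ≤ z.im ∧ z.re + z.im ≤ 1}) := by
    ext w
    rw [mem_tri]
    constructor
    · rintro ⟨a, b, c, ha, hb, hc, hs, rfl⟩
      refine ⟨L ⟨b, c⟩, ⟨⟨b, c⟩, ⟨hb, hc, by show b + c ≤ 1; linarith⟩, rfl⟩, ?_⟩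
      show p + L ⟨b, c⟩ = _
      rw [hLz]
      have : (a : ℂ) = 1 - b - c := by
        have h1 : a = 1 - b - c := by linarith
        rw [h1]
        push_cast
        ring
      rw [this]
      ring
    · rintro ⟨_, ⟨z, ⟨h1, h2, h3⟩, rfl⟩, rfl⟩
      refine ⟨1 - z.re - z.im, z.re, z.im, by linarith, h1, h2, by ring, ?_⟩
      show p + L z = _
      rw [hLz]
      push_cast
      ring
  have hv : volume (tri p q r) = ENNReal.ofReal (|LinearMap.det L| * (1 / 2)) := by
    rw [himg, Set.image_add_left, measure_preimage_add, Measure.addHaar_image_linearMap, vol_std',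
      ← ENNReal.ofReal_mul (abs_nonneg _)]
  rw [area, hv, ENNReal.toReal_ofReal (by positivity), hdet]
  have e : ((q - p) * conj (r - p)).im = -((q - p).re * (r - p).im - (r - p).re * (q - p).im) := by
    simp only [Complex.mul_im, Complex.conj_re, Complex.conj_im]
    ring
  rw [e, abs_neg]
  ring

theorem zero_ball_tri (p q r : ℂ) {x y z a d t : ℝ} (hx : t ≤ x) (hy : t ≤ y) (hz : t ≤ z)
    (hsum : x + y + z = 1) (h0 : (x : ℂ) * p + y * q + z * r = 0) (ha : 0 < a) (hd : 0 < d)
    (ht : 0 ≤ t) (harea : a ≤ area (tri p q r)) (hpq : ‖q - p‖ ≤ d) (hpr : ‖r - p‖ ≤ d)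
    (hqr : ‖r - q‖ ≤ d) : Metric.closedBall 0 (2 * a * t / d) ⊆ tri p q r := by
  intro w hw
  rw [mem_closedBall_zero_iff] at hw
  rw [area_tri] at harea
  set Δ : ℝ := ((q - p) * conj (r - p)).im with hΔ
  have hΔ1 : 2 * a ≤ |Δ| := by linarith
  have hΔ0 : 0 < |Δ| := by linarith
  have hΔne : Δ ≠ 0 := abs_pos.1 hΔ0
  have key : ∀ u : ℂ, ‖u‖ ≤ d → |(w * conj u).im / Δ| ≤ t := by
    intro u hu
    rw [abs_div, div_le_iff₀ hΔ0]
    calc |(w * conj u).im| ≤ ‖w * conj u‖ := Complex.abs_im_le_norm _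
      _ = ‖w‖ * ‖u‖ := by rw [norm_mul, RCLike.norm_conj]
      _ ≤ (2 * a * t / d) * d := mul_le_mul hw hu (norm_nonneg _) (by positivity)
      _ = t * (2 * a) := by field_simp
      _ ≤ t * |Δ| := mul_le_mul_of_nonneg_left hΔ1 ht
  have k1 := abs_le.1 (key _ hpr)
  have k2 := abs_le.1 (key _ hpq)
  have k3 := abs_le.1 (key _ hqr)
  set B : ℝ := (w * conj (r - p)).im / Δ with hB
  set C : ℝ := (w * conj (q - p)).im / Δ with hC
  set A : ℝ := (w * conj (r - q)).im / Δ with hA
  have hABC : A = B - C := by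
    rw [hA, hB, hC, ← sub_div, ← Complex.sub_im]
    congr 2
    rw [← mul_sub, ← map_sub]
    congr 2
    ring
  rw [mem_tri]
  refine ⟨x - A, y + B, z - C, by linarith [k3.2], by linarith [k1.1], by linarith [k2.2],
    by rw [hABC]; linarith, ?_⟩
  have hw2 : (Δ : ℂ) * w = (w * conj (r - p)).im * (q - p) - (w * conj (q - p)).im * (r - p) := by
    apply Complex.ext
    · simp only [hΔ, Complex.mul_re, Complex.sub_re, Complex.mul_im, Complex.conj_re,
        Complex.conj_im, Complex.ofReal_re, Complex.ofReal_im, Complex.sub_im]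
      ring
    · simp only [hΔ, Complex.mul_re, Complex.sub_re, Complex.mul_im, Complex.conj_re,
        Complex.conj_im, Complex.ofReal_re, Complex.ofReal_im, Complex.sub_im]
      ring
  have hΔc : (Δ : ℂ) ≠ 0 := by exact_mod_cast hΔne
  have hw3 : w = B * (q - p) - C * (r - p) := by
    apply mul_left_cancel₀ hΔc
    rw [hw2, hB, hC]
    push_cast
    field_simp
  have hw4 : ((x - A : ℝ) : ℂ) * p + ((y + B : ℝ) : ℂ) * q + ((z - C : ℝ) : ℂ) * r =
      (x * p + y * q + z * r) + (B * (q - p) - C * (r - p)) := by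
    rw [hABC]
    push_cast
    ring
  rw [hw4, h0, zero_add]
  exact hw3

theorem tri_subset_ball (p q r : ℂ) {R : ℝ} (hp : ‖p‖ ≤ R) (hq : ‖q‖ ≤ R) (hr : ‖r‖ ≤ R) :
    tri p q r ⊆ Metric.closedBall 0 R := by
  apply convexHull_min _ (convex_closedBall _ _)
  rintro w (rfl | rfl | rfl)
  · rwa [mem_closedBall_zero_iff]
  · rwa [mem_closedBall_zero_iff]
  · rwa [mem_closedBall_zero_iff]

theorem smul_mem_tri {p q r z : ℂ} (h0 : (0 : ℂ) ∈ tri p q r) (hz : z ∈ tri p q r) {t : ℝ}
    (ht : 0 ≤ t) (ht1 : t ≤ 1) : (t : ℂ) * z ∈ tri p q r := by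
  have h := (convex_convexHull ℝ ({p, q, r} : Set ℂ)) hz h0 ht (sub_nonneg.2 ht1) (by ring)
  rw [smul_zero, add_zero, Complex.real_smul] at h
  exact h

/-- scaling a triangle -/
theorem mem_tri_smul {p q r z : ℂ} {t : ℝ} (ht : 0 < t) :
    z ∈ tri (t * p) (t * q) (t * r) ↔ ((1 / t : ℝ) : ℂ) * z ∈ tri p q r := by
  have htc : (t : ℂ) ≠ 0 := by exact_mod_cast ht.ne'
  rw [mem_tri, mem_tri]
  constructor
  · rintro ⟨a, b, c, ha, hb, hc, hs, rfl⟩
    refine ⟨a, b, c, ha, hb, hc, hs, ?_⟩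
    push_cast
    field_simp
  · rintro ⟨a, b, c, ha, hb, hc, hs, h⟩
    refine ⟨a, b, c, ha, hb, hc, hs, ?_⟩
    have h2 : z = t * (((1 / t : ℝ) : ℂ) * z) := by
      push_cast
      field_simp
    rw [h2, h]
    ring

/-- the reference triangle `0, S, i S` is fat -/
theorem fat_ref {S : ℝ} (hS : 0 < S) : Fat S (tri 0 (S : ℂ) (S * Complex.I)) := by
  refine ⟨convex_convexHull ℝ _, ?_, ((S / 4 : ℝ) : ℂ) + ((S / 4 : ℝ) : ℂ) * Complex.I, ?_, ?_⟩
  · exact ((Set.toFinite ({0, (S : ℂ), S * Complex.I} : Set ℂ)).isCompact_convexHull ℝ).isClosed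
  · intro z hz
    rw [Metric.mem_closedBall, dist_eq_norm] at hz
    have h1 := (Complex.abs_re_le_norm _).trans hz
    have h2 := (Complex.abs_im_le_norm _).trans hz
    have e1 : (z - (((S / 4 : ℝ) : ℂ) + ((S / 4 : ℝ) : ℂ) * Complex.I)).re = z.re - S / 4 := by
      simp
    have e2 : (z - (((S / 4 : ℝ) : ℂ) + ((S / 4 : ℝ) : ℂ) * Complex.I)).im = z.im - S / 4 := by
      simp
    rw [e1] at h1
    rw [e2] at h2
    have h1' := abs_le.1 h1
    have h2' := abs_le.1 h2
    rw [mem_tri]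
    have hSc : (S : ℂ) ≠ 0 := by exact_mod_cast hS.ne'
    refine ⟨1 - z.re / S - z.im / S, z.re / S, z.im / S, ?_, ?_, ?_, by ring, ?_⟩
    · have : 1 - z.re / S - z.im / S = (S - z.re - z.im) / S := by field_simp
      rw [this]
      apply div_nonneg _ hS.le
      linarith [h1'.2, h2'.2]
    · apply div_nonneg _ hS.le
      linarith [h1'.1]
    · apply div_nonneg _ hS.le
      linarith [h2'.1]
    · rw [mul_zero, zero_add]
      push_cast
      rw [div_mul_cancel₀ _ hSc, ← mul_assoc, div_mul_cancel₀ _ hSc]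
      exact (Complex.re_add_im z).symm
  · apply convexHull_min _ (convex_closedBall _ _)
    have hnorm : ∀ w : ℂ, |w.re| ≤ 3 / 4 * S → |w.im| ≤ 1 / 4 * S → ‖w‖ ≤ S := by
      intro w hw1 hw2
      exact (Complex.norm_le_abs_re_add_abs_im w).trans (by linarith)
    have hnorm' : ∀ w : ℂ, |w.re| ≤ 1 / 4 * S → |w.im| ≤ 3 / 4 * S → ‖w‖ ≤ S := by
      intro w hw1 hw2
      exact (Complex.norm_le_abs_re_add_abs_im w).trans (by linarith)
    rintro w (rfl | rfl | rfl)
    · rw [Metric.mem_closedBall, dist_eq_norm]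
      apply hnorm
      · rw [abs_le]; constructor <;> simp <;> linarith
      · rw [abs_le]; constructor <;> simp <;> linarith
    · rw [Metric.mem_closedBall, dist_eq_norm]
      apply hnorm
      · rw [abs_le]; constructor <;> simp <;> linarith
      · rw [abs_le]; constructor <;> simp <;> linarith
    · rw [Metric.mem_closedBall, dist_eq_norm]
      apply hnorm'
      · rw [abs_le]; constructor <;> simp <;> linarith
      · rw [abs_le]; constructor <;> simp <;> linarith

end Pool.Agent.LE60
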