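import Pool.Agent.LE60.Gno
import Pool.Agent.LE60.Oct
import Pool.Agent.LE60.Simp

/-!
# LE60/Cen: the centre of a triple and the planar triangle attached to it

PROOFS. `m ≥ 40`, `X` a triple of mesh `1/m`.
* `exists_cen`: `X̄ = (X 0 + X 1 + X 2)/3`, `‖X k - X̄‖ ≤ (1/3) ∑_l ‖X k - X l‖ ≤ (1/3) · 2 · (3/(2m)) = 1/m`,
  `‖X̄‖ ≥ 57/100 - 1/m > 0`. `p` unit with `hopf p = X̄/‖X̄‖` (`exists_hopf`). `hgt p (X k) = ⟨X k, X̄/‖X̄‖⟩
  = ‖X̄‖ + ⟨X k - X̄, X̄/‖X̄‖⟩ ≥ 57/100 - 2/m ≥ 1/2`, and `≤ ‖X k‖ ≤ 1`. `ell p X̄ = ‖X̄‖ ell p (hopf p) = 0`, so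
  `∑ ell p (X k) = 0` and `‖ell p (X k)‖ = ‖ell p (X k - X̄)‖ ≤ ‖X k - X̄‖ ≤ 1/m` (`ell_hgt_norm`).
* `Cen.ball_out`: `‖P k‖ = ‖ell‖/hgt ≤ 2/m`; `tri_subset_ball`.
* `Cen.area_eq`: `area (tri P0 P1 P2) = |((P1-P0) conj (P2-P0)).im|/2` (`area_tri`), and
  `det [Re ell_k, Im ell_k, hgt_k]_k = ∏ hgt_k det [Re P_k, Im P_k, 1]_k`, `|det [Re P, Im P, 1]| = |((P1-P0) conj (P2-P0)).im|`;
  `ell_det` and `Trip.det`: `area = 1/(2 m² ∏ hgt_k)`; in particular `≥ 1/(2m²)`.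
* `Cen.ball_in`: `zero_ball_tri` with `x, y, z = hgt_k/∑ hgt ≥ 1/6 =: t` (`∑ hgt_k P_k = ∑ ell_k = 0`), `a = 1/(2m²)`,
  `d = 4/m`: radius `2 a t/d = (1/m²)(1/6)(m/4) = 1/(24 m)`.
* `cone_iff` (→): `x = ∑ t_k X_k`, `t_k ≥ 0`, `hgt p x > 0`: `ell p x/hgt p x = ∑ (t_k hgt_k/hgt p x) P_k`, a convex combination.
  (←): `ell p x/hgt p x = ∑ λ_k P_k`, `λ_k ≥ 0`, `∑ λ_k = 1`; `t_k = λ_k hgt p x/hgt_k`; `ell`, `hgt` of `∑ t_k X_k` agree with those of `x`
  (`ell_hgt_inj`).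
* `cone_pos`: for `x` in the cone, `x ≠ 0`, `hgt p x = ∑ t_k hgt_k > 0`.
* `open_cone`: if `ell p x/hgt p x =: z` has a ball around it inside the triangle, its barycentric coordinates are strictly
  positive, so all `t_k > 0`.
-/

set_option autoImplicit false

namespace Pool.Agent.LE60

/-- `p` is (a lift of) the centre of the triple `X` -/
structure Cen (m : ℕ) (p : ℂ × ℂ) (X : Fin 3 → E3) : Prop where
  unit : Unit2 p
  trip : Trip m X
  sum : ∑ k, ell p (X k) = 0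
  lo : ∀ k, 1 / 2 ≤ hgt p (X k)
  hi : ∀ k, hgt p (X k) ≤ 1
  small : ∀ k, ‖ell p (X k)‖ ≤ 1 / m

/-- vertices of the planar triangle -/
noncomputable def PP (p : ℂ × ℂ) (X : Fin 3 → E3) (k : Fin 3) : ℂ :=
  ell p (X k) / (hgt p (X k) : ℂ)

/-- planar triangle -/
noncomputable def TT (p : ℂ × ℂ) (X : Fin 3 → E3) : Set ℂ := tri (PP p X 0) (PP p X 1) (PP p X 2)

private theorem ell_add' (p : ℂ × ℂ) (x y : E3) : ell p (x + y) = ell p x + ell p y := by
  unfold ell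
  simp only [PiLp.add_apply, Complex.ofReal_add]
  ring

private theorem ell_smul' (p : ℂ × ℂ) (t : ℝ) (x : E3) : ell p (t • x) = (t : ℂ) * ell p x := by
  unfold ell
  simp only [PiLp.smul_apply, smul_eq_mul, Complex.ofReal_mul]
  ring

private theorem hgt_add' (p : ℂ × ℂ) (x y : E3) : hgt p (x + y) = hgt p x + hgt p y := by
  unfold hgt
  rw [← Finset.sum_add_distrib]
  refine Finset.sum_congr rfl fun k _ => ?_
  simp only [PiLp.add_apply]
  ring

private theorem hgt_smul' (p : ℂ × ℂ) (t : ℝ) (x : E3) : hgt p (t • x) = t * hgt p x := by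
  unfold hgt
  rw [Finset.mul_sum]
  refine Finset.sum_congr rfl fun k _ => ?_
  simp only [PiLp.smul_apply, smul_eq_mul]
  ring

private theorem ell_le {p : ℂ × ℂ} (hp : Unit2 p) (x : E3) : ‖ell p x‖ ≤ ‖x‖ := by
  have h := ell_hgt_norm hp x
  have h2 : ‖ell p x‖ ^ 2 ≤ ‖x‖ ^ 2 := by nlinarith [sq_nonneg (hgt p x)]
  exact le_of_sq_le_sq h2 (norm_nonneg _)

private theorem hgt_le {p : ℂ × ℂ} (hp : Unit2 p) (x : E3) : |hgt p x| ≤ ‖x‖ := by
  have h := ell_hgt_norm hp x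
  have h2 : |hgt p x| ^ 2 ≤ ‖x‖ ^ 2 := by
    rw [sq_abs]
    nlinarith [sq_nonneg ‖ell p x‖]
  exact le_of_sq_le_sq h2 (norm_nonneg _)

private theorem hgt_self {p : ℂ × ℂ} (hp : Unit2 p) : hgt p (hopf p) = 1 := by
  have h := norm_hopf hp
  have h2 : ‖hopf p‖ ^ 2 = ∑ k, hopf p k * hopf p k := by
    rw [EuclideanSpace.norm_sq_eq]
    refine Finset.sum_congr rfl fun k _ => ?_
    rw [Real.norm_eq_abs, sq_abs]
    ring
  unfold hgt
  rw [← h2, h, one_pow]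

theorem exists_cen {m : ℕ} (hm : 40 ≤ m) {X : Fin 3 → E3} (hX : Trip m X) :
    ∃ p : ℂ × ℂ, Cen m p X := by
  have hm' : (40 : ℝ) ≤ m := by exact_mod_cast hm
  have hm0 : (0 : ℝ) < m := by linarith
  obtain ⟨Y, hY⟩ : ∃ Y : E3, Y = (1 / 3 : ℝ) • (X 0 + X 1 + X 2) := ⟨_, rfl⟩
  have h1m : (1 : ℝ) / m ≤ 1 / 40 := one_div_le_one_div_of_le (by norm_num) hm'
  have hd : ∀ k, ‖X k - Y‖ ≤ 1 / m := by
    intro k
    have e : X k - Y = (1 / 3 : ℝ) • ((X k - X 0) + (X k - X 1) + (X k - X 2)) := by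
      rw [hY]
      module
    have hb : ∀ l, ‖X k - X l‖ ≤ 3 / (2 * m) := fun l => hX.diam k l
    have hz : ‖X k - X k‖ = 0 := by rw [sub_self, norm_zero]
    have hs : ‖X k - X 0‖ + ‖X k - X 1‖ + ‖X k - X 2‖ ≤ 3 / m := by
      have e2 : (3 : ℝ) / m = 3 / (2 * m) + 3 / (2 * m) := by
        field_simp
        norm_num
      rw [e2]
      fin_cases k
      · have h0 := hb 1
        have h1 := hb 2
        have h2 : ‖X 0 - X 0‖ = 0 := by rw [sub_self, norm_zero]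
        simp only [Fin.zero_eta] at h0 h1 ⊢
        linarith
      · have h0 := hb 0
        have h1 := hb 2
        have h2 : ‖X 1 - X 1‖ = 0 := by rw [sub_self, norm_zero]
        simp only [Fin.mk_one] at h0 h1 ⊢
        linarith
      · have h0 := hb 0
        have h1 := hb 1
        have h2 : ‖X 2 - X 2‖ = 0 := by rw [sub_self, norm_zero]
        simp only [Fin.reduceFinMk] at h0 h1 ⊢
        linarith
    rw [e, norm_smul, Real.norm_eq_abs, abs_of_pos (by norm_num : (0 : ℝ) < 1 / 3)]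
    have h3 : ‖(X k - X 0) + (X k - X 1) + (X k - X 2)‖ ≤ 3 / m :=
      ((norm_add_le _ _).trans (add_le_add (norm_add_le _ _) (le_refl _))).trans hs
    calc (1 / 3 : ℝ) * ‖(X k - X 0) + (X k - X 1) + (X k - X 2)‖ ≤ 1 / 3 * (3 / m) :=
          mul_le_mul_of_nonneg_left h3 (by norm_num)
      _ = 1 / m := by ring
  have hYn : 57 / 100 - 1 / (m : ℝ) ≤ ‖Y‖ := by
    have h1 := hX.lo 0
    have h2 := hd 0
    have h3 : ‖X 0‖ ≤ ‖X 0 - Y‖ + ‖Y‖ := by
      have := norm_add_le (X 0 - Y) Y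
      rwa [sub_add_cancel] at this
    linarith
  have hY0 : 0 < ‖Y‖ := by linarith
  obtain ⟨p, hp, hpY⟩ := exists_hopf (x := (‖Y‖⁻¹ : ℝ) • Y) (by
    rw [norm_smul, Real.norm_eq_abs, abs_of_pos (by positivity), inv_mul_cancel₀ hY0.ne'])
  have hYe : Y = ‖Y‖ • hopf p := by
    rw [hpY, smul_smul, mul_inv_cancel₀ hY0.ne', one_smul]
  have hellY : ell p Y = 0 := by
    rw [hYe, ell_smul', ell_self hp, mul_zero]
  have hhgtY : hgt p Y = ‖Y‖ := by
    have h1 : hgt p Y = ‖Y‖ * hgt p (hopf p) := by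
      conv_lhs => rw [hYe]
      rw [hgt_smul']
    rw [h1, hgt_self hp, mul_one]
  have hsub : ∀ k, X k = (X k - Y) + Y := fun k => (sub_add_cancel _ _).symm
  refine ⟨p, hp, hX, ?_, fun k => ?_, fun k => ?_, fun k => ?_⟩
  · have h1 : ∑ k, ell p (X k) = 3 * ell p Y := by
      rw [hY, ell_smul', ell_add', ell_add', Fin.sum_univ_three]
      push_cast
      ring
    rw [h1, hellY, mul_zero]
  · have h1 : hgt p (X k) = hgt p (X k - Y) + ‖Y‖ := by
      conv_lhs => rw [hsub k]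
      rw [hgt_add', hhgtY]
    have h2 := (abs_le.1 ((hgt_le hp (X k - Y)).trans (hd k))).1
    linarith
  · exact (le_abs_self _).trans ((hgt_le hp _).trans (hX.hi k))
  · have h1 : ell p (X k) = ell p (X k - Y) := by
      conv_lhs => rw [hsub k]
      rw [ell_add', hellY, add_zero]
    rw [h1]
    exact (ell_le hp _).trans (hd k)

private theorem Cen.m0 {m : ℕ} (hm : 40 ≤ m) : (0 : ℝ) < m := by
  have hm' : (40 : ℝ) ≤ m := by exact_mod_cast hm
  linarith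

private theorem Cen.hpos {m : ℕ} {p : ℂ × ℂ} {X : Fin 3 → E3} (h : Cen m p X) (k : Fin 3) :
    0 < hgt p (X k) := by
  have := h.lo k
  linarith

private theorem Cen.ell_eq {m : ℕ} {p : ℂ × ℂ} {X : Fin 3 → E3} (h : Cen m p X) (k : Fin 3) :
    ell p (X k) = (hgt p (X k) : ℂ) * PP p X k := by
  have h1 : ((hgt p (X k) : ℝ) : ℂ) ≠ 0 := by exact_mod_cast (h.hpos k).ne'
  unfold PP
  field_simp

theorem Cen.norm_PP {m : ℕ} (hm : 40 ≤ m) {p : ℂ × ℂ} {X : Fin 3 → E3} (h : Cen m p X)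
    (k : Fin 3) : ‖PP p X k‖ ≤ 2 / m := by
  have hm0 := Cen.m0 hm
  unfold PP
  rw [norm_div, Complex.norm_real, Real.norm_eq_abs, abs_of_pos (h.hpos k),
    div_le_iff₀ (h.hpos k)]
  have h1 := h.small k
  have h2 := h.lo k
  have h3 : (1 : ℝ) / m ≤ 2 / m * hgt p (X k) := by
    have h4 : (1 : ℝ) / m = 2 / m * (1 / 2) := by ring
    rw [h4]
    exact mul_le_mul_of_nonneg_left h2 (by positivity)
  linarith

theorem Cen.ball_out {m : ℕ} (hm : 40 ≤ m) {p : ℂ × ℂ} {X : Fin 3 → E3} (h : Cen m p X) :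
    TT p X ⊆ Metric.closedBall 0 (2 / m) :=
  tri_subset_ball _ _ _ (h.norm_PP hm 0) (h.norm_PP hm 1) (h.norm_PP hm 2)

private theorem Cen.im_eq {m : ℕ} (hm : 40 ≤ m) {p : ℂ × ℂ} {X : Fin 3 → E3} (h : Cen m p X) :
    |((PP p X 1 - PP p X 0) * (starRingEnd ℂ) (PP p X 2 - PP p X 0)).im| * ∏ k, hgt p (X k) =
      1 / (m : ℝ) ^ 2 := by
  have h1 := ell_det h.unit X
  rw [h.trip.det] at h1
  rw [← h1]
  have h2 : (Matrix.of fun i j : Fin 3 =>
      (![(ell p (X i)).re, (ell p (X i)).im, hgt p (X i)] : Fin 3 → ℝ) j).det =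
      -((PP p X 1 - PP p X 0) * (starRingEnd ℂ) (PP p X 2 - PP p X 0)).im *
        ∏ k, hgt p (X k) := by
    have hre : ∀ k, (ell p (X k)).re = hgt p (X k) * (PP p X k).re := by
      intro k
      rw [h.ell_eq k, Complex.re_ofReal_mul]
    have him : ∀ k, (ell p (X k)).im = hgt p (X k) * (PP p X k).im := by
      intro k
      rw [h.ell_eq k, Complex.im_ofReal_mul]
    rw [Matrix.det_fin_three, Fin.prod_univ_three]
    simp only [Matrix.of_apply, Matrix.cons_val_zero, Matrix.cons_val_one, Matrix.cons_val]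
    rw [hre, hre, hre, him, him, him, Complex.mul_im, Complex.conj_re, Complex.conj_im,
      Complex.sub_re, Complex.sub_re, Complex.sub_im, Complex.sub_im]
    ring
  have hprod : 0 < ∏ k, hgt p (X k) := Finset.prod_pos fun k _ => h.hpos k
  rw [h2, abs_mul, abs_neg, abs_of_pos hprod]

theorem Cen.area_eq {m : ℕ} (hm : 40 ≤ m) {p : ℂ × ℂ} {X : Fin 3 → E3} (h : Cen m p X) :
    area (TT p X) = 1 / (2 * (m : ℝ) ^ 2 * ∏ k, hgt p (X k)) := by
  have hm0 := Cen.m0 hm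
  have hprod : 0 < ∏ k, hgt p (X k) := Finset.prod_pos fun k _ => h.hpos k
  have h1 := h.im_eq hm
  unfold TT
  rw [area_tri]
  rw [div_eq_div_iff two_ne_zero (by positivity)]
  have h2 : |((PP p X 1 - PP p X 0) * (starRingEnd ℂ) (PP p X 2 - PP p X 0)).im| *
      (∏ k, hgt p (X k)) * (m : ℝ) ^ 2 = 1 := by
    rw [h1]
    field_simp
  linear_combination 2 * h2

theorem Cen.ball_in {m : ℕ} (hm : 40 ≤ m) {p : ℂ × ℂ} {X : Fin 3 → E3} (h : Cen m p X) :
    Metric.closedBall 0 (1 / (24 * m)) ⊆ TT p X := by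
  have hm0 := Cen.m0 hm
  obtain ⟨H, hH⟩ : ∃ H : ℝ, H = hgt p (X 0) + hgt p (X 1) + hgt p (X 2) := ⟨_, rfl⟩
  have h0 := h.lo 0
  have h1 := h.lo 1
  have h2 := h.lo 2
  have h0' := h.hi 0
  have h1' := h.hi 1
  have h2' := h.hi 2
  have hH0 : 0 < H := by linarith
  have hH3 : H ≤ 3 := by linarith
  have hHc : (H : ℂ) ≠ 0 := by exact_mod_cast hH0.ne'
  have hx : ∀ k, 1 / 6 ≤ hgt p (X k) / H := by
    intro k
    rw [le_div_iff₀ hH0]
    have := h.lo k
    linarith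
  have hP : ∀ k l, ‖PP p X k - PP p X l‖ ≤ 4 / m := by
    intro k l
    have h3 := norm_sub_le (PP p X k) (PP p X l)
    have h4 := h.norm_PP hm k
    have h5 := h.norm_PP hm l
    have h6 : (4 : ℝ) / m = 2 / m + 2 / m := by ring
    linarith
  have hz := zero_ball_tri (PP p X 0) (PP p X 1) (PP p X 2) (a := 1 / (2 * (m : ℝ) ^ 2))
    (d := 4 / m) (t := 1 / 6) (hx 0) (hx 1) (hx 2) (by
      rw [← add_div, ← add_div, ← hH, div_self hH0.ne']) (by
      have h3 := h.sum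
      rw [Fin.sum_univ_three, h.ell_eq, h.ell_eq, h.ell_eq] at h3
      push_cast
      have h4 : ((hgt p (X 0) : ℂ) / H * PP p X 0 + (hgt p (X 1) : ℂ) / H * PP p X 1 +
          (hgt p (X 2) : ℂ) / H * PP p X 2) =
          ((hgt p (X 0) : ℂ) * PP p X 0 + (hgt p (X 1) : ℂ) * PP p X 1 +
          (hgt p (X 2) : ℂ) * PP p X 2) / H := by ring
      rw [h4, h3, zero_div]) (by positivity) (by positivity) (by norm_num) (by
      have h3 := h.area_eq hm
      unfold TT at h3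
      rw [h3]
      have hprod : 0 < ∏ k, hgt p (X k) := Finset.prod_pos fun k _ => h.hpos k
      have hprod1 : ∏ k, hgt p (X k) ≤ 1 := Finset.prod_le_one (fun k _ => (h.hpos k).le)
        fun k _ => h.hi k
      refine one_div_le_one_div_of_le (by positivity) ?_
      have : 0 < 2 * (m : ℝ) ^ 2 := by positivity
      nlinarith) (hP 1 0) (hP 2 0) (hP 2 1)
  have hr : 2 * (1 / (2 * (m : ℝ) ^ 2)) * (1 / 6) / (4 / m) = 1 / (24 * m) := by
    field_simp
    norm_num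
  rw [hr] at hz
  exact hz

theorem Cen.cone_iff {m : ℕ} (hm : 40 ≤ m) {p : ℂ × ℂ} {X : Fin 3 → E3} (h : Cen m p X) {x : E3}
    (hx : 0 < hgt p x) : (∃ t : Fin 3 → ℝ, (∀ k, 0 ≤ t k) ∧ x = ∑ k, t k • X k) ↔
      ell p x / (hgt p x : ℂ) ∈ TT p X := by
  have hxc : ((hgt p x : ℝ) : ℂ) ≠ 0 := by exact_mod_cast hx.ne'
  have hkc : ∀ k, ((hgt p (X k) : ℝ) : ℂ) ≠ 0 := fun k => by exact_mod_cast (h.hpos k).ne'
  constructor
  · rintro ⟨t, ht, hxt⟩
    have h1 : hgt p x = t 0 * hgt p (X 0) + t 1 * hgt p (X 1) + t 2 * hgt p (X 2) := by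
      conv_lhs => rw [hxt]
      rw [hgt_sum, Fin.sum_univ_three]
    have h2 : ell p x = t 0 * ell p (X 0) + t 1 * ell p (X 1) + t 2 * ell p (X 2) := by
      conv_lhs => rw [hxt]
      rw [ell_sum, Fin.sum_univ_three]
    unfold TT
    rw [mem_tri]
    have hnn : ∀ k, 0 ≤ t k * hgt p (X k) / hgt p x := fun k =>
      div_nonneg (mul_nonneg (ht k) (h.hpos k).le) hx.le
    refine ⟨t 0 * hgt p (X 0) / hgt p x, t 1 * hgt p (X 1) / hgt p x,
      t 2 * hgt p (X 2) / hgt p x, hnn 0, hnn 1, hnn 2, ?_, ?_⟩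
    · rw [← add_div, ← add_div, ← h1, div_self hx.ne']
    · rw [h2, h.ell_eq, h.ell_eq, h.ell_eq]
      push_cast
      ring
  · intro hz
    unfold TT at hz
    rw [mem_tri] at hz
    obtain ⟨a, b, c, ha, hb, hc, hsum, hz⟩ := hz
    have hell : ell p x = hgt p x * (a * PP p X 0 + b * PP p X 1 + c * PP p X 2) := by
      rw [← hz]
      field_simp
    refine ⟨![a * hgt p x / hgt p (X 0), b * hgt p x / hgt p (X 1), c * hgt p x / hgt p (X 2)],
      fun k => ?_, ?_⟩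
    · fin_cases k
      · exact div_nonneg (mul_nonneg ha hx.le) (h.hpos 0).le
      · exact div_nonneg (mul_nonneg hb hx.le) (h.hpos 1).le
      · exact div_nonneg (mul_nonneg hc hx.le) (h.hpos 2).le
    · refine ell_hgt_inj h.unit ?_ ?_
      · rw [ell_sum, Fin.sum_univ_three]
        simp only [Matrix.cons_val_zero, Matrix.cons_val_one, Matrix.cons_val]
        rw [hell, h.ell_eq 0, h.ell_eq 1, h.ell_eq 2]
        push_cast
        have k0 := hkc 0
        have k1 := hkc 1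
        have k2 := hkc 2
        field_simp
      · rw [hgt_sum, Fin.sum_univ_three]
        simp only [Matrix.cons_val_zero, Matrix.cons_val_one, Matrix.cons_val]
        rw [div_mul_cancel₀ _ (h.hpos 0).ne', div_mul_cancel₀ _ (h.hpos 1).ne',
          div_mul_cancel₀ _ (h.hpos 2).ne', ← add_mul, ← add_mul, hsum, one_mul]

theorem Cen.cone_pos {m : ℕ} (hm : 40 ≤ m) {p : ℂ × ℂ} {X : Fin 3 → E3} (h : Cen m p X) {x : E3}
    (hx : x ≠ 0) {t : Fin 3 → ℝ} (ht : ∀ k, 0 ≤ t k) (hxt : x = ∑ k, t k • X k) :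
    0 < hgt p x := by
  have h1 : hgt p x = ∑ k, t k * hgt p (X k) := by
    conv_lhs => rw [hxt]
    rw [hgt_sum]
  have h2 : ∀ k ∈ (Finset.univ : Finset (Fin 3)), 0 ≤ t k * hgt p (X k) := fun k _ =>
    mul_nonneg (ht k) (h.hpos k).le
  rcases (Finset.sum_nonneg h2).eq_or_lt with h3 | h3
  · exfalso
    apply hx
    rw [hxt]
    refine Finset.sum_eq_zero fun k hk => ?_
    have h4 := (Finset.sum_eq_zero_iff_of_nonneg h2).1 h3.symm k hk
    rcases mul_eq_zero.1 h4 with h5 | h5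
    · rw [h5, zero_smul]
    · exact absurd h5 (h.hpos k).ne'
  · rw [h1]
    exact h3

private theorem Cen.indep {m : ℕ} (hm : 40 ≤ m) {p : ℂ × ℂ} {X : Fin 3 → E3} (h : Cen m p X)
    {v : Fin 3 → ℝ} (hv : ∑ k, v k • X k = 0) : v = 0 := by
  have hm0 := Cen.m0 hm
  have hdet : (Matrix.of fun i j => X i j : Matrix (Fin 3) (Fin 3) ℝ).det ≠ 0 := by
    intro h0
    have h1 := h.trip.det
    unfold det3 at h1
    rw [h0, abs_zero] at h1
    have : 0 < 1 / (m : ℝ) ^ 2 := by positivity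
    linarith
  refine Matrix.eq_zero_of_vecMul_eq_zero hdet ?_
  funext j
  have h1 : (∑ k, v k • X k) j = (0 : E3) j := by rw [hv]
  rw [Fin.sum_univ_three] at h1
  simp only [PiLp.add_apply, PiLp.smul_apply, smul_eq_mul, PiLp.zero_apply] at h1
  show ∑ i, v i * X i j = 0
  rw [Fin.sum_univ_three]
  exact h1

theorem Cen.open_cone {m : ℕ} (hm : 40 ≤ m) {p : ℂ × ℂ} {X : Fin 3 → E3} (h : Cen m p X) {x : E3}
    (hx : 0 < hgt p x) {δ : ℝ} (hδ : 0 < δ)
    (hb : Metric.ball (ell p x / (hgt p x : ℂ)) δ ⊆ TT p X) :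
    ∃ t : Fin 3 → ℝ, (∀ k, 0 < t k) ∧ x = ∑ k, t k • X k := by
  obtain ⟨t, ht, hxt⟩ := (h.cone_iff hm hx).2 (hb (Metric.mem_ball_self hδ))
  refine ⟨t, fun k => ?_, hxt⟩
  rcases (ht k).eq_or_lt with h0 | h0
  swap
  · exact h0
  exfalso
  have hxc : ((hgt p x : ℝ) : ℂ) ≠ 0 := by exact_mod_cast hx.ne'
  have hev : ∀ s : ℝ, ell p (x + (-s) • X k) = ell p x - s * ell p (X k) := by
    intro s
    rw [ell_add', ell_smul']
    push_cast
    ring
  have hhv : ∀ s : ℝ, hgt p (x + (-s) • X k) = hgt p x - s * hgt p (X k) := by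
    intro s
    rw [hgt_add', hgt_smul']
    ring
  have hc1 : ContinuousAt (fun s : ℝ => ell p (x + (-s) • X k) /
      ((hgt p (x + (-s) • X k) : ℝ) : ℂ)) 0 := by
    have e : (fun s : ℝ => ell p (x + (-s) • X k) / ((hgt p (x + (-s) • X k) : ℝ) : ℂ)) =
        fun s : ℝ => (ell p x - s * ell p (X k)) /
          ((hgt p x - s * hgt p (X k) : ℝ) : ℂ) := by
      funext s
      rw [hev, hhv]
    rw [e]
    refine ContinuousAt.div ?_ ?_ ?_
    · fun_prop
    · fun_prop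
    · rw [zero_mul, sub_zero]
      exact hxc
  have hc2 : ContinuousAt (fun s : ℝ => hgt p (x + (-s) • X k)) 0 := by
    have e : (fun s : ℝ => hgt p (x + (-s) • X k)) =
        fun s : ℝ => hgt p x - s * hgt p (X k) := by
      funext s
      rw [hhv]
    rw [e]
    fun_prop
  have h1 : ∀ᶠ s in nhds (0 : ℝ), ell p (x + (-s) • X k) /
      ((hgt p (x + (-s) • X k) : ℝ) : ℂ) ∈ Metric.ball (ell p x / (hgt p x : ℂ)) δ := by
    refine hc1.eventually_mem ?_
    rw [neg_zero, zero_smul, add_zero]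
    exact Metric.ball_mem_nhds _ hδ
  have h2 : ∀ᶠ s in nhds (0 : ℝ), 0 < hgt p (x + (-s) • X k) := by
    refine hc2.eventually_mem (s := Set.Ioi 0) ?_
    rw [neg_zero, zero_smul, add_zero]
    exact Ioi_mem_nhds hx
  have h3 : ∀ᶠ s in nhdsWithin (0 : ℝ) (Set.Ioi 0), (ell p (x + (-s) • X k) /
      ((hgt p (x + (-s) • X k) : ℝ) : ℂ) ∈ Metric.ball (ell p x / (hgt p x : ℂ)) δ ∧
      0 < hgt p (x + (-s) • X k)) ∧ s ∈ Set.Ioi (0 : ℝ) :=
    ((h1.and h2).filter_mono nhdsWithin_le_nhds).and self_mem_nhdsWithin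
  obtain ⟨s, ⟨hs1, hs2⟩, hs3⟩ := h3.exists
  obtain ⟨t', ht', hxt'⟩ := (h.cone_iff hm hs2).2 (hb hs1)
  have hzero : ∑ l, (t l - (if l = k then s else 0) - t' l) • X l = 0 := by
    simp only [sub_smul, Finset.sum_sub_distrib]
    rw [← hxt, ← hxt']
    have e : ∑ l, (if l = k then s else 0) • X l = s • X k := by
      rw [Finset.sum_eq_single k]
      · rw [if_pos rfl]
      · intro l _ hl
        rw [if_neg hl, zero_smul]
      · intro hk
        exact absurd (Finset.mem_univ k) hk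
    rw [e]
    module
  have h4 := congrFun (h.indep hm hzero) k
  simp only [if_pos, Pi.zero_apply] at h4
  have h5 := ht' k
  have h6 : 0 < s := hs3
  rw [← h0] at h4
  linarith

end Pool.Agent.LE60
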