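import Pool.Agent.LE60.Ser

/-!
# LE60/Coef: nonnegative truncations

PROOFS. In both cases `r = e² ρ ≤ 1/8` (`e² ≤ 7.39`, `ρ ≤ 1/64`); by `cf_bound` `|a_k| ≤ e^{2A} r^{-k}`, so for `‖t‖ ≤ ρ` the tail is
`|∑_{k ≥ m} a_k t^k| ≤ e^{2A} ∑_{k ≥ m} (ρ/r)^k = e^{2A} e^{-2m}/(1 - e^{-2})`, `1/(1-e^{-2}) ≤ 1.2`.
* `coefL`: `κ = -n'`, `d = δ`, `c = κ - d = -(n'+δ)`: `a_k = cf δ (-(n'+δ)) k`, and `(k+2) a_{k+2} = (δ-k-1) a_{k+1} + (n'+δ) a_k`;
  so `a_k ≥ 0` for `k ≤ δ + 1`. `m = δ + 2`, `a k := a_k` for `k < m`, `0` else. `2A = 2(δ r + (n'+δ) r²)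
  ≤ δ/4 + δ/32 + 2 e⁴ n' ρ² ≤ 0.282 δ + (109.3/220) δ ≤ δ`. Error `≤ e^δ e^{-2δ-4} 1.2 ≤ e^{-δ}`.
  The function is `(1+t)^{-n'} exp ((n'+δ) t)`.
* `coefU`: `κ = n'`, `c = n' - d ≥ 0`. Claim for `1 ≤ j ≤ k`: `a_{j-1} > 0` and `a_j ≥ (d/(2j)) a_{j-1}` (here `d > 0` because
  `k ≥ 1` and `4k ≤ d`; if `k = 0` only `a_0 = 1` is used). `j = 1`: `a_1 = d`. Step:
  `(j+1) a_{j+1} = (d - j) a_j - c a_{j-1} ≥ (d - j - c (2j/d)) a_j ≥ (d - d/4 - d/8) a_j ≥ (d/2) a_j`, since `j ≤ k ≤ d/4`,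
  `c ≤ n'`, `2 j n'/d ≤ 2 k n'/d ≤ d/8`. `m = k + 1`. `2A = 2(d r + c r²) ≤ 2e² d ρ + 2e⁴ n' ρ² ≤ 15 d ρ + 110 n' ρ² ≤ k`.
  Error `≤ e^k e^{-2(k+1)} 1.2 ≤ e^{-k}`.
-/

set_option autoImplicit false

namespace Pool.Agent.LE60

private theorem exp2_le : Real.exp 2 ≤ 7.3891 := by
  have h : Real.exp 2 = Real.exp 1 * Real.exp 1 := by rw [← Real.exp_add]; norm_num
  have h1 := Real.exp_one_lt_d9
  have h0 := Real.exp_pos 1
  rw [h]
  nlinarith

private theorem two_le_exp2 : 2 ≤ Real.exp 2 := by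
  have := Real.add_one_le_exp (2 : ℝ)
  linarith

private theorem q_half : Real.exp (-2) ≤ 1 / 2 := by
  rw [Real.exp_neg, ← one_div]
  exact one_div_le_one_div_of_le (by norm_num) two_le_exp2

/-- the tail of the series -/
private theorem tail_bd (κ : ℤ) (d : ℝ) {ρ : ℝ} (hρ0 : 0 < ρ) (hρ : ρ ≤ 1 / 64) (m N : ℕ)
    (hN : N + 1 ≤ m)
    (hE : 2 * (|d| * (Real.exp 2 * ρ) + |(κ : ℝ) - d| * (Real.exp 2 * ρ) ^ 2) ≤ N) (t : ℂ)
    (ht : ‖t‖ ≤ ρ) :
    ‖(1 + t) ^ κ * Complex.exp (-((κ - d : ℝ) : ℂ) * t)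
      - ∑ k ∈ Finset.range m, (cf d (κ - d) k : ℂ) * t ^ k‖ ≤ Real.exp (-(N : ℝ)) := by
  have hq := q_half
  have hq0 : 0 < Real.exp (-2) := Real.exp_pos _
  have he := exp2_le
  have he0 : 0 < Real.exp 2 := Real.exp_pos _
  have hr0 : 0 < Real.exp 2 * ρ := by positivity
  have hr1 : Real.exp 2 * ρ ≤ 1 / 2 := by nlinarith
  have hq2 : Real.exp 2 * Real.exp (-2) = 1 := by
    rw [← Real.exp_add]
    simp
  have hsum := cf_hasSum κ d t (by linarith)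
  have h1 := (hasSum_nat_add_iff' m).2 hsum
  have h2 : HasSum (fun k : ℕ => Real.exp N * Real.exp (-2) ^ (k + m))
      (Real.exp N * (Real.exp (-2) ^ m * (1 - Real.exp (-2))⁻¹)) := by
    refine HasSum.mul_left _ ?_
    have h3 := (hasSum_geometric_of_lt_one hq0.le (by linarith : Real.exp (-2) < 1)).mul_left
      (Real.exp (-2) ^ m)
    refine h3.congr_fun ?_ |> id
    intro k
    rw [pow_add, mul_comm]
  have h3 : ∀ k : ℕ, ‖(cf d (κ - d) (k + m) : ℂ) * t ^ (k + m)‖ ≤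
      Real.exp N * Real.exp (-2) ^ (k + m) := by
    intro k
    have h4 := cf_bound d (κ - d) hr0 hr1 (k + m)
    have h5 := h4.trans (Real.exp_le_exp.2 hE)
    rw [norm_mul, Complex.norm_real, norm_pow, Real.norm_eq_abs]
    calc |cf d (κ - d) (k + m)| * ‖t‖ ^ (k + m) ≤ |cf d (κ - d) (k + m)| * ρ ^ (k + m) := by
          refine mul_le_mul_of_nonneg_left ?_ (abs_nonneg _)
          exact pow_le_pow_left₀ (norm_nonneg _) ht _
      _ = (|cf d (κ - d) (k + m)| * (Real.exp 2 * ρ) ^ (k + m)) * Real.exp (-2) ^ (k + m) := by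
          rw [mul_assoc, ← mul_pow]
          congr 2
          rw [mul_right_comm, hq2, one_mul]
      _ ≤ Real.exp N * Real.exp (-2) ^ (k + m) :=
          mul_le_mul_of_nonneg_right h5 (by positivity)
  have h4 := HasSum.norm_le_of_bounded h1 h2 h3
  refine h4.trans ?_
  obtain ⟨j, rfl⟩ := Nat.exists_eq_add_of_le hN
  have h5 : Real.exp N * Real.exp (-2) ^ N = Real.exp (-(N : ℝ)) := by
    rw [← Real.exp_nat_mul, ← Real.exp_add]
    congr 1
    ring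
  have h6 : Real.exp (-2) ^ j ≤ 1 := pow_le_one₀ hq0.le (by linarith)
  have h7 : Real.exp (-2) * (1 - Real.exp (-2))⁻¹ ≤ 1 := by
    rw [← div_eq_mul_inv, div_le_one (by linarith)]
    linarith
  have h8 : 0 ≤ Real.exp (-2) * (1 - Real.exp (-2))⁻¹ := by
    have : 0 < 1 - Real.exp (-2) := by linarith
    positivity
  calc Real.exp N * (Real.exp (-2) ^ (N + 1 + j) * (1 - Real.exp (-2))⁻¹)
      = (Real.exp N * Real.exp (-2) ^ N) * (Real.exp (-2) ^ j *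
        (Real.exp (-2) * (1 - Real.exp (-2))⁻¹)) := by ring
    _ ≤ (Real.exp N * Real.exp (-2) ^ N) * (1 * 1) := by
        refine mul_le_mul_of_nonneg_left ?_ (by positivity)
        exact mul_le_mul h6 h7 h8 zero_le_one
    _ = Real.exp (-(N : ℝ)) := by rw [h5]; ring

theorem coefL (n' δ : ℕ) {ρ : ℝ} (hρ0 : 0 < ρ) (hρ : ρ ≤ 1 / 64) (hδ : 220 * n' * ρ ^ 2 ≤ δ) :
    ∃ (a : ℕ → ℝ) (m : ℕ), (∀ k, 0 ≤ a k) ∧ ∀ t : ℂ, ‖t‖ ≤ ρ →
      ‖Complex.exp (((n' + δ : ℝ) : ℂ) * t) / (1 + t) ^ n'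
        - ∑ k ∈ Finset.range m, (a k : ℂ) * t ^ k‖ ≤ Real.exp (-(δ : ℝ)) := by
  have hc : (((-(n' : ℤ) : ℤ) : ℝ) - (δ : ℝ)) = -((n' : ℝ) + δ) := by push_cast; ring
  refine ⟨fun k => if k < δ + 2 then cf δ (((-(n' : ℤ) : ℤ) : ℝ) - δ) k else 0, δ + 2, ?_, ?_⟩
  · have key : ∀ k, k ≤ δ → 0 ≤ cf δ (((-(n' : ℤ) : ℤ) : ℝ) - δ) k ∧
        0 ≤ cf δ (((-(n' : ℤ) : ℤ) : ℝ) - δ) (k + 1) := by
      intro k
      induction k with
      | zero =>
        intro _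
        simp [cf]
      | succ k ih =>
        intro hk
        obtain ⟨h1, h2⟩ := ih (by omega)
        refine ⟨h2, ?_⟩
        rw [show k + 1 + 1 = k + 2 from rfl, cf, hc]
        rw [hc] at h1 h2
        have h3 : ((k : ℝ) + 1) ≤ δ := by exact_mod_cast hk
        have h4 : (0 : ℝ) ≤ n' := Nat.cast_nonneg _
        have h5 : (0 : ℝ) ≤ δ := Nat.cast_nonneg _
        have h6 : 0 ≤ ((δ : ℝ) - (k + 1)) * cf δ (-((n' : ℝ) + δ)) (k + 1) :=
          mul_nonneg (by linarith) h2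
        have h7 : 0 ≤ ((n' : ℝ) + δ) * cf δ (-((n' : ℝ) + δ)) k := mul_nonneg (by linarith) h1
        refine div_nonneg ?_ (by positivity)
        linarith
    intro k
    dsimp only
    split_ifs with hk
    · rcases Nat.lt_or_ge k (δ + 1) with h | h
      · exact (key k (by omega)).1
      · have : k = δ + 1 := by omega
        rw [this]
        exact (key δ le_rfl).2
    · exact le_rfl
  · intro t ht
    have hE : 2 * (|(δ : ℝ)| * (Real.exp 2 * ρ) + |((-(n' : ℤ) : ℤ) : ℝ) - (δ : ℝ)| *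
        (Real.exp 2 * ρ) ^ 2) ≤ (δ : ℕ) := by
      have he := exp2_le
      have he0 : 0 < Real.exp 2 := Real.exp_pos _
      have h4 : (0 : ℝ) ≤ n' := Nat.cast_nonneg _
      have h5 : (0 : ℝ) ≤ δ := Nat.cast_nonneg _
      rw [hc, abs_neg, abs_of_nonneg h5, abs_of_nonneg (by linarith)]
      have h6 : Real.exp 2 * ρ ≤ 7.3891 / 64 := by nlinarith
      have h7 : 0 < Real.exp 2 * ρ := by positivity
      have h8 : (Real.exp 2 * ρ) ^ 2 ≤ 54.6 * ρ ^ 2 := by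
        rw [mul_pow]
        refine mul_le_mul_of_nonneg_right ?_ (by positivity)
        nlinarith
      have h9 : (Real.exp 2 * ρ) ^ 2 ≤ (7.3891 / 64) ^ 2 := pow_le_pow_left₀ h7.le h6 2
      have h10 : (δ : ℝ) * (Real.exp 2 * ρ) ≤ δ * (7.3891 / 64) := mul_le_mul_of_nonneg_left h6 h5
      have h11 : (δ : ℝ) * (Real.exp 2 * ρ) ^ 2 ≤ δ * (7.3891 / 64) ^ 2 :=
        mul_le_mul_of_nonneg_left h9 h5
      have h12 : (n' : ℝ) * (Real.exp 2 * ρ) ^ 2 ≤ n' * (54.6 * ρ ^ 2) :=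
        mul_le_mul_of_nonneg_left h8 h4
      nlinarith
    have h1 := tail_bd (-(n' : ℤ)) (δ : ℝ) hρ0 hρ (δ + 2) δ (by omega) hE t ht
    have h2 : (1 + t) ^ (-(n' : ℤ)) * Complex.exp (-(((((-(n' : ℤ) : ℤ) : ℝ) - (δ : ℝ) : ℝ)) : ℂ) * t) =
        Complex.exp (((n' + δ : ℝ) : ℂ) * t) / (1 + t) ^ n' := by
      rw [zpow_neg, zpow_natCast, hc, div_eq_mul_inv, mul_comm]
      congr 2
      push_cast
      ring
    rw [h2] at h1
    have h3 : ∑ k ∈ Finset.range (δ + 2),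
        (((if k < δ + 2 then cf δ (((-(n' : ℤ) : ℤ) : ℝ) - δ) k else 0 : ℝ)) : ℂ) * t ^ k =
        ∑ k ∈ Finset.range (δ + 2), (cf δ (((-(n' : ℤ) : ℤ) : ℝ) - δ) k : ℂ) * t ^ k := by
      refine Finset.sum_congr rfl fun k hk => ?_
      rw [if_pos (Finset.mem_range.1 hk)]
    dsimp only
    rw [h3]
    exact h1

theorem coefU (n' k d : ℕ) {ρ : ℝ} (hρ0 : 0 < ρ) (hρ : ρ ≤ 1 / 64) (hd : d ≤ n')
    (hkd : 4 * k ≤ d) (hkn : 16 * k * n' ≤ d ^ 2) (htail : 15 * d * ρ + 110 * n' * ρ ^ 2 ≤ k) :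
    ∃ (a : ℕ → ℝ) (m : ℕ), (∀ j, 0 ≤ a j) ∧ ∀ t : ℂ, ‖t‖ ≤ ρ →
      ‖(1 + t) ^ n' * Complex.exp (-(((n' : ℝ) - d : ℝ) : ℂ) * t)
        - ∑ j ∈ Finset.range m, (a j : ℂ) * t ^ j‖ ≤ Real.exp (-(k : ℝ)) := by
  have hcast : (((n' : ℤ) : ℝ)) = (n' : ℝ) := by push_cast; rfl
  have hc0 : (0 : ℝ) ≤ (n' : ℝ) - d := by
    have : (d : ℝ) ≤ n' := by exact_mod_cast hd
    linarith
  refine ⟨fun j => if j < k + 1 then cf d ((n' : ℝ) - d) j else 0, k + 1, ?_, ?_⟩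
  · have key : ∀ j, j + 1 ≤ k → 0 < cf d ((n' : ℝ) - d) j ∧
        (d : ℝ) * cf d ((n' : ℝ) - d) j ≤ 2 * (j + 1) * cf d ((n' : ℝ) - d) (j + 1) := by
      intro j
      induction j with
      | zero =>
        intro _
        refine ⟨by simp [cf], ?_⟩
        simp only [cf]
        have : (0 : ℝ) ≤ d := Nat.cast_nonneg _
        push_cast
        linarith
      | succ j ih =>
        intro hj
        obtain ⟨h1, h2⟩ := ih (by omega)
        have hd0 : (0 : ℝ) < d := by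
          have : 0 < d := by omega
          exact_mod_cast this
        have h3 : 0 < cf d ((n' : ℝ) - d) (j + 1) := by
          by_contra hcon
          push Not at hcon
          have h4 : 2 * ((j : ℝ) + 1) * cf d ((n' : ℝ) - d) (j + 1) ≤ 0 :=
            mul_nonpos_of_nonneg_of_nonpos (by positivity) hcon
          have h5 : 0 < (d : ℝ) * cf d ((n' : ℝ) - d) j := mul_pos hd0 h1
          linarith
        refine ⟨h3, ?_⟩
        have h4 : ((j : ℝ) + 2) * cf d ((n' : ℝ) - d) (j + 2) =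
            ((d : ℝ) - (j + 1)) * cf d ((n' : ℝ) - d) (j + 1) -
              ((n' : ℝ) - d) * cf d ((n' : ℝ) - d) j := by
          rw [cf]
          field_simp
        have hjk : ((j : ℝ) + 1) ≤ k := by
          have : j + 1 ≤ k := by omega
          exact_mod_cast this
        have hkd' : 4 * (k : ℝ) ≤ d := by exact_mod_cast hkd
        have hkn' : 16 * (k : ℝ) * n' ≤ (d : ℝ) ^ 2 := by exact_mod_cast hkn
        have hn0 : (0 : ℝ) ≤ n' := Nat.cast_nonneg _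
        -- `c a_j d ≤ n' * 2 (j+1) a_{j+1} ≤ 2 k n' a_{j+1} ≤ d²/8 a_{j+1}`
        have h5 : (d : ℝ) * (((n' : ℝ) - d) * cf d ((n' : ℝ) - d) j) ≤
            (d : ℝ) * ((d : ℝ) / 8 * cf d ((n' : ℝ) - d) (j + 1)) := by
          have a1 : ((n' : ℝ) - d) * ((d : ℝ) * cf d ((n' : ℝ) - d) j) ≤
              n' * (2 * (j + 1) * cf d ((n' : ℝ) - d) (j + 1)) :=
            mul_le_mul (by linarith) h2 (by positivity) hn0
          have a2 : (n' : ℝ) * (2 * (j + 1)) ≤ (d : ℝ) ^ 2 / 8 := by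
            have : (n' : ℝ) * (2 * (j + 1)) ≤ n' * (2 * k) :=
              mul_le_mul_of_nonneg_left (by linarith) hn0
            linarith
          have a3 := mul_le_mul_of_nonneg_right a2 h3.le
          nlinarith
        have h6 := le_of_mul_le_mul_left h5 hd0
        have h7 : ((d : ℝ) - (j + 1) - d / 8) * cf d ((n' : ℝ) - d) (j + 1) ≥
            (d : ℝ) / 2 * cf d ((n' : ℝ) - d) (j + 1) :=
          mul_le_mul_of_nonneg_right (by linarith) h3.le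
        show (d : ℝ) * cf d ((n' : ℝ) - d) (j + 1) ≤
          2 * (((j + 1 : ℕ) : ℝ) + 1) * cf d ((n' : ℝ) - d) (j + 2)
        push_cast
        nlinarith
    intro j
    dsimp only
    split_ifs with hj
    · rcases Nat.eq_zero_or_pos j with h | h
      · rw [h]
        simp [cf]
      · obtain ⟨i, rfl⟩ := Nat.exists_eq_succ_of_ne_zero h.ne'
        obtain ⟨h1, h2⟩ := key i (by omega)
        by_contra hcon
        push Not at hcon
        have hd0 : (0 : ℝ) < d := by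
          have : 0 < d := by omega
          exact_mod_cast this
        have h4 : 2 * ((i : ℝ) + 1) * cf d ((n' : ℝ) - d) (i + 1) < 0 :=
          mul_neg_of_pos_of_neg (by positivity) hcon
        have h5 : 0 < (d : ℝ) * cf d ((n' : ℝ) - d) i := mul_pos hd0 h1
        linarith
    · exact le_rfl
  · intro t ht
    have hE : 2 * (|(d : ℝ)| * (Real.exp 2 * ρ) + |(((n' : ℤ) : ℝ)) - (d : ℝ)| *
        (Real.exp 2 * ρ) ^ 2) ≤ (k : ℕ) := by
      have he := exp2_le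
      have he0 : 0 < Real.exp 2 := Real.exp_pos _
      have h4 : (0 : ℝ) ≤ n' := Nat.cast_nonneg _
      have h5 : (0 : ℝ) ≤ d := Nat.cast_nonneg _
      rw [hcast, abs_of_nonneg h5, abs_of_nonneg hc0]
      have h8 : (Real.exp 2 * ρ) ^ 2 ≤ 54.6 * ρ ^ 2 := by
        rw [mul_pow]
        refine mul_le_mul_of_nonneg_right ?_ (by positivity)
        nlinarith
      have h10 : (d : ℝ) * (Real.exp 2 * ρ) ≤ d * (7.3891 * ρ) :=
        mul_le_mul_of_nonneg_left (mul_le_mul_of_nonneg_right he hρ0.le) h5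
      have h12 : ((n' : ℝ) - d) * (Real.exp 2 * ρ) ^ 2 ≤ n' * (54.6 * ρ ^ 2) :=
        mul_le_mul (by linarith) h8 (by positivity) h4
      have h13 : 0 ≤ (d : ℝ) * ρ := by positivity
      have h14 : 0 ≤ (n' : ℝ) * ρ ^ 2 := by positivity
      nlinarith
    have h1 := tail_bd (n' : ℤ) (d : ℝ) hρ0 hρ (k + 1) k (by omega) hE t ht
    rw [zpow_natCast, hcast] at h1
    have h3 : ∑ j ∈ Finset.range (k + 1),
        (((if j < k + 1 then cf d ((n' : ℝ) - d) j else 0 : ℝ)) : ℂ) * t ^ j =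
        ∑ j ∈ Finset.range (k + 1), (cf d ((n' : ℝ) - d) j : ℂ) * t ^ j := by
      refine Finset.sum_congr rfl fun j hj => ?_
      rw [if_pos (Finset.mem_range.1 hj)]
    dsimp only
    rw [h3]
    exact h1

end Pool.Agent.LE60
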