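import Pool.Agent.LE60.MatA

/-!
# LE60/MatO: Oppenheim's inequality

`A, B` PSD: `det (A ⊙ B) ≥ det A · ∏ B_ii` (real parts).

PROOF by induction on `n` for matrices on `Fin n` (general `ι` by reindexing,
`Matrix.det_submatrix_equiv_self`, the Hadamard product commutes with `submatrix`). `n = 0` trivial.
Step `n + 1`: if `det A = 0` the claim is `0 ≤ det (A ⊙ B)` (Schur product theorem
`PosSemidef.hadamard`, `det_re_nonneg`) — note `∏ B_ii ≥ 0`. If `B 0 0 = 0` the right side is 0.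
So let `A` be PosDef (`a = A 0 0 > 0`), `b = B 0 0 > 0`. Write index `0` and the rest `Fin n`
(`Fin.succ`), `α_i = A (succ i) 0`, `β_i = B (succ i) 0`, `A' , B'` the lower right blocks,
`A/a := A' - α α*/a` (PSD, Schur complement; PosDef), `det A = a det (A/a)`.
`B' - β β*/b` is PSD. Then the Schur complement of `A ⊙ B` is
`A' ⊙ B' - (α ⊙ β)(α ⊙ β)*/(a b) = (A/a) ⊙ B' + (α α*/a) ⊙ (B' - β β*/b)`,
the last term is PSD (Schur product), so with `det_mono` and induction
`det (A ⊙ B) = a b det(...) ≥ a b det ((A/a) ⊙ B') ≥ a b det (A/a) ∏ B'_ii = det A ∏ B_ii`.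
Useful: `Matrix.det_fromBlocks₁₁` with a 1 × 1 block (reindex `Fin (n+1) ≃ Unit ⊕ Fin n`), or do the
induction directly with index types `Unit ⊕ Fin n`.
-/

set_option autoImplicit false

namespace Pool.Agent.LE60

open Matrix
open scoped ComplexOrder ComplexConjugate

private theorem matO_schur {ι : Type*} [Fintype ι] [DecidableEq ι]
    (M : Matrix (Unit ⊕ ι) (Unit ⊕ ι) ℂ) (hM : M.PosSemidef)
    (ha : 0 < M (Sum.inl ()) (Sum.inl ())) :
    (Matrix.of fun i j : ι => M (Sum.inr i) (Sum.inr j) -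
        M (Sum.inr i) (Sum.inl ()) * M (Sum.inl ()) (Sum.inr j) / M (Sum.inl ()) (Sum.inl ())
      ).PosSemidef ∧
    M.det = M (Sum.inl ()) (Sum.inl ()) *
      (Matrix.of fun i j : ι => M (Sum.inr i) (Sum.inr j) -
        M (Sum.inr i) (Sum.inl ()) * M (Sum.inl ()) (Sum.inr j) / M (Sum.inl ()) (Sum.inl ())
      ).det := by
  set a : ℂ := M (Sum.inl ()) (Sum.inl ()) with ha0
  have hane : a ≠ 0 := ha.ne'
  have hA1 : M.toBlocks₁₁ = Matrix.diagonal (fun _ : Unit => a) := by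
    ext i j
    rw [Subsingleton.elim i (), Subsingleton.elim j ()]
    simp [toBlocks₁₁, ha0]
  have hinvAdef : (Matrix.diagonal (fun _ : Unit => a⁻¹)) * M.toBlocks₁₁ = 1 := by
    rw [hA1, Matrix.diagonal_mul_diagonal]
    simp [hane]
  have hinvAdef' : M.toBlocks₁₁ * (Matrix.diagonal (fun _ : Unit => a⁻¹)) = 1 := by
    rw [hA1, Matrix.diagonal_mul_diagonal]
    simp [hane]
  let invA : Invertible M.toBlocks₁₁ := ⟨Matrix.diagonal (fun _ : Unit => a⁻¹), hinvAdef, hinvAdef'⟩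
  have hinv1 : M.toBlocks₁₁⁻¹ = Matrix.diagonal (fun _ : Unit => a⁻¹) :=
    Matrix.inv_eq_left_inv hinvAdef
  have hH : M.toBlocks₂₁ = M.toBlocks₁₂ᴴ := by
    ext i j
    simp only [toBlocks₂₁, toBlocks₁₂, conjTranspose_apply, of_apply]
    exact (hM.isHermitian.apply (Sum.inr i) (Sum.inl j)).symm
  have hMb : M = fromBlocks M.toBlocks₁₁ M.toBlocks₁₂ M.toBlocks₁₂ᴴ M.toBlocks₂₂ := by
    rw [← hH, fromBlocks_toBlocks]
  have hPD : M.toBlocks₁₁.PosDef := by
    rw [hA1]
    exact Matrix.PosDef.diagonal fun _ => ha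
  have hS : (Matrix.of fun i j : ι => M (Sum.inr i) (Sum.inr j) -
        M (Sum.inr i) (Sum.inl ()) * M (Sum.inl ()) (Sum.inr j) / a) =
      M.toBlocks₂₂ - M.toBlocks₁₂ᴴ * M.toBlocks₁₁⁻¹ * M.toBlocks₁₂ := by
    rw [hinv1]
    ext i j
    rw [← hH]
    simp only [of_apply, Matrix.sub_apply, Matrix.mul_apply, toBlocks₂₂, toBlocks₂₁, toBlocks₁₂,
      Finset.univ_unique, Finset.sum_singleton, PUnit.default_eq_unit, diagonal_apply_eq]
    ring
  rw [hS]
  refine ⟨?_, ?_⟩
  · rw [← hPD.fromBlocks₁₁, ← hMb]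
    exact hM
  · conv_lhs => rw [hMb]
    rw [Matrix.det_fromBlocks₁₁]
    have h1 : M.toBlocks₁₁.det = a := by
      rw [hA1]; simp
    rw [h1]
    congr 2
    rw [← Matrix.invOf_eq_nonsing_inv]

private def MatOOpp (ι : Type*) [Fintype ι] [DecidableEq ι] : Prop :=
  ∀ A B : Matrix ι ι ℂ, A.PosSemidef → B.PosSemidef →
    A.det.re * ∏ i, (B i i).re ≤ (A ⊙ B).det.re

private theorem matO_equiv {ι κ : Type*} [Fintype ι] [DecidableEq ι] [Fintype κ] [DecidableEq κ]
    (e : κ ≃ ι) (h : MatOOpp κ) : MatOOpp ι := by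
  intro A B hA hB
  have h1 := h (A.submatrix e e) (B.submatrix e e) (hA.submatrix e) (hB.submatrix e)
  rw [Matrix.det_submatrix_equiv_self] at h1
  have h2 : (A.submatrix e e) ⊙ (B.submatrix e e) = (A ⊙ B).submatrix e e := rfl
  rw [h2, Matrix.det_submatrix_equiv_self] at h1
  have h3 : ∏ i, (B.submatrix e e i i).re = ∏ i, (B i i).re :=
    Fintype.prod_equiv e _ _ fun i => rfl
  rwa [h3] at h1

private theorem matO_step {ι : Type*} [Fintype ι] [DecidableEq ι] (h : MatOOpp ι) :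
    MatOOpp (Unit ⊕ ι) := by
  intro A B hA hB
  by_cases hdet : A.det = 0
  · rw [hdet, Complex.zero_re, zero_mul]
    exact det_re_nonneg (hA.hadamard hB)
  have hPD : A.PosDef := hA.posDef_iff_det_ne_zero.mpr hdet
  have ha : 0 < A (Sum.inl ()) (Sum.inl ()) := hPD.diag_pos
  have hb0 : 0 ≤ B (Sum.inl ()) (Sum.inl ()) := hB.diag_nonneg
  rcases hb0.eq_or_lt with hb | hb
  · rw [Fintype.prod_sum_type]
    simp only [Finset.univ_unique, Finset.prod_singleton, PUnit.default_eq_unit]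
    rw [← hb, Complex.zero_re, zero_mul, mul_zero]
    exact det_re_nonneg (hA.hadamard hB)
  have hab : 0 < (A ⊙ B) (Sum.inl ()) (Sum.inl ()) := by
    rw [hadamard_apply]
    exact mul_pos ha hb
  obtain ⟨hSA, hdA⟩ := matO_schur A hA ha
  obtain ⟨hSB, -⟩ := matO_schur B hB hb
  obtain ⟨-, hdM⟩ := matO_schur (A ⊙ B) (hA.hadamard hB) hab
  set a : ℂ := A (Sum.inl ()) (Sum.inl ()) with ha0
  set b : ℂ := B (Sum.inl ()) (Sum.inl ()) with hb1
  set SA : Matrix ι ι ℂ := Matrix.of fun i j : ι => A (Sum.inr i) (Sum.inr j) -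
        A (Sum.inr i) (Sum.inl ()) * A (Sum.inl ()) (Sum.inr j) / a with hSA0
  set SB : Matrix ι ι ℂ := Matrix.of fun i j : ι => B (Sum.inr i) (Sum.inr j) -
        B (Sum.inr i) (Sum.inl ()) * B (Sum.inl ()) (Sum.inr j) / b with hSB0
  have hMaa : (A ⊙ B) (Sum.inl ()) (Sum.inl ()) = a * b := by
    rw [hadamard_apply]
  rw [hMaa] at hdM
  set SM : Matrix ι ι ℂ := Matrix.of fun i j : ι => (A ⊙ B) (Sum.inr i) (Sum.inr j) -
        (A ⊙ B) (Sum.inr i) (Sum.inl ()) * (A ⊙ B) (Sum.inl ()) (Sum.inr j) / (a * b) with hSM0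
  set B' : Matrix ι ι ℂ := B.submatrix Sum.inr Sum.inr with hB'0
  have hB' : B'.PosSemidef := hB.submatrix _
  set v : ι → ℂ := fun i => A (Sum.inr i) (Sum.inl ()) with hv
  have hvv : (a⁻¹ • vecMulVec v (star v)).PosSemidef := by
    refine (posSemidef_vecMulVec_self_star v).smul ?_
    exact (inv_pos.mpr ha).le
  have hdiff : SM - SA ⊙ B' = (a⁻¹ • vecMulVec v (star v)) ⊙ SB := by
    ext i j
    have hc : A (Sum.inl ()) (Sum.inr j) = star (A (Sum.inr j) (Sum.inl ())) :=
      (hA.isHermitian.apply (Sum.inl ()) (Sum.inr j)).symm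
    simp only [hSM0, hSA0, hSB0, hB'0, hv, Matrix.sub_apply, hadamard_apply, of_apply, Matrix.smul_apply,
      vecMulVec_apply, submatrix_apply, Pi.star_apply, smul_eq_mul, ← hc]
    have h1 : a ≠ 0 := ha.ne'
    have h2 : b ≠ 0 := hb.ne'
    field_simp
    ring
  have hPS : (SM - SA ⊙ B').PosSemidef := by
    rw [hdiff]
    exact hvv.hadamard hSB
  have h1 : (SA ⊙ B').det.re ≤ SM.det.re := det_mono (hSA.hadamard hB') hPS
  have h2 := h SA B' hSA hB'
  have har : a = (a.re : ℂ) := by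
    have := (Complex.le_def.mp ha.le).2
    apply Complex.ext
    · simp
    · simpa using this.symm
  have hbr : b = (b.re : ℂ) := by
    have := (Complex.le_def.mp hb.le).2
    apply Complex.ext
    · simp
    · simpa using this.symm
  have hap : 0 < a.re := (Complex.lt_def.mp ha).1
  have hbp : 0 < b.re := (Complex.lt_def.mp hb).1
  have hA3 : A.det.re = a.re * SA.det.re := by
    rw [hdA]
    conv_lhs => rw [har]
    rw [Complex.re_ofReal_mul]
  have hM3 : (A ⊙ B).det.re = a.re * b.re * SM.det.re := by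
    rw [hdM]
    conv_lhs => rw [har, hbr]
    rw [← Complex.ofReal_mul, Complex.re_ofReal_mul]
  rw [hA3, hM3, Fintype.prod_sum_type]
  simp only [Finset.univ_unique, Finset.prod_singleton, PUnit.default_eq_unit]
  have h4 : a.re * SA.det.re * ((B (Sum.inl ()) (Sum.inl ())).re *
      ∏ i : ι, (B (Sum.inr i) (Sum.inr i)).re) =
      a.re * b.re * (SA.det.re * ∏ i : ι, (B' i i).re) := by
    simp only [← hb1, hB'0, submatrix_apply]
    ring
  rw [h4]
  exact mul_le_mul_of_nonneg_left (h2.trans h1) (mul_pos hap hbp).le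

theorem oppenheim {ι : Type*} [Fintype ι] [DecidableEq ι] {A B : Matrix ι ι ℂ}
    (hA : A.PosSemidef) (hB : B.PosSemidef) :
    A.det.re * ∏ i, (B i i).re ≤ (A ⊙ B).det.re := by
  have hall : ∀ n : ℕ, MatOOpp (Fin n) := by
    intro n
    induction n with
    | zero =>
      intro A B _ _
      simp
    | succ n ih =>
      refine matO_equiv ?_ (matO_step ih)
      exact (Equiv.sumComm Unit (Fin n)).trans
        ((Equiv.optionEquivSumPUnit (Fin n)).symm.trans (finSuccEquiv n).symm)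
  exact matO_equiv (Fintype.equivFin ι).symm (hall _) A B hA hB

end Pool.Agent.LE60
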