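import Pool.Agent.LE60.MatA

/-!
# LE60/MatS: row sums and separated blocks

PROOFS.
* `rowsum_psd`: for Hermitian `O` and a vector `x`,
  `|x* O x| ≤ ∑_{i,j} |x_i| |O i j| |x_j| ≤ ∑_{i,j} |O i j| (|x_i|² + |x_j|²)/2 ≤ η |x|²`
  (row sums and, by symmetry `|O i j| = |O j i|`, column sums are `≤ η`).
* `separated`: index type `Σ k, β k`. Let `D x y = if x.1 = y.1 then A x y else 0`, `O = A - D`.
  `D` and `O` are Hermitian, the row sums of `O` are `≤ η`. `D - lam 1` is PSD: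
  `x* (D - lam) x = ∑_k x_k* (A_k - lam) x_k ≥ 0` (or `Matrix.blockDiagonal'`: `D = blockDiagonal' A_k`,
  PSD of a block diagonal matrix). By `rowsum_psd`, `O + η 1` is PSD, so
  `A - (lam - η) 1 = (D - lam 1) + (O + η 1)` is PSD, and
  `A - (1 - η/lam) D = (η/lam)(D - lam 1) + (O + η 1)` is PSD. By `det_mono` (note
  `(1 - η/lam) D` is PSD) `det A ≥ (1 - η/lam)^{card} det D`, `det D = ∏ det A_k`
  (`Matrix.det_blockDiagonal'`), all real nonnegative.
-/

set_option autoImplicit false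

namespace Pool.Agent.LE60

open Matrix
open scoped ComplexOrder ComplexConjugate

private theorem posSemidef_of_re {ι : Type*} [Fintype ι] {A : Matrix ι ι ℂ}
    (hA : A.IsHermitian) (h : ∀ x : ι → ℂ, 0 ≤ (star x ⬝ᵥ (A *ᵥ x)).re) : A.PosSemidef := by
  refine Matrix.PosSemidef.of_dotProduct_mulVec_nonneg hA fun x => ?_
  rw [Complex.le_def]
  refine ⟨?_, ?_⟩
  · simpa using h x
  · have := hA.im_star_dotProduct_mulVec_self x
    simpa using this.symm

private theorem rowsum_aux {ι : Type*} [Fintype ι] [DecidableEq ι] {O : Matrix ι ι ℂ}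
    (hO : O.IsHermitian) (η : ℝ) (h : ∀ i, ∑ j, ‖O i j‖ ≤ η) :
    (O + (η : ℂ) • (1 : Matrix ι ι ℂ)).PosSemidef := by
  have hs : ∀ i j, ‖O i j‖ = ‖O j i‖ := by
    intro i j
    rw [← hO.apply i j, norm_star]
  apply posSemidef_of_re
  · refine hO.add ?_
    show ((η : ℂ) • (1 : Matrix ι ι ℂ))ᴴ = _
    rw [conjTranspose_smul, conjTranspose_one]
    congr 1
    exact Complex.conj_ofReal η
  · intro x
    have e1 : star x ⬝ᵥ ((O + (η : ℂ) • (1 : Matrix ι ι ℂ)) *ᵥ x) =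
        star x ⬝ᵥ (O *ᵥ x) + (η : ℂ) * (star x ⬝ᵥ x) := by
      rw [add_mulVec, smul_mulVec, one_mulVec, dotProduct_add, dotProduct_smul, smul_eq_mul]
    have e2 : star x ⬝ᵥ x = ((∑ i, ‖x i‖ ^ 2 : ℝ) : ℂ) := by
      rw [dotProduct, Complex.ofReal_sum]
      refine Finset.sum_congr rfl fun i _ => ?_
      rw [Pi.star_apply]
      have := Complex.conj_mul' (x i)
      rw [show star (x i) = (starRingEnd ℂ) (x i) from rfl, this]
      push_cast
      rfl
    have e3 : star x ⬝ᵥ (O *ᵥ x) = ∑ i, ∑ j, star (x i) * (O i j * x j) := by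
      rw [dotProduct]
      refine Finset.sum_congr rfl fun i _ => ?_
      rw [mulVec, dotProduct, Finset.mul_sum]
      rfl
    have h1 : ‖star x ⬝ᵥ (O *ᵥ x)‖ ≤ ∑ i, ∑ j, ‖O i j‖ * ((‖x i‖ ^ 2 + ‖x j‖ ^ 2) / 2) := by
      rw [e3]
      refine (norm_sum_le _ _).trans (Finset.sum_le_sum fun i _ => ?_)
      refine (norm_sum_le _ _).trans (Finset.sum_le_sum fun j _ => ?_)
      rw [norm_mul, norm_mul, norm_star]
      have h2 : ‖x i‖ * ‖x j‖ ≤ (‖x i‖ ^ 2 + ‖x j‖ ^ 2) / 2 := by nlinarith [sq_nonneg (‖x i‖ - ‖x j‖)]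
      calc ‖x i‖ * (‖O i j‖ * ‖x j‖) = ‖O i j‖ * (‖x i‖ * ‖x j‖) := by ring
        _ ≤ _ := mul_le_mul_of_nonneg_left h2 (norm_nonneg _)
    have h2 : ∑ i, ∑ j, ‖O i j‖ * ((‖x i‖ ^ 2 + ‖x j‖ ^ 2) / 2) =
        ∑ i, (∑ j, ‖O i j‖) * ‖x i‖ ^ 2 := by
      have h3 : ∑ i, ∑ j, ‖O i j‖ * ((‖x i‖ ^ 2 + ‖x j‖ ^ 2) / 2) =
          (∑ i, ∑ j, ‖O i j‖ * ‖x i‖ ^ 2) / 2 + (∑ i, ∑ j, ‖O i j‖ * ‖x j‖ ^ 2) / 2 := by
        rw [← add_div, ← Finset.sum_add_distrib, Finset.sum_div]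
        refine Finset.sum_congr rfl fun i _ => ?_
        rw [← Finset.sum_add_distrib, Finset.sum_div]
        exact Finset.sum_congr rfl fun j _ => by ring
      have h4 : ∑ i, ∑ j, ‖O i j‖ * ‖x j‖ ^ 2 = ∑ i, ∑ j, ‖O i j‖ * ‖x i‖ ^ 2 := by
        rw [Finset.sum_comm]
        exact Finset.sum_congr rfl fun i _ => Finset.sum_congr rfl fun j _ => by rw [hs]
      rw [h3, h4, add_halves]
      exact Finset.sum_congr rfl fun i _ => by rw [Finset.sum_mul]
    have h3 : ∑ i, (∑ j, ‖O i j‖) * ‖x i‖ ^ 2 ≤ η * ∑ i, ‖x i‖ ^ 2 := by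
      rw [Finset.mul_sum]
      exact Finset.sum_le_sum fun i _ => mul_le_mul_of_nonneg_right (h i) (sq_nonneg _)
    have h4 : |(star x ⬝ᵥ (O *ᵥ x)).re| ≤ η * ∑ i, ‖x i‖ ^ 2 :=
      (Complex.abs_re_le_norm _).trans (h1.trans (h2.le.trans h3))
    rw [e1, e2, Complex.add_re, ← Complex.ofReal_mul, Complex.ofReal_re]
    linarith [(abs_le.1 h4).1]

theorem rowsum_psd {ι : Type*} [Fintype ι] [DecidableEq ι] {O : Matrix ι ι ℂ}
    (hO : O.IsHermitian) (η : ℝ) (h : ∀ i, ∑ j, ‖O i j‖ ≤ η) :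
    (O + (η : ℂ) • (1 : Matrix ι ι ℂ)).PosSemidef ∧
      ((η : ℂ) • (1 : Matrix ι ι ℂ) - O).PosSemidef := by
  refine ⟨rowsum_aux hO η h, ?_⟩
  have h1 := rowsum_aux (O := -O) hO.neg η (fun i => by simpa using h i)
  have e : -O + (η : ℂ) • (1 : Matrix ι ι ℂ) = (η : ℂ) • (1 : Matrix ι ι ℂ) - O := by abel
  rw [← e]
  exact h1

private theorem posSemidef_blockDiagonal' {κ : Type*} [Fintype κ] [DecidableEq κ] {β : κ → Type*}
    [∀ k, Fintype (β k)] (B : ∀ k, Matrix (β k) (β k) ℂ) (hB : ∀ k, (B k).PosSemidef) :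
    (blockDiagonal' B).PosSemidef := by
  apply posSemidef_of_re
  · show (blockDiagonal' B)ᴴ = _
    rw [blockDiagonal'_conjTranspose]
    congr 1
    funext k
    exact (hB k).1
  · intro x
    have e : star x ⬝ᵥ (blockDiagonal' B *ᵥ x) =
        ∑ k, star (fun i => x ⟨k, i⟩) ⬝ᵥ (B k *ᵥ fun i => x ⟨k, i⟩) := by
      rw [dotProduct, ← Finset.univ_sigma_univ, Finset.sum_sigma]
      refine Finset.sum_congr rfl fun k _ => ?_
      rw [dotProduct]
      refine Finset.sum_congr rfl fun i _ => ?_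
      have e2 : (blockDiagonal' B *ᵥ x) ⟨k, i⟩ = (B k *ᵥ fun i => x ⟨k, i⟩) i := by
        rw [mulVec, dotProduct, ← Finset.univ_sigma_univ, Finset.sum_sigma,
          Finset.sum_eq_single k]
        · rw [mulVec, dotProduct]
          refine Finset.sum_congr rfl fun j _ => ?_
          rw [blockDiagonal'_apply_eq]
        · intro k' _ hk'
          refine Finset.sum_eq_zero fun j _ => ?_
          rw [blockDiagonal'_apply_ne _ _ _ hk'.symm, zero_mul]
        · intro h0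
          exact absurd (Finset.mem_univ k) h0
      rw [e2]
      rfl
    rw [e, Complex.re_sum]
    refine Finset.sum_nonneg fun k _ => ?_
    have := (hB k).dotProduct_mulVec_nonneg (fun i => x ⟨k, i⟩)
    exact (Complex.le_def.1 this).1

private theorem det_blockDiagonal'' {κ : Type*} [Fintype κ] [DecidableEq κ] {β : κ → Type*}
    [∀ k, Fintype (β k)] [∀ k, DecidableEq (β k)] (B : ∀ k, Matrix (β k) (β k) ℂ) :
    (blockDiagonal' B).det = ∏ k, (B k).det := by
  let _ : LinearOrder κ := LinearOrder.lift' (Fintype.equivFin κ) (Equiv.injective _)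
  have hT : BlockTriangular (blockDiagonal' B) (Sigma.fst : (Σ k, β k) → κ) := by
    rintro ⟨k, i⟩ ⟨k', j⟩ hlt
    exact blockDiagonal'_apply_ne _ _ _ (ne_of_gt hlt)
  rw [hT.det_fintype]
  refine Finset.prod_congr rfl fun k _ => ?_
  rw [← Matrix.det_submatrix_equiv_self (Equiv.sigmaSubtype k).symm]
  congr 1
  ext i j
  rw [submatrix_apply, toSquareBlock_def, of_apply]
  exact blockDiagonal'_apply_eq _ _ _ _

theorem separated {κ : Type*} [Fintype κ] [DecidableEq κ] {β : κ → Type*}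
    [∀ k, Fintype (β k)] [∀ k, DecidableEq (β k)]
    {A : Matrix (Σ k, β k) (Σ k, β k) ℂ} (hA : A.IsHermitian) {lam η : ℝ}
    (hη : 0 ≤ η) (hlam : η < lam)
    (hblock : ∀ k, (A.submatrix (Sigma.mk k) (Sigma.mk k)
      - (lam : ℂ) • (1 : Matrix (β k) (β k) ℂ)).PosSemidef)
    (hoff : ∀ x, ∑ y, (if x.1 = y.1 then 0 else ‖A x y‖) ≤ η) :
    (A - ((lam - η : ℝ) : ℂ) • (1 : Matrix (Σ k, β k) (Σ k, β k) ℂ)).PosSemidef ∧
      (1 - η / lam) ^ (Fintype.card (Σ k, β k)) *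
        ∏ k, (A.submatrix (Sigma.mk k) (Sigma.mk k)).det.re ≤ A.det.re := by
  have hlam0 : 0 < lam := lt_of_le_of_lt hη hlam
  set D : Matrix (Σ k, β k) (Σ k, β k) ℂ :=
    blockDiagonal' (fun k => A.submatrix (Sigma.mk k) (Sigma.mk k)) with hD
  have hDk : ∀ k, (A.submatrix (Sigma.mk k) (Sigma.mk k)).IsHermitian := fun k =>
    hA.submatrix _
  have hDH : D.IsHermitian := by
    show Dᴴ = D
    rw [hD, blockDiagonal'_conjTranspose]
    congr 1
    funext k
    exact hDk k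
  have hD1 : (D - (lam : ℂ) • (1 : Matrix (Σ k, β k) (Σ k, β k) ℂ)).PosSemidef := by
    have h1 := posSemidef_blockDiagonal' _ hblock
    have e : blockDiagonal' (fun k => A.submatrix (Sigma.mk k) (Sigma.mk k)
        - (lam : ℂ) • (1 : Matrix (β k) (β k) ℂ)) =
        D - (lam : ℂ) • (1 : Matrix (Σ k, β k) (Σ k, β k) ℂ) := by
      ext ⟨k, i⟩ ⟨k', j⟩
      rw [Matrix.sub_apply, Matrix.smul_apply]
      by_cases hk : k = k'
      · subst hk
        rw [hD, blockDiagonal'_apply_eq, blockDiagonal'_apply_eq, Matrix.sub_apply, Matrix.smul_apply]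
        congr 2
        simp [Matrix.one_apply]
      · rw [hD, blockDiagonal'_apply_ne _ _ _ hk, blockDiagonal'_apply_ne _ _ _ hk,
          Matrix.one_apply_ne (by intro h0; exact hk (congrArg Sigma.fst h0))]
        simp
    rw [← e]
    exact h1
  set O := A - D with hO
  have hOH : O.IsHermitian := hA.sub hDH
  have hOr : ∀ x, ∑ y, ‖O x y‖ ≤ η := by
    rintro ⟨k, i⟩
    refine le_trans (le_of_eq (Finset.sum_congr rfl ?_)) (hoff ⟨k, i⟩)
    rintro ⟨k', j⟩ _
    by_cases hk : k = k'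
    · subst hk
      rw [if_pos rfl, hO, Matrix.sub_apply, hD, blockDiagonal'_apply_eq]
      simp
    · rw [if_neg hk, hO, Matrix.sub_apply, hD, blockDiagonal'_apply_ne _ _ _ hk, sub_zero]
  have hO1 := (rowsum_psd hOH η hOr).1
  have hDP : D.PosSemidef := by
    have h1 : ((lam : ℂ) • (1 : Matrix (Σ k, β k) (Σ k, β k) ℂ)).PosSemidef :=
      Matrix.PosSemidef.one.smul (by exact_mod_cast hlam0.le)
    have := hD1.add h1
    rwa [sub_add_cancel] at this
  refine ⟨?_, ?_⟩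
  · have := hD1.add hO1
    convert this using 1
    rw [hO, Complex.ofReal_sub, sub_smul]
    abel
  · have hc : 0 ≤ 1 - η / lam := by
      rw [sub_nonneg, div_le_one hlam0]
      exact hlam.le
    have hq : 0 ≤ η / lam := div_nonneg hη hlam0.le
    have h1 : (((1 - η / lam : ℝ) : ℂ) • D).PosSemidef :=
      hDP.smul (by exact_mod_cast hc)
    have h2 : (A - ((1 - η / lam : ℝ) : ℂ) • D).PosSemidef := by
      have h3 : (((η / lam : ℝ) : ℂ) •
          (D - (lam : ℂ) • (1 : Matrix (Σ k, β k) (Σ k, β k) ℂ))).PosSemidef :=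
        hD1.smul (by exact_mod_cast hq)
      have h4 := h3.add hO1
      convert h4 using 1
      have e5 : ((η / lam : ℝ) : ℂ) • (lam : ℂ) • (1 : Matrix (Σ k, β k) (Σ k, β k) ℂ) =
          (η : ℂ) • (1 : Matrix (Σ k, β k) (Σ k, β k) ℂ) := by
        rw [smul_smul]
        congr 1
        rw [← Complex.ofReal_mul]
        congr 1
        field_simp
      rw [smul_sub, e5, hO, Complex.ofReal_sub, sub_smul, Complex.ofReal_one, one_smul]
      abel
    have h3 := det_mono h1 h2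
    rw [det_smul] at h3
    have h4 : D.det = ((∏ k, (A.submatrix (Sigma.mk k) (Sigma.mk k)).det.re : ℝ) : ℂ) := by
      rw [hD, det_blockDiagonal'', Complex.ofReal_prod]
      exact Finset.prod_congr rfl fun k _ => det_eq_re (hDk k)
    rw [h4, ← Complex.ofReal_pow, ← Complex.ofReal_mul, Complex.ofReal_re] at h3
    exact h3

end Pool.Agent.LE60
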