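import Pool.Agent.LE60.KerP
import Pool.Agent.LE60.MatO
import Pool.Agent.LE60.MatS

/-!
# LE60/CurvC: common lemmas for the two curvature comparisons `CurvL`, `CurvU`
-/

set_option autoImplicit false

namespace Pool.Agent.LE60

open Matrix
open scoped ComplexOrder ComplexConjugate

theorem psd_ser {ι : Type*} [Fintype ι] (a : ℕ → ℝ) (m : ℕ) (ha : ∀ k, 0 ≤ a k) (f : ι → ℂ) (g : ι → ℝ) :
    (Matrix.of fun i j : ι => (∑ k ∈ Finset.range m, (a k : ℂ) * (f i * conj (f j)) ^ k) *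
      ((g i : ℂ) * (g j : ℂ))).PosSemidef := by
  have h : (Matrix.of fun i j : ι => (∑ k ∈ Finset.range m, (a k : ℂ) * (f i * conj (f j)) ^ k) *
      ((g i : ℂ) * (g j : ℂ))) =
      ∑ k ∈ Finset.range m, (a k : ℝ) • Matrix.vecMulVec (fun i => (f i) ^ k * (g i : ℂ))
        (star (fun i => (f i) ^ k * (g i : ℂ))) := by
    ext i j
    rw [Matrix.sum_apply, Matrix.of_apply, Finset.sum_mul]
    apply Finset.sum_congr rfl
    intro k _
    rw [Matrix.smul_apply, Matrix.vecMulVec_apply, Pi.star_apply, star_mul', star_pow]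
    simp only [Complex.star_def, Complex.conj_ofReal, Complex.real_smul]
    rw [mul_pow]
    ring
  rw [h]
  apply Matrix.posSemidef_sum
  intro k _
  exact (Matrix.posSemidef_vecMulVec_self_star _).smul (ha k)

/-- The norm of the product of two small points. -/
theorem norm_t_le {ι : Type*} {ρ : ℝ} (f : ι → ℂ) (hf : ∀ i, ‖f i‖ ^ 2 ≤ ρ) (i j : ι) :
    ‖f i * conj (f j)‖ ≤ (‖f i‖ ^ 2 + ‖f j‖ ^ 2) / 2 ∧ ‖f i * conj (f j)‖ ≤ ρ := by
  have h1 : ‖f i * conj (f j)‖ = ‖f i‖ * ‖f j‖ := by rw [norm_mul, Complex.norm_conj]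
  have h2 := hf i
  have h3 := hf j
  rw [h1]
  constructor <;> nlinarith [sq_nonneg (‖f i‖ - ‖f j‖)]

theorem kp_scaled {ν : ℝ} (hν : 0 ≤ ν) (z w : ℂ) :
    kp (((Real.sqrt ν : ℝ) : ℂ) * z) (((Real.sqrt ν : ℝ) : ℂ) * w) =
      Complex.exp ((ν : ℂ) * (z * conj w)) *
        (((Real.exp (-(ν * ‖z‖ ^ 2 / 2)) : ℝ) : ℂ) * ((Real.exp (-(ν * ‖w‖ ^ 2 / 2)) : ℝ) : ℂ)) := by
  unfold kp
  have hs : ((Real.sqrt ν : ℝ) : ℂ) * ((Real.sqrt ν : ℝ) : ℂ) = (ν : ℂ) := by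
    rw [← Complex.ofReal_mul, Real.mul_self_sqrt hν]
  have hn : ∀ u : ℂ, ‖((Real.sqrt ν : ℝ) : ℂ) * u‖ ^ 2 = ν * ‖u‖ ^ 2 := by
    intro u
    rw [norm_mul, Complex.norm_real, Real.norm_of_nonneg (Real.sqrt_nonneg _), mul_pow, Real.sq_sqrt hν]
  rw [hn, hn, map_mul, Complex.conj_ofReal, Complex.ofReal_exp, Complex.ofReal_exp, ← Complex.exp_add,
    ← Complex.exp_add]
  congr 1
  have e1 : ((Real.sqrt ν : ℝ) : ℂ) * z * (((Real.sqrt ν : ℝ) : ℂ) * conj w) = (ν : ℂ) * (z * conj w) := by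
    rw [← hs]; ring
  rw [e1]
  push_cast
  ring

theorem sqrt_pow_split (n : ℕ) (x y : ℝ) (hx : 0 ≤ x) :
    (Real.sqrt ((1 + x) * (1 + y))) ^ n = Real.sqrt (1 + x) ^ n * Real.sqrt (1 + y) ^ n := by
  rw [Real.sqrt_mul (by linarith), mul_pow]

theorem sqrt_pow_pos (n : ℕ) (w : ℂ) : 0 < Real.sqrt (1 + ‖w‖ ^ 2) ^ n := by
  have : (0 : ℝ) < 1 + ‖w‖ ^ 2 := by positivity
  positivity

theorem kw_eq (n : ℕ) (w v : ℂ) : kw n w v =
    (1 + w * conj v) ^ n * (((1 / Real.sqrt (1 + ‖w‖ ^ 2) ^ n : ℝ) : ℂ) *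
      ((1 / Real.sqrt (1 + ‖v‖ ^ 2) ^ n : ℝ) : ℂ)) := by
  unfold kw
  rw [sqrt_pow_split n _ _ (by positivity), div_eq_mul_inv, ← Complex.ofReal_mul, ← Complex.ofReal_inv]
  congr 2
  have h1 := (sqrt_pow_pos n w).ne'
  have h2 := (sqrt_pow_pos n v).ne'
  field_simp

theorem gram_kw_psd {ι : Type*} [Fintype ι] (n : ℕ) (f : ι → ℂ) : (gram (kw n) f).PosSemidef := by
  have h := psd_ser (fun k => (n.choose k : ℝ)) (n + 1) (fun k => by positivity) f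
    (fun i => 1 / Real.sqrt (1 + ‖f i‖ ^ 2) ^ n)
  convert h using 1
  ext i j
  unfold gram
  rw [Matrix.of_apply, Matrix.of_apply, kw_eq]
  congr 1
  rw [add_comm (1 : ℂ), add_pow]
  apply Finset.sum_congr rfl
  intro k _
  simp only [one_pow, mul_one, Complex.ofReal_natCast]
  ring

theorem gram_kw_diag {ι : Type*} (n : ℕ) (f : ι → ℂ) (i : ι) : gram (kw n) f i i = 1 := by
  unfold gram kw
  rw [Matrix.of_apply, Complex.mul_conj, Complex.normSq_eq_norm_sq, Real.sqrt_mul_self (by positivity)]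
  push_cast
  apply div_self
  have h : (1 : ℂ) + (‖f i‖ : ℂ) ^ 2 ≠ 0 := by
    have : (0 : ℝ) < 1 + ‖f i‖ ^ 2 := by positivity
    exact_mod_cast this.ne'
  exact pow_ne_zero _ h

theorem gram_kp_diag {ι : Type*} (f : ι → ℂ) (i : ι) : gram kp f i i = 1 := by
  unfold gram
  rw [Matrix.of_apply, kp_self]

end Pool.Agent.LE60
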