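import Pool.Agent.LE60.MatA

/-!
# LE60/KerP: the planar kernel

PROOFS.
* `kp_self`: exponent `|z|² - |z|² = 0`. `kp_conj`: conjugate the exponential.
* `norm_kp`: the real part of `z w* - (|z|²+|w|²)/2` is `-|z - w|²/2`.
* `kp_psd`: for `x : ι → ℂ`, `x* G x = ∑_k |∑_i (conj (x i) …)|²/k! ≥ 0`: `exp (z w*) = ∑_k z^k (w*)^k / k!`
  (`NormedSpace.exp`-series / `Complex.hasSum_exp`…), with `y_i = conj (x_i) exp(-|f i|²/2)`:
  `x* G x = ∑' k, |∑_i y_i (f i)^k|² / k!`: real and `≥ 0` as a convergent sum of nonnegative reals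
  (interchange a finite sum with `HasSum`). Hermitian by `kp_conj`. Alternatively: the gram matrix is
  the entrywise limit of the PSD matrices `∑_{k<m} v_k v_k*` and PSD matrices are closed.
* `gdet_kp_mv`: `kp (a+z) (a+w) = kp z w * φ z * conj (φ w)` with `φ z = exp (i Im (z conj a))`, |φ| = 1, so
  the Gram matrix is `D G D*` with `D` diagonal unitary and `det` does not change;
  `kp (-z) (-w) = kp z w`. Likewise `D (G - c 1) D* = D G D* - c 1` gives `psd_kp_mv`.
* `gdet_reindex`: `Matrix.det_submatrix_equiv_self`.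
* `gram_kp_dist`: `‖z - w‖ ≥ L` gives `‖kp z w‖ ≤ exp (-L²/2)`.
-/

set_option autoImplicit false

namespace Pool.Agent.LE60

open Matrix
open scoped ComplexOrder ComplexConjugate

theorem kp_self (z : ℂ) : kp z z = 1 := by
  unfold kp
  have h : z * conj z - (((‖z‖ ^ 2 + ‖z‖ ^ 2) / 2 : ℝ) : ℂ) = 0 := by
    rw [Complex.mul_conj']
    push_cast
    ring
  rw [h, Complex.exp_zero]

theorem kp_conj (z w : ℂ) : kp w z = conj (kp z w) := by
  unfold kp
  rw [← Complex.exp_conj]
  congr 1
  rw [map_sub, map_mul, Complex.conj_conj, Complex.conj_ofReal, add_comm (‖w‖ ^ 2)]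
  ring

theorem norm_kp (z w : ℂ) : ‖kp z w‖ = Real.exp (-(‖z - w‖ ^ 2) / 2) := by
  unfold kp
  rw [Complex.norm_exp]
  congr 1
  have h1 : ‖z‖ ^ 2 = z.re ^ 2 + z.im ^ 2 := by
    rw [← Complex.normSq_eq_norm_sq, Complex.normSq_apply]
    ring
  have h2 : ‖w‖ ^ 2 = w.re ^ 2 + w.im ^ 2 := by
    rw [← Complex.normSq_eq_norm_sq, Complex.normSq_apply]
    ring
  have h3 : ‖z - w‖ ^ 2 = (z.re - w.re) ^ 2 + (z.im - w.im) ^ 2 := by
    rw [← Complex.normSq_eq_norm_sq, Complex.normSq_apply, Complex.sub_re, Complex.sub_im]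
    ring
  rw [Complex.sub_re, Complex.mul_re, Complex.conj_re, Complex.conj_im, Complex.ofReal_re, h1, h2,
    h3]
  ring

theorem kp_psd {ι : Type*} [Fintype ι] (f : ι → ℂ) : (gram kp f).PosSemidef := by
  classical
  have hsplit : ∀ i j, kp (f i) (f j) = Complex.exp (f i * conj (f j)) *
      (((Real.exp (-(‖f i‖ ^ 2) / 2) : ℝ) : ℂ) * ((Real.exp (-(‖f j‖ ^ 2) / 2) : ℝ) : ℂ)) := by
    intro i j
    unfold kp
    rw [Complex.ofReal_exp, Complex.ofReal_exp, ← Complex.exp_add, ← Complex.exp_add]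
    congr 1
    push_cast
    ring
  refine Matrix.PosSemidef.of_dotProduct_mulVec_nonneg ?_ fun x => ?_
  · refine Matrix.IsHermitian.ext fun i j => ?_
    exact (kp_conj (f j) (f i)).symm
  · let y : ι → ℂ := fun i => conj (x i) * ((Real.exp (-(‖f i‖ ^ 2) / 2) : ℝ) : ℂ)
    have h1 : ∀ i j, HasSum (fun k : ℕ => (y i * conj (y j)) *
        ((f i * conj (f j)) ^ k / (Nat.factorial k : ℂ)))
        ((y i * conj (y j)) * Complex.exp (f i * conj (f j))) := by
      intro i j
      have h := NormedSpace.expSeries_div_hasSum_exp (f i * conj (f j))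
      rw [← Complex.exp_eq_exp_ℂ] at h
      exact h.mul_left _
    have h2 : HasSum (fun k : ℕ => ∑ i, ∑ j, (y i * conj (y j)) *
        ((f i * conj (f j)) ^ k / (Nat.factorial k : ℂ)))
        (∑ i, ∑ j, (y i * conj (y j)) * Complex.exp (f i * conj (f j))) :=
      hasSum_sum fun i _ => hasSum_sum fun j _ => h1 i j
    have h3 : star x ⬝ᵥ ((gram kp f) *ᵥ x) =
        ∑ i, ∑ j, (y i * conj (y j)) * Complex.exp (f i * conj (f j)) := by
      simp only [dotProduct, Matrix.mulVec, gram, Matrix.of_apply, Finset.mul_sum]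
      refine Finset.sum_congr rfl fun i _ => Finset.sum_congr rfl fun j _ => ?_
      rw [hsplit]
      show star (x i) * _ = _
      simp only [y, map_mul, Complex.conj_conj, Complex.conj_ofReal]
      show conj (x i) * _ = _
      ring
    rw [h3]
    refine HasSum.nonneg (fun k => ?_) h2
    have h4 : ∑ i, ∑ j, (y i * conj (y j)) * ((f i * conj (f j)) ^ k / (Nat.factorial k : ℂ)) =
        (∑ i, y i * (f i) ^ k) * conj (∑ i, y i * (f i) ^ k) * (((1 / Nat.factorial k : ℝ)) : ℂ) := by
      rw [map_sum, Finset.sum_mul_sum, Finset.sum_mul]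
      refine Finset.sum_congr rfl fun i _ => ?_
      rw [Finset.sum_mul]
      refine Finset.sum_congr rfl fun j _ => ?_
      have h5 : conj (y j * (f j) ^ k) = conj (y j) * (conj (f j)) ^ k := by
        rw [map_mul, map_pow]
      rw [h5, mul_pow]
      push_cast
      ring
    rw [h4]
    refine mul_nonneg ?_ ?_
    · exact mul_star_self_nonneg _
    · rw [Complex.zero_le_real]
      positivity

theorem gdet_reindex {X ι κ : Type*} [Fintype ι] [DecidableEq ι] [Fintype κ] [DecidableEq κ]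
    (K : X → X → ℂ) (e : ι ≃ κ) (f : κ → X) : gdet K (fun i => f (e i)) = gdet K f := by
  have h := Matrix.det_submatrix_equiv_self e (gram K f)
  unfold gdet
  rw [← h]
  rfl

private noncomputable def phm (a e z : ℂ) : ℂ :=
  Complex.exp ((((e * z * conj a).im : ℝ) : ℂ) * Complex.I)

private theorem phm_mul (a e z : ℂ) : phm a e z * conj (phm a e z) = 1 := by
  unfold phm
  rw [← Complex.exp_conj, ← Complex.exp_add, map_mul, Complex.conj_I, Complex.conj_ofReal]
  rw [mul_neg, add_neg_cancel, Complex.exp_zero]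

private theorem kp_mv (a e z w : ℂ) (he : e = 1 ∨ e = -1) :
    kp (a + e * z) (a + e * w) = phm a e z * kp z w * conj (phm a e w) := by
  unfold kp phm
  rw [← Complex.exp_conj, ← Complex.exp_add, ← Complex.exp_add]
  congr 1
  have n : ∀ x : ℂ, ((‖x‖ : ℝ) : ℂ) ^ 2 = x * conj x := fun x => (Complex.mul_conj' x).symm
  have im' : ∀ x : ℂ, ((x.im : ℝ) : ℂ) * Complex.I = (x - conj x) / 2 := by
    intro x
    rw [Complex.sub_conj]
    push_cast
    ring
  rw [im', im']
  push_cast
  rw [n, n, n, n]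
  rcases he with rfl | rfl
  · simp only [map_add, map_mul, map_sub, map_div₀, Complex.conj_conj, map_one, map_ofNat]
    ring
  · simp only [map_add, map_mul, map_sub, map_div₀, Complex.conj_conj, map_neg, map_one,
      map_ofNat]
    ring

private theorem gram_mv {ι : Type*} [Fintype ι] [DecidableEq ι] (a e : ℂ) (he : e = 1 ∨ e = -1)
    (f : ι → ℂ) : gram kp (fun i => a + e * f i) =
      Matrix.diagonal (fun i => phm a e (f i)) * gram kp f *
        (Matrix.diagonal (fun i => phm a e (f i)))ᴴ := by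
  ext i j
  rw [Matrix.diagonal_conjTranspose, Matrix.mul_diagonal, Matrix.diagonal_mul]
  exact kp_mv a e (f i) (f j) he

private theorem diag_mul {ι : Type*} [Fintype ι] [DecidableEq ι] (a e : ℂ) (f : ι → ℂ) :
    Matrix.diagonal (fun i => phm a e (f i)) *
        (Matrix.diagonal (fun i => phm a e (f i)))ᴴ = 1 := by
  rw [Matrix.diagonal_conjTranspose, Matrix.diagonal_mul_diagonal, ← Matrix.diagonal_one]
  congr 1
  funext i
  exact phm_mul a e (f i)

theorem gdet_kp_mv {ι : Type*} [Fintype ι] [DecidableEq ι] (a e : ℂ) (he : e = 1 ∨ e = -1)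
    (f : ι → ℂ) : gdet kp (fun i => a + e * f i) = gdet kp f := by
  unfold gdet
  rw [gram_mv a e he f, Matrix.det_mul, Matrix.det_mul, mul_right_comm, ← Matrix.det_mul,
    diag_mul, Matrix.det_one, one_mul]

theorem psd_kp_mv {ι : Type*} [Fintype ι] [DecidableEq ι] (a e : ℂ) (he : e = 1 ∨ e = -1)
    (f : ι → ℂ) (c : ℝ) (h : (gram kp f - (c : ℂ) • (1 : Matrix ι ι ℂ)).PosSemidef) :
    (gram kp (fun i => a + e * f i) - (c : ℂ) • (1 : Matrix ι ι ℂ)).PosSemidef := by
  have h1 : gram kp (fun i => a + e * f i) - (c : ℂ) • (1 : Matrix ι ι ℂ) =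
      Matrix.diagonal (fun i => phm a e (f i)) * (gram kp f - (c : ℂ) • (1 : Matrix ι ι ℂ)) *
        (Matrix.diagonal (fun i => phm a e (f i)))ᴴ := by
    rw [gram_mv a e he f, Matrix.mul_sub, Matrix.sub_mul, Matrix.mul_smul, Matrix.mul_one,
      Matrix.smul_mul, diag_mul]
  rw [h1]
  exact h.mul_mul_conjTranspose_same _

end Pool.Agent.LE60
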