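import Pool.Agent.LE60.MatA

/-!
# LE60/MatX: `det (A + τ 1)` and principal minors

PROOFS.
* `det_add_smul_one`: multilinearity of the determinant in the rows:
  `det (A + τ 1) = ∑_{S ⊆ ι} det (rows of A for i ∈ S, rows of τ 1 for i ∉ S)`
  (`MultilinearMap.map_add_univ` applied to `Matrix.detRowAlternating`), and the summand of `S` equals
  `τ^(|ι| - |S|) det A_S` with `A_S` the principal submatrix on `S`: reindex
  `ι ≃ {i // i ∈ S} ⊕ {i // i ∉ S}` (`Equiv.sumCompl`); the matrix becomes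
  `[[A_S, *], [0, τ 1]]`, `Matrix.det_fromBlocks_zero₂₁`.
  (Alternative: induction on the number of diagonal entries to which `τ` has been added,
  `det (A + τ E_ii) = det A + τ det A_{ι∖i}`.)
* `det_add_le`: real parts (`τ` real) and the hypothesis give
  `∑_S τ^{|ι|-|S|} M q^{|ι|-|S|} = M ∑_S (τ q)^{|ι| - |S|} = M (1 + τ q)^{|ι|}`
  (`Finset.sum_pow_mul_eq_add_pow` or `Finset.prod_add`/`Finset.prod_one_add`).
-/

set_option autoImplicit false

namespace Pool.Agent.LE60

open Matrix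
open scoped ComplexOrder ComplexConjugate

variable {ι : Type*} [Fintype ι] [DecidableEq ι]

theorem det_add_smul_one (A : Matrix ι ι ℂ) (τ : ℂ) :
    (A + τ • (1 : Matrix ι ι ℂ)).det = ∑ S : Finset ι, τ ^ (Fintype.card ι - S.card) *
      (A.submatrix (Subtype.val : {i // i ∈ S} → ι) (Subtype.val : {i // i ∈ S} → ι)).det := by
  classical
  have h1 : (A + τ • (1 : Matrix ι ι ℂ)).det =
      ∑ S : Finset ι, (detRowAlternating : (ι → ℂ) [⋀^ι]→ₗ[ℂ] ℂ)
        (S.piecewise (fun i => A i) (fun i => (τ • (1 : Matrix ι ι ℂ)) i)) := by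
    rw [← (detRowAlternating : (ι → ℂ) [⋀^ι]→ₗ[ℂ] ℂ).map_add_univ]
    rfl
  rw [h1]
  refine Finset.sum_congr rfl fun S _ => ?_
  have h2 : (S.piecewise (fun i => A i) (fun i => (τ • (1 : Matrix ι ι ℂ)) i) : ι → ι → ℂ) =
      fun i => (if i ∈ S then (1 : ℂ) else τ) •
        (S.piecewise (fun i => A i) (fun i => (1 : Matrix ι ι ℂ) i) : ι → ι → ℂ) i := by
    funext i
    by_cases hi : i ∈ S
    · simp [hi]
    · simp only [Finset.piecewise, hi, if_false]
      rfl
  rw [h2, (detRowAlternating : (ι → ℂ) [⋀^ι]→ₗ[ℂ] ℂ).map_smul_univ]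
  have h3 : (∏ i, (if i ∈ S then (1 : ℂ) else τ)) = τ ^ (Fintype.card ι - S.card) := by
    rw [Finset.prod_ite]
    simp only [Finset.prod_const_one, one_mul, Finset.prod_const]
    congr 1
    rw [Finset.filter_not, Finset.filter_mem_eq_inter, Finset.univ_inter,
      Finset.card_sdiff_of_subset (Finset.subset_univ S), Finset.card_univ]
  rw [h3, smul_eq_mul]
  congr 1
  exact det_piecewise_one_eq_submatrix_det A S

theorem det_add_le (A : Matrix ι ι ℂ) {τ M q : ℝ} (hτ : 0 ≤ τ)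
    (h : ∀ S : Finset ι, (A.submatrix (Subtype.val : {i // i ∈ S} → ι)
      (Subtype.val : {i // i ∈ S} → ι)).det.re ≤ M * q ^ (Fintype.card ι - S.card)) :
    (A + (τ : ℂ) • (1 : Matrix ι ι ℂ)).det.re ≤ M * (1 + τ * q) ^ (Fintype.card ι) := by
  classical
  rw [det_add_smul_one, Complex.re_sum]
  have h1 : ∀ S : Finset ι, ((τ : ℂ) ^ (Fintype.card ι - S.card) *
      (A.submatrix (Subtype.val : {i // i ∈ S} → ι) (Subtype.val : {i // i ∈ S} → ι)).det).re ≤
      M * ((1 : ℝ) ^ S.card * (τ * q) ^ (Fintype.card ι - S.card)) := by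
    intro S
    have h2 : ((τ : ℂ) ^ (Fintype.card ι - S.card)) =
        ((τ ^ (Fintype.card ι - S.card) : ℝ) : ℂ) := by push_cast; rfl
    rw [h2, Complex.re_ofReal_mul]
    calc τ ^ (Fintype.card ι - S.card) * (A.submatrix (Subtype.val : {i // i ∈ S} → ι)
          (Subtype.val : {i // i ∈ S} → ι)).det.re
        ≤ τ ^ (Fintype.card ι - S.card) * (M * q ^ (Fintype.card ι - S.card)) :=
          mul_le_mul_of_nonneg_left (h S) (pow_nonneg hτ _)
      _ = M * ((1 : ℝ) ^ S.card * (τ * q) ^ (Fintype.card ι - S.card)) := by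
          rw [one_pow, mul_pow]; ring
  refine (Finset.sum_le_sum fun S _ => h1 S).trans ?_
  rw [← Finset.mul_sum, Fintype.sum_pow_mul_eq_add_pow]

end Pool.Agent.LE60
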