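import Pool.Agent.LE60.Coef
import Pool.Agent.LE60.KerP
import Pool.Agent.LE60.MatO
import Pool.Agent.LE60.MatX
import Pool.Agent.LE60.MatS
import Pool.Agent.LE60.CurvC

/-!
# LE60/CurvL: curvature comparison, upper bound for the spherical determinant

PROOF. `ν = n' + δ`, `x_i = ‖f i‖²`, `t = f i * conj (f j)`, `‖t‖ ≤ ρ`. `(a, m)` from `coefL`, `R₁(t) = ∑_{k<m} a_k t^k`,
`ε = e^{-δ}`. Matrices on `ι`:
`S = gram (kw n') f`, `S_ij = (1+t)^{n'}/√((1+x_i)(1+x_j))^{n'}`;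
`P = gram kp (√ν f)`, `P_ij = exp (ν t - ν (x_i + x_j)/2)`;
`R_ij = R₁(t) g_i g_j`, `g_i = exp (-ν x_i/2) √(1+x_i)^{n'}`.
`R` is PSD (sum of `a_k v_k v_k*`, `v_k(i) = (f i)^k g_i`). `S` is PSD (`kw_psd`: `(1 + t)^{n'} = ∑ C(n',k) t^k` with the same
argument). `E := P - S ⊙ R`: `E_ij = (1+t)^{n'} (e^{νt}/(1+t)^{n'} - R₁(t)) e^{-ν(x_i+x_j)/2}`, so
`|E_ij| ≤ ε |1+t|^{n'} e^{-ν(x_i+x_j)/2} ≤ ε`, since `|1+t|² ≤ (1+x_i)(1+x_j)` (Cauchy-Schwarz) and `(1+x)^{n'} ≤ e^{n'x} ≤ e^{νx}`.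
Hence `S ⊙ R = P - E ≤ P + τ 1`, `τ = |ι| ε` (`rowsum_psd`); `S ⊙ R` is PSD (Schur), so `det (S ⊙ R) ≤ det (P + τ 1)`
(`det_mono`) `≤ M (1 + τ q)^{|ι|}` (`det_add_le`; hypothesis `h`; principal submatrices of `P` are Gram matrices of
restrictions). Oppenheim: `det (S ⊙ R) ≥ det S ∏ R_ii`, and `R_ii = P_ii - E_ii ≥ 1 - ε` because `S_ii = P_ii = 1`.
So `gdet (kw n') f (1-ε)^{|ι|} ≤ M (1 + |ι| ε q)^{|ι|}` (`gdet ≥ 0`).
-/

set_option autoImplicit false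

namespace Pool.Agent.LE60

open Matrix
open scoped ComplexOrder ComplexConjugate

theorem kw_psd {ι : Type*} [Fintype ι] (n : ℕ) (f : ι → ℂ) : (gram (kw n) f).PosSemidef :=
  gram_kw_psd n f

theorem kw_self (n : ℕ) (w : ℂ) : kw n w w = 1 := by
  have := gram_kw_diag n (fun _ : Unit => w) ()
  exact this

theorem curvL {ι : Type*} [Fintype ι] [DecidableEq ι] (n' δ : ℕ) {ρ : ℝ} (hρ0 : 0 < ρ)
    (hρ : ρ ≤ 1 / 64) (hδ : 220 * n' * ρ ^ 2 ≤ δ) (f : ι → ℂ) (hf : ∀ i, ‖f i‖ ^ 2 ≤ ρ)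
    (M q : ℝ)
    (h : ∀ S : Finset ι, gdet kp (fun i : {i // i ∈ S} => ((Real.sqrt (n' + δ) : ℝ) : ℂ) * f i)
      ≤ M * q ^ (Fintype.card ι - S.card)) :
    gdet (kw n') f * (1 - Real.exp (-(δ : ℝ))) ^ (Fintype.card ι)
      ≤ M * (1 + Fintype.card ι * Real.exp (-(δ : ℝ)) * q) ^ (Fintype.card ι) := by
  obtain ⟨a, m, ha, hR⟩ := coefL n' δ hρ0 hρ hδ
  have hν : (0 : ℝ) ≤ (n' : ℝ) + δ := by positivity
  have hε0 : 0 < Real.exp (-(δ : ℝ)) := Real.exp_pos _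
  have hε1 : Real.exp (-(δ : ℝ)) ≤ 1 := Real.exp_le_one_iff.2 (by simp)
  set ε := Real.exp (-(δ : ℝ)) with hε
  set P : Matrix ι ι ℂ := gram kp (fun i => ((Real.sqrt (n' + δ) : ℝ) : ℂ) * f i) with hP
  set S : Matrix ι ι ℂ := gram (kw n') f with hS
  set g : ι → ℝ := fun i => Real.exp (-(((n' : ℝ) + δ) * ‖f i‖ ^ 2 / 2)) * Real.sqrt (1 + ‖f i‖ ^ 2) ^ n' with hg
  set R : Matrix ι ι ℂ := Matrix.of fun i j : ι =>
    (∑ k ∈ Finset.range m, (a k : ℂ) * (f i * conj (f j)) ^ k) * ((g i : ℂ) * (g j : ℂ)) with hRdef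
  have hRpsd : R.PosSemidef := psd_ser a m ha f g
  have hSpsd : S.PosSemidef := gram_kw_psd n' f
  have hPpsd : P.PosSemidef := kp_psd _
  have hSR : (S ⊙ R).PosSemidef := hSpsd.hadamard hRpsd
  have hE : ∀ i j, ‖(P - S ⊙ R) i j‖ ≤ ε := by
    intro i j
    set t := f i * conj (f j) with ht
    obtain ⟨t1, t2⟩ := norm_t_le f hf i j
    rw [← ht] at t1 t2
    have ht1 : ‖t‖ < 1 := by linarith
    have h1t : (1 : ℂ) + t ≠ 0 := by
      intro h0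
      have : t = -1 := by linear_combination h0
      rw [this, norm_neg, norm_one] at ht1
      linarith
    have e1 : (P - S ⊙ R) i j = (1 + t) ^ n' *
        (Complex.exp (((n' + δ : ℝ) : ℂ) * t) / (1 + t) ^ n' - ∑ k ∈ Finset.range m, (a k : ℂ) * t ^ k) *
        (((Real.exp (-(((n' : ℝ) + δ) * ‖f i‖ ^ 2 / 2)) : ℝ) : ℂ) *
          ((Real.exp (-(((n' : ℝ) + δ) * ‖f j‖ ^ 2 / 2)) : ℝ) : ℂ)) := by
      rw [Matrix.sub_apply, Matrix.hadamard_apply, hP, hS, hRdef]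
      unfold gram
      rw [Matrix.of_apply, Matrix.of_apply, Matrix.of_apply, kp_scaled hν, kw_eq, ← ht, hg]
      have p1 := (sqrt_pow_pos n' (f i)).ne'
      have p2 := (sqrt_pow_pos n' (f j)).ne'
      have q1 : ((Real.sqrt (1 + ‖f i‖ ^ 2) ^ n' : ℝ) : ℂ) ≠ 0 := by exact_mod_cast p1
      have q2 : ((Real.sqrt (1 + ‖f j‖ ^ 2) ^ n' : ℝ) : ℂ) ≠ 0 := by exact_mod_cast p2
      have q3 : (1 + t) ^ n' ≠ 0 := pow_ne_zero _ h1t
      rw [mul_sub, mul_div_cancel₀ _ q3]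
      simp only [Complex.ofReal_mul, Complex.ofReal_div, Complex.ofReal_one]
      generalize ((Real.sqrt (1 + ‖f i‖ ^ 2) ^ n' : ℝ) : ℂ) = X at *
      generalize ((Real.sqrt (1 + ‖f j‖ ^ 2) ^ n' : ℝ) : ℂ) = Y at *
      field_simp
    rw [e1, norm_mul, norm_mul, norm_pow, norm_mul, Complex.norm_real, Complex.norm_real,
      Real.norm_of_nonneg (Real.exp_pos _).le, Real.norm_of_nonneg (Real.exp_pos _).le, ← Real.exp_add]
    have h2 := hR t t2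
    have h3 : ‖1 + t‖ ^ n' ≤ Real.exp (n' * ((‖f i‖ ^ 2 + ‖f j‖ ^ 2) / 2)) := by
      rw [Real.exp_nat_mul]
      apply pow_le_pow_left₀ (norm_nonneg _)
      have h4 : ‖1 + t‖ ≤ 1 + ‖t‖ := by
        have := norm_add_le (1 : ℂ) t
        rwa [norm_one] at this
      have h5 := Real.add_one_le_exp ((‖f i‖ ^ 2 + ‖f j‖ ^ 2) / 2)
      linarith
    calc ‖1 + t‖ ^ n' * ‖Complex.exp (((n' + δ : ℝ) : ℂ) * t) / (1 + t) ^ n' -
            ∑ k ∈ Finset.range m, (a k : ℂ) * t ^ k‖ *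
          Real.exp (-(((n' : ℝ) + δ) * ‖f i‖ ^ 2 / 2) + -(((n' : ℝ) + δ) * ‖f j‖ ^ 2 / 2))
        ≤ Real.exp (n' * ((‖f i‖ ^ 2 + ‖f j‖ ^ 2) / 2)) * ε *
          Real.exp (-(((n' : ℝ) + δ) * ‖f i‖ ^ 2 / 2) + -(((n' : ℝ) + δ) * ‖f j‖ ^ 2 / 2)) := by
          apply mul_le_mul_of_nonneg_right _ (Real.exp_pos _).le
          exact mul_le_mul h3 h2 (norm_nonneg _) (Real.exp_pos _).le
      _ = ε * (Real.exp (n' * ((‖f i‖ ^ 2 + ‖f j‖ ^ 2) / 2)) *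
          Real.exp (-(((n' : ℝ) + δ) * ‖f i‖ ^ 2 / 2) + -(((n' : ℝ) + δ) * ‖f j‖ ^ 2 / 2))) := by ring
      _ ≤ ε * 1 := by
          apply mul_le_mul_of_nonneg_left _ hε0.le
          rw [← Real.exp_add]
          apply Real.exp_le_one_iff.2
          have : (0 : ℝ) ≤ δ * (‖f i‖ ^ 2 + ‖f j‖ ^ 2) := by positivity
          nlinarith
      _ = ε := mul_one _
  have hEh : (P - S ⊙ R).IsHermitian := hPpsd.isHermitian.sub hSR.isHermitian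
  have hrow := (rowsum_psd hEh (Fintype.card ι * ε) (by
    intro i
    calc ∑ j, ‖(P - S ⊙ R) i j‖ ≤ ∑ _j : ι, ε := Finset.sum_le_sum fun j _ => hE i j
      _ = Fintype.card ι * ε := by rw [Finset.sum_const, Finset.card_univ, nsmul_eq_mul])).1
  have hdm : (S ⊙ R).det.re ≤ (P + ((Fintype.card ι * ε : ℝ) : ℂ) • (1 : Matrix ι ι ℂ)).det.re := by
    apply det_mono hSR
    have : P + ((Fintype.card ι * ε : ℝ) : ℂ) • (1 : Matrix ι ι ℂ) - S ⊙ R =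
        P - S ⊙ R + ((Fintype.card ι * ε : ℝ) : ℂ) • (1 : Matrix ι ι ℂ) := by abel
    rw [this]
    exact hrow
  have hτ : (0 : ℝ) ≤ Fintype.card ι * ε := by positivity
  have hup := det_add_le P hτ (M := M) (q := q) (by
    intro T
    exact h T)
  have hop := oppenheim hSpsd hRpsd
  have hdiag : ∀ i, 1 - ε ≤ (R i i).re := by
    intro i
    have h1 := hE i i
    rw [Matrix.sub_apply, Matrix.hadamard_apply, hS, gram_kw_diag, hP, gram_kp_diag, one_mul] at h1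
    have h2 := (Complex.abs_re_le_norm (1 - R i i)).trans h1
    rw [Complex.sub_re, Complex.one_re] at h2
    have := (abs_le.1 h2).2
    linarith
  have hprod : (1 - ε) ^ (Fintype.card ι) ≤ ∏ i, (R i i).re := by
    rw [← Finset.card_univ, ← Finset.prod_const]
    exact Finset.prod_le_prod (fun i _ => by linarith) (fun i _ => hdiag i)
  have hS0 : 0 ≤ S.det.re := det_re_nonneg hSpsd
  calc gdet (kw n') f * (1 - ε) ^ (Fintype.card ι) = S.det.re * (1 - ε) ^ (Fintype.card ι) := rfl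
    _ ≤ S.det.re * ∏ i, (R i i).re := mul_le_mul_of_nonneg_left hprod hS0
    _ ≤ (S ⊙ R).det.re := hop
    _ ≤ _ := hdm
    _ ≤ _ := hup

end Pool.Agent.LE60
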