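import Pool.Agent.LE60.Coef
import Pool.Agent.LE60.KerP
import Pool.Agent.LE60.MatO
import Pool.Agent.LE60.MatS
import Pool.Agent.LE60.CurvC

/-!
# LE60/CurvU: curvature comparison, lower bound for the spherical determinant

PROOF. `ν = n' - d ≥ 0`, `x_i = ‖f i‖²`, `t = f i * conj (f j)`, `‖t‖ ≤ ρ`. `(a, m)` from `coefU`, `R₁(t) = ∑_{j<m} a_j t^j`,
`ε = e^{-k}`. Matrices on `ι`:
`S = gram (kw n') f`, `P = gram kp (√ν f)` (`P_ij = exp (ν t - ν(x_i+x_j)/2)`, `S_ij = (1+t)^{n'}/√((1+x_i)(1+x_j))^{n'}`),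
`R_ij = R₁(t) g_i g_j`, `g_i = exp (ν x_i/2)/√(1+x_i)^{n'}`; `R` PSD (sum of `a_k v_k v_k*`).
`E := S - P ⊙ R`: `E_ij = e^{νt} ((1+t)^{n'} e^{-νt} - R₁(t))/√((1+x_i)(1+x_j))^{n'}`,
`|E_ij| ≤ ε e^{ν(x_i+x_j)/2}/√((1+x_i)(1+x_j))^{n'} ≤ ε`, since `|e^{νt}| ≤ e^{ν|t|} ≤ e^{ν(x_i+x_j)/2}` and
`e^{νx} ≤ (1+x)^{n'}` for `0 ≤ x ≤ ρ`: `n' log (1+x) ≥ n' (x - x²/2) ≥ (n' - d) x` because `n' x/2 ≤ n' ρ/2 ≤ d` (`hn`).
Diagonal: `S_ii = P_ii = 1`, so `R_ii = 1 - E_ii ≥ 1 - ε ≥ 3/4`.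
`P - lam 1` PSD gives `(P - lam 1) ⊙ R` PSD (Schur), `1 ⊙ R = diag R_ii ≥ (1-ε) 1`, so
`P ⊙ R - lam (1-ε) 1` is PSD. With `τ = |ι| ε ≤ lam/4` (`rowsum_psd`): `S ≥ P ⊙ R - τ 1`, hence
(1) `S - (lam (1-ε) - τ) 1` PSD and `lam(1-ε) - τ ≥ lam/2`;
(2) `S ≥ (1 - τ/(lam(1-ε))) P ⊙ R ≥ (1 - 2τ/lam) P ⊙ R` (`P ⊙ R` PSD), `0 ≤ 1 - 2τ/lam`.
By `det_mono` and Oppenheim `det S ≥ (1 - 2τ/lam)^{|ι|} det (P ⊙ R) ≥ (1-2τ/lam)^{|ι|} det P ∏ R_ii
≥ (1 - 2τ/lam)^{|ι|} (1-ε)^{|ι|} det P`.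
-/

set_option autoImplicit false

namespace Pool.Agent.LE60

open Matrix
open scoped ComplexOrder ComplexConjugate

/-- `exp (ν x) ≤ (1 + x)^n'` for small `x`. -/
theorem exp_le_pow {n' d : ℕ} {ρ x : ℝ} (_hd : d ≤ n') (hn : n' * ρ ≤ 2 * d) (hx0 : 0 ≤ x) (hx : x ≤ ρ) :
    Real.exp (((n' : ℝ) - d) * x / 2) ≤ Real.sqrt (1 + x) ^ n' := by
  have h1 : 0 < 1 + x := by linarith
  have h2 : x - x ^ 2 / 2 ≤ Real.log (1 + x) := by
    rcases eq_or_lt_of_le hx0 with h0 | h0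
    · rw [← h0]; simp
    · have := Real.le_log_one_add_of_nonneg hx0
      refine le_trans ?_ this
      rw [le_div_iff₀ (by linarith)]
      nlinarith [pow_pos h0 3]
  have h3 : ((n' : ℝ) - d) * x ≤ n' * Real.log (1 + x) := by
    have h4 : (n' : ℝ) * (x - x ^ 2 / 2) ≤ n' * Real.log (1 + x) :=
      mul_le_mul_of_nonneg_left h2 (by positivity)
    have h5 : (n' : ℝ) * x ≤ 2 * d := by
      have : (n' : ℝ) * x ≤ n' * ρ := mul_le_mul_of_nonneg_left hx (by positivity)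
      linarith
    nlinarith
  have h6 : Real.sqrt (1 + x) = Real.exp (Real.log (1 + x) / 2) := by
    rw [Real.sqrt_eq_rpow, Real.rpow_def_of_pos h1]
    congr 1
    ring
  rw [h6, ← Real.exp_nat_mul]
  apply Real.exp_le_exp.2
  linarith

theorem curvU {ι : Type*} [Fintype ι] [DecidableEq ι] (n' k d : ℕ) {ρ : ℝ} (hρ0 : 0 < ρ)
    (hρ : ρ ≤ 1 / 64) (hd : d ≤ n') (hkd : 4 * k ≤ d) (hkn : 16 * k * n' ≤ d ^ 2)
    (htail : 15 * d * ρ + 110 * n' * ρ ^ 2 ≤ k) (hn : n' * ρ ≤ 2 * d)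
    (f : ι → ℂ) (hf : ∀ i, ‖f i‖ ^ 2 ≤ ρ) {lam : ℝ} (hlam : 0 < lam)
    (hk : Real.exp (-(k : ℝ)) ≤ 1 / 4) (hsmall : Fintype.card ι * Real.exp (-(k : ℝ)) ≤ lam / 4)
    (hpsd : (gram kp (fun i => ((Real.sqrt ((n' : ℝ) - d) : ℝ) : ℂ) * f i)
      - (lam : ℂ) • (1 : Matrix ι ι ℂ)).PosSemidef) :
    (gram (kw n') f - ((lam / 2 : ℝ) : ℂ) • (1 : Matrix ι ι ℂ)).PosSemidef ∧
    (1 - 2 * Fintype.card ι * Real.exp (-(k : ℝ)) / lam) ^ (Fintype.card ι) *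
      (1 - Real.exp (-(k : ℝ))) ^ (Fintype.card ι) *
      gdet kp (fun i => ((Real.sqrt ((n' : ℝ) - d) : ℝ) : ℂ) * f i) ≤ gdet (kw n') f := by
  obtain ⟨a, m, ha, hR⟩ := coefU n' k d hρ0 hρ hd hkd hkn htail
  have hν : (0 : ℝ) ≤ (n' : ℝ) - d := by
    have : (d : ℝ) ≤ n' := by exact_mod_cast hd
    linarith
  have hε0 : 0 < Real.exp (-(k : ℝ)) := Real.exp_pos _
  set ε := Real.exp (-(k : ℝ)) with hε
  set ν : ℝ := (n' : ℝ) - d with hνd
  set P : Matrix ι ι ℂ := gram kp (fun i => ((Real.sqrt ν : ℝ) : ℂ) * f i) with hP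
  set S : Matrix ι ι ℂ := gram (kw n') f with hS
  set g : ι → ℝ := fun i => Real.exp (ν * ‖f i‖ ^ 2 / 2) * (1 / Real.sqrt (1 + ‖f i‖ ^ 2) ^ n') with hg
  set R : Matrix ι ι ℂ := Matrix.of fun i j : ι =>
    (∑ k ∈ Finset.range m, (a k : ℂ) * (f i * conj (f j)) ^ k) * ((g i : ℂ) * (g j : ℂ)) with hRdef
  have hRpsd : R.PosSemidef := psd_ser a m ha f g
  have hSpsd : S.PosSemidef := gram_kw_psd n' f
  have hPpsd : P.PosSemidef := kp_psd _
  have hPR : (P ⊙ R).PosSemidef := hPpsd.hadamard hRpsd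
  have hE : ∀ i j, ‖(S - P ⊙ R) i j‖ ≤ ε := by
    intro i j
    set t := f i * conj (f j) with ht
    obtain ⟨t1, t2⟩ := norm_t_le f hf i j
    rw [← ht] at t1 t2
    have e1 : (S - P ⊙ R) i j = Complex.exp ((ν : ℂ) * t) *
        ((1 + t) ^ n' * Complex.exp (-(ν : ℂ) * t) - ∑ k ∈ Finset.range m, (a k : ℂ) * t ^ k) *
        (((1 / Real.sqrt (1 + ‖f i‖ ^ 2) ^ n' : ℝ) : ℂ) *
          ((1 / Real.sqrt (1 + ‖f j‖ ^ 2) ^ n' : ℝ) : ℂ)) := by
      rw [Matrix.sub_apply, Matrix.hadamard_apply, hP, hS, hRdef]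
      unfold gram
      rw [Matrix.of_apply, Matrix.of_apply, Matrix.of_apply, kp_scaled hν, kw_eq, ← ht, hg]
      have q1 : ((Real.exp (-(ν * ‖f i‖ ^ 2 / 2)) : ℝ) : ℂ) * ((Real.exp (ν * ‖f i‖ ^ 2 / 2) : ℝ) : ℂ) = 1 := by
        rw [← Complex.ofReal_mul, ← Real.exp_add, neg_add_cancel, Real.exp_zero, Complex.ofReal_one]
      have q2 : ((Real.exp (-(ν * ‖f j‖ ^ 2 / 2)) : ℝ) : ℂ) * ((Real.exp (ν * ‖f j‖ ^ 2 / 2) : ℝ) : ℂ) = 1 := by
        rw [← Complex.ofReal_mul, ← Real.exp_add, neg_add_cancel, Real.exp_zero, Complex.ofReal_one]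
      have q3 : Complex.exp ((ν : ℂ) * t) * Complex.exp (-(ν : ℂ) * t) = 1 := by
        rw [← Complex.exp_add, neg_mul, add_neg_cancel, Complex.exp_zero]
      simp only [Complex.ofReal_mul]
      generalize Complex.exp ((ν : ℂ) * t) = X at *
      generalize Complex.exp (-(ν : ℂ) * t) = Y at *
      generalize ((Real.exp (-(ν * ‖f i‖ ^ 2 / 2)) : ℝ) : ℂ) = U at *
      generalize ((Real.exp (-(ν * ‖f j‖ ^ 2 / 2)) : ℝ) : ℂ) = V at *
      generalize ((Real.exp (ν * ‖f i‖ ^ 2 / 2) : ℝ) : ℂ) = U' at *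
      generalize ((Real.exp (ν * ‖f j‖ ^ 2 / 2) : ℝ) : ℂ) = V' at *
      generalize ((1 / Real.sqrt (1 + ‖f i‖ ^ 2) ^ n' : ℝ) : ℂ) = A at *
      generalize ((1 / Real.sqrt (1 + ‖f j‖ ^ 2) ^ n' : ℝ) : ℂ) = B at *
      generalize (∑ k ∈ Finset.range m, (a k : ℂ) * t ^ k) = T at *
      linear_combination (-(1 + t) ^ n' * A * B) * q3 - X * T * A * B * V * V' * q1 - X * T * A * B * q2
    rw [e1, norm_mul, norm_mul, norm_mul, Complex.norm_real, Complex.norm_real,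
      Real.norm_of_nonneg (by positivity), Real.norm_of_nonneg (by positivity)]
    have h2 : ‖(1 + t) ^ n' * Complex.exp (-(ν : ℂ) * t) - ∑ k ∈ Finset.range m, (a k : ℂ) * t ^ k‖ ≤ ε :=
      hR t t2
    have h3 : ‖Complex.exp ((ν : ℂ) * t)‖ ≤
        Real.exp (ν * ‖f i‖ ^ 2 / 2) * Real.exp (ν * ‖f j‖ ^ 2 / 2) := by
      rw [← Real.exp_add, Complex.norm_exp]
      apply Real.exp_le_exp.2
      rw [Complex.re_ofReal_mul]
      have h4 : t.re ≤ ‖t‖ := Complex.re_le_norm t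
      have h5 : ν * t.re ≤ ν * ((‖f i‖ ^ 2 + ‖f j‖ ^ 2) / 2) :=
        mul_le_mul_of_nonneg_left (h4.trans t1) hν
      linarith
    have hi := exp_le_pow hd hn (by positivity : (0 : ℝ) ≤ ‖f i‖ ^ 2) (hf i)
    have hj := exp_le_pow hd hn (by positivity : (0 : ℝ) ≤ ‖f j‖ ^ 2) (hf j)
    rw [← hνd] at hi hj
    have pi' := sqrt_pow_pos n' (f i)
    have pj' := sqrt_pow_pos n' (f j)
    have gi : Real.exp (ν * ‖f i‖ ^ 2 / 2) * (1 / Real.sqrt (1 + ‖f i‖ ^ 2) ^ n') ≤ 1 := by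
      rw [mul_one_div, div_le_one pi']
      exact hi
    have gj : Real.exp (ν * ‖f j‖ ^ 2 / 2) * (1 / Real.sqrt (1 + ‖f j‖ ^ 2) ^ n') ≤ 1 := by
      rw [mul_one_div, div_le_one pj']
      exact hj
    have gi0 : 0 ≤ Real.exp (ν * ‖f i‖ ^ 2 / 2) * (1 / Real.sqrt (1 + ‖f i‖ ^ 2) ^ n') := by positivity
    have gj0 : 0 ≤ Real.exp (ν * ‖f j‖ ^ 2 / 2) * (1 / Real.sqrt (1 + ‖f j‖ ^ 2) ^ n') := by positivity
    have hAB : 0 ≤ (1 / Real.sqrt (1 + ‖f i‖ ^ 2) ^ n') * (1 / Real.sqrt (1 + ‖f j‖ ^ 2) ^ n') := by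
      positivity
    calc ‖Complex.exp ((ν : ℂ) * t)‖ *
          ‖(1 + t) ^ n' * Complex.exp (-(ν : ℂ) * t) - ∑ k ∈ Finset.range m, (a k : ℂ) * t ^ k‖ *
          (1 / Real.sqrt (1 + ‖f i‖ ^ 2) ^ n' * (1 / Real.sqrt (1 + ‖f j‖ ^ 2) ^ n'))
        ≤ (Real.exp (ν * ‖f i‖ ^ 2 / 2) * Real.exp (ν * ‖f j‖ ^ 2 / 2)) * ε *
          (1 / Real.sqrt (1 + ‖f i‖ ^ 2) ^ n' * (1 / Real.sqrt (1 + ‖f j‖ ^ 2) ^ n')) := by
          apply mul_le_mul_of_nonneg_right _ hAB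
          exact mul_le_mul h3 h2 (norm_nonneg _) (by positivity)
      _ = ε * ((Real.exp (ν * ‖f i‖ ^ 2 / 2) * (1 / Real.sqrt (1 + ‖f i‖ ^ 2) ^ n')) *
          (Real.exp (ν * ‖f j‖ ^ 2 / 2) * (1 / Real.sqrt (1 + ‖f j‖ ^ 2) ^ n'))) := by ring
      _ ≤ ε * 1 := by
          apply mul_le_mul_of_nonneg_left _ hε0.le
          exact mul_le_one₀ gi gj0 gj
      _ = ε := mul_one _
  have hEh : (S - P ⊙ R).IsHermitian := hSpsd.isHermitian.sub hPR.isHermitian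
  have hrow := (rowsum_psd hEh (Fintype.card ι * ε) (by
    intro i
    calc ∑ j, ‖(S - P ⊙ R) i j‖ ≤ ∑ _j : ι, ε := Finset.sum_le_sum fun j _ => hE i j
      _ = Fintype.card ι * ε := by rw [Finset.sum_const, Finset.card_univ, nsmul_eq_mul])).1
  have hdiag : ∀ i, 1 - ε ≤ (R i i).re := by
    intro i
    have h1 := hE i i
    rw [Matrix.sub_apply, Matrix.hadamard_apply, hS, gram_kw_diag, hP, gram_kp_diag, one_mul] at h1
    have h2 := (Complex.abs_re_le_norm (1 - R i i)).trans h1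
    rw [Complex.sub_re, Complex.one_re] at h2
    have := (abs_le.1 h2).2
    linarith
  have hdiag' : ∀ i, R i i = ((R i i).re : ℂ) := by
    intro i
    have := hRpsd.isHermitian.coe_re_apply_self i
    exact this.symm
  -- the diagonal part
  have hD : (Matrix.diagonal (fun i => R i i) - ((1 - ε : ℝ) : ℂ) • (1 : Matrix ι ι ℂ)).PosSemidef := by
    have e1 : Matrix.diagonal (fun i => R i i) - ((1 - ε : ℝ) : ℂ) • (1 : Matrix ι ι ℂ) =
        Matrix.diagonal (fun i => (((R i i).re - (1 - ε) : ℝ) : ℂ)) := by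
      rw [Matrix.smul_one_eq_diagonal, Matrix.diagonal_sub]
      congr 1
      ext i
      nth_rewrite 1 [hdiag' i]
      push_cast
      ring
    rw [e1]
    apply Matrix.PosSemidef.diagonal
    intro i
    have h0 : (0 : ℝ) ≤ (R i i).re - (1 - ε) := by linarith [hdiag i]
    change (0 : ℂ) ≤ (((R i i).re - (1 - ε) : ℝ) : ℂ)
    exact_mod_cast h0
  have h1R : (1 : Matrix ι ι ℂ) ⊙ R = Matrix.diagonal (fun i => R i i) := by
    rw [Matrix.one_hadamard]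
    rfl
  have hX : (P ⊙ R - ((lam * (1 - ε) : ℝ) : ℂ) • (1 : Matrix ι ι ℂ)).PosSemidef := by
    have h1 := (hpsd.hadamard hRpsd).add (hD.smul hlam.le)
    have e1 : (P - (lam : ℂ) • (1 : Matrix ι ι ℂ)) ⊙ R +
        lam • (Matrix.diagonal (fun i => R i i) - ((1 - ε : ℝ) : ℂ) • (1 : Matrix ι ι ℂ)) =
        P ⊙ R - ((lam * (1 - ε) : ℝ) : ℂ) • (1 : Matrix ι ι ℂ) := by
      rw [← h1R]
      ext i j
      simp only [Matrix.add_apply, Matrix.sub_apply, Matrix.smul_apply, Matrix.hadamard_apply, smul_eq_mul,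
        Complex.real_smul]
      push_cast
      ring
    rwa [e1] at h1
  have hτ : Fintype.card ι * ε ≤ lam / 4 := hsmall
  have hcoef : 0 ≤ lam * (1 - ε) - lam / 2 := by nlinarith
  have hone : (1 : Matrix ι ι ℂ).PosSemidef := Matrix.PosSemidef.one
  have hX2 : (P ⊙ R - ((lam / 2 : ℝ) : ℂ) • (1 : Matrix ι ι ℂ)).PosSemidef := by
    have h1 := hX.add (hone.smul hcoef)
    have e1 : P ⊙ R - ((lam * (1 - ε) : ℝ) : ℂ) • (1 : Matrix ι ι ℂ) +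
        (lam * (1 - ε) - lam / 2) • (1 : Matrix ι ι ℂ) =
        P ⊙ R - ((lam / 2 : ℝ) : ℂ) • (1 : Matrix ι ι ℂ) := by
      ext i j
      simp only [Matrix.add_apply, Matrix.sub_apply, Matrix.smul_apply, smul_eq_mul, Complex.real_smul]
      push_cast
      ring
    rwa [e1] at h1
  constructor
  · have hc2 : 0 ≤ lam * (1 - ε) - Fintype.card ι * ε - lam / 2 := by nlinarith
    have h1 := (hX.add hrow).add (hone.smul hc2)
    have e1 : P ⊙ R - ((lam * (1 - ε) : ℝ) : ℂ) • (1 : Matrix ι ι ℂ) +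
        (S - P ⊙ R + ((Fintype.card ι * ε : ℝ) : ℂ) • (1 : Matrix ι ι ℂ)) +
        (lam * (1 - ε) - Fintype.card ι * ε - lam / 2) • (1 : Matrix ι ι ℂ) =
        S - ((lam / 2 : ℝ) : ℂ) • (1 : Matrix ι ι ℂ) := by
      ext i j
      simp only [Matrix.add_apply, Matrix.sub_apply, Matrix.smul_apply, smul_eq_mul, Complex.real_smul]
      push_cast
      ring
    rwa [e1] at h1
  · have hc0 : (0 : ℝ) ≤ 2 * Fintype.card ι * ε / lam := by positivity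
    have hc1 : 2 * Fintype.card ι * ε / lam ≤ 1 / 2 := by
      rw [div_le_iff₀ hlam]
      linarith
    set c : ℝ := 1 - 2 * Fintype.card ι * ε / lam with hc
    have hcpos : 0 ≤ c := by rw [hc]; linarith
    have h1 := (hX2.smul hc0).add hrow
    have e1 : (2 * Fintype.card ι * ε / lam) • (P ⊙ R - ((lam / 2 : ℝ) : ℂ) • (1 : Matrix ι ι ℂ)) +
        (S - P ⊙ R + ((Fintype.card ι * ε : ℝ) : ℂ) • (1 : Matrix ι ι ℂ)) = S - c • (P ⊙ R) := by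
      ext i j
      simp only [Matrix.add_apply, Matrix.sub_apply, Matrix.smul_apply, smul_eq_mul, Complex.real_smul]
      have hl : (lam : ℂ) ≠ 0 := by exact_mod_cast hlam.ne'
      rw [hc]
      push_cast
      field_simp
      ring
    rw [e1] at h1
    have hcPR : (c • (P ⊙ R)).PosSemidef := hPR.smul hcpos
    have h2 := det_mono hcPR h1
    have h3 : (c • (P ⊙ R)).det.re = c ^ (Fintype.card ι) * (P ⊙ R).det.re := by
      have : c • (P ⊙ R) = (c : ℂ) • (P ⊙ R) := by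
        ext i j
        simp [Complex.real_smul]
      rw [this, Matrix.det_smul, ← Complex.ofReal_pow, Complex.re_ofReal_mul]
    rw [h3] at h2
    have hop := oppenheim hPpsd hRpsd
    have hprod : (1 - ε) ^ (Fintype.card ι) ≤ ∏ i, (R i i).re := by
      rw [← Finset.card_univ, ← Finset.prod_const]
      exact Finset.prod_le_prod (fun i _ => by linarith) (fun i _ => hdiag i)
    have hP0 : 0 ≤ P.det.re := det_re_nonneg hPpsd
    calc c ^ (Fintype.card ι) * (1 - ε) ^ (Fintype.card ι) * P.det.re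
        = c ^ (Fintype.card ι) * (P.det.re * (1 - ε) ^ (Fintype.card ι)) := by ring
      _ ≤ c ^ (Fintype.card ι) * (P.det.re * ∏ i, (R i i).re) := by
          apply mul_le_mul_of_nonneg_left _ (by positivity)
          exact mul_le_mul_of_nonneg_left hprod hP0
      _ ≤ c ^ (Fintype.card ι) * (P ⊙ R).det.re := mul_le_mul_of_nonneg_left hop (by positivity)
      _ ≤ _ := h2

end Pool.Agent.LE60
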