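import Mathlib

/-!
# LE60/Defs: definitions for the logarithmic energy project (MP_0862ea_an)

`gram K f`  Gram matrix of a kernel `K` at the tuple `f`,
`gdet K f`  its determinant (real part; the matrices are Hermitian positive semidefinite),
`kp`        planar kernel  `exp (z w* - |z|^2/2 - |w|^2/2)`,
`ks n`      spherical kernel `(u.1 v.1* + u.2 v.2*)^n` (on unit vectors of `ℂ × ℂ`),
`kw n`      the same kernel in the chart `w = u.2 / u.1`,
`dP B n`    maximal planar Gram determinant of `n` points of `B`,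
`area B`, `nB B = ⌊area B / π⌋`, `en B = - log (dP B (nB B))`,
`Fat s B`   closed convex sets of size `s`,
`er s = (log s)^(3/2)`.
-/

set_option autoImplicit false

namespace Pool.Agent.LE60

open MeasureTheory Matrix
open scoped ComplexConjugate

/-- Gram matrix of the kernel `K` at the tuple `f` -/
def gram {X ι : Type*} (K : X → X → ℂ) (f : ι → X) : Matrix ι ι ℂ :=
  Matrix.of fun i j => K (f i) (f j)

/-- Gram determinant -/
noncomputable def gdet {X ι : Type*} [Fintype ι] [DecidableEq ι] (K : X → X → ℂ) (f : ι → X) : ℝ :=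
  (gram K f).det.re

/-- planar kernel -/
noncomputable def kp (z w : ℂ) : ℂ :=
  Complex.exp (z * conj w - (((‖z‖ ^ 2 + ‖w‖ ^ 2) / 2 : ℝ) : ℂ))

/-- spherical kernel of degree `n` (for unit vectors) -/
noncomputable def ks (n : ℕ) (u v : ℂ × ℂ) : ℂ := (u.1 * conj v.1 + u.2 * conj v.2) ^ n

/-- spherical kernel of degree `n` in the chart `w = u.2 / u.1` -/
noncomputable def kw (n : ℕ) (w v : ℂ) : ℂ :=
  (1 + w * conj v) ^ n / (((Real.sqrt ((1 + ‖w‖ ^ 2) * (1 + ‖v‖ ^ 2))) ^ n : ℝ) : ℂ)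

/-- unit vectors of `ℂ × ℂ` -/
def Unit2 (u : ℂ × ℂ) : Prop := ‖u.1‖ ^ 2 + ‖u.2‖ ^ 2 = 1

/-- area of a planar set -/
noncomputable def area (B : Set ℂ) : ℝ := (volume B).toReal

/-- number of points of a region at density `1/π` -/
noncomputable def nB (B : Set ℂ) : ℕ := ⌊area B / Real.pi⌋₊

/-- maximal planar Gram determinant of `n` points of `B` -/
noncomputable def dP (B : Set ℂ) (n : ℕ) : ℝ :=
  sSup {x : ℝ | ∃ f : Fin n → ℂ, (∀ i, f i ∈ B) ∧ x = gdet kp f}

/-- energy of a planar region -/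
noncomputable def en (B : Set ℂ) : ℝ := - Real.log (dP B (nB B))

/-- error function `(log s)^(3/2)` -/
noncomputable def er (s : ℝ) : ℝ := Real.log s * Real.sqrt (Real.log s)

/-- closed convex sets of size `s` (with inner radius at least `s/100`) -/
structure Fat (s : ℝ) (B : Set ℂ) : Prop where
  conv : Convex ℝ B
  closed : IsClosed B
  balls : ∃ o : ℂ, Metric.closedBall o (s / 100) ⊆ B ∧ B ⊆ Metric.closedBall o s

/-- closed triangle -/
noncomputable def tri (p q r : ℂ) : Set ℂ := convexHull ℝ {p, q, r}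

/-- dilation with centre `o` and factor `t` -/
noncomputable def dil (o : ℂ) (t : ℝ) (B : Set ℂ) : Set ℂ := (fun z => o + (t : ℂ) * (z - o)) '' B

/-- isometric image `a + e B` (used with `e = 1` and `e = -1`) -/
noncomputable def mv (a e : ℂ) (B : Set ℂ) : Set ℂ := (fun z => a + e * z) '' B

/-- the quadratic form `g* G⁻¹ g`, `g i = K (f i) w`, `G` the Gram matrix of `f` -/
noncomputable def hh {X : Type*} (K : X → X → ℂ) {n : ℕ} (f : Fin n → X) (w : X) : ℝ :=
  (star (fun i => K (f i) w) ⬝ᵥ ((gram K f)⁻¹ *ᵥ (fun i => K (f i) w))).re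

/-- Euclidean three-space -/
abbrev E3 := EuclideanSpace ℝ (Fin 3)

/-- Hopf map `ℂ × ℂ → ℝ³` -/
noncomputable def hopf (u : ℂ × ℂ) : E3 :=
  !₂[(2 * u.2 * conj u.1).re, (2 * u.2 * conj u.1).im, ‖u.1‖ ^ 2 - ‖u.2‖ ^ 2]

end Pool.Agent.LE60
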