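import Pool.Agent.LE60.AddP

/-!
# LE60/DnP: properties of `dP B n`

PROOFS. The set `{x | ∃ f : Fin n → ℂ, (∀ i, f i ∈ B) ∧ x = gdet kp f}` is bounded above by 1 and below
by 0 (`kp_psd`, `det_re_nonneg`; `gdet kp f ≤ 1` by induction with `gdet_le_removeNth`, or Fischer).
* `gdet_le_dP`: reindex `ι ≃ Fin (card ι)`.
* `dP_nonneg`, `dP_le_one`: `Real.sSup_nonneg`, `Real.sSup_le`.
* `dP_zero`: the only tuple has determinant 1.
* `dP_succ_le`: `gdet_le_removeNth`.
* `dP_add`: for every tuple `f` in `B`, `add_point` gives `(1 - πn/area) gdet kp f ≤ dP B (n+1)`; take the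
  supremum (if `1 - πn/area < 0` the left side is `≤ 0 ≤ dP`).
* `dP_overfill`: by `overfill` every tuple of `n+1` points of `B` has `gdet ≤ 2 (n+1)² e^{-L²/2} dP B n`.
* `dP_pos`: induction with `dP_add`: for `k < n`, `1 - π k/area B > 0` because `π n ≤ area B`.
* `exists_near`: definition of the supremum (`dP B n > 0`).
-/

set_option autoImplicit false

namespace Pool.Agent.LE60

open MeasureTheory Matrix
open scoped ComplexOrder ComplexConjugate

private theorem gd_nonneg {ι : Type*} [Fintype ι] [DecidableEq ι] (f : ι → ℂ) :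
    0 ≤ gdet kp f := det_re_nonneg (kp_psd f)

private theorem gd_le_one {n : ℕ} (f : Fin n → ℂ) : gdet kp f ≤ 1 := by
  induction n with
  | zero =>
    unfold gdet
    rw [Matrix.det_isEmpty]
    simp
  | succ n ih =>
    exact le_trans (gdet_le_removeNth kp_conj f (kp_psd f) 0 (kp_self _)) (ih _)

private theorem bdd_dP (B : Set ℂ) (n : ℕ) :
    BddAbove {x : ℝ | ∃ f : Fin n → ℂ, (∀ i, f i ∈ B) ∧ x = gdet kp f} :=
  ⟨1, by
    rintro x ⟨f, _, rfl⟩
    exact gd_le_one f⟩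

private theorem le_dP {B : Set ℂ} {n : ℕ} (f : Fin n → ℂ) (hf : ∀ i, f i ∈ B) :
    gdet kp f ≤ dP B n := le_csSup (bdd_dP B n) ⟨f, hf, rfl⟩

theorem gdet_le_dP {ι : Type*} [Fintype ι] [DecidableEq ι] {B : Set ℂ} (f : ι → ℂ)
    (hf : ∀ i, f i ∈ B) : gdet kp f ≤ dP B (Fintype.card ι) := by
  have h := gdet_reindex kp (Fintype.equivFin ι) (fun k => f ((Fintype.equivFin ι).symm k))
  simp only [Equiv.symm_apply_apply] at h
  rw [h]
  exact le_dP _ (fun i => hf _)

theorem dP_nonneg (B : Set ℂ) (n : ℕ) : 0 ≤ dP B n := by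
  refine Real.sSup_nonneg ?_
  rintro x ⟨f, _, rfl⟩
  exact gd_nonneg f

theorem dP_le_one (B : Set ℂ) (n : ℕ) : dP B n ≤ 1 := by
  refine Real.sSup_le ?_ zero_le_one
  rintro x ⟨f, _, rfl⟩
  exact gd_le_one f

theorem dP_zero (B : Set ℂ) : dP B 0 = 1 := by
  refine le_antisymm (dP_le_one B 0) ?_
  refine le_trans (le_of_eq ?_) (le_dP (n := 0) (fun i => i.elim0) (fun i => i.elim0))
  unfold gdet
  rw [Matrix.det_isEmpty]
  simp

theorem dP_succ_le (B : Set ℂ) (n : ℕ) : dP B (n + 1) ≤ dP B n := by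
  refine Real.sSup_le ?_ (dP_nonneg B n)
  rintro x ⟨f, hf, rfl⟩
  exact le_trans (gdet_le_removeNth kp_conj f (kp_psd f) 0 (kp_self _)) (le_dP _ (fun i => hf _))

theorem dP_add {B : Set ℂ} (hB : MeasurableSet B) (hpos : 0 < area B) (n : ℕ) :
    (1 - Real.pi * n / area B) * dP B n ≤ dP B (n + 1) := by
  rcases le_or_gt (1 - Real.pi * n / area B) 0 with hc | hc
  · exact le_trans (mul_nonpos_of_nonpos_of_nonneg hc (dP_nonneg B n)) (dP_nonneg B (n + 1))
  · rw [mul_comm, ← le_div_iff₀ hc]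
    refine Real.sSup_le ?_ (div_nonneg (dP_nonneg B (n + 1)) hc.le)
    rintro x ⟨f, hf, rfl⟩
    rw [le_div_iff₀ hc, mul_comm]
    obtain ⟨w, hw, h1⟩ := add_point hB hpos f
    refine le_trans h1 (le_dP _ fun i => ?_)
    refine Fin.lastCases ?_ (fun i => ?_) i
    · rw [Fin.snoc_last]
      exact hw
    · rw [Fin.snoc_castSucc]
      exact hf i

theorem dP_overfill {B B' : Set ℂ} (hB' : MeasurableSet B') (hfin : volume B' ≠ ⊤) {L : ℝ}
    (hL : 0 ≤ L) (h : ∀ z ∈ B, ∀ w, ‖w - z‖ < L → w ∈ B') (n : ℕ)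
    (harea : area B' + Real.pi ≤ Real.pi * (n + 1)) :
    dP B (n + 1) ≤ 2 * (n + 1) ^ 2 * Real.exp (-(L ^ 2) / 2) * dP B n := by
  have hC : 0 ≤ 2 * ((n : ℝ) + 1) ^ 2 * Real.exp (-(L ^ 2) / 2) := by positivity
  refine Real.sSup_le ?_ (mul_nonneg hC (dP_nonneg B n))
  rintro x ⟨f, hf, rfl⟩
  obtain ⟨i, hi⟩ := overfill hB' hfin hL f (fun i w hw => h (f i) (hf i) w hw) harea
  exact le_trans hi (mul_le_mul_of_nonneg_left (le_dP _ (fun j => hf _)) hC)

theorem dP_pos {B : Set ℂ} (hB : MeasurableSet B) (hpos : 0 < area B) (n : ℕ)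
    (hn : Real.pi * n ≤ area B) : 0 < dP B n := by
  induction n with
  | zero =>
    rw [dP_zero]
    exact zero_lt_one
  | succ n ih =>
    have hpi := Real.pi_pos
    push_cast at hn
    have h1 : Real.pi * n < area B := by nlinarith
    have h2 : 0 < 1 - Real.pi * n / area B := by
      rw [sub_pos, div_lt_one hpos]
      exact h1
    exact lt_of_lt_of_le (mul_pos h2 (ih h1.le)) (dP_add hB hpos n)

theorem exists_near {B : Set ℂ} {n : ℕ} (h : 0 < dP B n) :
    ∃ f : Fin n → ℂ, (∀ i, f i ∈ B) ∧ dP B n / 2 ≤ gdet kp f := by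
  have hne : {x : ℝ | ∃ f : Fin n → ℂ, (∀ i, f i ∈ B) ∧ x = gdet kp f}.Nonempty := by
    by_contra hcon
    rw [Set.not_nonempty_iff_eq_empty] at hcon
    have : dP B n = 0 := by
      unfold dP
      rw [hcon, Real.sSup_empty]
    linarith
  obtain ⟨x, ⟨f, hf, rfl⟩, hx⟩ := exists_lt_of_lt_csSup hne
    (show dP B n / 2 < sSup {x : ℝ | ∃ f : Fin n → ℂ, (∀ i, f i ∈ B) ∧ x = gdet kp f} from
      half_lt_self h)
  exact ⟨f, hf, hx.le⟩

end Pool.Agent.LE60
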