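import Pool.Agent.LE60.KerS

/-!
# LE60/Energy: logarithmic energy = Gram determinant of coherent states

PROOFS. `N ≥ 1`, `n' = N - 1`, `u i = (a_i, b_i)`.
* `gdet_prod`: `ks n' (u i) (u j) = ∑_{k ≤ n'} C(n',k) (a_i^k b_i^{n'-k}) conj (a_j^k b_j^{n'-k})`, i.e.
  `gram (ks n') u = V diag(C(n',k)) Vᴴ` with `V = Matrix.projVandermonde a b` (entries `a_i^k b_i^{(rev k)}`, `rev k = N-1-k`);
  `det = |det V|² ∏ C(n',k)`, `Matrix.det_projVandermonde`: `det V = ∏_i ∏_{j > i} (a_j b_i - a_i b_j)`. Real, positive factors.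
* `gdet_pos_iff`: `hopf_dist`: `‖hopf u - hopf v‖² = 4 ‖u.1 v.2 - u.2 v.1‖²`, so the product is nonzero iff the points `hopf (u i)` are distinct.
* `energy_eq`: take logarithms: `log gdet = LC N + ∑_{i<j} (2 log ‖x_i - x_j‖ - 2 log 2)` and
  `EE x = - ∑_{i ≠ j} log ‖x_i - x_j‖ = -2 ∑_{i<j} log ‖x_i - x_j‖`, `∑_{i<j} 2 log 2 = N(N-1) log 2`.
-/

set_option autoImplicit false

namespace Pool.Agent.LE60

open Matrix
open scoped ComplexConjugate

/-- logarithmic energy of an `N`-tuple of points of `ℝ³` (ordered pairs) -/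
noncomputable def EE {N : ℕ} (x : Fin N → E3) : ℝ :=
  ∑ i, ∑ j ∈ Finset.univ.erase i, Real.log (1 / ‖x i - x j‖)

/-- `∑ log C(N-1, k)` -/
noncomputable def LC (N : ℕ) : ℝ := ∑ k ∈ Finset.range N, Real.log (Nat.choose (N - 1) k)

private theorem sum_erase {N : ℕ} (f : Fin N → Fin N → ℝ) (hf : ∀ i j, f i j = f j i) :
    ∑ i, ∑ j ∈ Finset.univ.erase i, f i j = 2 * ∑ i, ∑ j ∈ Finset.Ioi i, f i j := by
  have h1 : ∀ i : Fin N, (Finset.univ.erase i : Finset (Fin N)) = Finset.Ioi i ∪ Finset.Iio i := by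
    intro i
    ext j
    simp only [Finset.mem_erase, Finset.mem_univ, and_true, Finset.mem_union, Finset.mem_Ioi,
      Finset.mem_Iio]
    constructor
    · intro h
      exact (lt_or_gt_of_ne h).symm
    · rintro (h | h)
      · exact h.ne'
      · exact h.ne
  have h2 : ∀ i : Fin N, ∑ j ∈ Finset.univ.erase i, f i j =
      ∑ j ∈ Finset.Ioi i, f i j + ∑ j ∈ Finset.Iio i, f i j := by
    intro i
    rw [h1, Finset.sum_union]
    rw [Finset.disjoint_left]
    intro j hj hj'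
    rw [Finset.mem_Ioi] at hj
    rw [Finset.mem_Iio] at hj'
    exact absurd hj (not_lt.2 hj'.le)
  have h3 : ∑ i, ∑ j ∈ Finset.Iio i, f i j = ∑ i, ∑ j ∈ Finset.Ioi i, f i j := by
    rw [Finset.sum_comm' (s := Finset.univ) (t := fun i => Finset.Iio i) (t' := Finset.univ)
      (s' := fun j => Finset.Ioi j)]
    · exact Finset.sum_congr rfl fun i _ => Finset.sum_congr rfl fun j _ => hf _ _
    · intro i j
      simp
  simp only [h2, Finset.sum_add_distrib]
  rw [h3]
  ring

theorem gdet_prod {N : ℕ} (u : Fin N → ℂ × ℂ) :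
    gdet (ks (N - 1)) u = (∏ k ∈ Finset.range N, (Nat.choose (N - 1) k : ℝ)) *
      ∏ i, ∏ j ∈ Finset.Ioi i, ‖(u i).1 * (u j).2 - (u i).2 * (u j).1‖ ^ 2 := by
  have hG : gram (ks (N - 1)) u =
      Matrix.projVandermonde (fun i => (u i).1) (fun i => (u i).2) *
        Matrix.diagonal (fun k : Fin N => ((Nat.choose (N - 1) k : ℕ) : ℂ)) *
        (Matrix.projVandermonde (fun i => (u i).1) (fun i => (u i).2))ᴴ := by
    ext i j
    have hN : N - 1 + 1 = N := by
      have := i.2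
      omega
    rw [Matrix.mul_apply]
    simp only [gram, ks, Matrix.of_apply, Matrix.mul_diagonal,
      Matrix.conjTranspose_apply, Matrix.projVandermonde_apply]
    rw [add_pow, hN, Finset.sum_range]
    refine Finset.sum_congr rfl fun k _ => ?_
    have hk : N - 1 - (k : ℕ) = ((Fin.rev k : Fin N) : ℕ) := by
      rw [Fin.val_rev]
      omega
    rw [hk]
    simp only [mul_pow, star_mul', star_pow]
    simp only [Complex.star_def]
    ring
  have hdet : (gram (ks (N - 1)) u).det =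
      (((∏ k ∈ Finset.range N, (Nat.choose (N - 1) k : ℝ)) *
        ‖(Matrix.projVandermonde (fun i => (u i).1) (fun i => (u i).2)).det‖ ^ 2 : ℝ) : ℂ) := by
    rw [hG, Matrix.det_mul, Matrix.det_mul, Matrix.det_diagonal, Matrix.det_conjTranspose]
    rw [mul_right_comm, Complex.star_def, Complex.mul_conj', Finset.prod_range]
    push_cast
    ring
  unfold gdet
  rw [hdet, Complex.ofReal_re, Matrix.det_projVandermonde]
  congr 1
  rw [norm_prod, ← Finset.prod_pow]
  refine Finset.prod_congr rfl fun i _ => ?_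
  rw [norm_prod, ← Finset.prod_pow]
  refine Finset.prod_congr rfl fun j _ => ?_
  rw [norm_sub_rev]
  congr 2
  ring

private theorem choose_pos {N : ℕ} : ∀ k ∈ Finset.range N, (0 : ℝ) < (Nat.choose (N - 1) k : ℝ) := by
  intro k hk
  rw [Finset.mem_range] at hk
  have : 0 < Nat.choose (N - 1) k := Nat.choose_pos (by omega)
  exact_mod_cast this

private theorem ne_iff {u v : ℂ × ℂ} (hu : Unit2 u) (hv : Unit2 v) :
    0 < ‖u.1 * v.2 - u.2 * v.1‖ ^ 2 ↔ hopf u ≠ hopf v := by
  have h := hopf_dist hu hv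
  constructor
  · intro h1 h2
    rw [h2, sub_self, norm_zero] at h
    nlinarith
  · intro h1
    have h2 : 0 < ‖hopf u - hopf v‖ := norm_pos_iff.2 (sub_ne_zero.2 h1)
    have h3 := pow_pos h2 2
    nlinarith

theorem gdet_pos_iff {N : ℕ} (u : Fin N → ℂ × ℂ) (hu : ∀ i, Unit2 (u i)) :
    0 < gdet (ks (N - 1)) u ↔ Function.Injective (fun i => hopf (u i)) := by
  rw [gdet_prod]
  have h1 : 0 < ∏ k ∈ Finset.range N, (Nat.choose (N - 1) k : ℝ) := Finset.prod_pos choose_pos
  rw [mul_pos_iff_of_pos_left h1]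
  constructor
  · intro h
    have key : ∀ i j : Fin N, i < j → hopf (u i) ≠ hopf (u j) := by
      intro i j hij
      rw [← ne_iff (hu i) (hu j)]
      have h2 : ∏ j ∈ Finset.Ioi i, ‖(u i).1 * (u j).2 - (u i).2 * (u j).1‖ ^ 2 ≠ 0 := fun h0 =>
        h.ne' (Finset.prod_eq_zero (Finset.mem_univ i) h0)
      have h3 : ‖(u i).1 * (u j).2 - (u i).2 * (u j).1‖ ^ 2 ≠ 0 := fun h0 =>
        h2 (Finset.prod_eq_zero (Finset.mem_Ioi.2 hij) h0)
      exact lt_of_le_of_ne (by positivity) (Ne.symm h3)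
    intro i j hij
    rcases lt_trichotomy i j with h2 | h2 | h2
    · exact absurd hij (key i j h2)
    · exact h2
    · exact absurd hij.symm (key j i h2)
  · intro h
    refine Finset.prod_pos fun i _ => Finset.prod_pos fun j hj => ?_
    rw [ne_iff (hu i) (hu j)]
    intro h2
    exact (Finset.mem_Ioi.1 hj).ne (h h2)

theorem energy_eq {N : ℕ} (u : Fin N → ℂ × ℂ) (hu : ∀ i, Unit2 (u i))
    (hinj : Function.Injective (fun i => hopf (u i))) :
    EE (fun i => hopf (u i)) = LC N - N * (N - 1) * Real.log 2 - Real.log (gdet (ks (N - 1)) u) := by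
  have hpos : ∀ i : Fin N, ∀ j ∈ Finset.Ioi i,
      0 < ‖(u i).1 * (u j).2 - (u i).2 * (u j).1‖ ^ 2 := by
    intro i j hj
    rw [ne_iff (hu i) (hu j)]
    intro h2
    exact (Finset.mem_Ioi.1 hj).ne (hinj h2)
  have hlog : ∀ i : Fin N, ∀ j ∈ Finset.Ioi i,
      Real.log (‖(u i).1 * (u j).2 - (u i).2 * (u j).1‖ ^ 2) =
        -2 * Real.log (1 / ‖hopf (u i) - hopf (u j)‖) - 2 * Real.log 2 := by
    intro i j hj
    have h := hopf_dist (hu i) (hu j)
    have h1 := hpos i j hj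
    have h2 : hopf (u i) ≠ hopf (u j) := fun h2 => (Finset.mem_Ioi.1 hj).ne (hinj h2)
    have h3 : 0 < ‖hopf (u i) - hopf (u j)‖ := norm_pos_iff.2 (sub_ne_zero.2 h2)
    have h4 : ‖(u i).1 * (u j).2 - (u i).2 * (u j).1‖ ^ 2 = (‖hopf (u i) - hopf (u j)‖ / 2) ^ 2 := by
      rw [div_pow, h]
      ring
    rw [h4, Real.log_pow, Real.log_div h3.ne' (by norm_num), one_div, Real.log_inv]
    push_cast
    ring
  have hg : Real.log (gdet (ks (N - 1)) u) = LC N +
      ∑ i, ∑ j ∈ Finset.Ioi i, (-2 * Real.log (1 / ‖hopf (u i) - hopf (u j)‖) - 2 * Real.log 2) := by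
    rw [gdet_prod, Real.log_mul (Finset.prod_pos choose_pos).ne'
      (Finset.prod_pos fun i _ => Finset.prod_pos (hpos i)).ne']
    rw [Real.log_prod fun k hk => (choose_pos k hk).ne']
    rw [Real.log_prod fun i _ => (Finset.prod_pos (hpos i)).ne']
    congr 1
    refine Finset.sum_congr rfl fun i _ => ?_
    rw [Real.log_prod fun j hj => (hpos i j hj).ne']
    exact Finset.sum_congr rfl fun j hj => hlog i j hj
  have hE : EE (fun i => hopf (u i)) =
      2 * ∑ i, ∑ j ∈ Finset.Ioi i, Real.log (1 / ‖hopf (u i) - hopf (u j)‖) := by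
    unfold EE
    exact sum_erase _ fun i j => by rw [norm_sub_rev]
  have hc := sum_erase (N := N) (fun _ _ => (1 : ℝ)) (fun _ _ => rfl)
  simp only [Finset.sum_const, Finset.card_erase_of_mem (Finset.mem_univ _), Finset.card_univ,
    Fintype.card_fin, nsmul_eq_mul, mul_one] at hc
  have hc2 : ((N : ℝ) * ((N - 1 : ℕ) : ℝ)) = N * (N - 1) := by
    rcases Nat.eq_zero_or_pos N with h0 | h0
    · subst h0
      simp
    · rw [Nat.cast_sub h0]
      simp
  rw [hc2] at hc
  have hs : ∑ i : Fin N, ∑ j ∈ Finset.Ioi i,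
      (-2 * Real.log (1 / ‖hopf (u i) - hopf (u j)‖) - 2 * Real.log 2) =
      -2 * (∑ i : Fin N, ∑ j ∈ Finset.Ioi i, Real.log (1 / ‖hopf (u i) - hopf (u j)‖)) -
        N * (N - 1) * Real.log 2 := by
    simp only [Finset.sum_sub_distrib, ← Finset.mul_sum, Finset.sum_const, nsmul_eq_mul,
      ← Finset.sum_mul]
    rw [hc]
    ring
  rw [hg, hs, hE]
  ring

end Pool.Agent.LE60
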