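import Pool.Agent.LE60.LowC
import Pool.Agent.LE60.MatF

/-!
# LE60/Low: upper bound of the spherical determinant

PROOF. For `N ≥ N₀` let `x = N^{1/6}`, `m = ⌈x⌉₊` (`x ≤ m ≤ 2x`, so `N ≤ m⁶`, `40 ≤ m`), `δ = 220 m²`, `n' = N-1`, `ν = n' + δ`
(`N - 1 ≤ ν ≤ 2N`), `s = √ν/m` (between `x²/4` and `2x²`, so `s ≥ max (s₁, s₂)`, `log s ≤ log N`, `er s ≤ er N`). Conditions of
`low_cell`: `δ m⁴ = 220 m⁶ ≥ 220 N`; `4 N² s⁴ e^{-δ} ≤ 1` since `δ ≥ 220 N^{1/3}`.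
`(K, p, X)` from `cells`. Choose a cell `c i` with `hopf (u i)` in its cone (`Dec.cov`); Fischer (`fischer_gdet`, `ks_psd`, `s = univ`):
`gdet (ks n') u ≤ ∏_c gdet (ks n') (u | cell c)`, and `low_cell` bounds each factor (also for empty cells). With `A_c = AA (√ν/2) (p c) (X c)`,
`dP A_c (nB A_c) = exp (- en A_c)` (positive by `dP_pos`, `nB_le`), `n_c` the number of points in the cell, `∑ n_c = N`:
`gdet ≤ exp (∑_c [log 3 - en A_c + 4 log s (nB A_c - n_c) + C₁ s er s])`.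
`en A_c ≥ e₀ area A_c/π - C₂ s er s` (`h`: `A_c` is a fat triangle of size `s`), `∑ area A_c/π = (ν/4π) ∑ area TT_c ∈ [ν, ν (1 + 28/m²)]` (`AA_area`,
`Dec.lo`, `Dec.hi`), `ν ≥ N - 1`, `nB A_c ≤ area A_c/π`, so the exponent is
`≤ - e₀ (N-1) + K (log 3 + (C₁ + C₂) s er s) + 4 log s (ν (1+28/m²) - N)`,
`ν(1+28/m²) - N ≤ δ + 56 N/m²`. `K s ≤ 8 m² s = 8 m √ν ≤ 8 · 2x · √2 x³ = 16√2 N^{2/3}`, `K ≤ 8 m² ≤ 32 x² ≤ 32 N^{2/3}`,
`δ ≤ 880 x² ≤ 880 N^{2/3}`, `N/m² ≤ x⁶/x² = N^{2/3}`, and `1 ≤ log N ≤ er N`. So the exponent is `≤ -e₀ N + C N^{2/3} er N`.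
-/

set_option autoImplicit false

namespace Pool.Agent.LE60

/-- the conclusion of `planar` -/
def PlanarE (e₀ C s₀ : ℝ) : Prop := ∀ s : ℝ, s₀ ≤ s → ∀ p q r : ℂ, Fat s (tri p q r) →
    |en (tri p q r) - e₀ * (area (tri p q r) / Real.pi)| ≤ C * (s * er s)

private theorem er_mono_aux {s t : ℝ} (hs : 1 ≤ s) (hst : s ≤ t) : er s ≤ er t := by
  have h0 : 0 ≤ Real.log s := Real.log_nonneg hs
  have h1 : Real.log s ≤ Real.log t := Real.log_le_log (by linarith) hst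
  unfold er
  exact mul_le_mul h1 (Real.sqrt_le_sqrt h1) (Real.sqrt_nonneg _) (h0.trans h1)

private theorem log_le_er {t : ℝ} (ht : 1 ≤ Real.log t) : Real.log t ≤ er t := by
  unfold er
  have h1 : 1 ≤ Real.sqrt (Real.log t) := by
    rw [Real.one_le_sqrt]; exact ht
  nlinarith

/-- choice of the parameters -/
private theorem params (T : ℝ) : ∃ N₀ : ℕ, ∀ N : ℕ, N₀ ≤ N → ∃ (x s : ℝ) (m δ : ℕ),
    1 ≤ N ∧ 40 ≤ m ∧ δ = 220 * m ^ 2 ∧ x ^ 6 = N ∧ (N : ℝ) ^ (2 / 3 : ℝ) = x ^ 4 ∧ 40 ≤ x ∧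
    x ≤ m ∧ (m : ℝ) ≤ 2 * x ∧
    s = Real.sqrt (((N - 1 : ℕ) : ℝ) + δ) / m ∧ T ≤ s ∧ 3 ≤ s ∧ s ≤ 2 * x ^ 2 ∧
    220 * (N : ℝ) ≤ δ * (m : ℝ) ^ 4 ∧ 4 * (N : ℝ) ^ 2 * s ^ 4 * Real.exp (-(δ : ℝ)) ≤ 1 ∧
    ((N - 1 : ℕ) : ℝ) + δ ≤ 2 * N ∧ (N : ℝ) - 1 ≤ ((N - 1 : ℕ) : ℝ) + δ ∧ 1 ≤ Real.log N := by
  refine ⟨⌈(max 40 T) ^ 6⌉₊, fun N hN => ?_⟩
  obtain ⟨x, hx⟩ : ∃ x, x = (N : ℝ) ^ (1 / 6 : ℝ) := ⟨_, rfl⟩
  have hx0 : 0 ≤ x := by rw [hx]; positivity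
  have hx6 : x ^ 6 = N := by
    rw [hx, ← Real.rpow_natCast, ← Real.rpow_mul (Nat.cast_nonneg _)]
    norm_num
  have hx4 : (N : ℝ) ^ (2 / 3 : ℝ) = x ^ 4 := by
    rw [hx, ← Real.rpow_natCast, ← Real.rpow_mul (Nat.cast_nonneg _)]
    norm_num
  have hX : max 40 T ≤ x := by
    have h1 : (max 40 T) ^ 6 ≤ x ^ 6 := by
      rw [hx6]
      exact Nat.ceil_le.1 hN
    exact (pow_le_pow_iff_left₀ (le_trans (by norm_num) (le_max_left _ _)) hx0 (by norm_num)).1 h1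
  have h40 : 40 ≤ x := (le_max_left _ _).trans hX
  have hTx : T ≤ x := (le_max_right _ _).trans hX
  obtain ⟨m, hm⟩ : ∃ m, m = ⌈x⌉₊ := ⟨_, rfl⟩
  have hxm : x ≤ m := by rw [hm]; exact Nat.le_ceil x
  have hmx : (m : ℝ) ≤ 2 * x := by
    have := Nat.ceil_lt_add_one hx0
    rw [← hm] at this
    linarith
  have hm40 : 40 ≤ m := by
    have : (40 : ℝ) ≤ m := h40.trans hxm
    exact_mod_cast this
  have hm0 : (0 : ℝ) < m := by linarith
  have hxp : 0 < x := by linarith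
  have hN1 : (1 : ℝ) ≤ N := by
    rw [← hx6]
    exact one_le_pow₀ (by linarith)
  have hN1' : 1 ≤ N := by exact_mod_cast hN1
  obtain ⟨δ, hδ⟩ : ∃ δ, δ = 220 * m ^ 2 := ⟨_, rfl⟩
  have hδr : (δ : ℝ) = 220 * (m : ℝ) ^ 2 := by rw [hδ]; push_cast; ring
  obtain ⟨ν, hν⟩ : ∃ ν : ℝ, ν = ((N - 1 : ℕ) : ℝ) + δ := ⟨_, rfl⟩
  have hν' : ν = x ^ 6 - 1 + 220 * (m : ℝ) ^ 2 := by
    rw [hν, Nat.cast_sub hN1', hδr, hx6, Nat.cast_one]
  have hm2 : (m : ℝ) ^ 2 ≤ 4 * x ^ 2 := by nlinarith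
  have hm2' : x ^ 2 ≤ (m : ℝ) ^ 2 := pow_le_pow_left₀ hx0 hxm 2
  have hx2 : 1600 ≤ x ^ 2 := by nlinarith
  have hx4l : 1600 ^ 2 ≤ x ^ 4 := by
    have : x ^ 4 = (x ^ 2) ^ 2 := by ring
    rw [this]
    exact pow_le_pow_left₀ (by norm_num) hx2 2
  have hx62 : 1600 ^ 2 * x ^ 2 ≤ x ^ 6 := by
    have : x ^ 6 = x ^ 4 * x ^ 2 := by ring
    rw [this]
    exact mul_le_mul_of_nonneg_right hx4l (by positivity)
  have hνu : ν ≤ 2 * x ^ 6 := by
    rw [hν']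
    nlinarith
  have hνl : x ^ 6 ≤ ν := by
    rw [hν']
    nlinarith
  have hν0 : 0 ≤ ν := by
    refine le_trans ?_ hνl
    positivity
  obtain ⟨s, hs⟩ : ∃ s, s = Real.sqrt (((N - 1 : ℕ) : ℝ) + δ) / m := ⟨_, rfl⟩
  have hs' : s = Real.sqrt ν / m := by rw [hs, hν]
  have hsl : x ^ 2 / 2 ≤ s := by
    rw [hs', le_div_iff₀ hm0]
    refine le_trans ?_ (Real.le_sqrt_of_sq_le (y := ν) (x := x ^ 3) ?_)
    · have h1 : x ^ 2 / 2 * m ≤ x ^ 2 / 2 * (2 * x) := mul_le_mul_of_nonneg_left hmx (by positivity)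
      refine h1.trans (le_of_eq ?_)
      ring
    · refine le_trans (le_of_eq ?_) hνl
      ring
  have hsu : s ≤ 2 * x ^ 2 := by
    rw [hs', div_le_iff₀ hm0]
    refine Real.sqrt_le_iff.2 ⟨by positivity, ?_⟩
    refine hνu.trans ?_
    have h1 : (2 * x ^ 2 * (m : ℝ)) ^ 2 = 4 * x ^ 4 * (m : ℝ) ^ 2 := by ring
    rw [h1]
    have h2 : 4 * x ^ 4 * x ^ 2 ≤ 4 * x ^ 4 * (m : ℝ) ^ 2 :=
      mul_le_mul_of_nonneg_left hm2' (by positivity)
    have h3 : 0 ≤ x ^ 6 := by positivity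
    nlinarith
  have hsx : x ≤ s := by
    refine le_trans ?_ hsl
    nlinarith
  have hs0 : 0 ≤ s := by linarith
  refine ⟨x, s, m, δ, hN1', hm40, hδ, hx6, hx4, h40, hxm, hmx, hs, hTx.trans hsx, by linarith, hsu,
    ?_, ?_, ?_, ?_, ?_⟩
  · rw [hδr, ← hx6]
    have h1 : x ^ 6 ≤ (m : ℝ) ^ 6 := pow_le_pow_left₀ hx0 hxm 6
    nlinarith
  · rw [Real.exp_neg, ← div_eq_mul_inv, div_le_one (Real.exp_pos _)]
    have h1 : Real.exp (20 * x ^ 2) ≤ Real.exp (δ : ℝ) := by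
      rw [Real.exp_le_exp, hδr]
      nlinarith
    refine le_trans ?_ h1
    have h2 : (x ^ 2) ^ 20 ≤ Real.exp (20 * x ^ 2) := by
      have : (20 : ℝ) * x ^ 2 = ((20 : ℕ) : ℝ) * x ^ 2 := by norm_num
      rw [this, Real.exp_nat_mul]
      refine pow_le_pow_left₀ (by positivity) ?_ 20
      have := Real.add_one_le_exp (x ^ 2)
      linarith
    refine le_trans ?_ h2
    have h3 : s ^ 4 ≤ (2 * x ^ 2) ^ 4 := pow_le_pow_left₀ hs0 hsu 4
    have h4 : 4 * (N : ℝ) ^ 2 * s ^ 4 ≤ 4 * (N : ℝ) ^ 2 * (2 * x ^ 2) ^ 4 :=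
      mul_le_mul_of_nonneg_left h3 (by positivity)
    refine h4.trans ?_
    rw [← hx6]
    have h5 : 4 * (x ^ 6) ^ 2 * (2 * x ^ 2) ^ 4 = 64 * x ^ 20 := by ring
    have h6 : (x ^ 2) ^ 20 = x ^ 20 * x ^ 20 := by ring
    rw [h5, h6]
    refine mul_le_mul_of_nonneg_right ?_ (by positivity)
    calc (64 : ℝ) ≤ 40 ^ 20 := by norm_num
      _ ≤ x ^ 20 := pow_le_pow_left₀ (by norm_num) h40 20
  · rw [← hν, ← hx6]
    exact hνu
  · rw [← hν, ← hx6]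
    linarith
  · rw [← hx6, Real.le_log_iff_exp_le (by positivity)]
    have h1 := Real.exp_one_lt_d9
    have h2 : (40 : ℝ) ^ 6 ≤ x ^ 6 := pow_le_pow_left₀ (by norm_num) h40 6
    norm_num at h1 h2 ⊢
    linarith

theorem low {e₀ C₂ s₂ : ℝ} (he : 0 ≤ e₀) (hC : 0 ≤ C₂) (hs : 3 ≤ s₂) (h : PlanarE e₀ C₂ s₂) :
    ∃ (C : ℝ) (N₀ : ℕ), 0 ≤ C ∧ ∀ N : ℕ, N₀ ≤ N → ∀ u : Fin N → ℂ × ℂ, (∀ i, Unit2 (u i)) →
      gdet (ks (N - 1)) u ≤ Real.exp (-(e₀ * N) + C * ((N : ℝ) ^ (2 / 3 : ℝ) * er N)) := by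
  obtain ⟨C₁, s₁, hC₁, hs₁, hlc⟩ := low_cell
  obtain ⟨N₀, hN₀⟩ := params (max s₁ s₂)
  refine ⟨e₀ + 64 * (C₁ + C₂) + 4000, N₀, by positivity, fun N hN u hu => ?_⟩
  obtain ⟨x, s, m, δ, hN1, hm, hδ, hx6, hx4, h40, hxm, hmx, hse, hTs, hs3, hsu, h220, hsm, hνu, hνl,
    hlog⟩ := hN₀ N hN
  have hss1 : s₁ ≤ s := (le_max_left _ _).trans hTs
  have hss2 : s₂ ≤ s := (le_max_right _ _).trans hTs
  obtain ⟨K, p, X, hdec⟩ := cells hm
  choose c hc using fun i => hdec.cov (hopf (u i))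
  obtain ⟨R, hR⟩ : ∃ R, R = Real.sqrt (((N - 1 : ℕ) : ℝ) + δ) := ⟨_, rfl⟩
  have hm0 : (0 : ℝ) < m := by
    have : (40 : ℝ) ≤ m := by exact_mod_cast hm
    linarith
  have hs0 : 0 < s := by linarith
  have hR0 : 0 < R := by
    have : R = s * m := by rw [hse, hR]; field_simp
    rw [this]; positivity
  have hR2 : R ^ 2 = ((N - 1 : ℕ) : ℝ) + δ := by
    rw [hR]
    exact Real.sq_sqrt (by positivity)
  obtain ⟨A, hA⟩ : ∃ A : Fin K → Set ℂ, A = fun k => AA (R / 2) (p k) (X k) := ⟨_, rfl⟩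
  have hfat : ∀ k, Fat s (A k) := by
    intro k
    have h1 := AA_fat hm (hdec.cen k) (t := R / 2) (by positivity)
    have e : 2 * (R / 2) / (m : ℝ) = s := by rw [hse, hR]; ring
    rw [e] at h1
    rw [hA]; exact h1
  have harea : ∀ k, area (A k) = (R / 2) ^ 2 * area (TT (p k) (X k)) := by
    intro k
    rw [hA]
    exact AA_area (by positivity) _ _
  have hapos : ∀ k, 0 < area (A k) := by
    intro k
    have h1 := (hfat k).le_area hs0.le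
    have : 0 < Real.pi * (s / 100) ^ 2 := by positivity
    linarith
  have hdpos : ∀ k, 0 < dP (A k) (nB (A k)) := fun k =>
    dP_pos (hfat k).measurable (hapos k) _ nB_le
  have hden : ∀ k, dP (A k) (nB (A k)) = Real.exp (-en (A k)) := by
    intro k
    unfold en
    rw [neg_neg, Real.exp_log (hdpos k)]
  have hen : ∀ k, -en (A k) ≤ -(e₀ * (area (A k) / Real.pi)) + C₂ * (s * er s) := by
    intro k
    have h1 := h s hss2 _ _ _ (by
      have h2 := hfat k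
      rw [hA] at h2
      exact h2)
    have h2 := (abs_le.1 h1).1
    have h3 : A k = tri ((R / 2 : ℝ) * PP (p k) (X k) 0) ((R / 2 : ℝ) * PP (p k) (X k) 1)
        ((R / 2 : ℝ) * PP (p k) (X k) 2) := by rw [hA]; rfl
    rw [h3]
    linarith
  obtain ⟨n, hn⟩ : ∃ n : Fin K → ℕ, n = fun k => Fintype.card {i // c i = k} := ⟨_, rfl⟩
  have hnsum : ∑ k, (n k : ℝ) = N := by
    have h1 : ∑ k, n k = N := by
      have h2 := Finset.card_eq_sum_card_fiberwise (f := c) (s := Finset.univ) (t := Finset.univ)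
        (fun i _ => Finset.mem_coe.2 (Finset.mem_univ _))
      rw [Finset.card_univ, Fintype.card_fin] at h2
      conv_rhs => rw [h2]
      refine Finset.sum_congr rfl fun k _ => ?_
      rw [hn]
      exact Fintype.card_subtype _
    exact_mod_cast h1
  have hcell : ∀ k, gdet (ks (N - 1)) (fun i : {i // c i = k} => u i) ≤
      Real.exp (Real.log 3 + (-(e₀ * (area (A k) / Real.pi)) + C₂ * (s * er s)) +
        (4 * Real.log s * ((nB (A k) : ℝ) - n k) + C₁ * (s * er s))) := by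
    intro k
    have h1 := hlc N δ m s hN1 hm hse hss1 h220 hsm (p k) (X k) (hdec.cen k) {i // c i = k}
      (fun i => u i) (fun i => hu i)
      (by
        refine (Fintype.card_subtype_le _).trans ?_
        rw [Fintype.card_fin])
      (by
        rintro ⟨i, hi⟩
        have h2 := hc i
        rw [hi] at h2
        exact h2)
    rw [← hR] at h1
    have h3 : AA (R / 2) (p k) (X k) = A k := by rw [hA]
    rw [h3, hden k] at h1
    refine h1.trans ?_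
    have h4 : (Fintype.card {i // c i = k} : ℝ) = n k := by rw [hn]
    rw [h4]
    generalize 4 * Real.log s * ((nB (A k) : ℝ) - n k) + C₁ * (s * er s) = Y
    rw [Real.exp_add, Real.exp_add, Real.exp_log (by norm_num), mul_assoc]
    refine mul_le_mul_of_nonneg_left ?_ (by norm_num)
    refine mul_le_mul_of_nonneg_right ?_ (Real.exp_pos _).le
    exact Real.exp_le_exp.2 (hen k)
  have hF := fischer_gdet (ks (N - 1)) u c Finset.univ (fun i => Finset.mem_univ _)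
    (ks_psd (N - 1) u)
  refine hF.trans ?_
  have hP : ∏ k, gdet (ks (N - 1)) (fun i : {i // c i = k} => u i) ≤
      ∏ k, Real.exp (Real.log 3 + (-(e₀ * (area (A k) / Real.pi)) + C₂ * (s * er s)) +
        (4 * Real.log s * ((nB (A k) : ℝ) - n k) + C₁ * (s * er s))) := by
    refine Finset.prod_le_prod (fun k _ => ?_) (fun k _ => hcell k)
    exact det_re_nonneg (ks_psd (N - 1) _)
  refine hP.trans ?_
  rw [← Real.exp_sum, Real.exp_le_exp]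
  have hlogs : 0 ≤ Real.log s := Real.log_nonneg (by linarith)
  obtain ⟨a, ha⟩ : ∃ a : ℝ, a = ∑ k, area (A k) / Real.pi := ⟨_, rfl⟩
  have hsum : ∑ k, (Real.log 3 + (-(e₀ * (area (A k) / Real.pi)) + C₂ * (s * er s)) +
        (4 * Real.log s * ((nB (A k) : ℝ) - n k) + C₁ * (s * er s))) ≤
      K * Real.log 3 + (C₁ + C₂) * (K * (s * er s)) - e₀ * a + 4 * Real.log s * (a - N) := by
    have h1 : ∀ k, Real.log 3 + (-(e₀ * (area (A k) / Real.pi)) + C₂ * (s * er s)) +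
        (4 * Real.log s * ((nB (A k) : ℝ) - n k) + C₁ * (s * er s)) ≤
        (Real.log 3 + (C₁ + C₂) * (s * er s)) - e₀ * (area (A k) / Real.pi) +
          4 * Real.log s * (area (A k) / Real.pi) - 4 * Real.log s * n k := by
      intro k
      have h2 : (nB (A k) : ℝ) ≤ area (A k) / Real.pi := by
        rw [le_div_iff₀ Real.pi_pos, mul_comm]
        exact nB_le
      have h3 := mul_le_mul_of_nonneg_left h2 (show 0 ≤ 4 * Real.log s by positivity)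
      linarith
    refine (Finset.sum_le_sum fun k _ => h1 k).trans (le_of_eq ?_)
    rw [Finset.sum_sub_distrib, Finset.sum_add_distrib, Finset.sum_sub_distrib, ← Finset.mul_sum,
      ← Finset.mul_sum, ← Finset.mul_sum, ← ha, hnsum, Finset.sum_const, Finset.card_univ,
      Fintype.card_fin, nsmul_eq_mul]
    ring
  refine hsum.trans ?_
  obtain ⟨ν, hν⟩ : ∃ ν : ℝ, ν = ((N - 1 : ℕ) : ℝ) + δ := ⟨_, rfl⟩
  rw [← hν] at hR2 hνu hνl
  have haν : a = ν / (4 * Real.pi) * ∑ k, area (TT (p k) (X k)) := by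
    rw [ha, Finset.mul_sum]
    refine Finset.sum_congr rfl fun k _ => ?_
    rw [harea k, div_pow, hR2]
    ring
  have hpi := Real.pi_pos
  have hN1r : (1 : ℝ) ≤ N := by exact_mod_cast hN1
  have hν0 : 0 ≤ ν := by linarith
  have hal : ν ≤ a := by
    rw [haν]
    have h1 := mul_le_mul_of_nonneg_left hdec.lo (show 0 ≤ ν / (4 * Real.pi) by positivity)
    refine le_trans (le_of_eq ?_) h1
    field_simp
  have hau : a ≤ ν * (1 + 28 / (m : ℝ) ^ 2) := by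
    rw [haν]
    have h1 := mul_le_mul_of_nonneg_left hdec.hi (show 0 ≤ ν / (4 * Real.pi) by positivity)
    refine h1.trans (le_of_eq ?_)
    field_simp
  have hδr : (δ : ℝ) = 220 * (m : ℝ) ^ 2 := by rw [hδ]; push_cast; ring
  have hx0 : 0 < x := by linarith
  have hm2 : (m : ℝ) ^ 2 ≤ 4 * x ^ 2 := by nlinarith
  have hm2' : x ^ 2 ≤ (m : ℝ) ^ 2 := pow_le_pow_left₀ hx0.le hxm 2
  have hx24 : x ^ 2 ≤ x ^ 4 := pow_le_pow_right₀ (by linarith) (by norm_num)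
  have haN : a - N ≤ 936 * x ^ 4 := by
    have h1 : ν / (m : ℝ) ^ 2 ≤ 2 * x ^ 4 := by
      rw [div_le_iff₀ (by positivity)]
      rw [← hx6] at hνu
      have h2 : 2 * x ^ 4 * x ^ 2 ≤ 2 * x ^ 4 * (m : ℝ) ^ 2 :=
        mul_le_mul_of_nonneg_left hm2' (by positivity)
      refine hνu.trans (le_trans (le_of_eq ?_) h2)
      ring
    have h2 : ν * (1 + 28 / (m : ℝ) ^ 2) = ν + 28 * (ν / (m : ℝ) ^ 2) := by ring
    have h3 : ν = (N : ℝ) - 1 + δ := by rw [hν, Nat.cast_sub hN1, Nat.cast_one]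
    rw [h2] at hau
    rw [hδr] at h3
    linarith
  obtain ⟨E, hE⟩ : ∃ E, E = er N := ⟨_, rfl⟩
  have hlogE : Real.log N ≤ E := by rw [hE]; exact log_le_er hlog
  have hE1 : 1 ≤ E := hlog.trans hlogE
  have hsN : s ≤ N := by
    rw [← hx6]
    refine hsu.trans ?_
    have h1 : 2 ≤ x ^ 4 := by
      have : (2 : ℝ) ≤ x ^ 2 := by nlinarith
      linarith
    have h2 : x ^ 6 = x ^ 4 * x ^ 2 := by ring
    rw [h2]
    exact mul_le_mul_of_nonneg_right h1 (by positivity)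
  have hsE : er s ≤ E := by rw [hE]; exact er_mono_aux (by linarith) hsN
  have hlsE : Real.log s ≤ E := (Real.log_le_log hs0 hsN).trans hlogE
  have hKr : (K : ℝ) ≤ 8 * (m : ℝ) ^ 2 := by
    have := hdec.card
    exact_mod_cast this
  have hK4 : (K : ℝ) ≤ 32 * x ^ 4 := by linarith
  have hKs : (K : ℝ) * (s * er s) ≤ 64 * (x ^ 4 * E) := by
    have h1 : (K : ℝ) * s ≤ 32 * x ^ 2 * (2 * x ^ 2) := by
      refine mul_le_mul (by linarith) hsu hs0.le (by positivity)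
    have h2 : 0 ≤ er s := mul_nonneg hlogs (Real.sqrt_nonneg _)
    calc (K : ℝ) * (s * er s) = (K * s) * er s := by ring
      _ ≤ (32 * x ^ 2 * (2 * x ^ 2)) * E := mul_le_mul h1 hsE h2 (by positivity)
      _ = 64 * (x ^ 4 * E) := by ring
  have hlog3 : Real.log 3 ≤ 2 := by
    have := Real.log_le_sub_one_of_pos (show (0 : ℝ) < 3 by norm_num)
    linarith
  have hlog3' : 0 ≤ Real.log 3 := Real.log_nonneg (by norm_num)
  have hx4p : 1 ≤ x ^ 4 := one_le_pow₀ (by linarith)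
  have hx4E : x ^ 4 ≤ x ^ 4 * E := by nlinarith
  have hxE1 : 1 ≤ x ^ 4 * E := hx4p.trans hx4E
  have t1 : (K : ℝ) * Real.log 3 ≤ 64 * (x ^ 4 * E) := by
    have h1 : (K : ℝ) * Real.log 3 ≤ 32 * x ^ 4 * 2 :=
      mul_le_mul hK4 hlog3 hlog3' (by positivity)
    linarith
  have t2 : (C₁ + C₂) * ((K : ℝ) * (s * er s)) ≤ (C₁ + C₂) * (64 * (x ^ 4 * E)) :=
    mul_le_mul_of_nonneg_left hKs (by positivity)
  have t3 : 4 * Real.log s * (a - N) ≤ 3744 * (x ^ 4 * E) := by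
    have h1 : 4 * Real.log s * (a - N) ≤ 4 * Real.log s * (936 * x ^ 4) :=
      mul_le_mul_of_nonneg_left haN (by positivity)
    have h2 : 4 * Real.log s * (936 * x ^ 4) ≤ 4 * E * (936 * x ^ 4) :=
      mul_le_mul_of_nonneg_right (by linarith) (by positivity)
    linarith
  have t4 : -(e₀ * a) ≤ -(e₀ * N) + e₀ * (x ^ 4 * E) := by
    have h1 : e₀ * ((N : ℝ) - 1) ≤ e₀ * a := mul_le_mul_of_nonneg_left (hνl.trans hal) he
    have h2 : e₀ * 1 ≤ e₀ * (x ^ 4 * E) := mul_le_mul_of_nonneg_left hxE1 he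
    linarith
  rw [hx4, ← hE]
  linarith

end Pool.Agent.LE60
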