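import Pool.Agent.LE60.UpS
import Pool.Agent.LE60.AddS
import Pool.Agent.LE60.Low

/-!
# LE60/Up: lower bound of the maximal spherical determinant

PROOF. For `N ≥ N₀`: `x = N^{1/6}`, `m = ⌈x⌉₊` (`x ≤ m ≤ 2x`, `N ≤ m⁶`), `k = 20000 m²`, `d = ⌈4 √(k N)⌉₊` (`4√20000 m √N ≤ d ≤ 566 m √N + 1`),
`η = 2000 m √(log N/N)`, `ν = N - 1 - d`, `t = (1-η) √ν/2`, `s' = 2t/m = (1-η)√ν/m`. For `N` large: `d ≤ N/4`, `η ≤ 1/4`, `x²/4 ≤ s' ≤ x²`.
Hypotheses of `up_conf`: `η ≥ 28/m²` (`m³ √(log N/N) ≥ √(log N)·1`… since `m³ ≥ √N`); `4k ≤ d` (`k ≤ N`); `16 k N ≤ d²`;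
`15 d/m² + 110 N/m⁴ ≤ 8490 √N/m + 15/m² + 110 m² ≤ 8600 m² + 15 ≤ k` (`√N ≤ m³`); `N/m² ≤ 2d`; `hsmall`: `k ≥ 20000 N^{1/3}`, polynomial factors;
`hsep`: `(N-1)(η/(288m))²/8 = (N-1) (2000/288)² log N/(8N) ≥ 5 log N` (`(2000/288)²/8 = 6.02…`), so the left side is `≤ N^{-4}`, and
`8 N s'^4 ≤ 8 N^{7/3} ≤ N⁴`.
`hcard`: `∑ nB A_c ≤ ∑ area A_c/π = (t²/π) ∑ area TT_c ≤ (1-η)² ν (1 + 28/m²) ≤ ν ≤ N` since `(1-η)(1+28/m²) ≤ (1-η)(1+η) ≤ 1`.
Then `u` from `up_conf`, `n₁ = ∑ nB A_c` points, and `complete_sphere` gives `g : Fin N → ` unit vectors with `gdet g ≥ N^{-(N - n₁)} gdet u`.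
`n₁ ≥ ∑ (area A_c/π - 1) ≥ (1-η)² ν - K ≥ N - 1 - d - 2ηN - 8m²`, so `N - n₁ ≤ 1 + d + 2ηN + 8m² ≤ C N^{2/3} √(log N)`
(`d ≤ 566·2·x·x³ + 1`, `ηN ≤ 4000 x √(N log N) = 4000 N^{2/3} √(log N)`).
`- log (gdet g) ≤ (N - n₁) log N + log 2 + ∑ (en A_c + log 8)`, `en A_c ≤ e₀ area A_c/π + C₂ s' er s'` (`h`), `∑ area A_c/π ≤ ν ≤ N`, `K (log 8 + C₂ s' er s') ≤ 8 m² (…)
≤ C N^{2/3} er N` (`m² s' ≤ m √ν ≤ 2 N^{2/3}`). Total: `≤ e₀ N + C N^{2/3} er N`.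
-/

set_option autoImplicit false

namespace Pool.Agent.LE60

open Real

/-- numerical facts about the parameters -/
private structure UpPar (N : ℕ) (x : ℝ) (k d m : ℕ) (t η : ℝ) : Prop where
  hN : 2 ≤ N
  hm : 40 ≤ m
  ht : 0 < t
  hη : 2 / (m : ℝ) ^ 2 ≤ η
  hη1 : η ≤ 1 / 2
  htd : t = (1 - η) * Real.sqrt (((N - 1 : ℕ) : ℝ) - d) / 2
  hd : d ≤ N - 1
  hkd : 4 * k ≤ d
  hkn : 16 * k * N ≤ d ^ 2
  htail : 15 * d / (m : ℝ) ^ 2 + 110 * N / (m : ℝ) ^ 4 ≤ k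
  hn : (N : ℝ) / (m : ℝ) ^ 2 ≤ 2 * d
  hs : x ^ 2 / 4 ≤ 2 * t / m
  hs' : 2 * t / m ≤ x ^ 2
  hms : (m : ℝ) ^ 2 * (2 * t / m) ≤ 2 * x ^ 4
  hsmall : 16 * (N : ℝ) ^ 2 * (2 * t / m) ^ 4 * Real.exp (-(k : ℝ)) ≤ 1
  hsep : (N : ℝ) * Real.exp (-(((N - 1 : ℕ) : ℝ) * (η / (288 * m)) ^ 2) / 8)
      ≤ 1 / (8 * N * (2 * t / m) ^ 4)
  hup : 4 * t ^ 2 * (1 + 28 / (m : ℝ) ^ 2) ≤ N
  hlo : (N : ℝ) - 4 * t ^ 2 + 8 * m ^ 2 ≤ 10000 * (x ^ 4 * Real.sqrt (Real.log N))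
  hm2 : (m : ℝ) ^ 2 ≤ 4 * x ^ 2

private theorem up_par {N : ℕ} {x : ℝ} (hx : 2000 ≤ x) (hN : (N : ℝ) = x ^ 6) :
    ∃ (k d m : ℕ) (t η : ℝ), UpPar N x k d m t η := by
  have hx0 : 0 < x := by linarith
  have hx2 : 4000000 ≤ x ^ 2 := by
    calc (4000000 : ℝ) = 2000 ^ 2 := by norm_num
      _ ≤ x ^ 2 := pow_le_pow_left₀ (by norm_num) hx 2
  have hx3 : 8000000000 ≤ x ^ 3 := by
    calc (8000000000 : ℝ) = 4000000 * 2000 := by norm_num
      _ ≤ x ^ 2 * x := mul_le_mul hx2 hx (by norm_num) (by positivity)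
      _ = x ^ 3 := by ring
  have hx4 : x ^ 2 ≤ x ^ 4 := by
    calc x ^ 2 = x ^ 2 * 1 := by ring
      _ ≤ x ^ 2 * x ^ 2 := mul_le_mul_of_nonneg_left (by linarith) (by positivity)
      _ = x ^ 4 := by ring
  have hNpos : (0 : ℝ) < N := by rw [hN]; positivity
  have hN6 : (8 : ℝ) ≤ N := by
    rw [hN]
    calc (8 : ℝ) ≤ 8000000000 * 8000000000 := by norm_num
      _ ≤ x ^ 3 * x ^ 3 := mul_le_mul hx3 hx3 (by norm_num) (by positivity)
      _ = x ^ 6 := by ring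
  have hNn : 8 ≤ N := by exact_mod_cast hN6
  -- the logarithm
  obtain ⟨L, hL⟩ : ∃ L : ℝ, L = Real.log N := ⟨_, rfl⟩
  have hL1 : 1 ≤ L := by
    rw [hL, Real.le_log_iff_exp_le hNpos]
    have := Real.exp_one_lt_d9
    linarith
  have hL6 : L ≤ 6 * x := by
    have h1 : L = 6 * Real.log x := by
      rw [hL, hN, Real.log_pow]
      norm_num
    have h2 := Real.log_le_sub_one_of_pos hx0
    rw [h1]
    linarith
  obtain ⟨S, hS⟩ : ∃ S : ℝ, S = Real.sqrt L := ⟨_, rfl⟩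
  have hS1 : 1 ≤ S := by
    rw [hS]
    exact Real.one_le_sqrt.2 hL1
  have hSS : S ^ 2 = L := by rw [hS]; exact Real.sq_sqrt (by linarith)
  have hSx : 16000 * S ≤ x ^ 2 := by
    apply abs_le_of_sq_le_sq' _ (by positivity) |>.2
    rw [mul_pow, hSS]
    calc (16000 : ℝ) ^ 2 * L ≤ 16000 ^ 2 * (6 * x) := mul_le_mul_of_nonneg_left hL6 (by norm_num)
      _ = 1536000000 * x := by ring
      _ ≤ x ^ 3 * x := mul_le_mul_of_nonneg_right (by linarith) hx0.le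
      _ = (x ^ 2) ^ 2 := by ring
  -- m
  obtain ⟨m, hmx, hmx'⟩ : ∃ m : ℕ, x ≤ m ∧ (m : ℝ) < x + 1 :=
    ⟨⌈x⌉₊, Nat.le_ceil x, Nat.ceil_lt_add_one hx0.le⟩
  have hm0 : (0 : ℝ) < m := by linarith
  have hm2x : (m : ℝ) ≤ 2 * x := by linarith
  have hm40 : 40 ≤ m := by
    have : (40 : ℝ) ≤ m := by linarith
    exact_mod_cast this
  have hm2 : (m : ℝ) ^ 2 ≤ 4 * x ^ 2 := by
    calc (m : ℝ) ^ 2 ≤ (2 * x) ^ 2 := pow_le_pow_left₀ hm0.le hm2x 2
      _ = 4 * x ^ 2 := by ring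
  have hxm2 : x ^ 2 ≤ (m : ℝ) ^ 2 := pow_le_pow_left₀ hx0.le hmx 2
  have hxm3 : x ^ 3 ≤ (m : ℝ) ^ 3 := pow_le_pow_left₀ hx0.le hmx 3
  have hxm6 : x ^ 6 ≤ (m : ℝ) ^ 6 := pow_le_pow_left₀ hx0.le hmx 6
  -- k, d
  obtain ⟨k, hk⟩ : ∃ k : ℕ, k = 20000 * m ^ 2 := ⟨_, rfl⟩
  have hkr : (k : ℝ) = 20000 * (m : ℝ) ^ 2 := by rw [hk]; push_cast; ring
  have hsq : Real.sqrt (k * N) ^ 2 = k * N := Real.sq_sqrt (by positivity)
  have hkN : (k : ℝ) ≤ N := by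
    rw [hkr, hN]
    calc (20000 : ℝ) * (m : ℝ) ^ 2 ≤ 20000 * (4 * x ^ 2) := by linarith
      _ = 80000 * x ^ 2 := by ring
      _ ≤ (x ^ 2 * x ^ 2) * x ^ 2 := mul_le_mul_of_nonneg_right
          (le_trans (by norm_num) (mul_le_mul hx2 hx2 (by norm_num) (by positivity))) (by positivity)
      _ = x ^ 6 := by ring
  have hq1 : Real.sqrt (k * N) ≤ 141.5 * (m * x ^ 3) := by
    apply Real.sqrt_le_left (by positivity) |>.2
    rw [hkr, hN]
    have h0 : (0 : ℝ) ≤ m ^ 2 * x ^ 6 := by positivity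
    have h1 : (141.5 * ((m : ℝ) * x ^ 3)) ^ 2 = 20022.25 * ((m : ℝ) ^ 2 * x ^ 6) := by ring
    rw [h1]
    linarith
  have hq2 : 141 * (m * x ^ 3) ≤ Real.sqrt (k * N) := by
    apply Real.le_sqrt_of_sq_le
    rw [hkr, hN]
    have h0 : (0 : ℝ) ≤ m ^ 2 * x ^ 6 := by positivity
    have h1 : (141 * ((m : ℝ) * x ^ 3)) ^ 2 = 19881 * ((m : ℝ) ^ 2 * x ^ 6) := by ring
    rw [h1]
    linarith
  have hq3 : (k : ℝ) ≤ Real.sqrt (k * N) := by
    apply Real.le_sqrt_of_sq_le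
    rw [sq]
    exact mul_le_mul_of_nonneg_left hkN (by positivity)
  obtain ⟨d, hd1, hd2⟩ : ∃ d : ℕ, 4 * Real.sqrt (k * N) ≤ d ∧ (d : ℝ) < 4 * Real.sqrt (k * N) + 1 :=
    ⟨⌈4 * Real.sqrt (k * N)⌉₊, Nat.le_ceil _, Nat.ceil_lt_add_one (by positivity)⟩
  have hd3 : (d : ℝ) ≤ 566 * (m * x ^ 3) + 1 := by linarith
  have hmx3 : (m : ℝ) * x ^ 3 ≤ 2 * x ^ 4 := by
    calc (m : ℝ) * x ^ 3 ≤ (2 * x) * x ^ 3 := mul_le_mul_of_nonneg_right hm2x (by positivity)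
      _ = 2 * x ^ 4 := by ring
  have hd4 : (d : ℝ) ≤ 1133 * x ^ 4 := by linarith
  have hd5 : (d : ℝ) ≤ N / 4 := by
    have h1 : 4000000 * x ^ 4 ≤ N := by
      rw [hN]
      calc 4000000 * x ^ 4 ≤ x ^ 2 * x ^ 4 := mul_le_mul_of_nonneg_right hx2 (by positivity)
        _ = x ^ 6 := by ring
    have : (0 : ℝ) ≤ x ^ 4 := by positivity
    linarith
  have hN1 : ((N - 1 : ℕ) : ℝ) = N - 1 := by
    rw [Nat.cast_sub (by omega)]
    norm_num
  -- η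
  obtain ⟨η, hη⟩ : ∃ η : ℝ, η = 2000 * m * S / x ^ 3 := ⟨_, rfl⟩
  have hη0 : 0 < η := by rw [hη]; positivity
  have hηlo : 2000 / (m : ℝ) ^ 2 ≤ η := by
    rw [hη, div_le_div_iff₀ (by positivity) (by positivity)]
    calc 2000 * x ^ 3 ≤ 2000 * (m : ℝ) ^ 3 := by linarith
      _ = 2000 * (m : ℝ) * 1 * (m : ℝ) ^ 2 := by ring
      _ ≤ 2000 * (m : ℝ) * S * (m : ℝ) ^ 2 := by gcongr
  have hηhi : η ≤ 1 / 4 := by
    rw [hη, div_le_div_iff₀ (by positivity) (by norm_num)]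
    calc 2000 * m * S * 4 = (8000 * S) * m := by ring
      _ ≤ (8000 * S) * (2 * x) := by gcongr
      _ = (16000 * S) * x := by ring
      _ ≤ x ^ 2 * x := by gcongr
      _ = 1 * x ^ 3 := by ring
  have hηm : 2 / (m : ℝ) ^ 2 ≤ η := by
    refine le_trans ?_ hηlo
    gcongr
    norm_num
  -- ν
  obtain ⟨ν, hν⟩ : ∃ ν : ℝ, ν = ((N - 1 : ℕ) : ℝ) - d := ⟨_, rfl⟩
  have hν1 : ν ≤ N := by
    rw [hν, hN1]
    have : (0 : ℝ) ≤ d := by positivity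
    linarith
  have hν2 : (N : ℝ) / 2 ≤ ν := by
    rw [hν, hN1]
    linarith
  have hν0 : 0 < ν := by linarith
  obtain ⟨r, hr⟩ : ∃ r : ℝ, r = Real.sqrt ν := ⟨_, rfl⟩
  have hr0 : 0 < r := by rw [hr]; exact Real.sqrt_pos.2 hν0
  have hrr : r ^ 2 = ν := by rw [hr]; exact Real.sq_sqrt hν0.le
  have hr1 : r ≤ x ^ 3 := by
    rw [hr]
    apply Real.sqrt_le_left (by positivity) |>.2
    calc ν ≤ N := hν1
      _ = (x ^ 3) ^ 2 := by rw [hN]; ring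
  have hr2 : 0.7 * x ^ 3 ≤ r := by
    rw [hr]
    apply Real.le_sqrt_of_sq_le
    have h0 : (0 : ℝ) ≤ x ^ 6 := by positivity
    have h1 : (0.7 * x ^ 3) ^ 2 = 0.49 * x ^ 6 := by ring
    rw [h1]
    linarith
  obtain ⟨t, ht⟩ : ∃ t : ℝ, t = (1 - η) * r / 2 := ⟨_, rfl⟩
  have ht0 : 0 < t := by
    have : 0 < 1 - η := by linarith
    rw [ht]
    positivity
  have h2t : 2 * t = (1 - η) * r := by rw [ht]; ring
  have h2t1 : 2 * t ≤ x ^ 3 := by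
    rw [h2t]
    calc (1 - η) * r ≤ 1 * r := mul_le_mul_of_nonneg_right (by linarith) hr0.le
      _ ≤ x ^ 3 := by linarith
  have h2t2 : 0.52 * x ^ 3 ≤ 2 * t := by
    rw [h2t]
    calc 0.52 * x ^ 3 ≤ (3 / 4) * (0.7 * x ^ 3) := by
          have : (0 : ℝ) ≤ x ^ 3 := by positivity
          linarith
      _ ≤ (1 - η) * r := mul_le_mul (by linarith) hr2 (by positivity) (by linarith)
  have hs : x ^ 2 / 4 ≤ 2 * t / m := by
    rw [div_le_div_iff₀ (by norm_num) hm0]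
    calc x ^ 2 * m ≤ x ^ 2 * (2 * x) := by gcongr
      _ = 2 * x ^ 3 := by ring
      _ ≤ 2 * t * 4 := by
        have : (0 : ℝ) ≤ x ^ 3 := by positivity
        linarith
  have hs' : 2 * t / m ≤ x ^ 2 := by
    rw [div_le_iff₀ hm0]
    calc 2 * t ≤ x ^ 3 := h2t1
      _ = x ^ 2 * x := by ring
      _ ≤ x ^ 2 * m := by gcongr
  have hs0 : 0 < 2 * t / m := by positivity
  have hs8 : (2 * t / m) ^ 4 ≤ x ^ 8 := by
    calc (2 * t / m) ^ 4 ≤ (x ^ 2) ^ 4 := pow_le_pow_left₀ hs0.le hs' 4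
      _ = x ^ 8 := by ring
  refine ⟨k, d, m, t, η, ⟨by omega, hm40, ht0, hηm, by linarith, by rw [← hν, ← hr]; exact ht, ?_, ?_, ?_, ?_, ?_, hs, hs', ?_,
    ?_, ?_, ?_, ?_, hm2⟩⟩
  · have h1 : (d : ℝ) ≤ ((N - 1 : ℕ) : ℝ) := by linarith
    exact_mod_cast h1
  · have h1 : ((4 * k : ℕ) : ℝ) ≤ d := by
      push_cast
      linarith
    exact_mod_cast h1
  · have h1 : ((16 * k * N : ℕ) : ℝ) ≤ ((d ^ 2 : ℕ) : ℝ) := by
      push_cast
      calc 16 * (k : ℝ) * N = (4 * Real.sqrt (k * N)) ^ 2 := by rw [mul_pow, hsq]; ring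
        _ ≤ (d : ℝ) ^ 2 := pow_le_pow_left₀ (by positivity) hd1 2
    exact_mod_cast h1
  · rw [hkr]
    have h1 : 15 * (d : ℝ) / (m : ℝ) ^ 2 ≤ 8491 * (m : ℝ) ^ 2 := by
      rw [div_le_iff₀ (by positivity)]
      have h2 : (m : ℝ) * x ^ 3 ≤ (m : ℝ) ^ 4 := by
        calc (m : ℝ) * x ^ 3 ≤ m * m ^ 3 := by gcongr
          _ = (m : ℝ) ^ 4 := by ring
      have h3 : (15 : ℝ) ≤ (m : ℝ) ^ 4 := by
        have h4 : (2000 : ℝ) ≤ m := by linarith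
        calc (15 : ℝ) ≤ 2000 ^ 4 := by norm_num
          _ ≤ (m : ℝ) ^ 4 := pow_le_pow_left₀ (by norm_num) h4 4
      calc 15 * (d : ℝ) ≤ 15 * (566 * (m * x ^ 3) + 1) := by linarith
        _ ≤ 8491 * (m : ℝ) ^ 4 := by linarith
        _ = 8491 * (m : ℝ) ^ 2 * m ^ 2 := by ring
    have h2 : 110 * (N : ℝ) / (m : ℝ) ^ 4 ≤ 110 * (m : ℝ) ^ 2 := by
      rw [div_le_iff₀ (by positivity), hN]
      calc 110 * x ^ 6 ≤ 110 * (m : ℝ) ^ 6 := by linarith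
        _ = 110 * (m : ℝ) ^ 2 * m ^ 4 := by ring
    have h3 : (0 : ℝ) ≤ (m : ℝ) ^ 2 := by positivity
    linarith
  · rw [div_le_iff₀ (by positivity), hN]
    have h1 : x ^ 3 ≤ (m : ℝ) * x ^ 3 := by
      calc x ^ 3 = 1 * x ^ 3 := by ring
        _ ≤ (m : ℝ) * x ^ 3 := mul_le_mul_of_nonneg_right (by linarith) (by positivity)
    calc x ^ 6 = x ^ 3 * x ^ 3 := by ring
      _ ≤ x ^ 3 * (m : ℝ) ^ 3 := by gcongr
      _ = 1 * (m * x ^ 3) * (m : ℝ) ^ 2 := by ring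
      _ ≤ 2 * d * (m : ℝ) ^ 2 := by
        apply mul_le_mul_of_nonneg_right _ (by positivity)
        have h2 : (0 : ℝ) ≤ m * x ^ 3 := by positivity
        linarith
  · calc (m : ℝ) ^ 2 * (2 * t / m) = m * (2 * t) := by field_simp
      _ ≤ (2 * x) * x ^ 3 := mul_le_mul hm2x h2t1 (by positivity) (by positivity)
      _ = 2 * x ^ 4 := by ring
  · -- hsmall
    have h1 : Real.exp (-(k : ℝ)) ≤ 1 / (16 * x ^ 20) := by
      rw [Real.exp_neg, ← one_div]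
      apply one_div_le_one_div_of_le (by positivity)
      have h2 : (2 * x ^ 2) ^ 10 ≤ Real.exp (2 * x ^ 2) ^ 10 := by
        apply pow_le_pow_left₀ (by positivity)
        have := Real.add_one_le_exp (2 * x ^ 2)
        linarith
      calc 16 * x ^ 20 ≤ 1024 * x ^ 20 := by
            have : (0 : ℝ) ≤ x ^ 20 := by positivity
            linarith
        _ = (2 * x ^ 2) ^ 10 := by ring
        _ ≤ Real.exp (2 * x ^ 2) ^ 10 := h2
        _ = Real.exp (20 * x ^ 2) := by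
          rw [← Real.exp_nat_mul]
          congr 1
          push_cast
          ring
        _ ≤ Real.exp k := by
          apply Real.exp_le_exp.2
          rw [hkr]
          have : (0 : ℝ) ≤ (m : ℝ) ^ 2 := by positivity
          linarith
    calc 16 * (N : ℝ) ^ 2 * (2 * t / m) ^ 4 * Real.exp (-(k : ℝ))
        ≤ 16 * (x ^ 6) ^ 2 * x ^ 8 * (1 / (16 * x ^ 20)) := by
          rw [hN]
          gcongr
      _ = 1 := by
        field_simp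
  · -- hsep
    have e1 : (η / (288 * m)) ^ 2 = (2000 / 288) ^ 2 * (L / N) := by
      rw [hη, hN, ← hSS]
      field_simp
    have e2 : 5 * L ≤ ((N - 1 : ℕ) : ℝ) * (η / (288 * m)) ^ 2 / 8 := by
      rw [e1, hN1]
      have h1 : (7 : ℝ) / 8 ≤ (N - 1) / N := by
        rw [div_le_div_iff₀ (by norm_num) hNpos]
        linarith
      have h2 : ((N : ℝ) - 1) * ((2000 / 288) ^ 2 * (L / N)) / 8 =
          (2000 / 288) ^ 2 / 8 * ((N - 1) / N) * L := by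
        field_simp
      rw [h2]
      have h3 : (5 : ℝ) ≤ (2000 / 288) ^ 2 / 8 * ((N - 1) / N) := by
        calc (5 : ℝ) ≤ (2000 / 288) ^ 2 / 8 * (7 / 8) := by norm_num
          _ ≤ _ := by gcongr
      exact mul_le_mul_of_nonneg_right h3 (by linarith)
    have e3 : Real.exp (-(((N - 1 : ℕ) : ℝ) * (η / (288 * m)) ^ 2) / 8) ≤ 1 / (N : ℝ) ^ 5 := by
      calc Real.exp (-(((N - 1 : ℕ) : ℝ) * (η / (288 * m)) ^ 2) / 8) ≤ Real.exp (-(5 * L)) := by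
            apply Real.exp_le_exp.2
            rw [neg_div]
            linarith
        _ = 1 / (N : ℝ) ^ 5 := by
          rw [Real.exp_neg, one_div]
          congr 1
          rw [hL, show (5 : ℝ) * Real.log N = ((5 : ℕ) : ℝ) * Real.log N by norm_num,
            Real.exp_nat_mul, Real.exp_log hNpos]
    have e4 : 8 * (N : ℝ) * (2 * t / m) ^ 4 ≤ (N : ℝ) ^ 4 := by
      calc 8 * (N : ℝ) * (2 * t / m) ^ 4 ≤ 8 * N * x ^ 8 := by gcongr
        _ = 8 * x ^ 14 := by rw [hN]; ring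
        _ ≤ x ^ 10 * x ^ 14 := by
          apply mul_le_mul_of_nonneg_right _ (by positivity)
          calc (8 : ℝ) ≤ 2000 ^ 10 := by norm_num
            _ ≤ x ^ 10 := pow_le_pow_left₀ (by norm_num) hx 10
        _ = (N : ℝ) ^ 4 := by rw [hN]; ring
    calc (N : ℝ) * Real.exp (-(((N - 1 : ℕ) : ℝ) * (η / (288 * m)) ^ 2) / 8)
        ≤ N * (1 / (N : ℝ) ^ 5) := by gcongr
      _ = 1 / (N : ℝ) ^ 4 := by
        field_simp
      _ ≤ 1 / (8 * N * (2 * t / m) ^ 4) :=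
        one_div_le_one_div_of_le (by positivity) e4
  · -- hup
    have h1 : 28 / (m : ℝ) ^ 2 ≤ η := by
      refine le_trans ?_ hηlo
      gcongr
      norm_num
    have h2 : 4 * t ^ 2 = (1 - η) ^ 2 * ν := by
      rw [← hrr]
      calc 4 * t ^ 2 = (2 * t) ^ 2 := by ring
        _ = (1 - η) ^ 2 * r ^ 2 := by rw [h2t]; ring
    rw [h2]
    have h3 : (1 - η) ^ 2 * (1 + 28 / (m : ℝ) ^ 2) ≤ 1 := by
      calc (1 - η) ^ 2 * (1 + 28 / (m : ℝ) ^ 2) ≤ (1 - η) ^ 2 * (1 + η) := by gcongr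
        _ = 1 - η * (1 + η * (1 - η)) := by ring
        _ ≤ 1 := by
          have h4 : 0 ≤ η * (1 + η * (1 - η)) := by
            have : 0 ≤ 1 - η := by linarith
            positivity
          linarith
    calc (1 - η) ^ 2 * ν * (1 + 28 / (m : ℝ) ^ 2) = ν * ((1 - η) ^ 2 * (1 + 28 / (m : ℝ) ^ 2)) := by ring
      _ ≤ ν * 1 := by gcongr
      _ ≤ N := by linarith
  · -- hlo
    have h2 : 4 * t ^ 2 = (1 - η) ^ 2 * ν := by
      rw [← hrr]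
      calc 4 * t ^ 2 = (2 * t) ^ 2 := by ring
        _ = (1 - η) ^ 2 * r ^ 2 := by rw [h2t]; ring
    have h3 : ν - 2 * (η * N) ≤ 4 * t ^ 2 := by
      rw [h2]
      have h4 : η * ν ≤ η * N := by gcongr
      have h5 : 0 ≤ η ^ 2 * ν := by positivity
      have h6 : (1 - η) ^ 2 * ν = ν - 2 * (η * ν) + η ^ 2 * ν := by ring
      linarith
    have h5 : η * N ≤ 4000 * (x ^ 4 * S) := by
      rw [hη, hN]
      calc 2000 * m * S / x ^ 3 * x ^ 6 = 2000 * m * S * x ^ 3 := by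
            field_simp
        _ ≤ 2000 * (2 * x) * S * x ^ 3 := by gcongr
        _ = 4000 * (x ^ 4 * S) := by ring
    have h6 : x ^ 4 ≤ x ^ 4 * S := by
      calc x ^ 4 = x ^ 4 * 1 := by ring
        _ ≤ x ^ 4 * S := by gcongr
    have h7 : (1 : ℝ) ≤ x ^ 4 := by linarith
    have h8 : ν = (N : ℝ) - 1 - d := by rw [hν, hN1]
    rw [← hL, ← hS]
    linarith only [h3, h5, h6, h7, h8, hd4, hm2, hx4]

private theorem er_mono {a b : ℝ} (h0 : 1 ≤ a) (h : a ≤ b) : er a ≤ er b := by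
  unfold er
  have h1 : 0 ≤ Real.log a := Real.log_nonneg h0
  have h2 : Real.log a ≤ Real.log b := Real.log_le_log (by linarith) h
  exact mul_le_mul h2 (Real.sqrt_le_sqrt h2) (Real.sqrt_nonneg _) (h1.trans h2)

private theorem TT_area_pos {m : ℕ} (hm : 40 ≤ m) {p : ℂ × ℂ} {X : Fin 3 → E3} (h : Cen m p X) :
    0 < area (TT p X) := by
  rw [h.area_eq hm]
  have hm0 : (0 : ℝ) < m := by
    have : (40 : ℝ) ≤ m := by exact_mod_cast hm
    linarith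
  have h1 : 0 < ∏ k, hgt p (X k) := Finset.prod_pos fun k _ => by linarith [h.lo k]
  positivity

theorem up {e₀ C₂ s₂ : ℝ} (he : 0 ≤ e₀) (hC : 0 ≤ C₂) (hs : 3 ≤ s₂) (h : PlanarE e₀ C₂ s₂) :
    ∃ (C : ℝ) (N₀ : ℕ), 0 ≤ C ∧ ∀ N : ℕ, N₀ ≤ N → ∃ u : Fin N → ℂ × ℂ, (∀ i, Unit2 (u i)) ∧
      Real.exp (-(e₀ * N) - C * ((N : ℝ) ^ (2 / 3 : ℝ) * er N)) ≤ gdet (ks (N - 1)) u := by
  refine ⟨10200 + 16 * C₂, ⌈(max 2000 s₂) ^ 6⌉₊, by positivity, fun N hNN => ?_⟩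
  have hN0 : (max 2000 s₂) ^ 6 ≤ (N : ℝ) := (Nat.le_ceil _).trans (by exact_mod_cast hNN)
  obtain ⟨x, hx0, hx6, hx4⟩ : ∃ x : ℝ, 0 ≤ x ∧ (N : ℝ) = x ^ 6 ∧ (N : ℝ) ^ (2 / 3 : ℝ) = x ^ 4 := by
    refine ⟨(N : ℝ) ^ (1 / 6 : ℝ), by positivity, ?_, ?_⟩
    · rw [← Real.rpow_natCast, ← Real.rpow_mul (by positivity)]
      norm_num
    · rw [← Real.rpow_natCast, ← Real.rpow_mul (by positivity)]
      norm_num
  have hX : max 2000 s₂ ≤ x := by
    rw [hx6] at hN0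
    exact (pow_le_pow_iff_left₀ (by positivity) hx0 (by norm_num)).1 hN0
  have hx : 2000 ≤ x := (le_max_left _ _).trans hX
  have hxs : s₂ ≤ x := (le_max_right _ _).trans hX
  obtain ⟨k, d, m, t, η, P⟩ := up_par hx hx6
  obtain ⟨K, p, X, D⟩ := cells P.hm
  have hm0 : (0 : ℝ) < m := by
    have : (40 : ℝ) ≤ m := by exact_mod_cast P.hm
    linarith
  have hs2 : s₂ ≤ 2 * t / m := by
    refine le_trans ?_ P.hs
    have h1 : x * 2000 ≤ x * x := mul_le_mul_of_nonneg_left hx hx0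
    have h2 : x ^ 2 = x * x := sq x
    rw [h2]
    linarith
  have hs1 : 1 ≤ 2 * t / m := by linarith
  have hNpos : (0 : ℝ) < N := by
    rw [hx6]
    have : 0 < x := by linarith
    positivity
  have hx1 : (1 : ℝ) ≤ x := by linarith
  have hx24 : x ^ 2 ≤ x ^ 4 := pow_le_pow_right₀ hx1 (by norm_num)
  have hx26 : x ^ 2 ≤ x ^ 6 := pow_le_pow_right₀ hx1 (by norm_num)
  have hx14 : (1 : ℝ) ≤ x ^ 4 := one_le_pow₀ hx1
  -- the areas
  have hA : ∀ c, area (AA t (p c) (X c)) = t ^ 2 * area (TT (p c) (X c)) := fun c =>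
    AA_area P.ht _ _
  have hApos : ∀ c, 0 < area (AA t (p c) (X c)) := fun c => by
    rw [hA]
    have h1 := TT_area_pos P.hm (D.cen c)
    have h2 := P.ht
    positivity
  have hsum : ∑ c, area (AA t (p c) (X c)) / π = t ^ 2 / π * ∑ c, area (TT (p c) (X c)) := by
    rw [Finset.mul_sum]
    refine Finset.sum_congr rfl fun c _ => ?_
    rw [hA]
    ring
  have hpi := Real.pi_pos
  have ht0 := P.ht
  have hS1 : ∑ c, area (AA t (p c) (X c)) / π ≤ N := by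
    rw [hsum]
    calc t ^ 2 / π * ∑ c, area (TT (p c) (X c)) ≤ t ^ 2 / π * (4 * π * (1 + 28 / (m : ℝ) ^ 2)) :=
          mul_le_mul_of_nonneg_left D.hi (by positivity)
      _ = 4 * t ^ 2 * (1 + 28 / (m : ℝ) ^ 2) := by
        field_simp
      _ ≤ N := P.hup
  have hS2 : 4 * t ^ 2 ≤ ∑ c, area (AA t (p c) (X c)) / π := by
    rw [hsum]
    calc 4 * t ^ 2 = t ^ 2 / π * (4 * π) := by
          field_simp
      _ ≤ t ^ 2 / π * ∑ c, area (TT (p c) (X c)) :=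
          mul_le_mul_of_nonneg_left D.lo (by positivity)
  have hnB1 : ∀ c, (nB (AA t (p c) (X c)) : ℝ) ≤ area (AA t (p c) (X c)) / π := fun c => by
    rw [le_div_iff₀ hpi, mul_comm]
    exact nB_le
  have hnB2 : ∀ c, area (AA t (p c) (X c)) / π - 1 ≤ (nB (AA t (p c) (X c)) : ℝ) := fun c => by
    rw [sub_le_iff_le_add, div_le_iff₀ hpi, mul_comm]
    exact lt_nB.le
  have hcard : ∑ c, nB (AA t (p c) (X c)) ≤ N := by
    have h1 : ((∑ c, nB (AA t (p c) (X c)) : ℕ) : ℝ) ≤ N := by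
      push_cast
      exact (Finset.sum_le_sum fun c _ => hnB1 c).trans hS1
    exact_mod_cast h1
  have hKm : (K : ℝ) ≤ 8 * (m : ℝ) ^ 2 := by exact_mod_cast D.card
  have hn1 : 4 * t ^ 2 - K ≤ ((∑ c, nB (AA t (p c) (X c)) : ℕ) : ℝ) := by
    push_cast
    calc 4 * t ^ 2 - K ≤ ∑ c, area (AA t (p c) (X c)) / π - K := by linarith
      _ = ∑ c, (area (AA t (p c) (X c)) / π - 1) := by
        rw [Finset.sum_sub_distrib]
        simp
      _ ≤ _ := Finset.sum_le_sum fun c _ => hnB2 c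
  -- the configuration
  obtain ⟨u, hu, hdet⟩ := up_conf P.hN P.hm P.ht P.hη P.hη1 P.htd P.hd P.hkd P.hkn P.htail P.hn hs1
    P.hsmall P.hsep D hcard
  have hci : Fintype.card (Σ c : Fin K, Fin (nB (AA t (p c) (X c)))) =
      ∑ c, nB (AA t (p c) (X c)) := by
    rw [Fintype.card_sigma]
    exact Finset.sum_congr rfl fun c _ => Fintype.card_fin _
  obtain ⟨g, hg, hle⟩ := complete_sphere (N := N) (by linarith [P.hN]) u hu (by rw [hci]; exact hcard)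
  refine ⟨g, hg, ?_⟩
  rw [hci] at hle
  -- the logarithms
  obtain ⟨L, hL⟩ : ∃ L : ℝ, L = Real.log N := ⟨_, rfl⟩
  have hN3 : (3 : ℝ) ≤ N := by
    rw [hx6]
    have : (2000 : ℝ) ^ 6 ≤ x ^ 6 := pow_le_pow_left₀ (by norm_num) hx 6
    linarith
  have hL1 : 1 ≤ L := by
    rw [hL, Real.le_log_iff_exp_le hNpos]
    have := Real.exp_one_lt_d9
    linarith
  have hS1' : 1 ≤ Real.sqrt L := Real.one_le_sqrt.2 hL1
  have her : er N = L * Real.sqrt L := by unfold er; rw [← hL]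
  have her1 : 1 ≤ er N := by
    rw [her]
    calc (1 : ℝ) = 1 * 1 := by norm_num
      _ ≤ L * Real.sqrt L := mul_le_mul hL1 hS1' (by norm_num) (by linarith)
  -- completing
  obtain ⟨r, hr⟩ : ∃ r : ℕ, r = N - ∑ c, nB (AA t (p c) (X c)) := ⟨_, rfl⟩
  have hrr : (r : ℝ) ≤ 10000 * (x ^ 4 * Real.sqrt L) := by
    rw [hr, Nat.cast_sub hcard]
    have := P.hlo
    rw [← hL] at this
    linarith
  have hpow : (N : ℝ) ^ r = Real.exp (r * L) := by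
    rw [hL, Real.exp_nat_mul, Real.exp_log hNpos]
  rw [← hr, hpow] at hle
  -- the cells
  have hlog8 : Real.log 8 ≤ 3 := by
    rw [show (8 : ℝ) = 2 ^ 3 by norm_num, Real.log_pow]
    have := Real.log_two_lt_d9
    push_cast
    linarith
  have hlog2 : Real.log 2 ≤ 1 := by
    have := Real.log_two_lt_d9
    linarith
  have hdpos : ∀ c, 0 < dP (AA t (p c) (X c)) (nB (AA t (p c) (X c))) := fun c =>
    dP_pos (AA_fat P.hm (D.cen c) P.ht).closed.measurableSet (hApos c) _ nB_le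
  have hen : ∀ c, en (AA t (p c) (X c)) ≤ e₀ * (area (AA t (p c) (X c)) / π) +
      C₂ * ((2 * t / m) * er (2 * t / m)) := fun c => by
    have h1 := h (2 * t / m) hs2 (t * PP (p c) (X c) 0) (t * PP (p c) (X c) 1)
      (t * PP (p c) (X c) 2) (AA_fat P.hm (D.cen c) P.ht)
    have h2 := (abs_le.1 h1).2
    have h3 : en (AA t (p c) (X c)) - e₀ * (area (AA t (p c) (X c)) / π) ≤
        C₂ * ((2 * t / m) * er (2 * t / m)) := h2
    linarith
  have hB : (1 / 2) * ∏ c, (dP (AA t (p c) (X c)) (nB (AA t (p c) (X c))) / 8) =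
      Real.exp (-(Real.log 2 + ∑ c, (en (AA t (p c) (X c)) + Real.log 8))) := by
    rw [neg_add, Real.exp_add, ← Finset.sum_neg_distrib, Real.exp_sum, Real.exp_neg,
      Real.exp_log (by norm_num), one_div]
    congr 1
    refine Finset.prod_congr rfl fun c _ => ?_
    unfold en
    rw [neg_add, neg_neg, Real.exp_add, Real.exp_log (hdpos c), Real.exp_neg,
      Real.exp_log (by norm_num)]
    rfl
  have hsumen : ∑ c, (en (AA t (p c) (X c)) + Real.log 8) ≤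
      e₀ * N + (96 + 16 * C₂) * (x ^ 4 * er N) := by
    have h1 : ∑ c, (en (AA t (p c) (X c)) + Real.log 8) ≤
        ∑ c, (e₀ * (area (AA t (p c) (X c)) / π) + (C₂ * ((2 * t / m) * er (2 * t / m)) + 3)) :=
      Finset.sum_le_sum fun c _ => by linarith [hen c]
    have h2 : ∑ c, (e₀ * (area (AA t (p c) (X c)) / π) + (C₂ * ((2 * t / m) * er (2 * t / m)) + 3)) =
        e₀ * ∑ c, area (AA t (p c) (X c)) / π + K * (C₂ * ((2 * t / m) * er (2 * t / m)) + 3) := by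
      rw [Finset.sum_add_distrib, ← Finset.mul_sum, Finset.sum_const, Finset.card_univ,
        Fintype.card_fin, nsmul_eq_mul]
    have h3 : e₀ * ∑ c, area (AA t (p c) (X c)) / π ≤ e₀ * N := mul_le_mul_of_nonneg_left hS1 he
    have h4 : er (2 * t / m) ≤ er N := er_mono hs1 (by rw [hx6]; exact P.hs'.trans hx26)
    have h4' : 0 ≤ er (2 * t / m) := by
      unfold er
      have := Real.log_nonneg hs1
      positivity
    have h5 : (K : ℝ) * (2 * t / m) ≤ 16 * x ^ 4 := by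
      have h6 : 0 ≤ 2 * t / m := by linarith
      calc (K : ℝ) * (2 * t / m) ≤ 8 * (m : ℝ) ^ 2 * (2 * t / m) := mul_le_mul_of_nonneg_right hKm h6
        _ = 8 * ((m : ℝ) ^ 2 * (2 * t / m)) := by ring
        _ ≤ 8 * (2 * x ^ 4) := by linarith [P.hms]
        _ = 16 * x ^ 4 := by ring
    have h6 : (K : ℝ) * (C₂ * ((2 * t / m) * er (2 * t / m))) ≤ 16 * C₂ * (x ^ 4 * er N) := by
      calc (K : ℝ) * (C₂ * ((2 * t / m) * er (2 * t / m))) =
            C₂ * (((K : ℝ) * (2 * t / m)) * er (2 * t / m)) := by ring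
        _ ≤ C₂ * ((16 * x ^ 4) * er N) := by
          apply mul_le_mul_of_nonneg_left _ hC
          exact mul_le_mul h5 h4 h4' (by positivity)
        _ = 16 * C₂ * (x ^ 4 * er N) := by ring
    have h7 : (K : ℝ) * 3 ≤ 96 * (x ^ 4 * er N) := by
      calc (K : ℝ) * 3 ≤ 8 * (m : ℝ) ^ 2 * 3 := by linarith
        _ ≤ 96 * (x ^ 4 * 1) := by linarith [P.hm2]
        _ ≤ 96 * (x ^ 4 * er N) := by gcongr
    have h8 : (K : ℝ) * (C₂ * ((2 * t / m) * er (2 * t / m)) + 3) =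
        (K : ℝ) * (C₂ * ((2 * t / m) * er (2 * t / m))) + K * 3 := by ring
    linarith
  have hu1 : Real.exp (-(e₀ * N) - (97 + 16 * C₂) * (x ^ 4 * er N)) ≤ gdet (ks (N - 1)) u := by
    refine le_trans ?_ hdet
    rw [hB]
    apply Real.exp_le_exp.2
    have h1 : (1 : ℝ) ≤ x ^ 4 * er N := by
      calc (1 : ℝ) = 1 * 1 := by norm_num
        _ ≤ x ^ 4 * er N := mul_le_mul hx14 her1 (by norm_num) (by linarith)
    linarith
  have hrL : (r : ℝ) * L ≤ 10000 * (x ^ 4 * er N) := by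
    rw [her]
    calc (r : ℝ) * L ≤ 10000 * (x ^ 4 * Real.sqrt L) * L :=
          mul_le_mul_of_nonneg_right hrr (by linarith)
      _ = 10000 * (x ^ 4 * (L * Real.sqrt L)) := by ring
  have hfin : Real.exp (-(e₀ * N) - (97 + 16 * C₂) * (x ^ 4 * er N)) * Real.exp (-(r * L)) ≤
      gdet (ks (N - 1)) g := by
    have h1 := hu1.trans hle
    rw [Real.exp_neg, mul_inv_le_iff₀ (Real.exp_pos _), mul_comm (gdet _ g)]
    exact h1
  refine le_trans ?_ hfin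
  rw [← Real.exp_add, hx4]
  apply Real.exp_le_exp.2
  have h1 : 0 ≤ x ^ 4 * er N := by
    have : 0 ≤ er N := by linarith
    positivity
  linarith

end Pool.Agent.LE60
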