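import Pool.Agent.LE60.Lim
import Pool.Agent.LE60.Up
import Pool.Agent.LE60.AN

/-!
# LE60/Final: the remainder of the minimal logarithmic energy is `O(N^{2/3} (log N)^{3/2})`

PROOF. `e₀, C₂, s₂` from `planar`, `C, N₀` larger of the constants of `low` and `up`. Put `C₃ = e₀ + log 2 - log (2π)/2`. For `N ≥ N₀`
and every injective `x : Fin N → S²` choose lifts (`exists_hopf`); `energy_eq` and `low`:
`EE x ≥ LC N - N(N-1) log 2 + e₀ N - C N^{2/3} er N` (`gdet > 0` by `gdet_pos_iff`). And `up` gives a configuration (injective as `gdet > 0`) with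
`EE x ≤ LC N - N(N-1) log 2 + e₀ N + C N^{2/3} er N`. So `minE N` (infimum of a nonempty set bounded below) satisfies
`|minE N - (LC N - N(N-1) log 2 + e₀ N)| ≤ C N^{2/3} er N`; insert `lc_asymp`
(`N²/2 - N log N/2 - (log(2π)/2) N - N² log 2 + N log 2 + e₀ N`), `log N ≤ N^{2/3} er N · C`. `er N = (log N)^{3/2}` (rpow). For the finitely many
`2 ≤ N < N₀` increase `C` (`N^{2/3} (log N)^{3/2} > 0`). The limit statement follows: divide by `N`, `N^{-1/3} (log N)^{3/2} → 0`.
-/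

set_option autoImplicit false

namespace Pool.Agent.LE60

open Filter Topology

/-- the minimal logarithmic energy of `N` distinct points of the unit sphere -/
noncomputable def minE (N : ℕ) : ℝ :=
  sInf {E : ℝ | ∃ x : Fin N → E3, (∀ i, ‖x i‖ = 1) ∧ Function.Injective x ∧ E = EE x}

private theorem log_three : 1 ≤ Real.log 3 := by
  rw [Real.le_log_iff_exp_le (by norm_num)]
  have := Real.exp_one_lt_d9
  linarith

private theorem er_eq {N : ℕ} (hN : 1 ≤ N) : er N = Real.log N ^ (3 / 2 : ℝ) := by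
  have h0 : 0 ≤ Real.log (N : ℝ) := Real.log_nonneg (by exact_mod_cast hN)
  unfold er
  rcases h0.eq_or_lt with h | h
  · rw [← h, zero_mul, Real.zero_rpow (by norm_num)]
  · rw [Real.sqrt_eq_rpow]
    nth_rewrite 1 [← Real.rpow_one (Real.log (N : ℝ))]
    rw [← Real.rpow_add h]
    norm_num

/-- the error term -/
private noncomputable def XX (N : ℕ) : ℝ := (N : ℝ) ^ (2 / 3 : ℝ) * Real.log N ^ (3 / 2 : ℝ)

private theorem XX_pos {N : ℕ} (hN : 2 ≤ N) : 0 < XX N := by
  have h1 : (1 : ℝ) < N := by exact_mod_cast hN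
  have h2 : 0 < Real.log (N : ℝ) := Real.log_pos h1
  unfold XX
  positivity

private theorem log_le_XX {N : ℕ} (hN : 3 ≤ N) : Real.log N ≤ XX N := by
  have h1 : (3 : ℝ) ≤ N := by exact_mod_cast hN
  have h2 : 1 ≤ Real.log (N : ℝ) := log_three.trans (Real.log_le_log (by norm_num) h1)
  have h3 : 1 ≤ (N : ℝ) ^ (2 / 3 : ℝ) := Real.one_le_rpow (by linarith) (by norm_num)
  have h4 : Real.log (N : ℝ) ≤ Real.log N ^ (3 / 2 : ℝ) := by
    nth_rewrite 1 [← Real.rpow_one (Real.log (N : ℝ))]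
    exact Real.rpow_le_rpow_of_exponent_le h2 (by norm_num)
  unfold XX
  calc Real.log (N : ℝ) ≤ Real.log N ^ (3 / 2 : ℝ) := h4
    _ = 1 * Real.log N ^ (3 / 2 : ℝ) := (one_mul _).symm
    _ ≤ _ := mul_le_mul_of_nonneg_right h3 (by positivity)

private theorem XX_div_tendsto : Tendsto (fun N : ℕ => XX N / N) atTop (𝓝 0) := by
  have h := (isLittleO_log_rpow_rpow_atTop (3 / 2 : ℝ) (show (0 : ℝ) < 1 / 3 by norm_num)).tendsto_div_nhds_zero
  have h2 := h.comp tendsto_natCast_atTop_atTop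
  refine h2.congr' ?_
  filter_upwards [eventually_ge_atTop 1] with N hN
  have h0 : (0 : ℝ) < N := by exact_mod_cast hN
  simp only [Function.comp_apply, XX]
  have h3 : (N : ℝ) = (N : ℝ) ^ (2 / 3 : ℝ) * (N : ℝ) ^ (1 / 3 : ℝ) := by
    rw [← Real.rpow_add h0]
    norm_num
  have h4 : 0 < (N : ℝ) ^ (2 / 3 : ℝ) := Real.rpow_pos_of_pos h0 _
  have h5 : 0 < (N : ℝ) ^ (1 / 3 : ℝ) := Real.rpow_pos_of_pos h0 _
  rw [div_eq_div_iff h5.ne' h0.ne']
  nth_rewrite 2 [h3]
  ring

/-- deviation from the expansion with the constant `c` -/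
private noncomputable def Dv (c : ℝ) (N : ℕ) : ℝ :=
  minE N - ((1 / 2 - Real.log 2) * (N : ℝ) ^ 2 - 1 / 2 * N * Real.log N + c * N)

private theorem key : ∃ (c C : ℝ) (N₀ : ℕ), 0 ≤ C ∧ ∀ N : ℕ, N₀ ≤ N → |Dv c N| ≤ C * XX N := by
  obtain ⟨e₀, C₂, s₂, he, hC, hs, h⟩ := planar
  have hP : PlanarE e₀ C₂ s₂ := h
  obtain ⟨CL, NL, hCL, hlow⟩ := low he hC hs hP
  obtain ⟨CU, NU, hCU, hup⟩ := up he hC hs hP
  obtain ⟨CA, hCA, hasy⟩ := lc_asymp
  refine ⟨e₀ + Real.log 2 - Real.log (2 * Real.pi) / 2, CL + CU + CA, max (max NL NU) 3, by positivity,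
    fun N hN => ?_⟩
  have hNL : NL ≤ N := (le_max_left _ _).trans ((le_max_left _ _).trans hN)
  have hNU : NU ≤ N := (le_max_right _ _).trans ((le_max_left _ _).trans hN)
  have hN3 : 3 ≤ N := (le_max_right _ _).trans hN
  have hX : (N : ℝ) ^ (2 / 3 : ℝ) * er N = XX N := by
    rw [er_eq (by omega)]
    rfl
  have hXp := XX_pos (N := N) (by omega)
  set Q : ℝ := LC N - N * (N - 1) * Real.log 2 + e₀ * N with hQ
  -- lower bound
  have hlo : ∀ E ∈ {E : ℝ | ∃ x : Fin N → E3, (∀ i, ‖x i‖ = 1) ∧ Function.Injective x ∧ E = EE x},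
      Q - CL * XX N ≤ E := by
    rintro E ⟨x, hx, hinj, rfl⟩
    have hex : ∀ i, ∃ u : ℂ × ℂ, Unit2 u ∧ hopf u = x i := fun i => exists_hopf (hx i)
    choose u hu hux using hex
    have e1 : (fun i => hopf (u i)) = x := funext hux
    have hinj' : Function.Injective (fun i => hopf (u i)) := by rw [e1]; exact hinj
    have h1 := energy_eq u hu hinj'
    rw [e1] at h1
    have h2 := (gdet_pos_iff u hu).2 hinj'
    have h3 := hlow N hNL u hu
    rw [hX] at h3
    have h4 := Real.log_le_log h2 h3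
    rw [Real.log_exp] at h4
    rw [h1, hQ]
    linarith
  -- upper bound
  obtain ⟨u, hu, hgu⟩ := hup N hNU
  rw [hX] at hgu
  have hpos : 0 < gdet (ks (N - 1)) u := lt_of_lt_of_le (Real.exp_pos _) hgu
  have hinj := (gdet_pos_iff u hu).1 hpos
  have h1 := energy_eq u hu hinj
  have h2 := Real.log_le_log (Real.exp_pos _) hgu
  rw [Real.log_exp] at h2
  have hmem : EE (fun i => hopf (u i)) ∈
      {E : ℝ | ∃ x : Fin N → E3, (∀ i, ‖x i‖ = 1) ∧ Function.Injective x ∧ E = EE x} :=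
    ⟨fun i => hopf (u i), fun i => norm_hopf (hu i), hinj, rfl⟩
  have hle : minE N ≤ Q + CU * XX N := by
    refine (csInf_le ⟨_, fun E hE => hlo E hE⟩ hmem).trans ?_
    rw [h1, hQ]
    linarith
  have hge : Q - CL * XX N ≤ minE N := le_csInf ⟨_, hmem⟩ hlo
  have h3 := hasy N (by omega)
  have h4 := log_le_XX hN3
  have e : Dv (e₀ + Real.log 2 - Real.log (2 * Real.pi) / 2) N = (minE N - Q) +
      (LC N - ((N : ℝ) ^ 2 / 2 - N * Real.log N / 2 - Real.log (2 * Real.pi) / 2 * N)) := by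
    rw [hQ]
    unfold Dv
    ring
  rw [e]
  have h5 : |minE N - Q| ≤ (CL + CU) * XX N := by
    rw [abs_le]
    constructor
    · nlinarith [mul_nonneg hCU hXp.le]
    · nlinarith [mul_nonneg hCL hXp.le]
  have h6 : CA * Real.log N ≤ CA * XX N := mul_le_mul_of_nonneg_left h4 hCA
  calc |minE N - Q + (LC N - ((N : ℝ) ^ 2 / 2 - N * Real.log N / 2 -
        Real.log (2 * Real.pi) / 2 * N))| ≤ _ := abs_add_le _ _
    _ ≤ (CL + CU) * XX N + CA * XX N := add_le_add h5 (h3.trans h6)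
    _ = (CL + CU + CA) * XX N := by ring

theorem main : ∃ C₃ C : ℝ,
    Tendsto (fun N : ℕ => (minE N - (1 / 2 - Real.log 2) * (N : ℝ) ^ 2
      + 1 / 2 * N * Real.log N) / N) atTop (𝓝 C₃) ∧
    ∀ N : ℕ, 2 ≤ N →
      |minE N - ((1 / 2 - Real.log 2) * (N : ℝ) ^ 2 - 1 / 2 * N * Real.log N + C₃ * N)|
        ≤ C * ((N : ℝ) ^ (2 / 3 : ℝ) * Real.log N ^ (3 / 2 : ℝ)) := by
  obtain ⟨c, C, N₀, hC, hk⟩ := key
  refine ⟨c, C + ∑ N ∈ Finset.range N₀, |Dv c N| / XX N, ?_, ?_⟩
  · have h0 : Tendsto (fun N : ℕ => Dv c N / N) atTop (𝓝 0) := by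
      have h1 := XX_div_tendsto.const_mul C
      rw [mul_zero] at h1
      refine squeeze_zero_norm' ?_ h1
      filter_upwards [eventually_ge_atTop N₀, eventually_ge_atTop 1] with N hN hN1
      have h0 : (0 : ℝ) < N := by exact_mod_cast hN1
      rw [Real.norm_eq_abs, abs_div, abs_of_pos h0, ← mul_div_assoc]
      exact div_le_div_of_nonneg_right (hk N hN) h0.le
    have h1 := h0.add_const c
    rw [zero_add] at h1
    refine h1.congr' ?_
    filter_upwards [eventually_ge_atTop 1] with N hN1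
    have h0 : (0 : ℝ) < N := by exact_mod_cast hN1
    unfold Dv
    field_simp
    ring
  · intro N hN
    show |Dv c N| ≤ _ * XX N
    have hXp := XX_pos hN
    have hnn : ∀ k ∈ Finset.range N₀, 0 ≤ |Dv c k| / XX k := by
      intro k _
      refine div_nonneg (abs_nonneg _) ?_
      unfold XX
      have : 0 ≤ Real.log (k : ℝ) := Real.log_natCast_nonneg k
      positivity
    by_cases h : N₀ ≤ N
    · refine (hk N h).trans (mul_le_mul_of_nonneg_right ?_ hXp.le)
      linarith [Finset.sum_nonneg hnn]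
    · have h1 : |Dv c N| / XX N ≤ ∑ k ∈ Finset.range N₀, |Dv c k| / XX k :=
        Finset.single_le_sum hnn (Finset.mem_range.2 (not_le.1 h))
      have h2 : |Dv c N| = |Dv c N| / XX N * XX N := (div_mul_cancel₀ _ hXp.ne').symm
      rw [h2]
      refine mul_le_mul_of_nonneg_right ?_ hXp.le
      linarith

end Pool.Agent.LE60
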