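import Pool.Agent.LE60.Defs

/-!
# LE60/Tet: volume of tetrahedra in `E3 = EuclideanSpace ℝ (Fin 3)`

PROOF. The set is the image of the standard simplex `{t : Fin 3 → ℝ | 0 ≤ t k, ∑ t k ≤ 1}` under the linear map
`t ↦ ∑ k, t k • Y k`, i.e. (through the volume preserving identification of `E3` with `Fin 3 → ℝ`,
`EuclideanSpace.volume_preserving_measurableEquiv`) under the matrix `Yᵀ`; `addHaar_image_linearMap`:
`volume = |det Y| volume(simplex)`, and the standard simplex has volume `1/6` (closed and open version; e.g.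
by `Fin 3`-splitting `MeasureTheory.measurePreserving_piFinSuccAbove` and `∫_0^1 (1-x)²/2 dx = 1/6`, or because the six
simplices `{t_σ0 ≤ t_σ1 ≤ t_σ2}` of the unit cube are congruent and the map
`(t_0, t_1, t_2) ↦ (t_0, t_0 + t_1, t_0 + t_1 + t_2)` of determinant one sends the standard simplex to
`{0 ≤ s_0 ≤ s_1 ≤ s_2 ≤ 1}`). If `det Y = 0` the image lies in a plane and both sides vanish (also covered by
`addHaar_image_linearMap`).
* `vol_ball3`: `EuclideanSpace.volume_ball_fin_three` (or the general formula).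
-/

set_option autoImplicit false

namespace Pool.Agent.LE60

open MeasureTheory

/-- closed tetrahedron `0, Y 0, Y 1, Y 2` -/
def tet (Y : Fin 3 → E3) : Set E3 :=
  {x | ∃ t : Fin 3 → ℝ, (∀ k, 0 ≤ t k) ∧ ∑ k, t k ≤ 1 ∧ x = ∑ k, t k • Y k}

/-- open tetrahedron -/
def otet (Y : Fin 3 → E3) : Set E3 :=
  {x | ∃ t : Fin 3 → ℝ, (∀ k, 0 < t k) ∧ ∑ k, t k < 1 ∧ x = ∑ k, t k • Y k}

/-- determinant of three vectors of `E3` -/
noncomputable def det3 (Y : Fin 3 → E3) : ℝ := (Matrix.of fun i j => Y i j).det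

namespace TetAux

/-- open simplex -/
def OO : Set (Fin 3 → ℝ) := {t | (∀ k, 0 < t k) ∧ ∑ k, t k < 1}

/-- closed simplex -/
def CC : Set (Fin 3 → ℝ) := {t | (∀ k, 0 ≤ t k) ∧ ∑ k, t k ≤ 1}

theorem gam : (2 * Real.Gamma (1 / 1 + 1)) ^ Fintype.card (Fin 3) /
    Real.Gamma (Fintype.card (Fin 3) / 1 + 1) = 8 / 6 := by
  have h1 : Real.Gamma (1 / 1 + 1) = 1 := by
    have := Real.Gamma_nat_eq_factorial 1
    simpa using this
  have h2 : Real.Gamma ((Fintype.card (Fin 3) : ℝ) / 1 + 1) = 6 := by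
    have := Real.Gamma_nat_eq_factorial 3
    have h3 : ((Nat.factorial 3 : ℕ) : ℝ) = 6 := by norm_num [Nat.factorial]
    rw [h3] at this
    simpa using this
  rw [h1, h2]
  norm_num

theorem vol_lt : volume {x : Fin 3 → ℝ | ∑ i, |x i| < 1} = ENNReal.ofReal (8 / 6) := by
  have h := MeasureTheory.volume_sum_rpow_lt_one (ι := Fin 3) (p := 1) le_rfl
  rw [gam] at h
  simpa only [Real.rpow_one] using h

theorem vol_le : volume {x : Fin 3 → ℝ | ∑ i, |x i| ≤ 1} = ENNReal.ofReal (8 / 6) := by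
  have h := MeasureTheory.volume_sum_rpow_le (ι := Fin 3) (p := 1) le_rfl 1
  rw [gam] at h
  simpa only [Real.rpow_one, div_one, ENNReal.ofReal_one, one_pow, one_mul] using h

theorem meas_abs : Measurable fun x : Fin 3 → ℝ => ∑ i, |x i| := by
  fun_prop

theorem vol_eq : volume {x : Fin 3 → ℝ | ∑ i, |x i| = 1} = 0 := by
  have h1 : {x : Fin 3 → ℝ | ∑ i, |x i| = 1} =
      {x : Fin 3 → ℝ | ∑ i, |x i| ≤ 1} \ {x : Fin 3 → ℝ | ∑ i, |x i| < 1} := by
    ext x
    simp only [Set.mem_ofPred_eq, Set.mem_sdiff, not_lt]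
    constructor
    · intro h; exact ⟨h.le, h.ge⟩
    · intro h; exact le_antisymm h.1 h.2
  have hsub : {x : Fin 3 → ℝ | ∑ i, |x i| < 1} ⊆ {x : Fin 3 → ℝ | ∑ i, |x i| ≤ 1} :=
    fun x hx => by
      rw [Set.mem_ofPred_eq] at hx ⊢
      exact hx.le
  have hms : NullMeasurableSet {x : Fin 3 → ℝ | ∑ i, |x i| < 1} :=
    (measurableSet_lt meas_abs measurable_const).nullMeasurableSet
  rw [h1, measure_sdiff hsub hms (by rw [vol_lt]; simp), vol_lt, vol_le, tsub_self]

theorem vol_plane (k : Fin 3) : volume {x : Fin 3 → ℝ | x k = 0} = 0 :=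
  Measure.pi_hyperplane (fun _ : Fin 3 => (volume : Measure ℝ)) k 0

/-- sign -/
def sg (b : Bool) : ℝ := if b then 1 else -1

theorem sg_abs (b : Bool) : |sg b| = 1 := by cases b <;> simp [sg]

/-- sign change -/
noncomputable def LL (s : Fin 3 → Bool) : (Fin 3 → ℝ) →ₗ[ℝ] (Fin 3 → ℝ) :=
  Matrix.toLin' (Matrix.diagonal fun k => sg (s k))

theorem LL_apply (s : Fin 3 → Bool) (x : Fin 3 → ℝ) (k : Fin 3) : LL s x k = sg (s k) * x k := by
  simp [LL, Matrix.mulVec_diagonal]

theorem LL_det (s : Fin 3 → Bool) : |LinearMap.det (LL s)| = 1 := by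
  rw [LL, LinearMap.det_toLin', Matrix.det_diagonal, Finset.abs_prod]
  simp [sg_abs]

theorem vol_pre (s : Fin 3 → Bool) : volume ((LL s) ⁻¹' OO) = volume OO := by
  have h := LL_det s
  have h0 : LinearMap.det (LL s) ≠ 0 := by
    intro h1; rw [h1] at h; simp at h
  rw [Measure.addHaar_preimage_linearMap volume h0, abs_inv, h]
  simp

theorem meas_OO : MeasurableSet OO := by
  have h : OO = (⋂ k, {t : Fin 3 → ℝ | 0 < t k}) ∩ {t | ∑ k, t k < 1} := by
    ext t; simp [OO]
  rw [h]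
  exact (MeasurableSet.iInter fun k => measurableSet_lt measurable_const (measurable_pi_apply k)).inter
    (measurableSet_lt (by fun_prop) measurable_const)

theorem vol_OO : volume OO = ENNReal.ofReal (1 / 6) := by
  have hdisj : Pairwise (Function.onFun Disjoint fun s : Fin 3 → Bool => (LL s) ⁻¹' OO) := by
    intro s s' hss
    rw [Function.onFun, Set.disjoint_left]
    intro x hx hx'
    apply hss
    funext k
    have h1 := hx.1 k
    have h2 := hx'.1 k
    rw [LL_apply] at h1 h2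
    rcases hs : s k with _ | _ <;> rcases hs' : s' k with _ | _ <;>
      simp only [hs, hs', sg] at h1 h2 ⊢ <;> norm_num at h1 h2 ⊢ <;> linarith
  have hmeas : ∀ s : Fin 3 → Bool, MeasurableSet ((LL s) ⁻¹' OO) := fun s =>
    (LL s).continuous_of_finiteDimensional.measurable meas_OO
  have hunion : (⋃ s : Fin 3 → Bool, (LL s) ⁻¹' OO) ∪ (⋃ k : Fin 3, {x : Fin 3 → ℝ | x k = 0}) ⊇
      {x : Fin 3 → ℝ | ∑ i, |x i| < 1} := by
    intro x hx
    by_cases h0 : ∃ k, x k = 0
    · right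
      obtain ⟨k, hk⟩ := h0
      exact Set.mem_iUnion.2 ⟨k, hk⟩
    · left
      push Not at h0
      refine Set.mem_iUnion.2 ⟨fun k => decide (0 < x k), ?_⟩
      have h1 : ∀ k, LL (fun k => decide (0 < x k)) x k = |x k| := by
        intro k
        rw [LL_apply]
        rcases lt_or_gt_of_ne (h0 k) with h | h
        · simp [sg, not_lt.2 h.le, abs_of_neg h]
        · simp [sg, h, abs_of_pos h]
      refine ⟨fun k => ?_, ?_⟩
      · rw [h1]; exact abs_pos.2 (h0 k)
      · simp only [h1]; exact hx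
  have hsub : (⋃ s : Fin 3 → Bool, (LL s) ⁻¹' OO) ⊆ {x : Fin 3 → ℝ | ∑ i, |x i| < 1} := by
    intro x hx
    obtain ⟨s, hs⟩ := Set.mem_iUnion.1 hx
    have h1 : ∀ k, LL s x k = |x k| := by
      intro k
      have h2 := hs.1 k
      rw [← abs_of_pos h2, LL_apply, abs_mul, sg_abs, one_mul]
    have h3 := hs.2
    simp only [h1] at h3
    exact h3
  have hplanes : volume (⋃ k : Fin 3, {x : Fin 3 → ℝ | x k = 0}) = 0 :=
    measure_iUnion_null vol_plane
  have h1 : volume (⋃ s : Fin 3 → Bool, (LL s) ⁻¹' OO) = ENNReal.ofReal (8 / 6) := by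
    apply le_antisymm
    · rw [← vol_lt]; exact measure_mono hsub
    · rw [← vol_lt]
      calc volume {x : Fin 3 → ℝ | ∑ i, |x i| < 1} ≤ volume ((⋃ s : Fin 3 → Bool, (LL s) ⁻¹' OO) ∪
            (⋃ k : Fin 3, {x : Fin 3 → ℝ | x k = 0})) := measure_mono hunion
        _ ≤ volume (⋃ s : Fin 3 → Bool, (LL s) ⁻¹' OO) +
            volume (⋃ k : Fin 3, {x : Fin 3 → ℝ | x k = 0}) := measure_union_le _ _
        _ = _ := by rw [hplanes, add_zero]
  rw [measure_iUnion hdisj hmeas, tsum_fintype] at h1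
  simp only [vol_pre, Finset.sum_const, Finset.card_univ, Fintype.card_fun, Fintype.card_bool,
    Fintype.card_fin, nsmul_eq_mul] at h1
  have h2 : volume OO ≠ ⊤ := by
    intro h
    rw [h] at h1
    norm_num at h1
  have h3 := congrArg ENNReal.toReal h1
  rw [ENNReal.toReal_mul, ENNReal.toReal_ofReal (by norm_num)] at h3
  have h4 : (volume OO).toReal = 1 / 6 := by
    norm_num at h3
    linarith
  rw [← h4, ENNReal.ofReal_toReal h2]

theorem vol_CC : volume CC = ENNReal.ofReal (1 / 6) := by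
  apply le_antisymm
  · have hsub : CC ⊆ OO ∪ ((⋃ k : Fin 3, {x : Fin 3 → ℝ | x k = 0}) ∪
        {x : Fin 3 → ℝ | ∑ i, |x i| = 1}) := by
      intro t ht
      by_cases h0 : ∃ k, t k = 0
      · right; left
        obtain ⟨k, hk⟩ := h0
        exact Set.mem_iUnion.2 ⟨k, hk⟩
      · push Not at h0
        have hpos : ∀ k, 0 < t k := fun k => lt_of_le_of_ne (ht.1 k) (Ne.symm (h0 k))
        rcases lt_or_eq_of_le ht.2 with h | h
        · left; exact ⟨hpos, h⟩
        · right; right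
          rw [Set.mem_ofPred_eq, ← h]
          exact Finset.sum_congr rfl fun k _ => abs_of_pos (hpos k)
    calc volume CC ≤ volume (OO ∪ ((⋃ k : Fin 3, {x : Fin 3 → ℝ | x k = 0}) ∪
        {x : Fin 3 → ℝ | ∑ i, |x i| = 1})) := measure_mono hsub
      _ ≤ volume OO + (volume (⋃ k : Fin 3, {x : Fin 3 → ℝ | x k = 0}) +
          volume {x : Fin 3 → ℝ | ∑ i, |x i| = 1}) :=
          (measure_union_le _ _).trans (add_le_add le_rfl (measure_union_le _ _))
      _ = ENNReal.ofReal (1 / 6) := by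
          rw [vol_OO, vol_eq, measure_iUnion_null vol_plane]; simp
  · rw [← vol_OO]
    exact measure_mono fun t ht => ⟨fun k => (ht.1 k).le, ht.2.le⟩

/-- the linear map in coordinates -/
noncomputable def GG (Y : Fin 3 → E3) : (Fin 3 → ℝ) →ₗ[ℝ] (Fin 3 → ℝ) :=
  Matrix.toLin' (Matrix.of fun i j => Y i j).transpose

theorem GG_det (Y : Fin 3 → E3) : LinearMap.det (GG Y) = det3 Y := by
  rw [GG, LinearMap.det_toLin', Matrix.det_transpose, det3]

theorem GG_apply (Y : Fin 3 → E3) (t : Fin 3 → ℝ) (j : Fin 3) :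
    GG Y t j = (∑ k, t k • Y k : E3) j := by
  simp only [GG, Matrix.toLin'_apply, Matrix.mulVec, dotProduct, Matrix.transpose_apply,
    Matrix.of_apply]
  simp only [WithLp.ofLp_sum, WithLp.ofLp_smul, Finset.sum_apply, Pi.smul_apply, smul_eq_mul]
  exact Finset.sum_congr rfl fun k _ => mul_comm _ _

theorem vol_im (Y : Fin 3 → E3) (S : Set (Fin 3 → ℝ)) (hS : volume S = ENNReal.ofReal (1 / 6)) :
    (volume {x : E3 | ∃ t ∈ S, x = ∑ k, t k • Y k}).toReal = |det3 Y| / 6 ∧
      volume {x : E3 | ∃ t ∈ S, x = ∑ k, t k • Y k} ≠ ⊤ := by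
  have h1 : {x : E3 | ∃ t ∈ S, x = ∑ k, t k • Y k} =
      (MeasurableEquiv.toLp 2 (Fin 3 → ℝ)).symm ⁻¹' (GG Y '' S) := by
    ext x
    simp only [Set.mem_ofPred_eq, Set.mem_preimage, Set.mem_image]
    constructor
    · rintro ⟨t, ht, rfl⟩
      exact ⟨t, ht, funext fun j => GG_apply Y t j⟩
    · rintro ⟨t, ht, h⟩
      refine ⟨t, ht, ?_⟩
      ext j
      rw [← GG_apply Y t j, h]
      rfl
  have h2 : volume {x : E3 | ∃ t ∈ S, x = ∑ k, t k • Y k} =
      ENNReal.ofReal |det3 Y| * ENNReal.ofReal (1 / 6) := by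
    rw [h1, (EuclideanSpace.volume_preserving_symm_measurableEquiv_toLp (Fin 3)).measure_preimage_equiv,
      Measure.addHaar_image_linearMap, GG_det, hS]
  rw [h2]
  constructor
  · rw [ENNReal.toReal_mul, ENNReal.toReal_ofReal (abs_nonneg _), ENNReal.toReal_ofReal (by norm_num)]
    ring
  · exact ENNReal.mul_ne_top ENNReal.ofReal_ne_top ENNReal.ofReal_ne_top

end TetAux

open TetAux

theorem vol_tet (Y : Fin 3 → E3) : (volume (tet Y)).toReal = |det3 Y| / 6 ∧
    volume (tet Y) ≠ ⊤ := by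
  have h := vol_im Y CC vol_CC
  have h1 : tet Y = {x : E3 | ∃ t ∈ CC, x = ∑ k, t k • Y k} := by
    ext x
    simp only [tet, CC, Set.mem_ofPred_eq, and_assoc]
  rw [h1]
  exact h

theorem vol_otet (Y : Fin 3 → E3) : (volume (otet Y)).toReal = |det3 Y| / 6 ∧
    MeasurableSet (otet Y) ∧ volume (otet Y) ≠ ⊤ := by
  have h := vol_im Y OO vol_OO
  have h1 : otet Y = {x : E3 | ∃ t ∈ OO, x = ∑ k, t k • Y k} := by
    ext x
    simp only [otet, OO, Set.mem_ofPred_eq, and_assoc]
  have h2 : MeasurableSet (otet Y) := by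
    have h3 : otet Y = ⋃ n : ℕ, (fun t : Fin 3 → ℝ => ∑ k, t k • Y k) ''
        {t : Fin 3 → ℝ | (∀ k, 1 / ((n : ℝ) + 1) ≤ t k) ∧ ∑ k, t k ≤ 1 - 1 / ((n : ℝ) + 1)} := by
      ext x
      simp only [otet, Set.mem_ofPred_eq, Set.mem_iUnion, Set.mem_image]
      constructor
      · rintro ⟨t, ht, hs, rfl⟩
        obtain ⟨N, hN⟩ : ∃ N : ℕ, 1 / ((N : ℝ) + 1) < min (min (t 0) (min (t 1) (t 2)))
            (1 - ∑ k, t k) := by
          apply exists_nat_one_div_lt
          simp only [lt_min_iff]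
          exact ⟨⟨ht 0, ht 1, ht 2⟩, by linarith⟩
        simp only [lt_min_iff] at hN
        refine ⟨N, t, ⟨?_, by linarith [hN.2]⟩, rfl⟩
        intro k
        fin_cases k
        · exact hN.1.1.le
        · exact hN.1.2.1.le
        · exact hN.1.2.2.le
      · rintro ⟨n, t, ⟨h1, h2⟩, rfl⟩
        have hn : (0 : ℝ) < 1 / ((n : ℝ) + 1) := by positivity
        exact ⟨t, fun k => lt_of_lt_of_le hn (h1 k), by linarith, rfl⟩
    rw [h3]
    refine MeasurableSet.iUnion fun n => ?_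
    apply IsCompact.measurableSet
    apply IsCompact.image
    · have hn : (0 : ℝ) < 1 / ((n : ℝ) + 1) := by positivity
      apply Metric.isCompact_of_isClosed_isBounded
      · have h4 : {t : Fin 3 → ℝ | (∀ k, 1 / ((n : ℝ) + 1) ≤ t k) ∧
            ∑ k, t k ≤ 1 - 1 / ((n : ℝ) + 1)} =
            (⋂ k, {t : Fin 3 → ℝ | 1 / ((n : ℝ) + 1) ≤ t k}) ∩
              {t | ∑ k, t k ≤ 1 - 1 / ((n : ℝ) + 1)} := by
          ext t; simp
        rw [h4]
        exact (isClosed_iInter fun k => isClosed_le continuous_const (continuous_apply k)).inter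
          (isClosed_le (by fun_prop) continuous_const)
      · apply (Metric.isBounded_closedBall (x := (0 : Fin 3 → ℝ)) (r := 1)).subset
        intro t ht
        rw [mem_closedBall_zero_iff, pi_norm_le_iff_of_nonneg zero_le_one]
        intro k
        have h5 : ∀ i, 0 ≤ t i := fun i => hn.le.trans (ht.1 i)
        rw [Real.norm_eq_abs, abs_of_nonneg (h5 k)]
        calc t k ≤ ∑ i, t i := Finset.single_le_sum (fun i _ => h5 i) (Finset.mem_univ k)
          _ ≤ 1 := by linarith [ht.2]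
    · fun_prop
  refine ⟨?_, h2, ?_⟩
  · rw [h1]; exact h.1
  · rw [h1]; exact h.2

theorem vol_ball3 : (volume (Metric.closedBall (0 : E3) 1)).toReal = 4 * Real.pi / 3 ∧
    volume (Metric.closedBall (0 : E3) 1) ≠ ⊤ := by
  have h : volume (Metric.closedBall (0 : E3) 1) = ENNReal.ofReal (Real.pi * 4 / 3) := by
    rw [EuclideanSpace.volume_closedBall_fin_three]; simp
  rw [h]
  refine ⟨?_, ENNReal.ofReal_ne_top⟩
  rw [ENNReal.toReal_ofReal (by have := Real.pi_pos; positivity)]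
  ring

end Pool.Agent.LE60
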