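import Pool.Agent.LE60.KerS
import Pool.Agent.LE60.Tet

/-!
# LE60/Gno: the linear coordinates `ell p`, `hgt p` attached to a unit vector `p ∈ ℂ²`

`hgt p x = ⟨x, hopf p⟩`; `ell p x ∈ ℂ` is an isometric coordinate of the orthogonal projection of `x` to the plane
orthogonal to `hopf p`.
PROOFS (polynomial identities in the real and imaginary parts, using `|p.1|² + |p.2|² = 1`).
* `ell_hopf`: `2 cb conj(ca) = 2 (α b - β a)(α ā + β b̄) = α² (2 b ā) - 2αβ (|a|² - |b|²) - β² (2 a b̄)` and the coordinates of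
  `hopf u` are `Re (2 b ā)`, `Im (2 b ā)`, `|a|² - |b|²` (`u = (a, b)`, `p = (α, β)`).
* `hgt_hopf`: `|ca|² - |cb|² = (|α|²-|β|²)(|a|²-|b|²) + 4 Re (ᾱ a β b̄)`, `⟨hopf u, hopf p⟩ = Re (2bā · 2 β̄ α) + …` (same).
* `ell_hgt_norm`: `|ell|² + hgt² = ‖x‖²`.
* `ell_det`: the real 3 × 3 matrix of `x ↦ (Re ell, Im ell, hgt)` is orthogonal by `ell_hgt_norm` (determinant `±1`), and the determinant is
  multiplicative. (Or verify the polynomial identity directly.)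
* `w`-chart: for unit `u` with `hgt > 0`: `|ca|² = (1 + hgt)/2`, `|cb|² = (1 - hgt)/2`, `w = cb/ca`, `|w| < 1`,
  `2 w/(1 - |w|²) = 2 cb conj(ca)/(|ca|² - |cb|²) = ell/hgt`.
-/

set_option autoImplicit false

namespace Pool.Agent.LE60

open scoped ComplexConjugate

noncomputable def ell (p : ℂ × ℂ) (x : E3) : ℂ :=
  p.1 ^ 2 * ((x 0 : ℂ) + (x 1 : ℂ) * Complex.I) - 2 * p.1 * p.2 * (x 2 : ℂ)
    - p.2 ^ 2 * ((x 0 : ℂ) - (x 1 : ℂ) * Complex.I)

noncomputable def hgt (p : ℂ × ℂ) (x : E3) : ℝ := ∑ k, x k * hopf p k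

private theorem ell_add (p : ℂ × ℂ) (x y : E3) : ell p (x + y) = ell p x + ell p y := by
  unfold ell
  simp only [PiLp.add_apply, Complex.ofReal_add]
  ring

private theorem ell_smul (p : ℂ × ℂ) (t : ℝ) (x : E3) : ell p (t • x) = (t : ℂ) * ell p x := by
  unfold ell
  simp only [PiLp.smul_apply, smul_eq_mul, Complex.ofReal_mul]
  ring

private theorem hgt_add (p : ℂ × ℂ) (x y : E3) : hgt p (x + y) = hgt p x + hgt p y := by
  unfold hgt
  rw [← Finset.sum_add_distrib]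
  refine Finset.sum_congr rfl fun k _ => ?_
  simp only [PiLp.add_apply]
  ring

private theorem hgt_smul (p : ℂ × ℂ) (t : ℝ) (x : E3) : hgt p (t • x) = t * hgt p x := by
  unfold hgt
  rw [Finset.mul_sum]
  refine Finset.sum_congr rfl fun k _ => ?_
  simp only [PiLp.smul_apply, smul_eq_mul]
  ring

theorem ell_sum (p : ℂ × ℂ) {ι : Type*} (s : Finset ι) (t : ι → ℝ) (X : ι → E3) :
    ell p (∑ k ∈ s, t k • X k) = ∑ k ∈ s, (t k : ℂ) * ell p (X k) := by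
  classical
  induction s using Finset.induction_on with
  | empty =>
    have h := ell_smul p 0 0
    rw [zero_smul, Complex.ofReal_zero, zero_mul] at h
    rw [Finset.sum_empty, Finset.sum_empty, h]
  | insert a s ha ih =>
    rw [Finset.sum_insert ha, Finset.sum_insert ha, ell_add, ell_smul, ih]

theorem hgt_sum (p : ℂ × ℂ) {ι : Type*} (s : Finset ι) (t : ι → ℝ) (X : ι → E3) :
    hgt p (∑ k ∈ s, t k • X k) = ∑ k ∈ s, t k * hgt p (X k) := by
  classical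
  induction s using Finset.induction_on with
  | empty =>
    have h := hgt_smul p 0 0
    rw [zero_smul, zero_mul] at h
    rw [Finset.sum_empty, Finset.sum_empty, h]
  | insert a s ha ih =>
    rw [Finset.sum_insert ha, Finset.sum_insert ha, hgt_add, hgt_smul, ih]

private theorem hopf_0 (u : ℂ × ℂ) : hopf u 0 = 2 * (u.2.re * u.1.re + u.2.im * u.1.im) := by
  show (2 * u.2 * conj u.1).re = _
  simp only [Complex.mul_re, Complex.conj_re, Complex.conj_im, Complex.mul_im, Complex.re_ofNat,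
    Complex.im_ofNat]
  ring

private theorem hopf_1 (u : ℂ × ℂ) : hopf u 1 = 2 * (u.2.im * u.1.re - u.2.re * u.1.im) := by
  show (2 * u.2 * conj u.1).im = _
  simp only [Complex.mul_re, Complex.conj_re, Complex.conj_im, Complex.mul_im, Complex.re_ofNat,
    Complex.im_ofNat]
  ring

private theorem hopf_2 (u : ℂ × ℂ) : hopf u 2 =
    u.1.re ^ 2 + u.1.im ^ 2 - u.2.re ^ 2 - u.2.im ^ 2 := by
  show ‖u.1‖ ^ 2 - ‖u.2‖ ^ 2 = _
  rw [Complex.sq_norm, Complex.sq_norm, Complex.normSq_apply, Complex.normSq_apply]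
  ring

private theorem ell_re (p : ℂ × ℂ) (x : E3) : (ell p x).re =
    (p.1.re ^ 2 - p.1.im ^ 2 - p.2.re ^ 2 + p.2.im ^ 2) * x 0 -
      (2 * p.1.re * p.1.im + 2 * p.2.re * p.2.im) * x 1 -
      2 * (p.1.re * p.2.re - p.1.im * p.2.im) * x 2 := by
  unfold ell
  simp only [pow_two, Complex.sub_re, Complex.mul_re, Complex.add_re, Complex.mul_im,
    Complex.add_im, Complex.sub_im, Complex.ofReal_re, Complex.ofReal_im, Complex.I_re,
    Complex.I_im, Complex.re_ofNat, Complex.im_ofNat]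
  ring

private theorem ell_im (p : ℂ × ℂ) (x : E3) : (ell p x).im =
    (2 * p.1.re * p.1.im - 2 * p.2.re * p.2.im) * x 0 +
      (p.1.re ^ 2 - p.1.im ^ 2 + p.2.re ^ 2 - p.2.im ^ 2) * x 1 -
      2 * (p.1.re * p.2.im + p.1.im * p.2.re) * x 2 := by
  unfold ell
  simp only [pow_two, Complex.sub_re, Complex.mul_re, Complex.add_re, Complex.mul_im,
    Complex.add_im, Complex.sub_im, Complex.ofReal_re, Complex.ofReal_im, Complex.I_re,
    Complex.I_im, Complex.re_ofNat, Complex.im_ofNat]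
  ring

private theorem hgt_eq (p : ℂ × ℂ) (x : E3) : hgt p x =
    2 * (p.2.re * p.1.re + p.2.im * p.1.im) * x 0 +
      2 * (p.2.im * p.1.re - p.2.re * p.1.im) * x 1 +
      (p.1.re ^ 2 + p.1.im ^ 2 - p.2.re ^ 2 - p.2.im ^ 2) * x 2 := by
  unfold hgt
  rw [Fin.sum_univ_three, hopf_0, hopf_1, hopf_2]
  ring

private theorem unit_eq {p : ℂ × ℂ} (hp : Unit2 p) :
    p.1.re ^ 2 + p.1.im ^ 2 + p.2.re ^ 2 + p.2.im ^ 2 = 1 := by
  have h : ‖p.1‖ ^ 2 + ‖p.2‖ ^ 2 = 1 := hp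
  rw [Complex.sq_norm, Complex.sq_norm, Complex.normSq_apply, Complex.normSq_apply] at h
  linarith

private theorem ell_hopf' (p u : ℂ × ℂ) : ell p (hopf u) = 2 * cb p u * conj (ca p u) := by
  apply Complex.ext
  · rw [ell_re, hopf_0, hopf_1, hopf_2]
    unfold ca cb
    simp only [Complex.sub_re, Complex.mul_re, Complex.add_re, Complex.mul_im, Complex.add_im,
      Complex.sub_im, Complex.conj_re, Complex.conj_im, Complex.re_ofNat, Complex.im_ofNat]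
    ring
  · rw [ell_im, hopf_0, hopf_1, hopf_2]
    unfold ca cb
    simp only [Complex.sub_re, Complex.mul_re, Complex.add_re, Complex.mul_im, Complex.add_im,
      Complex.sub_im, Complex.conj_re, Complex.conj_im, Complex.re_ofNat, Complex.im_ofNat]
    ring

private theorem hgt_hopf' (p u : ℂ × ℂ) :
    hgt p (hopf u) = ‖ca p u‖ ^ 2 - ‖cb p u‖ ^ 2 := by
  rw [Complex.sq_norm, Complex.sq_norm, Complex.normSq_apply, Complex.normSq_apply, hgt_eq, hopf_0,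
    hopf_1, hopf_2]
  unfold ca cb
  simp only [Complex.sub_re, Complex.mul_re, Complex.add_re, Complex.mul_im, Complex.add_im,
    Complex.sub_im, Complex.conj_re, Complex.conj_im]
  ring

theorem ell_hopf {p u : ℂ × ℂ} (hp : Unit2 p) : ell p (hopf u) = 2 * cb p u * conj (ca p u) :=
  ell_hopf' p u

theorem hgt_hopf {p u : ℂ × ℂ} (hp : Unit2 p) :
    hgt p (hopf u) = ‖ca p u‖ ^ 2 - ‖cb p u‖ ^ 2 :=
  hgt_hopf' p u

theorem ell_self {p : ℂ × ℂ} (hp : Unit2 p) : ell p (hopf p) = 0 := by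
  rw [ell_hopf hp]
  unfold cb
  ring

theorem ell_hgt_norm {p : ℂ × ℂ} (hp : Unit2 p) (x : E3) :
    ‖ell p x‖ ^ 2 + hgt p x ^ 2 = ‖x‖ ^ 2 := by
  have hN := unit_eq hp
  rw [Complex.sq_norm, Complex.normSq_apply, EuclideanSpace.norm_sq_eq, Fin.sum_univ_three,
    Real.norm_eq_abs, Real.norm_eq_abs, Real.norm_eq_abs, sq_abs, sq_abs, sq_abs, ell_re, ell_im,
    hgt_eq]
  linear_combination (p.1.re ^ 2 + p.1.im ^ 2 + p.2.re ^ 2 + p.2.im ^ 2 + 1) *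
    (x 0 ^ 2 + x 1 ^ 2 + x 2 ^ 2) * hN

theorem ell_hgt_inj {p : ℂ × ℂ} (hp : Unit2 p) {x y : E3} (h1 : ell p x = ell p y)
    (h2 : hgt p x = hgt p y) : x = y := by
  have h3 : ell p (x + (-1 : ℝ) • y) = 0 := by
    rw [ell_add, ell_smul, h1]
    push_cast
    ring
  have h4 : hgt p (x + (-1 : ℝ) • y) = 0 := by
    rw [hgt_add, hgt_smul, h2]
    ring
  have h5 := ell_hgt_norm hp (x + (-1 : ℝ) • y)
  rw [h3, h4, norm_zero] at h5
  have h6 : ‖x + (-1 : ℝ) • y‖ = 0 := by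
    have : ‖x + (-1 : ℝ) • y‖ ^ 2 = 0 := by rw [← h5]; norm_num
    exact pow_eq_zero_iff (two_ne_zero) |>.1 this
  rw [norm_eq_zero, neg_one_smul, add_neg_eq_zero] at h6
  exact h6

theorem ell_det {p : ℂ × ℂ} (hp : Unit2 p) (X : Fin 3 → E3) :
    |(Matrix.of fun i j : Fin 3 =>
      (![(ell p (X i)).re, (ell p (X i)).im, hgt p (X i)] : Fin 3 → ℝ) j).det| = |det3 X| := by
  have hN := unit_eq hp
  have h : (Matrix.of fun i j : Fin 3 =>
      (![(ell p (X i)).re, (ell p (X i)).im, hgt p (X i)] : Fin 3 → ℝ) j).det =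
      det3 X * (p.1.re ^ 2 + p.1.im ^ 2 + p.2.re ^ 2 + p.2.im ^ 2) ^ 3 := by
    unfold det3
    rw [Matrix.det_fin_three, Matrix.det_fin_three]
    simp only [Matrix.of_apply, Matrix.cons_val_zero, Matrix.cons_val_one, Matrix.cons_val]
    rw [ell_re, ell_re, ell_re, ell_im, ell_im, ell_im, hgt_eq, hgt_eq, hgt_eq]
    ring
  rw [h, hN, one_pow, mul_one]

/-- the gnomonic coordinate in the `w`-chart -/
theorem chart_gnomonic {p u : ℂ × ℂ} (hp : Unit2 p) (hu : Unit2 u) (h : 0 < hgt p (hopf u)) :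
    ca p u ≠ 0 ∧ ‖cb p u / ca p u‖ < 1 ∧
      ell p (hopf u) / (hgt p (hopf u) : ℂ) =
        2 * (cb p u / ca p u) / ((1 - ‖cb p u / ca p u‖ ^ 2 : ℝ) : ℂ) := by
  rw [hgt_hopf hp] at h ⊢
  rw [ell_hopf hp]
  obtain ⟨A, hA⟩ : ∃ A, A = ca p u := ⟨_, rfl⟩
  obtain ⟨B, hB⟩ : ∃ B, B = cb p u := ⟨_, rfl⟩
  rw [← hA, ← hB] at h ⊢
  have hA0 : 0 < ‖A‖ := by
    rcases (norm_nonneg A).eq_or_lt with h0 | h0
    · rw [← h0] at h
      nlinarith [sq_nonneg ‖B‖]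
    · exact h0
  have hAne : A ≠ 0 := norm_pos_iff.1 hA0
  have hBA : ‖B‖ < ‖A‖ := by
    by_contra hc
    push Not at hc
    have := pow_le_pow_left₀ hA0.le hc 2
    linarith
  refine ⟨hAne, ?_, ?_⟩
  · rw [norm_div, div_lt_one hA0]
    exact hBA
  · have e1 : ((‖A‖ ^ 2 - ‖B‖ ^ 2 : ℝ) : ℂ) ≠ 0 := by
      exact_mod_cast h.ne'
    have e2 : (1 - ‖B / A‖ ^ 2 : ℝ) = (‖A‖ ^ 2 - ‖B‖ ^ 2) / ‖A‖ ^ 2 := by
      rw [norm_div, div_pow]
      field_simp
    have e3 : ((‖A‖ ^ 2 : ℝ) : ℂ) = A * conj A := by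
      rw [Complex.mul_conj, Complex.normSq_eq_norm_sq]
    have e4 : ((‖A‖ ^ 2 : ℝ) : ℂ) ≠ 0 := by
      exact_mod_cast (pow_pos hA0 2).ne'
    rw [e2, Complex.ofReal_div, e3]
    rw [e3] at e4
    have hAc : conj A ≠ 0 := right_ne_zero_of_mul e4
    field_simp

/-- the gnomonic coordinate of the inverse chart -/
theorem ci_gnomonic {p : ℂ × ℂ} (hp : Unit2 p) {w : ℂ} (hw : ‖w‖ < 1) :
    hgt p (hopf (ci p w)) = (1 - ‖w‖ ^ 2) / (1 + ‖w‖ ^ 2) ∧
      ell p (hopf (ci p w)) / (hgt p (hopf (ci p w)) : ℂ) = 2 * w / ((1 - ‖w‖ ^ 2 : ℝ) : ℂ) := by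
  have hpos : 0 < 1 + ‖w‖ ^ 2 := by positivity
  have hsq : Real.sqrt (1 + ‖w‖ ^ 2) ^ 2 = 1 + ‖w‖ ^ 2 := Real.sq_sqrt hpos.le
  have hs0 : 0 < Real.sqrt (1 + ‖w‖ ^ 2) := Real.sqrt_pos.2 hpos
  have hw2 : 0 < 1 - ‖w‖ ^ 2 := by
    have := norm_nonneg w
    nlinarith
  have h1 : hgt p (hopf (ci p w)) = (1 - ‖w‖ ^ 2) / (1 + ‖w‖ ^ 2) := by
    rw [hgt_hopf hp, ca_ci hp, cb_ci hp, norm_div, norm_div, norm_one, Complex.norm_real,
      Real.norm_eq_abs, abs_of_pos hs0, div_pow, div_pow, hsq]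
    ring
  refine ⟨h1, ?_⟩
  have h2 : ell p (hopf (ci p w)) = 2 * w / ((1 + ‖w‖ ^ 2 : ℝ) : ℂ) := by
    have e0 : ((1 + ‖w‖ ^ 2 : ℝ) : ℂ) = ((Real.sqrt (1 + ‖w‖ ^ 2) : ℝ) : ℂ) ^ 2 := by
      rw [← Complex.ofReal_pow, hsq]
    rw [ell_hopf hp, ca_ci hp, cb_ci hp, map_div₀, map_one, Complex.conj_ofReal, e0]
    have : ((Real.sqrt (1 + ‖w‖ ^ 2) : ℝ) : ℂ) ≠ 0 := by exact_mod_cast hs0.ne'
    field_simp
  rw [h1, h2, Complex.ofReal_div]
  have e1 : ((1 + ‖w‖ ^ 2 : ℝ) : ℂ) ≠ 0 := by exact_mod_cast hpos.ne'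
  have e2 : ((1 - ‖w‖ ^ 2 : ℝ) : ℂ) ≠ 0 := by exact_mod_cast hw2.ne'
  field_simp

end Pool.Agent.LE60
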