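import Pool.Agent.LE60.Defs

/-!
# LE60/IntP: Gaussian integrals of the planar kernel

PROOFS.
* `integrable_kp_mul`: `|kp z w * kp w v| = exp (-|z-w|²/2) exp(-|w-v|²/2) ≤ exp (-|z-w|²/2)`, continuous in `w`.
* `integral_kp_mul`: `kp z w * kp w v = exp (z w* + w v* - |w|² - |z|²/2 - |v|²/2)`. With `w = x + i y`:
  `z w* + w v* = x (z + v*) + y (i v* - i z)`, so by
  `∫_{ℝ} exp (-x² + c x) dx = √π exp (c²/4)` for both variables
  (`GaussianFourier.integral_cexp_neg_mul_sum_add` on `Fin 2 → ℝ` with `b = 1`, and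
  `Complex.volume_preserving_equiv_pi`; or `MeasureTheory.integral_prod_mul` and
  `integral_cexp_quadratic`) the integral is
  `π exp (((z + v*)² - (v* - z)²)/4) = π exp (z v*)`.
* `integrable_normsq_kp`, `integral_tail`: `‖kp w z‖² = exp (-|w - z|²)`, and on `W`
  (`|w - z| ≥ L`, `L ≥ 0`) `exp (-|w-z|²) ≤ exp (-L²/2) exp (-|w-z|²/2)`;
  `∫ exp (-|w|²/2) = 2π` (`integral_gaussian`-type: `GaussianFourier.integral_rexp_neg_mul_sq_norm`
  on `ℂ`, `finrank ℝ ℂ = 2`).
-/

set_option autoImplicit false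

namespace Pool.Agent.LE60

open MeasureTheory
open scoped ComplexConjugate

private lemma norm_kp (z w : ℂ) : ‖kp z w‖ = Real.exp (-(1 / 2) * ‖w - z‖ ^ 2) := by
  unfold kp
  rw [Complex.norm_exp]
  congr 1
  rw [Complex.sub_re, Complex.ofReal_re]
  have h := Complex.normSq_sub z w
  rw [Complex.normSq_eq_norm_sq, Complex.normSq_eq_norm_sq, Complex.normSq_eq_norm_sq] at h
  rw [norm_sub_rev w z, h]
  ring

private lemma gauss_int {b : ℝ} (hb : 0 < b) :
    ∫ v : ℂ, Real.exp (-b * ‖v‖ ^ 2) = Real.pi / b := by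
  rw [GaussianFourier.integral_rexp_neg_mul_sq_norm hb, Complex.finrank_real_complex]
  norm_num

private lemma gauss_integrable {b : ℝ} (hb : 0 < b) :
    Integrable (fun v : ℂ => Real.exp (-b * ‖v‖ ^ 2)) := by
  apply MeasureTheory.Integrable.of_integral_ne_zero
  rw [gauss_int hb]
  have := Real.pi_pos
  positivity

private lemma gauss_shift {b : ℝ} (hb : 0 < b) (z : ℂ) :
    Integrable (fun v : ℂ => Real.exp (-b * ‖v - z‖ ^ 2)) :=
  (gauss_integrable hb).comp_sub_right z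

private lemma normsq_kp (z w : ℂ) : ‖kp z w‖ ^ 2 = Real.exp (-1 * ‖w - z‖ ^ 2) := by
  rw [norm_kp, ← Real.exp_nat_mul]
  congr 1
  push_cast
  ring

theorem continuous_kp : Continuous (fun p : ℂ × ℂ => kp p.1 p.2) := by
  unfold kp
  fun_prop

theorem integrable_kp_mul (z v : ℂ) : Integrable (fun w => kp z w * kp w v) := by
  refine (gauss_shift (b := 1 / 2) (by norm_num) z).mono' ?_ (Filter.Eventually.of_forall
    fun w => ?_)
  · have h1 : Continuous (fun w => kp z w) := continuous_kp.comp (continuous_const.prodMk continuous_id)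
    have h2 : Continuous (fun w => kp w v) := continuous_kp.comp (continuous_id.prodMk continuous_const)
    exact (h1.mul h2).aestronglyMeasurable
  · rw [norm_mul, norm_kp, norm_kp]
    have h3 : Real.exp (-(1 / 2) * ‖v - w‖ ^ 2) ≤ 1 := by
      rw [Real.exp_le_one_iff]
      have := sq_nonneg ‖v - w‖
      linarith
    exact mul_le_of_le_one_right (Real.exp_pos _).le h3

theorem integral_kp_mul (z v : ℂ) : ∫ w, kp z w * kp w v = Real.pi * kp z v := by
  have h1 := Complex.volume_preserving_equiv_pi.symm.integral_comp'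
    (fun w : ℂ => kp z w * kp w v)
  rw [← h1]
  let c : Fin 2 → ℂ := ![z + conj v, Complex.I * (conj v - z)]
  have h2 : ∀ x : Fin 2 → ℝ, kp z (Complex.measurableEquivPi.symm x) *
      kp (Complex.measurableEquivPi.symm x) v =
      Complex.exp (-(1 : ℂ) * ∑ i, (x i : ℂ) ^ 2 + ∑ i, c i * x i) *
        Complex.exp (-(((‖z‖ ^ 2 + ‖v‖ ^ 2) / 2 : ℝ) : ℂ)) := by
    intro x
    rw [Complex.measurableEquivPi_symm_apply]
    unfold kp
    rw [← Complex.exp_add, ← Complex.exp_add]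
    congr 1
    have h3 : (((‖(x 0 : ℂ) + (x 1 : ℂ) * Complex.I‖ ^ 2 : ℝ)) : ℂ) = (x 0 : ℂ) ^ 2 + (x 1 : ℂ) ^ 2 := by
      rw [← Complex.normSq_eq_norm_sq, Complex.normSq_add_mul_I]
      push_cast
      ring
    have h4 : conj ((x 0 : ℂ) + (x 1 : ℂ) * Complex.I) = (x 0 : ℂ) - (x 1 : ℂ) * Complex.I := by
      rw [map_add, map_mul, Complex.conj_ofReal, Complex.conj_ofReal, Complex.conj_I]
      ring
    have h5 : ∀ a b : ℝ, (((a + b) / 2 : ℝ) : ℂ) = ((a : ℂ) + (b : ℂ)) / 2 := by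
      intro a b
      push_cast
      ring
    rw [h4, h5, h5, h5, h3, Fin.sum_univ_two, Fin.sum_univ_two]
    have hc0 : c 0 = z + conj v := rfl
    have hc1 : c 1 = Complex.I * (conj v - z) := rfl
    rw [hc0, hc1]
    ring
  simp_rw [h2]
  rw [integral_mul_const, GaussianFourier.integral_cexp_neg_mul_sum_add (by simp) c]
  have h6 : ∑ i, c i ^ 2 = 4 * (z * conj v) := by
    rw [Fin.sum_univ_two]
    have hc0 : c 0 = z + conj v := rfl
    have hc1 : c 1 = Complex.I * (conj v - z) := rfl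
    rw [hc0, hc1, mul_pow, Complex.I_sq]
    ring
  rw [h6, Fintype.card_fin]
  have h7 : ((2 : ℕ) : ℂ) / 2 = 1 := by norm_num
  rw [h7, Complex.cpow_one, div_one, mul_assoc, ← Complex.exp_add]
  unfold kp
  congr 2
  ring

theorem integrable_normsq_kp (z : ℂ) : Integrable (fun w => ‖kp z w‖ ^ 2) := by
  simp_rw [normsq_kp]
  exact gauss_shift one_pos z

theorem integral_tail (z : ℂ) {L : ℝ} (hL : 0 ≤ L) {W : Set ℂ} (hW : MeasurableSet W)
    (h : ∀ w ∈ W, L ≤ ‖w - z‖) :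
    ∫ w in W, ‖kp z w‖ ^ 2 ≤ 2 * Real.pi * Real.exp (-(L ^ 2) / 2) := by
  have hint : Integrable (fun w : ℂ => Real.exp (-(L ^ 2) / 2) *
      Real.exp (-(1 / 2) * ‖w - z‖ ^ 2)) := (gauss_shift (by norm_num) z).const_mul _
  have h1 : ∫ w in W, ‖kp z w‖ ^ 2 ≤ ∫ w in W, Real.exp (-(L ^ 2) / 2) *
      Real.exp (-(1 / 2) * ‖w - z‖ ^ 2) := by
    refine setIntegral_mono_on (integrable_normsq_kp z).integrableOn hint.integrableOn hW
      fun w hw => ?_
    rw [normsq_kp, ← Real.exp_add]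
    apply Real.exp_le_exp.2
    have h2 : L ^ 2 ≤ ‖w - z‖ ^ 2 := pow_le_pow_left₀ hL (h w hw) 2
    linarith
  have h2 : ∫ w in W, Real.exp (-(L ^ 2) / 2) * Real.exp (-(1 / 2) * ‖w - z‖ ^ 2) ≤
      ∫ w : ℂ, Real.exp (-(L ^ 2) / 2) * Real.exp (-(1 / 2) * ‖w - z‖ ^ 2) :=
    setIntegral_le_integral hint (Filter.Eventually.of_forall fun w => by positivity)
  have h3 : ∫ w : ℂ, Real.exp (-(1 / 2) * ‖w - z‖ ^ 2) = 2 * Real.pi := by
    rw [integral_sub_right_eq_self (fun w : ℂ => Real.exp (-(1 / 2) * ‖w‖ ^ 2)) z,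
      gauss_int (by norm_num)]
    ring
  refine (h1.trans h2).trans (le_of_eq ?_)
  rw [integral_const_mul, h3]
  ring

end Pool.Agent.LE60
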