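import Pool.Agent.LE60.MatB
import Pool.Agent.LE60.KerP
import Pool.Agent.LE60.IntP

/-!
# LE60/HP: the function `h(w) = g(w)* G⁻¹ g(w)` in the plane

`f : Fin n → ℂ` with `det G ≠ 0`, `G = gram kp f` (PSD by `kp_psd`, hence PosDef).
PROOFS.
* `hp_bounds`: `hh_nonneg`, `hh_le_one` (use `kp_psd`, `kp_conj`, `kp_self`).
* `hp_expand`: `hh kp f w = (∑_{i,j} (G⁻¹) i j * conj (kp (f i) w) * kp (f j) w).re`,
  `conj (kp (f i) w) = kp w (f i)`.
* `integrable_hp`: finite sum of the integrable functions `kp (f j) w * kp w (f i)`.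
* `integral_hp`: `∫ = Re ∑_{i,j} (G⁻¹) i j π kp (f j) (f i) = π Re tr (G⁻¹ G) = π n`
  (`integral_re`-type commutation; `integral_kp_mul`).
* `integral_hp_tail`: pointwise `hh kp f w ≤ (tr G⁻¹) ∑_i ‖kp (f i) w‖²` (`quad_le_trace` for `G⁻¹`,
  PSD), integrate over `W` and use `integral_tail` for each `i`; `tr G⁻¹ ≥ 0`.
-/

set_option autoImplicit false

namespace Pool.Agent.LE60

open MeasureTheory Matrix
open scoped ComplexOrder ComplexConjugate

variable {n : ℕ}

theorem hp_bounds (f : Fin n → ℂ) (hdet : (gram kp f).det ≠ 0) (w : ℂ) :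
    0 ≤ hh kp f w ∧ hh kp f w ≤ 1 :=
  ⟨hh_nonneg f w (kp_psd f), hh_le_one kp_conj f w (kp_psd _) hdet (kp_self w)⟩

theorem hp_expand (f : Fin n → ℂ) (w : ℂ) :
    hh kp f w = (∑ i, ∑ j, (gram kp f)⁻¹ i j * (kp (f j) w * kp w (f i))).re := by
  unfold hh
  congr 1
  simp only [dotProduct, mulVec, Pi.star_apply, Finset.mul_sum]
  refine Finset.sum_congr rfl fun i _ => Finset.sum_congr rfl fun j _ => ?_
  rw [kp_conj (f i) w]
  simp only [RCLike.star_def]
  ring

theorem integrable_hpc (f : Fin n → ℂ) : Integrable (fun w =>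
    ∑ i, ∑ j, (gram kp f)⁻¹ i j * (kp (f j) w * kp w (f i))) :=
  integrable_finsetSum _ fun i _ => integrable_finsetSum _ fun j _ =>
    (integrable_kp_mul (f j) (f i)).const_mul _

theorem integrable_hp (f : Fin n → ℂ) : Integrable (hh kp f) := by
  have h := (integrable_hpc f).re
  refine h.congr (Filter.Eventually.of_forall fun w => ?_)
  simp only [hp_expand, RCLike.re_eq_complex_re]

theorem integral_hp (f : Fin n → ℂ) (hdet : (gram kp f).det ≠ 0) :
    ∫ w, hh kp f w = Real.pi * n := by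
  have h1 : ∫ w, hh kp f w =
      (∫ w, ∑ i, ∑ j, (gram kp f)⁻¹ i j * (kp (f j) w * kp w (f i))).re := by
    have h2 := integral_re (integrable_hpc f)
    simp only [RCLike.re_eq_complex_re] at h2
    rw [← h2]
    exact integral_congr_ae (Filter.Eventually.of_forall fun w => hp_expand f w)
  rw [h1, integral_finsetSum _ fun i _ => integrable_finsetSum _ fun j _ =>
    (integrable_kp_mul (f j) (f i)).const_mul _]
  have h3 : ∀ i : Fin n, ∫ w, ∑ j, (gram kp f)⁻¹ i j * (kp (f j) w * kp w (f i)) =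
      (Real.pi : ℂ) := by
    intro i
    rw [integral_finsetSum _ fun j _ => (integrable_kp_mul (f j) (f i)).const_mul _]
    have h4 : ∀ j : Fin n, ∫ w, (gram kp f)⁻¹ i j * (kp (f j) w * kp w (f i)) =
        Real.pi * ((gram kp f)⁻¹ i j * gram kp f j i) := by
      intro j
      rw [integral_const_mul, integral_kp_mul]
      simp only [gram, Matrix.of_apply]
      ring
    rw [Finset.sum_congr rfl fun j _ => h4 j, ← Finset.mul_sum]
    have h5 : ∑ j, (gram kp f)⁻¹ i j * gram kp f j i = 1 := by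
      have h6 := Matrix.nonsing_inv_mul (gram kp f) (isUnit_iff_ne_zero.2 hdet)
      have h7 := congrFun (congrFun h6 i) i
      rw [Matrix.mul_apply] at h7
      rw [h7]
      simp
    rw [h5, mul_one]
  rw [Finset.sum_congr rfl fun i _ => h3 i]
  simp [mul_comm]

theorem integral_hp_tail (f : Fin n → ℂ) (hdet : (gram kp f).det ≠ 0) {L : ℝ} (hL : 0 ≤ L)
    {W : Set ℂ} (hW : MeasurableSet W) (h : ∀ w ∈ W, ∀ i, L ≤ ‖w - f i‖) :
    ∫ w in W, hh kp f w ≤
      ((gram kp f)⁻¹).trace.re * (n * (2 * Real.pi * Real.exp (-(L ^ 2) / 2))) := by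
  have _ := hdet
  have hpsd : ((gram kp f)⁻¹).PosSemidef := (kp_psd f).inv
  have htr : 0 ≤ ((gram kp f)⁻¹).trace.re := by
    have := hpsd.trace_nonneg
    exact (Complex.nonneg_iff.1 this).1
  have hpt : ∀ w, hh kp f w ≤ ((gram kp f)⁻¹).trace.re * ∑ i, ‖kp (f i) w‖ ^ 2 := fun w =>
    quad_le_trace hpsd fun i => kp (f i) w
  have hint : Integrable (fun w => ((gram kp f)⁻¹).trace.re * ∑ i, ‖kp (f i) w‖ ^ 2) :=
    (integrable_finsetSum _ fun i _ => integrable_normsq_kp (f i)).const_mul _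
  calc ∫ w in W, hh kp f w
      ≤ ∫ w in W, ((gram kp f)⁻¹).trace.re * ∑ i, ‖kp (f i) w‖ ^ 2 :=
        setIntegral_mono (integrable_hp f).integrableOn hint.integrableOn hpt
    _ = ((gram kp f)⁻¹).trace.re * ∑ i, ∫ w in W, ‖kp (f i) w‖ ^ 2 := by
        rw [integral_const_mul, integral_finsetSum _ fun i _ => (integrable_normsq_kp (f i)).integrableOn]
    _ ≤ ((gram kp f)⁻¹).trace.re * ∑ _i : Fin n, (2 * Real.pi * Real.exp (-(L ^ 2) / 2)) := by
        apply mul_le_mul_of_nonneg_left _ htr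
        exact Finset.sum_le_sum fun i _ => integral_tail (f i) hL hW fun w hw => h w hw i
    _ = _ := by simp

end Pool.Agent.LE60
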