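import Pool.Agent.LE60.MatA

/-!
# LE60/KerS: the spherical kernel, rotations and charts

For a unit vector `p ∈ ℂ²`: `ca p u = conj p.1 u.1 + conj p.2 u.2`, `cb p u = p.1 u.2 - p.2 u.1` (coordinates of `u` in the
unitary frame of `p`), `ci p w = (p.1 - conj p.2 w, p.2 + conj p.1 w)/√(1+|w|²)` (inverse chart).
PROOFS (all direct computations; `Unit2 p` means `|p.1|² + |p.2|² = 1`).
* `frame`: `ca u conj (ca v) + cb u conj (cb v) = u.1 conj v.1 + u.2 conj v.2`.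
* `ca_cb_unit`: `|ca|² + |cb|² = |u|² = 1` (case `u = v` of `frame`).
* `ca_ci`, `cb_ci`: direct. `ci_unit`.
* `ks_psd`: `(a + b)^n = ∑ C(n,k) a^k b^{n-k}`: sum of `C(n,k) v_k v_k*`, `v_k(i) = (f i).1^k (f i).2^{n-k}`.
* `gdet_chart`: `ks n u v = (ca u conj (ca v))^n (1 + w conj w')^n`, `1 + |w|² = 1/|ca u|²`, so
  `ks n u v = φ(u) kw n w w' conj (φ(v))`, `φ(u) = (ca u/|ca u|)^n`, `|φ| = 1`: the Gram matrices are related by a
  diagonal unitary.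
* `gram_ci`: `⟨ci p w, ci p w'⟩ = (1 + w conj w')/(√(1+|w|²) √(1+|w'|²))` by `frame`, `ca_ci`, `cb_ci`.
* `hopf_dist`: `‖hopf u - hopf v‖² = 4 ‖u.1 v.2 - u.2 v.1‖²` for unit `u`, `v` (polynomial identity; both sides are
  `4(1 - |⟨u,v⟩|²)`), `norm_hopf`: `‖hopf u‖ = 1`.
* `ks_decay`: `|⟨u,v⟩|² = 1 - ‖hopf u - hopf v‖²/4 ≤ exp (-‖·‖²/4)`; take the power `n/2`.
-/

set_option autoImplicit false

namespace Pool.Agent.LE60

open Matrix
open scoped ComplexOrder ComplexConjugate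

noncomputable def ca (p u : ℂ × ℂ) : ℂ := conj p.1 * u.1 + conj p.2 * u.2

noncomputable def cb (p u : ℂ × ℂ) : ℂ := p.1 * u.2 - p.2 * u.1

noncomputable def ci (p : ℂ × ℂ) (w : ℂ) : ℂ × ℂ :=
  ((p.1 - conj p.2 * w) / ((Real.sqrt (1 + ‖w‖ ^ 2) : ℝ) : ℂ),
   (p.2 + conj p.1 * w) / ((Real.sqrt (1 + ‖w‖ ^ 2) : ℝ) : ℂ))

private theorem kers_unit {p : ℂ × ℂ} (hp : Unit2 p) : p.1 * conj p.1 + p.2 * conj p.2 = 1 := by
  rw [Complex.mul_conj', Complex.mul_conj']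
  have h : ‖p.1‖ ^ 2 + ‖p.2‖ ^ 2 = 1 := hp
  exact_mod_cast h

private theorem kers_pos (w : ℂ) : 0 < 1 + ‖w‖ ^ 2 := by positivity

private theorem kers_ne (w : ℂ) : ((Real.sqrt (1 + ‖w‖ ^ 2) : ℝ) : ℂ) ≠ 0 := by
  have h : Real.sqrt (1 + ‖w‖ ^ 2) ≠ 0 := (Real.sqrt_pos.mpr (kers_pos w)).ne'
  exact_mod_cast h

private theorem kers_sq (w : ℂ) : ((Real.sqrt (1 + ‖w‖ ^ 2) : ℝ) : ℂ) ^ 2 = 1 + w * conj w := by
  rw [Complex.mul_conj', ← Complex.ofReal_pow, Real.sq_sqrt (kers_pos w).le]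
  push_cast
  ring

theorem frame {p : ℂ × ℂ} (hp : Unit2 p) (u v : ℂ × ℂ) :
    ca p u * conj (ca p v) + cb p u * conj (cb p v) = u.1 * conj v.1 + u.2 * conj v.2 := by
  have h := kers_unit hp
  simp only [ca, cb, map_add, map_sub, map_mul, Complex.conj_conj]
  linear_combination (u.1 * conj v.1 + u.2 * conj v.2) * h

theorem ca_cb_unit {p u : ℂ × ℂ} (hp : Unit2 p) (hu : Unit2 u) :
    ‖ca p u‖ ^ 2 + ‖cb p u‖ ^ 2 = 1 := by
  have h := frame hp u u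
  rw [kers_unit hu, Complex.mul_conj', Complex.mul_conj'] at h
  exact_mod_cast h

theorem ca_ci {p : ℂ × ℂ} (hp : Unit2 p) (w : ℂ) :
    ca p (ci p w) = 1 / ((Real.sqrt (1 + ‖w‖ ^ 2) : ℝ) : ℂ) := by
  have h := kers_unit hp
  have hs := kers_ne w
  simp only [ca, ci]
  field_simp
  linear_combination h

theorem cb_ci {p : ℂ × ℂ} (hp : Unit2 p) (w : ℂ) :
    cb p (ci p w) = w / ((Real.sqrt (1 + ‖w‖ ^ 2) : ℝ) : ℂ) := by
  have h := kers_unit hp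
  have hs := kers_ne w
  simp only [cb, ci]
  field_simp
  linear_combination w * h

theorem ci_unit {p : ℂ × ℂ} (hp : Unit2 p) (w : ℂ) : Unit2 (ci p w) := by
  have h := frame hp (ci p w) (ci p w)
  have hs := kers_ne w
  have hq := kers_sq w
  rw [ca_ci hp, cb_ci hp, Complex.mul_conj' (ci p w).1, Complex.mul_conj' (ci p w).2] at h
  simp only [map_div₀, map_one, Complex.conj_ofReal] at h
  have h2 : (1 : ℂ) / ((Real.sqrt (1 + ‖w‖ ^ 2) : ℝ) : ℂ) * (1 / ((Real.sqrt (1 + ‖w‖ ^ 2) : ℝ) : ℂ)) +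
      w / ((Real.sqrt (1 + ‖w‖ ^ 2) : ℝ) : ℂ) * (conj w / ((Real.sqrt (1 + ‖w‖ ^ 2) : ℝ) : ℂ)) = 1 := by
    field_simp
    exact hq.symm
  rw [h2] at h
  show ‖(ci p w).1‖ ^ 2 + ‖(ci p w).2‖ ^ 2 = 1
  exact_mod_cast h.symm

theorem ks_self (n : ℕ) {u : ℂ × ℂ} (hu : Unit2 u) : ks n u u = 1 := by
  rw [ks, kers_unit hu, one_pow]

theorem ks_conj (n : ℕ) (u v : ℂ × ℂ) : ks n v u = conj (ks n u v) := by
  simp only [ks, map_pow, map_add, map_mul, Complex.conj_conj]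
  ring

theorem ks_psd {ι : Type*} [Fintype ι] (n : ℕ) (f : ι → ℂ × ℂ) : (gram (ks n) f).PosSemidef := by
  classical
  have h : gram (ks n) f = ∑ k ∈ Finset.range (n + 1), ((n.choose k : ℝ) : ℂ) •
      Matrix.vecMulVec (fun i => (f i).1 ^ k * (f i).2 ^ (n - k))
        (star (fun i => (f i).1 ^ k * (f i).2 ^ (n - k))) := by
    ext i j
    rw [Matrix.sum_apply]
    simp only [gram, ks, Matrix.of_apply, Matrix.smul_apply, Matrix.vecMulVec_apply, Pi.star_apply,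
      smul_eq_mul, add_pow]
    refine Finset.sum_congr rfl fun k _ => ?_
    simp only [star_mul', star_pow, mul_pow, Complex.star_def, Complex.ofReal_natCast]
    ring
  rw [h]
  refine Matrix.posSemidef_sum _ fun k _ => ?_
  refine Matrix.PosSemidef.smul (Matrix.posSemidef_vecMulVec_self_star _) ?_
  exact_mod_cast (Nat.zero_le _ : 0 ≤ n.choose k)

theorem gdet_chart {ι : Type*} [Fintype ι] [DecidableEq ι] (n : ℕ) {p : ℂ × ℂ} (hp : Unit2 p)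
    (f : ι → ℂ × ℂ) (hf : ∀ i, Unit2 (f i)) (hA : ∀ i, ca p (f i) ≠ 0) :
    gdet (ks n) f = gdet (kw n) (fun i => cb p (f i) / ca p (f i)) := by
  have key : ∀ u : ℂ × ℂ, Unit2 u → ca p u ≠ 0 →
      ((Real.sqrt (1 + ‖cb p u / ca p u‖ ^ 2) : ℝ) : ℂ) * ((‖ca p u‖ : ℝ) : ℂ) = 1 := by
    intro u hu ha
    have hpos : 0 < ‖ca p u‖ := norm_pos_iff.mpr ha
    have h1 := ca_cb_unit hp hu
    have h2 : 1 + ‖cb p u / ca p u‖ ^ 2 = (1 / ‖ca p u‖) ^ 2 := by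
      rw [norm_div]
      field_simp
      linarith
    rw [h2, Real.sqrt_sq (by positivity)]
    rw [← Complex.ofReal_mul, one_div, inv_mul_cancel₀ hpos.ne', Complex.ofReal_one]
  have hent : ∀ u v : ℂ × ℂ, Unit2 u → Unit2 v → ca p u ≠ 0 → ca p v ≠ 0 →
      ks n u v = (ca p u / ((‖ca p u‖ : ℝ) : ℂ)) ^ n *
        kw n (cb p u / ca p u) (cb p v / ca p v) * (conj (ca p v) / ((‖ca p v‖ : ℝ) : ℂ)) ^ n := by
    intro u v hu hv ha hb
    have k1 := key u hu ha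
    have k2 := key v hv hb
    have hb' : conj (ca p v) ≠ 0 := by
      intro h0
      exact hb ((map_eq_zero _).mp h0)
    rw [ks, ← frame hp u v, kw]
    rw [Real.sqrt_mul (kers_pos _).le, ← mul_div_assoc, div_mul_eq_mul_div]
    have e1 : (((Real.sqrt (1 + ‖cb p u / ca p u‖ ^ 2) *
        Real.sqrt (1 + ‖cb p v / ca p v‖ ^ 2)) ^ n : ℝ) : ℂ) =
        (((Real.sqrt (1 + ‖cb p u / ca p u‖ ^ 2) : ℝ) : ℂ) *
          ((Real.sqrt (1 + ‖cb p v / ca p v‖ ^ 2) : ℝ) : ℂ)) ^ n := by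
      push_cast
      ring
    rw [e1, ← mul_pow, ← mul_pow, ← div_pow]
    congr 1
    have n1 : ((‖ca p u‖ : ℝ) : ℂ) ≠ 0 := by
      intro h0
      rw [h0, mul_zero] at k1
      exact zero_ne_one k1
    have n2 : ((‖ca p v‖ : ℝ) : ℂ) ≠ 0 := by
      intro h0
      rw [h0, mul_zero] at k2
      exact zero_ne_one k2
    have s1 : ((Real.sqrt (1 + ‖cb p u / ca p u‖ ^ 2) : ℝ) : ℂ) = 1 / ((‖ca p u‖ : ℝ) : ℂ) := by
      rw [eq_div_iff n1]
      exact k1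
    have s2 : ((Real.sqrt (1 + ‖cb p v / ca p v‖ ^ 2) : ℝ) : ℂ) = 1 / ((‖ca p v‖ : ℝ) : ℂ) := by
      rw [eq_div_iff n2]
      exact k2
    rw [s1, s2, map_div₀]
    field_simp
  have hmat : gram (ks n) f = Matrix.diagonal (fun i => (ca p (f i) / ((‖ca p (f i)‖ : ℝ) : ℂ)) ^ n) *
      gram (kw n) (fun i => cb p (f i) / ca p (f i)) *
      Matrix.diagonal (fun i => (conj (ca p (f i)) / ((‖ca p (f i)‖ : ℝ) : ℂ)) ^ n) := by
    ext i j
    rw [Matrix.mul_diagonal, Matrix.diagonal_mul]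
    exact hent (f i) (f j) (hf i) (hf j) (hA i) (hA j)
  have hdet : (gram (ks n) f).det = (gram (kw n) (fun i => cb p (f i) / ca p (f i))).det := by
    rw [hmat, Matrix.det_mul, Matrix.det_mul, Matrix.det_diagonal, Matrix.det_diagonal]
    have hprod : (∏ i, (ca p (f i) / ((‖ca p (f i)‖ : ℝ) : ℂ)) ^ n) *
        (∏ i, (conj (ca p (f i)) / ((‖ca p (f i)‖ : ℝ) : ℂ)) ^ n) = 1 := by
      rw [← Finset.prod_mul_distrib]
      refine Finset.prod_eq_one fun i _ => ?_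
      rw [← mul_pow]
      have n1 : ((‖ca p (f i)‖ : ℝ) : ℂ) ≠ 0 := by
        have := norm_ne_zero_iff.mpr (hA i)
        exact_mod_cast this
      have : ca p (f i) / ((‖ca p (f i)‖ : ℝ) : ℂ) * (conj (ca p (f i)) / ((‖ca p (f i)‖ : ℝ) : ℂ)) =
          1 := by
        rw [div_mul_div_comm, Complex.mul_conj', ← sq, div_self (pow_ne_zero 2 n1)]
      rw [this, one_pow]
    linear_combination (gram (kw n) (fun i => cb p (f i) / ca p (f i))).det * hprod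
  rw [gdet, gdet, hdet]

theorem gram_ci {ι : Type*} (n : ℕ) {p : ℂ × ℂ} (hp : Unit2 p) (f : ι → ℂ) :
    gram (ks n) (fun i => ci p (f i)) = gram (kw n) f := by
  ext i j
  simp only [gram, Matrix.of_apply]
  rw [ks, ← frame hp, ca_ci hp, ca_ci hp, cb_ci hp, cb_ci hp, kw,
    Real.sqrt_mul (kers_pos _).le]
  have h1 := kers_ne (f i)
  have h2 := kers_ne (f j)
  have e1 : (((Real.sqrt (1 + ‖f i‖ ^ 2) * Real.sqrt (1 + ‖f j‖ ^ 2)) ^ n : ℝ) : ℂ) =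
      (((Real.sqrt (1 + ‖f i‖ ^ 2) : ℝ) : ℂ) * ((Real.sqrt (1 + ‖f j‖ ^ 2) : ℝ) : ℂ)) ^ n := by
    push_cast
    ring
  rw [e1, ← div_pow]
  congr 1
  simp only [map_div₀, map_one, Complex.conj_ofReal]
  field_simp

theorem norm_hopf {u : ℂ × ℂ} (hu : Unit2 u) : ‖hopf u‖ = 1 := by
  have h2 : ‖hopf u‖ ^ 2 = 1 := by
    rw [EuclideanSpace.norm_sq_eq, Fin.sum_univ_three]
    have h : ‖u.1‖ ^ 2 + ‖u.2‖ ^ 2 = 1 := hu
    simp only [hopf, Real.norm_eq_abs, sq_abs]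
    rw [← Complex.normSq_eq_norm_sq, ← Complex.normSq_eq_norm_sq, Complex.normSq_apply,
      Complex.normSq_apply] at h
    simp [Complex.mul_re, Complex.mul_im, ← Complex.normSq_eq_norm_sq, Complex.normSq_apply]
    linear_combination (u.1.re * u.1.re + u.1.im * u.1.im + (u.2.re * u.2.re + u.2.im * u.2.im) + 1) * h
  have h0 := norm_nonneg (hopf u)
  nlinarith

theorem hopf_dist {u v : ℂ × ℂ} (hu : Unit2 u) (hv : Unit2 v) :
    ‖hopf u - hopf v‖ ^ 2 = 4 * ‖u.1 * v.2 - u.2 * v.1‖ ^ 2 := by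
  have h : ‖u.1‖ ^ 2 + ‖u.2‖ ^ 2 = 1 := hu
  have k : ‖v.1‖ ^ 2 + ‖v.2‖ ^ 2 = 1 := hv
  rw [← Complex.normSq_eq_norm_sq, ← Complex.normSq_eq_norm_sq, Complex.normSq_apply,
    Complex.normSq_apply] at h k
  rw [EuclideanSpace.norm_sq_eq, Fin.sum_univ_three]
  simp only [hopf, Real.norm_eq_abs, sq_abs]
  simp [Complex.mul_re, Complex.mul_im, ← Complex.normSq_eq_norm_sq, Complex.normSq_apply]
  linear_combination (u.1.re * u.1.re + u.1.im * u.1.im + (u.2.re * u.2.re + u.2.im * u.2.im) -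
    (v.1.re * v.1.re + v.1.im * v.1.im + (v.2.re * v.2.re + v.2.im * v.2.im))) * (h - k)

theorem ks_decay (n : ℕ) {u v : ℂ × ℂ} (hu : Unit2 u) (hv : Unit2 v) :
    ‖ks n u v‖ ≤ Real.exp (-(n * ‖hopf u - hopf v‖ ^ 2) / 8) := by
  have h : ‖u.1‖ ^ 2 + ‖u.2‖ ^ 2 = 1 := hu
  have k : ‖v.1‖ ^ 2 + ‖v.2‖ ^ 2 = 1 := hv
  have hd := hopf_dist hu hv
  have hsq : ‖u.1 * conj v.1 + u.2 * conj v.2‖ ^ 2 = 1 - ‖hopf u - hopf v‖ ^ 2 / 4 := by
    rw [hd]
    rw [← Complex.normSq_eq_norm_sq, ← Complex.normSq_eq_norm_sq, Complex.normSq_apply,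
      Complex.normSq_apply] at h k
    rw [← Complex.normSq_eq_norm_sq, ← Complex.normSq_eq_norm_sq, Complex.normSq_apply,
      Complex.normSq_apply]
    simp only [Complex.add_re, Complex.add_im, Complex.sub_re, Complex.sub_im, Complex.mul_re,
      Complex.mul_im, Complex.conj_re, Complex.conj_im]
    linear_combination (v.1.re * v.1.re + v.1.im * v.1.im + (v.2.re * v.2.re + v.2.im * v.2.im)) * h + k
  have hle : ‖u.1 * conj v.1 + u.2 * conj v.2‖ ≤ Real.exp (-(‖hopf u - hopf v‖ ^ 2) / 8) := by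
    refine abs_le_of_sq_le_sq' ?_ (Real.exp_pos _).le |>.2
    rw [hsq, ← Real.exp_nat_mul]
    have := Real.add_one_le_exp (-(‖hopf u - hopf v‖ ^ 2) / 4)
    have e : ((2 : ℕ) : ℝ) * (-(‖hopf u - hopf v‖ ^ 2) / 8) = -(‖hopf u - hopf v‖ ^ 2) / 4 := by
      push_cast
      ring
    rw [e]
    linarith
  rw [ks, norm_pow]
  refine (pow_le_pow_left₀ (norm_nonneg _) hle n).trans (le_of_eq ?_)
  rw [← Real.exp_nat_mul]
  congr 1
  ring

theorem exists_hopf {x : E3} (hx : ‖x‖ = 1) : ∃ u : ℂ × ℂ, Unit2 u ∧ hopf u = x := by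
  have h2 : x 0 ^ 2 + x 1 ^ 2 + x 2 ^ 2 = 1 := by
    have : ‖x‖ ^ 2 = 1 := by rw [hx, one_pow]
    rw [EuclideanSpace.norm_sq_eq, Fin.sum_univ_three] at this
    simpa only [Real.norm_eq_abs, sq_abs] using this
  by_cases hc : 1 + x 2 = 0
  · refine ⟨(0, 1), by simp [Unit2], ?_⟩
    have e2 : x 2 = -1 := by linarith
    have e0 : x 0 = 0 := by nlinarith [sq_nonneg (x 0), sq_nonneg (x 1)]
    have e1 : x 1 = 0 := by nlinarith [sq_nonneg (x 0), sq_nonneg (x 1)]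
    ext i
    fin_cases i
    · simp [hopf, e0]
    · simp [hopf, e1]
    · simp [hopf, e2]
  · have hpos : 0 < 1 + x 2 := by
      have : 0 ≤ 1 + x 2 := by nlinarith [sq_nonneg (x 0), sq_nonneg (x 1)]
      exact lt_of_le_of_ne this (Ne.symm hc)
    set r : ℝ := Real.sqrt ((1 + x 2) / 2) with hr
    have hr0 : 0 < r := Real.sqrt_pos.mpr (by linarith)
    have hr2 : r ^ 2 = (1 + x 2) / 2 := Real.sq_sqrt (by linarith)
    have hn : ‖((r : ℝ) : ℂ)‖ ^ 2 = (1 + x 2) / 2 := by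
      rw [Complex.norm_real, Real.norm_eq_abs, sq_abs, hr2]
    have hm : ‖(⟨x 0 / (2 * r), x 1 / (2 * r)⟩ : ℂ)‖ ^ 2 = (1 - x 2) / 2 := by
      rw [← Complex.normSq_eq_norm_sq, Complex.normSq_apply]
      have : x 0 / (2 * r) * (x 0 / (2 * r)) + x 1 / (2 * r) * (x 1 / (2 * r)) =
          (x 0 ^ 2 + x 1 ^ 2) / (4 * r ^ 2) := by
        field_simp
        ring
      show x 0 / (2 * r) * (x 0 / (2 * r)) + x 1 / (2 * r) * (x 1 / (2 * r)) = (1 - x 2) / 2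
      rw [this, hr2, div_eq_div_iff (by positivity) (by norm_num)]
      nlinarith
    refine ⟨(((r : ℝ) : ℂ), ⟨x 0 / (2 * r), x 1 / (2 * r)⟩), ?_, ?_⟩
    · show ‖((r : ℝ) : ℂ)‖ ^ 2 + ‖(⟨x 0 / (2 * r), x 1 / (2 * r)⟩ : ℂ)‖ ^ 2 = 1
      rw [hn, hm]
      ring
    · have f0 : (2 * (⟨x 0 / (2 * r), x 1 / (2 * r)⟩ : ℂ) * conj ((r : ℝ) : ℂ)).re = x 0 := by
        simp [Complex.mul_re, Complex.mul_im]
        field_simp
      have f1 : (2 * (⟨x 0 / (2 * r), x 1 / (2 * r)⟩ : ℂ) * conj ((r : ℝ) : ℂ)).im = x 1 := by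
        simp [Complex.mul_re, Complex.mul_im]
        field_simp
      have f2 : ‖((r : ℝ) : ℂ)‖ ^ 2 - ‖(⟨x 0 / (2 * r), x 1 / (2 * r)⟩ : ℂ)‖ ^ 2 = x 2 := by
        rw [hn, hm]
        ring
      ext i
      fin_cases i
      · exact f0
      · exact f1
      · exact f2

end Pool.Agent.LE60
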