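import Pool.Agent.LE60.LBa

/-!
# LE60/LB: the local bound

`dP B n ≤ dP B (nB B) · exp (4 log s (nB B - n) + C₁ s (log s)^(3/2))` for all `n`.

PROOF. Write `N₀ = nB B`, `K = 4 log s`, `L = √(26 log s)`.
CASE `n ≤ N₀`: `dP_chain`: `dP B n ≤ (s²)^{N₀-n} dP B N₀ ≤ e^{K(N₀-n)} dP B N₀`.
CASE `n > N₀`. Let `n⁺ = ⌈(1+100L/s)² area B/π⌉₊` (so `lb_step` applies to every `n ≥ n⁺`, and
`n⁺ ≥ N₀`). For `n ≥ n⁺`: induction gives `dP B n ≤ s^{-4(n - n⁺)} dP B n⁺ = e^{-K(n-n⁺)} dP B n⁺`, and
`dP B n⁺ ≤ dP B N₀` (`dP_succ_le`). For `N₀ < n < n⁺`: `dP B n ≤ dP B N₀`. In both cases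
`dP B n ≤ dP B N₀ · exp (K (N₀ - n) + K (n⁺ - N₀))`, and
`n⁺ - N₀ ≤ ((1+100L/s)² - 1) area B/π + 2 ≤ (300 L/s) s² + 2 = 300 L s + 2` when `100 L ≤ s` (true for
`s ≥ s₀`). Finally `K (300 L s + 2) = 4 log s (300 √26 √(log s) s + 2) ≤ C₁ s log s √(log s)`
(`log s ≥ 1`, `s ≥ 1`).
-/

set_option autoImplicit false

namespace Pool.Agent.LE60

theorem lb : ∃ C₁ s₀ : ℝ, 0 ≤ C₁ ∧ 3 ≤ s₀ ∧ ∀ s : ℝ, s₀ ≤ s → ∀ B : Set ℂ, Fat s B → ∀ n : ℕ,
    dP B n ≤ dP B (nB B) *
      Real.exp (4 * Real.log s * ((nB B : ℝ) - n) + C₁ * (s * er s)) := by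
  obtain ⟨s1, hs1, hstep⟩ := lb_step
  refine ⟨10000, max s1 (10 ^ 6), by norm_num, hs1.trans (le_max_left _ _),
    fun s hs B hB n => ?_⟩
  have h1 : s1 ≤ s := (le_max_left _ _).trans hs
  have h2 : (10 : ℝ) ^ 6 ≤ s := (le_max_right _ _).trans hs
  have hs0 : 0 < s := lt_of_lt_of_le (by norm_num) h2
  have hs' : 1 ≤ s := le_trans (by norm_num) h2
  have hlog : 1 ≤ Real.log s := by
    rw [Real.le_log_iff_exp_le hs0]
    have := Real.exp_one_lt_d9
    linarith
  have hlogs : Real.log s ≤ s := (Real.log_le_sub_one_of_pos hs0).trans (by linarith)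
  have hanti : Antitone (dP B) := antitone_nat_of_succ_le fun k => dP_succ_le B k
  have hd0 : 0 ≤ dP B (nB B) := dP_nonneg _ _
  have hq1 : 1 ≤ Real.sqrt (Real.log s) := by
    rw [show (1 : ℝ) = Real.sqrt 1 by simp]
    exact Real.sqrt_le_sqrt hlog
  have her : 0 ≤ er s := by
    unfold er
    positivity
  rcases le_total n (nB B) with hn | hn
  · have h3 := dP_chain hs0 hB hn le_rfl
    refine h3.trans ?_
    rw [mul_comm]
    refine mul_le_mul_of_nonneg_left ?_ hd0
    have h4 : (s ^ 2) ^ (nB B - n) = Real.exp (((nB B - n : ℕ) : ℝ) * (2 * Real.log s)) := by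
      rw [Real.exp_nat_mul, show 2 * Real.log s = ((2 : ℕ) : ℝ) * Real.log s by push_cast; ring,
        Real.exp_nat_mul, Real.exp_log hs0]
    rw [h4, Nat.cast_sub hn]
    apply Real.exp_le_exp.2
    have h5 : (0 : ℝ) ≤ (nB B : ℝ) - n := by
      have : (n : ℝ) ≤ nB B := by exact_mod_cast hn
      linarith
    have h6 : 0 ≤ 10000 * (s * er s) := by positivity
    have h7 : 0 ≤ Real.log s * ((nB B : ℝ) - n) := by positivity
    nlinarith
  · -- n ≥ N₀
    set L : ℝ := Real.sqrt (26 * Real.log s) with hL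
    have hL0 : 0 ≤ L := Real.sqrt_nonneg _
    have hL1 : L ≤ 5.1 * Real.sqrt (Real.log s) := by
      rw [hL, Real.sqrt_mul (by norm_num)]
      refine mul_le_mul_of_nonneg_right ?_ (Real.sqrt_nonneg _)
      rw [Real.sqrt_le_left (by norm_num)]
      norm_num
    have hL2 : 100 * L ≤ s := by
      have h3 : (100 * L) ^ 2 ≤ s ^ 2 := by
        rw [mul_pow, hL, Real.sq_sqrt (by positivity)]
        nlinarith
      exact le_of_sq_le_sq h3 hs0.le
    set x : ℝ := 100 * L / s with hx
    have hx0 : 0 ≤ x := by positivity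
    have hx1 : x ≤ 1 := by
      rw [hx, div_le_one hs0]
      exact hL2
    set a : ℝ := area B / Real.pi with ha
    have ha0 : 0 ≤ a := div_nonneg ENNReal.toReal_nonneg Real.pi_pos.le
    have ha1 : a ≤ s ^ 2 := by
      rw [ha, div_le_iff₀ Real.pi_pos]
      have := hB.area_le hs0.le
      linarith
    have harea : area B = Real.pi * a := by
      rw [ha]
      field_simp
    have hN1 : a < nB B + 1 := Nat.lt_floor_add_one a
    have hN2 : (nB B : ℝ) ≤ a := Nat.floor_le ha0
    set np : ℕ := ⌈(1 + x) ^ 2 * a⌉₊ with hnp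
    have hp1 : (1 + x) ^ 2 * a ≤ np := Nat.le_ceil _
    have hp2 : (np : ℝ) < (1 + x) ^ 2 * a + 1 := Nat.ceil_lt_add_one (by positivity)
    have hNp : nB B ≤ np := by
      have : (nB B : ℝ) ≤ np := by
        have h3 : a ≤ (1 + x) ^ 2 * a := by nlinarith [mul_nonneg hx0 ha0, mul_nonneg (mul_nonneg hx0 hx0) ha0]
        linarith
      exact_mod_cast this
    have hexp : Real.exp (-(4 * Real.log s)) = 1 / s ^ 4 := by
      rw [Real.exp_neg, show 4 * Real.log s = ((4 : ℕ) : ℝ) * Real.log s by push_cast; ring,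
        Real.exp_nat_mul, Real.exp_log hs0, one_div]
    have hind : ∀ k : ℕ, np ≤ k →
        dP B k ≤ dP B (nB B) * Real.exp (4 * Real.log s * ((np : ℝ) - k)) := by
      intro k hk
      induction k, hk using Nat.le_induction with
      | base =>
        rw [sub_self, mul_zero, Real.exp_zero, mul_one]
        exact hanti hNp
      | succ k hk ih =>
        have h3 := hstep s h1 B hB k (by
          have h4 : (np : ℝ) ≤ k := by exact_mod_cast hk
          have h5 : (1 + x) ^ 2 * a ≤ k := hp1.trans h4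
          have h6 : (1 + 100 * Real.sqrt (26 * Real.log s) / s) ^ 2 * area B =
              Real.pi * ((1 + x) ^ 2 * a) := by
            rw [harea, hx, hL]
            ring
          rw [h6]
          have := mul_le_mul_of_nonneg_left h5 Real.pi_pos.le
          linarith)
        refine h3.trans ?_
        rw [← hexp]
        calc Real.exp (-(4 * Real.log s)) * dP B k
            ≤ Real.exp (-(4 * Real.log s)) *
              (dP B (nB B) * Real.exp (4 * Real.log s * ((np : ℝ) - k))) :=
              mul_le_mul_of_nonneg_left ih (Real.exp_pos _).le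
          _ = dP B (nB B) * (Real.exp (-(4 * Real.log s)) *
                Real.exp (4 * Real.log s * ((np : ℝ) - k))) := by ring
          _ = dP B (nB B) * Real.exp (4 * Real.log s * ((np : ℝ) - ((k + 1 : ℕ) : ℝ))) := by
              rw [← Real.exp_add]
              congr 2
              push_cast
              ring
    have hall : dP B n ≤ dP B (nB B) * Real.exp (4 * Real.log s * ((np : ℝ) - n)) := by
      rcases le_total np n with h3 | h3
      · exact hind n h3
      · have h4 : dP B n ≤ dP B (nB B) := hanti hn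
        have h5 : (n : ℝ) ≤ np := by exact_mod_cast h3
        have h6 : 1 ≤ Real.exp (4 * Real.log s * ((np : ℝ) - n)) := by
          rw [Real.one_le_exp_iff]
          have : 0 ≤ (np : ℝ) - n := by linarith
          positivity
        calc dP B n ≤ dP B (nB B) * 1 := by rw [mul_one]; exact h4
          _ ≤ _ := mul_le_mul_of_nonneg_left h6 hd0
    refine hall.trans (mul_le_mul_of_nonneg_left (Real.exp_le_exp.2 ?_) hd0)
    have h3 : (np : ℝ) - nB B ≤ 300 * L * s + 2 := by
      have h4 : (np : ℝ) - nB B ≤ ((1 + x) ^ 2 - 1) * a + 2 := by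
        have : ((1 + x) ^ 2 - 1) * a = (1 + x) ^ 2 * a - a := by ring
        linarith
      have h5 : ((1 + x) ^ 2 - 1) * a ≤ 3 * x * s ^ 2 := by
        have h6 : (1 + x) ^ 2 - 1 ≤ 3 * x := by nlinarith
        exact mul_le_mul h6 ha1 ha0 (by positivity)
      have h7 : 3 * x * s ^ 2 = 300 * L * s := by
        rw [hx]
        field_simp
        ring
      linarith
    have h4 : 4 * Real.log s * ((np : ℝ) - nB B) ≤ 10000 * (s * er s) := by
      calc 4 * Real.log s * ((np : ℝ) - nB B) ≤ 4 * Real.log s * (300 * L * s + 2) :=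
            mul_le_mul_of_nonneg_left h3 (by positivity)
        _ ≤ 4 * Real.log s * (300 * (5.1 * Real.sqrt (Real.log s)) * s +
              2 * (Real.sqrt (Real.log s) * s)) := by
            apply mul_le_mul_of_nonneg_left _ (by positivity)
            have h5 : 300 * L * s ≤ 300 * (5.1 * Real.sqrt (Real.log s)) * s := by
              apply mul_le_mul_of_nonneg_right _ hs0.le
              linarith
            have h6 : 1 ≤ Real.sqrt (Real.log s) * s := by nlinarith
            linarith
        _ = 6128 * (s * (Real.log s * Real.sqrt (Real.log s))) := by ring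
        _ ≤ 10000 * (s * (Real.log s * Real.sqrt (Real.log s))) := by
            apply mul_le_mul_of_nonneg_right (by norm_num) (by positivity)
    have h5 : 4 * Real.log s * ((np : ℝ) - n) =
        4 * Real.log s * ((nB B : ℝ) - n) + 4 * Real.log s * ((np : ℝ) - nB B) := by ring
    rw [h5]
    linarith

end Pool.Agent.LE60
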