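import Pool.Agent.LE60.DnP
import Pool.Agent.LE60.Thick

/-!
# LE60/LBa: the two one-step estimates, and well conditioned near-maximizers

Notation: `nB B = ⌊area B/π⌋`, so `π nB ≤ area B < π (nB + 1)`; `area B ≤ π s²`.
PROOFS.
* `dP_chain`: induction on `k - n`: for `n ≤ j < k ≤ nB B` we have `π (j+1) ≤ area B`, hence
  `1 - π j/area B ≥ π/area B ≥ 1/s²` and `dP B j ≤ s² dP B (j+1)` by `dP_add`.
* `lb_step`: let `L = √(26 log s)`, `r = s/100`, `B' = dil o (1 + 100 L/s) B` (`thick_out`: contains every `w`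
  with `‖w - z‖ ≤ L`, `z ∈ B`), `area B' = (1 + 100 L/s)² area B`. Let `m = n + 1`.
  CASE `m ≤ s⁴`: `dP_overfill` with this `L`: factor `2 m² e^{-L²/2} ≤ 2 s^8 s^{-13} ≤ s^{-4}`.
  CASE `m > s⁴`: use `dP_overfill` with `L' = √m/200`: `area (dil o (1+100L'/s) B) ≤ π (s + 100 L')²
  = π (s + √m/2)² ≤ π (m - 1)` since `s ≤ m^{1/4}` and `m` is large (`s ≥ s₀`); factor
  `2 m² exp(-m/80000) ≤ 1/m ≤ s^{-4}` for `m ≥ s₀⁴` large (choose `s₀` large: `2 m³ ≤ exp(m/80000)`
  eventually).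
* `good`: `n = nB B`. `n = 0`: trivial. `n ≥ 1`: `exists_near` (`dP_pos`) gives `f` with
  `gdet kp f ≥ dP B n / 2 > 0`; `inv_diag`: `(G⁻¹)_ii = gdet (f ∘ i.succAbove)/gdet f ≤ dP B (n-1)/(dP B n/2)
  ≤ 2 area B/π ≤ 2 s²` (by the one-step estimate in `dP_chain`: `dP B (n-1) ≤ s² dP B n`). So
  `tr G⁻¹ ≤ n 2 s² ≤ 2 s⁴`, and `sub_trace_inv` gives `G - (1/tr G⁻¹) 1` PSD, `1/tr G⁻¹ ≥ 1/(2 s⁴)`.
-/

set_option autoImplicit false

namespace Pool.Agent.LE60

open MeasureTheory Matrix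
open scoped ComplexOrder ComplexConjugate

theorem nB_le {B : Set ℂ} : Real.pi * nB B ≤ area B := by
  have h := Nat.floor_le (a := area B / Real.pi) (div_nonneg ENNReal.toReal_nonneg Real.pi_pos.le)
  rw [le_div_iff₀ Real.pi_pos] at h
  unfold nB
  linarith

theorem lt_nB {B : Set ℂ} : area B < Real.pi * (nB B + 1) := by
  have h := Nat.lt_floor_add_one (area B / Real.pi)
  rw [div_lt_iff₀ Real.pi_pos] at h
  unfold nB
  linarith

private theorem area_pos {s : ℝ} (hs : 0 < s) {B : Set ℂ} (hB : Fat s B) : 0 < area B := by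
  have h := hB.le_area hs.le
  have : 0 < Real.pi * (s / 100) ^ 2 := by positivity
  linarith

private theorem dP_one {s : ℝ} (hs : 0 < s) {B : Set ℂ} (hB : Fat s B) {n : ℕ}
    (hn : n + 1 ≤ nB B) : dP B n ≤ s ^ 2 * dP B (n + 1) := by
  have h0 := area_pos hs hB
  have h1 := dP_add hB.measurable h0 n
  have h2 := hB.area_le hs.le
  have h3 : Real.pi * (nB B) ≤ area B := nB_le
  have h4 : ((n : ℝ) + 1) ≤ nB B := by exact_mod_cast hn
  have h5 : Real.pi * (n + 1) ≤ area B :=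
    (mul_le_mul_of_nonneg_left h4 Real.pi_pos.le).trans h3
  have h6 : 1 / s ^ 2 ≤ 1 - Real.pi * n / area B := by
    have e : 1 - Real.pi * n / area B = (area B - Real.pi * n) / area B := by
      field_simp
    rw [e, div_le_div_iff₀ (by positivity) h0]
    nlinarith [Real.pi_pos, sq_nonneg s]
  have h7 : 1 / s ^ 2 * dP B n ≤ dP B (n + 1) :=
    (mul_le_mul_of_nonneg_right h6 (dP_nonneg B n)).trans h1
  have h8 : dP B n = s ^ 2 * (1 / s ^ 2 * dP B n) := by
    field_simp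
  rw [h8]
  exact mul_le_mul_of_nonneg_left h7 (by positivity)

theorem dP_chain {s : ℝ} (hs : 0 < s) {B : Set ℂ} (hB : Fat s B) {n k : ℕ} (hnk : n ≤ k)
    (hk : k ≤ nB B) : dP B n ≤ (s ^ 2) ^ (k - n) * dP B k := by
  induction k, hnk using Nat.le_induction with
  | base => simp
  | succ k hnk ih =>
    have h1 := ih (by omega)
    have h2 := dP_one hs hB hk
    rw [Nat.succ_sub hnk, pow_succ, mul_assoc]
    exact h1.trans (mul_le_mul_of_nonneg_left h2 (by positivity))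

theorem lb_step : ∃ s₀ : ℝ, 3 ≤ s₀ ∧ ∀ s : ℝ, s₀ ≤ s → ∀ B : Set ℂ, Fat s B → ∀ n : ℕ,
    (1 + 100 * Real.sqrt (26 * Real.log s) / s) ^ 2 * area B + Real.pi ≤ Real.pi * (n + 1) →
    dP B (n + 1) ≤ (1 / s ^ 4) * dP B n := by
  refine ⟨10 ^ 6, by norm_num, fun s hs B hB n hn => ?_⟩
  have hs0 : 0 < s := lt_of_lt_of_le (by norm_num) hs
  have hs1 : 1 ≤ s := le_trans (by norm_num) hs
  obtain ⟨o, ho, -⟩ := hB.balls
  have hr : 0 < s / 100 := by positivity
  have key : ∀ L : ℝ, 0 ≤ L → (1 + L / (s / 100)) ^ 2 * area B + Real.pi ≤ Real.pi * (n + 1) →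
      dP B (n + 1) ≤ 2 * (n + 1) ^ 2 * Real.exp (-(L ^ 2) / 2) * dP B n := by
    intro L hL hA
    obtain ⟨m1, m2⟩ := measurable_dil o (1 + L / (s / 100)) hB.compact
    refine dP_overfill m1 m2 hL ?_ n ?_
    · intro z hz w hw
      exact thick_out hB.conv hr hL ho hz hw.le
    · rw [area_dil]
      exact hA
  have hm0 : (0 : ℝ) < (n : ℝ) + 1 := by positivity
  have hd := dP_nonneg B n
  rcases le_total ((n : ℝ) + 1) (s ^ 4) with hm | hm
  · -- small m
    have hlog : 0 ≤ Real.log s := Real.log_nonneg hs1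
    have h1 := key (Real.sqrt (26 * Real.log s)) (Real.sqrt_nonneg _) (by
      have e : Real.sqrt (26 * Real.log s) / (s / 100) = 100 * Real.sqrt (26 * Real.log s) / s := by
        field_simp
      rw [e]
      exact hn)
    refine h1.trans (mul_le_mul_of_nonneg_right ?_ hd)
    have h2 : Real.exp (-(Real.sqrt (26 * Real.log s) ^ 2) / 2) = 1 / s ^ 13 := by
      rw [Real.sq_sqrt (by positivity)]
      rw [show -(26 * Real.log s) / 2 = -(((13 : ℕ) : ℝ) * Real.log s) by push_cast; ring, Real.exp_neg,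
        Real.exp_nat_mul, Real.exp_log hs0, one_div]
    rw [h2]
    have h3 : ((n : ℝ) + 1) ^ 2 ≤ (s ^ 4) ^ 2 := pow_le_pow_left₀ hm0.le hm 2
    have h4 : (2 : ℝ) ≤ s := le_trans (by norm_num) hs
    rw [mul_one_div, div_le_div_iff₀ (by positivity) (by positivity), one_mul]
    calc 2 * ((n : ℝ) + 1) ^ 2 * s ^ 4 ≤ s * (s ^ 4) ^ 2 * s ^ 4 := by
          apply mul_le_mul_of_nonneg_right _ (by positivity)
          exact mul_le_mul h4 h3 (by positivity) hs0.le
      _ = s ^ 13 := by ring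
  · -- large m
    set m : ℝ := (n : ℝ) + 1 with hmdef
    have hq : s ^ 2 ≤ Real.sqrt m := by
      apply Real.le_sqrt_of_sq_le
      calc (s ^ 2) ^ 2 = s ^ 4 := by ring
        _ ≤ m := hm
    have hs3 : s ≤ Real.sqrt m / 3 := by
      have : 3 ≤ s := le_trans (by norm_num) hs
      nlinarith
    have hsq : Real.sqrt m ^ 2 = m := Real.sq_sqrt hm0.le
    have hsm : 0 ≤ Real.sqrt m := Real.sqrt_nonneg m
    have hmbig : (10 : ℝ) ^ 24 ≤ m := by
      calc (10 : ℝ) ^ 24 = (10 ^ 6) ^ 4 := by norm_num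
        _ ≤ s ^ 4 := pow_le_pow_left₀ (by norm_num) hs 4
        _ ≤ m := hm
    have h1 := key (Real.sqrt m / 200) (by positivity) (by
      have e : (1 + Real.sqrt m / 200 / (s / 100)) ^ 2 * area B ≤
          Real.pi * (s + Real.sqrt m / 2) ^ 2 := by
        calc (1 + Real.sqrt m / 200 / (s / 100)) ^ 2 * area B
            ≤ (1 + Real.sqrt m / 200 / (s / 100)) ^ 2 * (Real.pi * s ^ 2) :=
              mul_le_mul_of_nonneg_left (hB.area_le hs0.le) (by positivity)
          _ = Real.pi * (s + Real.sqrt m / 2) ^ 2 := by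
              field_simp
              ring
      have e2 : (s + Real.sqrt m / 2) ^ 2 ≤ (25 / 36) * m := by
        calc (s + Real.sqrt m / 2) ^ 2 ≤ (Real.sqrt m / 3 + Real.sqrt m / 2) ^ 2 :=
              pow_le_pow_left₀ (by positivity) (by linarith) 2
          _ = (25 / 36) * Real.sqrt m ^ 2 := by ring
          _ = (25 / 36) * m := by rw [hsq]
      have e3 : (25 / 36) * m + 1 ≤ m := by
        have : (100 : ℝ) ≤ 10 ^ 24 := by norm_num
        linarith
      have e4 : Real.pi * (s + Real.sqrt m / 2) ^ 2 + Real.pi ≤ Real.pi * m := by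
        have := Real.pi_pos
        nlinarith
      linarith)
    refine h1.trans (mul_le_mul_of_nonneg_right ?_ hd)
    have h2 : -((Real.sqrt m / 200) ^ 2) / 2 = -(m / 80000) := by
      rw [div_pow, hsq]
      ring
    rw [h2, Real.exp_neg]
    have h3 := Real.pow_div_factorial_le_exp (x := m / 80000) (by positivity) 4
    have h4 : 2 * m ^ 3 ≤ Real.exp (m / 80000) := by
      refine le_trans ?_ h3
      have : (Nat.factorial 4 : ℝ) = 24 := by norm_num [Nat.factorial]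
      rw [this, le_div_iff₀ (by norm_num), div_pow, le_div_iff₀ (by norm_num)]
      have h5 : 2 * 24 * (80000 : ℝ) ^ 4 ≤ m := le_trans (by norm_num) hmbig
      calc 2 * m ^ 3 * 24 * 80000 ^ 4 = m ^ 3 * (2 * 24 * (80000 : ℝ) ^ 4) := by ring
        _ ≤ m ^ 3 * m := mul_le_mul_of_nonneg_left h5 (by positivity)
        _ = m ^ 4 := by ring
    have h5 : 0 < Real.exp (m / 80000) := Real.exp_pos _
    have h6 : 2 * m ^ 2 * (Real.exp (m / 80000))⁻¹ ≤ 1 / m := by
      rw [← div_eq_mul_inv, div_le_div_iff₀ h5 hm0]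
      calc 2 * m ^ 2 * m = 2 * m ^ 3 := by ring
        _ ≤ 1 * Real.exp (m / 80000) := by rw [one_mul]; exact h4
    refine h6.trans ?_
    exact one_div_le_one_div_of_le (by positivity) hm

private theorem good_succ {s : ℝ} (hs : 0 < s) {B : Set ℂ} (hB : Fat s B) {n : ℕ}
    (hn : n + 1 = nB B) :
    ∃ f : Fin (n + 1) → ℂ, (∀ i, f i ∈ B) ∧ dP B (n + 1) / 2 ≤ gdet kp f ∧
      (gram kp f - ((1 / (2 * s ^ 4) : ℝ) : ℂ) •
        (1 : Matrix (Fin (n + 1)) (Fin (n + 1)) ℂ)).PosSemidef := by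
  have ha := area_pos hs hB
  have h1 : Real.pi * ((n + 1 : ℕ) : ℝ) ≤ area B := by
    rw [hn]
    exact nB_le
  have h2 := dP_pos hB.measurable ha (n + 1) h1
  obtain ⟨f, hf, hf2⟩ := exists_near h2
  refine ⟨f, hf, hf2, ?_⟩
  have hg : 0 < gdet kp f := lt_of_lt_of_le (by positivity) hf2
  have hdet : (gram kp f).det ≠ 0 := by
    intro h
    unfold gdet at hg
    rw [h] at hg
    simp at hg
  have hpd : (gram kp f).PosDef := (kp_psd f).posDef_iff_det_ne_zero.2 hdet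
  have hstep := dP_one hs hB (n := n) hn.le
  have hdiag : ∀ i : Fin (n + 1), (((gram kp f)⁻¹) i i).re ≤ 2 * s ^ 2 := by
    intro i
    rw [inv_diag kp_conj f hdet i, div_le_iff₀ hg]
    have e1 : gdet kp (f ∘ i.succAbove) ≤ dP B n := by
      have := gdet_le_dP (B := B) (f ∘ i.succAbove) (fun j => hf _)
      rwa [Fintype.card_fin] at this
    calc gdet kp (f ∘ i.succAbove) ≤ dP B n := e1
      _ ≤ s ^ 2 * dP B (n + 1) := hstep
      _ = 2 * s ^ 2 * (dP B (n + 1) / 2) := by ring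
      _ ≤ 2 * s ^ 2 * gdet kp f := mul_le_mul_of_nonneg_left hf2 (by positivity)
  have hn2 : ((n : ℝ) + 1) ≤ s ^ 2 := by
    have e1 := hB.area_le hs.le
    push_cast at h1
    have e2 : Real.pi * ((n : ℝ) + 1) ≤ Real.pi * s ^ 2 := h1.trans e1
    exact le_of_mul_le_mul_left e2 Real.pi_pos
  have htr : ((gram kp f)⁻¹).trace.re ≤ 2 * s ^ 4 := by
    unfold Matrix.trace
    rw [Complex.re_sum]
    simp only [Matrix.diag_apply]
    calc ∑ i, (((gram kp f)⁻¹) i i).re ≤ ∑ _i : Fin (n + 1), 2 * s ^ 2 :=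
          Finset.sum_le_sum fun i _ => hdiag i
      _ = ((n : ℝ) + 1) * (2 * s ^ 2) := by
          rw [Finset.sum_const, Finset.card_univ, Fintype.card_fin, nsmul_eq_mul]
          push_cast
          ring
      _ ≤ s ^ 2 * (2 * s ^ 2) := mul_le_mul_of_nonneg_right hn2 (by positivity)
      _ = 2 * s ^ 4 := by ring
  have htr0 : 0 < ((gram kp f)⁻¹).trace.re := by
    have := hpd.inv.trace_pos
    rw [Complex.lt_def] at this
    simpa using this.1
  have h3 := sub_trace_inv hpd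
  have h4 : (0 : ℝ) ≤ 1 / ((gram kp f)⁻¹).trace.re - 1 / (2 * s ^ 4) :=
    sub_nonneg.2 (one_div_le_one_div_of_le htr0 htr)
  have h5 : (((1 / ((gram kp f)⁻¹).trace.re - 1 / (2 * s ^ 4) : ℝ) : ℂ) •
      (1 : Matrix (Fin (n + 1)) (Fin (n + 1)) ℂ)).PosSemidef :=
    Matrix.PosSemidef.one.smul (Complex.zero_le_real.2 h4)
  have h6 := h3.add h5
  have e : gram kp f - ((1 / ((gram kp f)⁻¹).trace.re : ℝ) : ℂ) •
      (1 : Matrix (Fin (n + 1)) (Fin (n + 1)) ℂ) +
      ((1 / ((gram kp f)⁻¹).trace.re - 1 / (2 * s ^ 4) : ℝ) : ℂ) •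
      (1 : Matrix (Fin (n + 1)) (Fin (n + 1)) ℂ) =
      gram kp f - ((1 / (2 * s ^ 4) : ℝ) : ℂ) • (1 : Matrix (Fin (n + 1)) (Fin (n + 1)) ℂ) := by
    rw [Complex.ofReal_sub, sub_smul]
    abel
  rwa [e] at h6

theorem good {s : ℝ} (hs : 0 < s) {B : Set ℂ} (hB : Fat s B) :
    ∃ f : Fin (nB B) → ℂ, (∀ i, f i ∈ B) ∧ dP B (nB B) / 2 ≤ gdet kp f ∧
      (gram kp f - ((1 / (2 * s ^ 4) : ℝ) : ℂ) • (1 : Matrix (Fin (nB B)) (Fin (nB B)) ℂ)).PosSemidef := by
  have main : ∀ k : ℕ, k = nB B → ∃ f : Fin k → ℂ, (∀ i, f i ∈ B) ∧ dP B k / 2 ≤ gdet kp f ∧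
      (gram kp f - ((1 / (2 * s ^ 4) : ℝ) : ℂ) • (1 : Matrix (Fin k) (Fin k) ℂ)).PosSemidef := by
    intro k hk
    cases k with
    | zero =>
      refine ⟨fun i => i.elim0, fun i => i.elim0, ?_, ?_⟩
      · rw [dP_zero]
        unfold gdet
        rw [Matrix.det_isEmpty]
        norm_num
      · have e : (gram kp (fun i : Fin 0 => (i.elim0 : ℂ)) - ((1 / (2 * s ^ 4) : ℝ) : ℂ) •
            (1 : Matrix (Fin 0) (Fin 0) ℂ)) = 0 := by
          ext i
          exact i.elim0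
        rw [e]
        exact Matrix.PosSemidef.zero
    | succ n => exact good_succ hs hB hk
  exact main _ rfl

end Pool.Agent.LE60
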