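import Pool.Agent.LE60.Tile
import Pool.Agent.LE60.Thick

/-!
# LE60/PKg, packing: many copies of a triangle of size `s`, with gaps `L`, in a fat set of size `S`

PROOF. `T = tri p q r`, `closedBall o (s/100) ⊆ T ⊆ closedBall o s`. `T' = dil o (1 + 100 L/s) T`, a triangle
(`dil_tri`) with area `(1+100L/s)² area T` (`area_dil`), containing all `w` with `‖w - x‖ ≤ L`, `x ∈ T` (`thick_out`,
`r = s/100`), of diameter `≤ 2 (1 + 100 L/s) s ≤ 4 s`. Let `(a, e, τ)` be the `tiling` of `T'`. Let `F` be the set of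
indices `c` whose closed tile `a c + e c T'` is contained in `B`. The fibres `τ⁻¹{c} ⊆` tile are disjoint with area
`area T'`: `F` is finite and `|F| area T' ≤ area B`. If `z ∈ B⁻ := dil o_B (1 - 400 s/S) B` then the tile of `τ z` contains `z`
and has diameter `≤ 4 s`, so it lies in `B` (`thick_in`, `r = S/100`, `L = 4 s`): `τ z ∈ F`. Hence
`area B⁻ = (1 - 400 s/S)² area B ≤ |F| area T'` and `(1 - 400 s/S)² area B ≥ area B - 800 (s/S) π S²`.
Copies: `a c + e c x`, `x ∈ T` (they lie in the tile, hence in `B`). Separation: `z = a c + e c x`,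
`z' = a c' + e c' x'`, `c ≠ c'`, and suppose `‖z - z'‖ < L`. All `w'` with `‖w' - z'‖ < L - ‖z - z'‖` satisfy
`‖w' - z‖ < L`, so lie in the tile of `c` (`w' = a c + e c y`, `‖y - x‖ = ‖w' - z‖ < L`, `y ∈ T'`): `τ z' = c` by the last property of the
tiling. All `w'` with `‖w' - z'‖ < L` lie in the tile of `c'`: `τ z' = c'`. Contradiction. Enumerate `F ≃ Fin K`.
-/

set_option autoImplicit false

namespace Pool.Agent.LE60

open MeasureTheory

private theorem ee {e : ℂ} (he : e = 1 ∨ e = -1) : e * e = 1 := by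
  rcases he with rfl | rfl <;> ring

private theorem ne' {e : ℂ} (he : e = 1 ∨ e = -1) : ‖e‖ = 1 := by
  rcases he with rfl | rfl <;> simp

private theorem tile_near {s L : ℝ} (hs : 0 < s) (hL : 0 ≤ L) {T : Set ℂ} (hT : Convex ℝ T)
    {o : ℂ} (ho : Metric.closedBall o (s / 100) ⊆ T) {a e x w : ℂ} (he : e = 1 ∨ e = -1)
    (hx : x ∈ T) (hw : ‖w - (a + e * x)‖ ≤ L) :
    ∃ y ∈ dil o (1 + L / (s / 100)) T, w = a + e * y := by
  refine ⟨e * (w - a), thick_out hT (by positivity) hL ho hx ?_, ?_⟩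
  · have e1 : e * (w - a) - x = e * (w - (a + e * x)) := by
      linear_combination x * ee he
    rw [e1, norm_mul, ne' he, one_mul]
    exact hw
  · linear_combination (a - w) * ee he

private theorem vol_eq {A : Set ℂ} (h : 0 < area A) : volume A = ENNReal.ofReal (area A) := by
  unfold area at h ⊢
  have h1 : volume A ≠ ⊤ := by
    intro h0
    rw [h0] at h
    simp at h
  rw [ENNReal.ofReal_toReal h1]

private theorem card_le {ι : Type*} [DecidableEq ι] {τ : ℂ → ι}
    (hm : ∀ c, MeasurableSet (τ ⁻¹' {c})) {A : ℝ} (hA : 0 < A) (ha : ∀ c, area (τ ⁻¹' {c}) = A)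
    {B : Set ℂ} (hB : volume B ≠ ⊤) (F : Finset ι) (hF : ∀ c ∈ F, τ ⁻¹' {c} ⊆ B) :
    F.card * A ≤ area B := by
  have h1 : volume (⋃ c ∈ F, τ ⁻¹' {c}) = ∑ c ∈ F, volume (τ ⁻¹' {c}) := by
    refine measure_biUnion_finset ?_ fun c _ => hm c
    intro c _ c' _ hne
    refine Set.disjoint_left.2 fun z hz hz' => hne ?_
    rw [Set.mem_preimage, Set.mem_singleton_iff] at hz hz'
    rw [← hz, ← hz']
  have h2 : volume (⋃ c ∈ F, τ ⁻¹' {c}) ≤ volume B :=
    measure_mono (Set.iUnion₂_subset hF)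
  have h3 : ∀ c ∈ F, volume (τ ⁻¹' {c}) = ENNReal.ofReal A := by
    intro c _
    rw [vol_eq (by rw [ha c]; exact hA), ha c]
  rw [h1, Finset.sum_congr rfl h3, Finset.sum_const, nsmul_eq_mul] at h2
  have h4 := ENNReal.toReal_mono hB h2
  rw [ENNReal.toReal_mul, ENNReal.toReal_natCast, ENNReal.toReal_ofReal hA.le] at h4
  exact h4

private theorem le_card {ι : Type*} [DecidableEq ι] {τ : ℂ → ι}
    {A : ℝ} (hA : 0 < A) (ha : ∀ c, area (τ ⁻¹' {c}) = A)
    {B : Set ℂ} (F : Finset ι) (hF : ∀ z ∈ B, τ z ∈ F) : area B ≤ F.card * A := by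
  have h1 : volume B ≤ ∑ c ∈ F, volume (τ ⁻¹' {c}) := by
    refine (measure_mono ?_).trans (measure_biUnion_finset_le F _)
    intro z hz
    rw [Set.mem_iUnion₂]
    exact ⟨τ z, hF z hz, rfl⟩
  have h3 : ∀ c ∈ F, volume (τ ⁻¹' {c}) = ENNReal.ofReal A := by
    intro c _
    rw [vol_eq (by rw [ha c]; exact hA), ha c]
  rw [Finset.sum_congr rfl h3, Finset.sum_const, nsmul_eq_mul] at h1
  have h4 := ENNReal.toReal_mono
    (ENNReal.mul_ne_top (ENNReal.natCast_ne_top _) ENNReal.ofReal_ne_top) h1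
  rw [ENNReal.toReal_mul, ENNReal.toReal_natCast, ENNReal.toReal_ofReal hA.le] at h4
  exact h4

theorem pack {s S L : ℝ} (hs : 0 < s) (hL : 0 < L) (hLs : 100 * L ≤ s) (hS : 400 * s ≤ S)
    {p q r : ℂ} (hT : Fat s (tri p q r)) {B : Set ℂ} (hB : Fat S B) :
    ∃ (K : ℕ) (a e : Fin K → ℂ),
      (∀ c, e c = 1 ∨ e c = -1) ∧
      (∀ c, ∀ x ∈ tri p q r, a c + e c * x ∈ B) ∧
      (∀ c c', c ≠ c' → ∀ x ∈ tri p q r, ∀ x' ∈ tri p q r,
        L ≤ ‖(a c + e c * x) - (a c' + e c' * x')‖) ∧
      K * ((1 + 100 * L / s) ^ 2 * area (tri p q r)) ≤ area B ∧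
      area B - 800 * Real.pi * (s * S) ≤ K * ((1 + 100 * L / s) ^ 2 * area (tri p q r)) := by
  classical
  have hSpos : 0 < S := by linarith
  obtain ⟨o, ho1, ho2⟩ := hT.balls
  obtain ⟨oB, hoB1, hoB2⟩ := hB.balls
  have et : 1 + 100 * L / s = 1 + L / (s / 100) := by
    field_simp
  have ht2 : 1 + L / (s / 100) ≤ 2 := by
    rw [← et]
    have : 100 * L / s ≤ 1 := by rw [div_le_one hs]; exact hLs
    linarith
  have ht0 : 0 < 1 + L / (s / 100) := by positivity
  set t := 1 + L / (s / 100) with ht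
  have hTdil := dil_tri o t p q r
  have hapos : 0 < area (tri p q r) := lt_of_lt_of_le (by positivity) (Fat.le_area hs.le hT)
  have harea : area (dil o t (tri p q r)) = t ^ 2 * area (tri p q r) := area_dil o t _
  have hA : 0 < t ^ 2 * area (tri p q r) := by positivity
  rw [hTdil] at harea
  obtain ⟨a', e', τ, he', hz', hm', ha', hu'⟩ := tiling _ _ _ (by rw [harea]; exact hA)
  rw [← hTdil] at hz' hu' ha' harea
  rw [harea] at ha'
  rw [et]
  -- norms in the tile
  have hdiam : ∀ y ∈ dil o t (tri p q r), ‖y - o‖ ≤ 2 * s := by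
    rintro y ⟨x, hx, rfl⟩
    have h1 := ho2 hx
    rw [Metric.mem_closedBall, dist_eq_norm] at h1
    have e1 : o + (t : ℂ) * (x - o) - o = (t : ℂ) * (x - o) := by ring
    show ‖o + (t : ℂ) * (x - o) - o‖ ≤ 2 * s
    rw [e1, norm_mul, Complex.norm_real, Real.norm_eq_abs, abs_of_pos ht0]
    exact mul_le_mul ht2 h1 (norm_nonneg _) (by norm_num)
  -- fibres are contained in tiles
  set F : Set (ℤ × ℤ × Bool) := {c | ∀ x ∈ dil o t (tri p q r), a' c + e' c * x ∈ B} with hF
  have hfib : ∀ c ∈ F, τ ⁻¹' {c} ⊆ B := by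
    intro c hc z hz
    rw [Set.mem_preimage, Set.mem_singleton_iff] at hz
    obtain ⟨x, hx, hzx⟩ := hz' z
    rw [hz] at hzx
    rw [hzx]
    exact hc x hx
  have hBtop : volume B ≠ ⊤ := hB.vol_ne_top
  have hfin : F.Finite := by
    by_contra hinf
    obtain ⟨n, hn⟩ := exists_nat_gt (area B / (t ^ 2 * area (tri p q r)))
    obtain ⟨F0, hF0, hcard⟩ := (Set.not_finite.1 hinf).exists_subset_card_eq n
    have h1 := card_le hm' hA ha' hBtop F0 fun c hc => hfib c (hF0 hc)
    rw [hcard] at h1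
    rw [div_lt_iff₀ hA] at hn
    linarith
  set K := hfin.toFinset.card with hK
  let f : Fin K → ℤ × ℤ × Bool := fun i => (hfin.toFinset.equivFin.symm i).1
  have hfinj : Function.Injective f := by
    intro i j hij
    exact hfin.toFinset.equivFin.symm.injective (Subtype.ext hij)
  have hfF : ∀ i, f i ∈ F := fun i => hfin.mem_toFinset.1 (hfin.toFinset.equivFin.symm i).2
  have hsub : ∀ x ∈ tri p q r, x ∈ dil o t (tri p q r) := by
    intro x hx
    refine thick_out hT.conv (by positivity) hL.le ho1 hx ?_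
    rw [sub_self, norm_zero]
    exact hL.le
  refine ⟨K, fun i => a' (f i), fun i => e' (f i), fun i => he' _, ?_, ?_, ?_, ?_⟩
  · intro i x hx
    exact hfF i x (hsub x hx)
  · intro i j hij x hx x' hx'
    by_contra hlt
    rw [not_le] at hlt
    apply hij
    apply hfinj
    have h1 : τ (a' (f j) + e' (f j) * x') = f i := by
      refine hu' _ _ (L - ‖(a' (f i) + e' (f i) * x) - (a' (f j) + e' (f j) * x')‖)
        (by linarith) fun w hw => ?_
      refine tile_near hs hL.le hT.conv ho1 (he' _) hx ?_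
      have e1 : w - (a' (f i) + e' (f i) * x) = (w - (a' (f j) + e' (f j) * x')) +
          -((a' (f i) + e' (f i) * x) - (a' (f j) + e' (f j) * x')) := by ring
      rw [e1]
      refine (norm_add_le _ _).trans ?_
      rw [norm_neg]
      linarith
    have h2 : τ (a' (f j) + e' (f j) * x') = f j := by
      refine hu' _ _ L hL fun w hw => ?_
      exact tile_near hs hL.le hT.conv ho1 (he' _) hx' hw.le
    exact h1.symm.trans h2
  · exact card_le hm' hA ha' hBtop _ fun c hc => hfib c (hfin.mem_toFinset.1 hc)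
  · have h1 : ∀ z ∈ dil oB (1 - 4 * s / (S / 100)) B, τ z ∈ hfin.toFinset := by
      intro z hz
      rw [hfin.mem_toFinset]
      intro x hx
      refine thick_in hB.conv (by positivity) (by positivity) (by linarith) hoB1 hz ?_
      obtain ⟨y, hy, hzy⟩ := hz' z
      have e1 : a' (τ z) + e' (τ z) * x - z = e' (τ z) * ((x - o) - (y - o)) := by
        nth_rewrite 3 [hzy]
        ring
      rw [e1, norm_mul, ne' (he' _), one_mul]
      refine (norm_sub_le _ _).trans ?_
      have h3 := hdiam x hx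
      have h4 := hdiam y hy
      linarith
    have h2 := le_card hA ha' _ h1
    rw [area_dil] at h2
    refine le_trans ?_ h2
    have h3 := Fat.area_le hSpos.le hB
    have h0 : 0 ≤ area B := ENNReal.toReal_nonneg
    have e2 : 4 * s / (S / 100) = 400 * (s / S) := by
      field_simp
      norm_num
    rw [e2]
    have h4 : (s / S) * area B ≤ Real.pi * (s * S) := by
      calc (s / S) * area B ≤ (s / S) * (Real.pi * S ^ 2) :=
            mul_le_mul_of_nonneg_left h3 (by positivity)
        _ = Real.pi * (s * S) := by field_simp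
    have h5 : (1 - 400 * (s / S)) ^ 2 * area B =
        area B - 800 * ((s / S) * area B) + (400 * (s / S)) ^ 2 * area B := by ring
    have h6 : 0 ≤ (400 * (s / S)) ^ 2 * area B := by positivity
    rw [h5]
    linarith

end Pool.Agent.LE60
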