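import Pool.Agent.LE60.LBa
import Pool.Agent.LE60.PKg
import Pool.Agent.LE60.MatS

/-!
# LE60/PK: energy of large regions from above

PROOF. `T = tri p q r`, `n = nB T`, `Δ = dP T n`. `L = √(30 log s)` (`100 L ≤ s`, `400 s ≤ s² ≤ S` for `s ≥ s₀`).
`(K, a, e)` from `pack`; `f : Fin n → T` from `good` (`gdet kp f ≥ Δ/2`, `G_f - (1/(2 s⁴)) 1` PSD). Configuration
`Z (c, i) = a c + e c f i` on `Σ c : Fin K, Fin n`, in `B`. Number of points `n₁ = K n`,
`K n ≤ K area T/π ≤ area B/π`, so `n₁ ≤ nB B ≤ S² ≤ s⁸`.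
`separated` for `A = gram kp Z`, `lam = 1/(2 s⁴)`: blocks by `psd_kp_mv`; off-diagonal entries are `≤ e^{-L²/2} = s^{-15}`
(`norm_kp`, `kp` distances `≥ L`), so row sums are `≤ η := s⁸ s^{-15} = s^{-7}` and `η/lam = 2 s^{-3}`. Hmm: we need
`n₁ η/lam ≤ C (S²/s) er s`: `n₁ ≤ S²` and `2 s^{-3} ≤ 1/s`. OK. So (`(1-x)^{n₁} ≥ exp (-2 n₁ x)`, `x = η/lam ≤ 1/2`)
`gdet kp Z ≥ exp (-2 n₁ η/lam) ∏_c gdet kp f ≥ exp (-4 S²/s³) (Δ/2)^K` (blocks: `gdet_kp_mv`).
`gdet_le_dP`: `dP B n₁ ≥ gdet kp Z`. `dP_chain` (`B` fat of size `S`): `dP B n₁ ≤ (S²)^{nB B - n₁} dP B (nB B)`.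
So `en B ≤ K en T + K log 2 + 4 S²/s³ + (nB B - n₁) 2 log S`. With `K ≤ area B/area T` (`en T ≥ 0`),
`K ≤ π S²/(π s²/10⁴)`, `log S ≤ 4 log s`, and
`nB B - n₁ ≤ area B/π - K (area T/π - 1) ≤ K ((1+100L/s)² - 1) area T/π + 800 s S + K ≤ 3 · 100 (L/s) S² + 800 s S + K
≤ C (S²/s) √(log s)` (`s S ≤ S²/s`), the last term is `≤ C (S²/s) √(log s) log s`.
-/

set_option autoImplicit false

namespace Pool.Agent.LE60

open MeasureTheory Matrix
open scoped ComplexOrder ComplexConjugate

private lemma neg_log_le {x : ℝ} (h0 : 0 ≤ x) (h1 : x ≤ 1 / 2) : -Real.log (1 - x) ≤ 2 * x := by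
  have hp : 0 < 1 - x := by linarith
  have h := Real.one_sub_inv_le_log_of_pos hp
  have h2 : (1 - x)⁻¹ ≤ 1 + 2 * x := by
    rw [inv_le_iff_one_le_mul₀ hp]
    nlinarith
  linarith

theorem pk : ∃ C s₀ : ℝ, 0 ≤ C ∧ 3 ≤ s₀ ∧ ∀ s : ℝ, s₀ ≤ s → ∀ S : ℝ, s ^ 2 ≤ S → S ≤ s ^ 4 →
    ∀ p q r : ℂ, Fat s (tri p q r) → ∀ B : Set ℂ, Fat S B →
    en B ≤ area B / area (tri p q r) * en (tri p q r) + C * (S ^ 2 / s * er s) := by
  refine ⟨200000, 300000, by norm_num, by norm_num, fun s hs S hS1 hS2 p q r hT B hB => ?_⟩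
  have hs0 : 0 < s := by linarith
  have hS0 : 0 < S := by
    have : 0 < s ^ 2 := by positivity
    linarith
  have hlog1 : 1 ≤ Real.log s := by
    rw [Real.le_log_iff_exp_le hs0]
    have := Real.exp_one_lt_d9
    linarith
  have hlogs : Real.log s ≤ s := by
    have := Real.log_le_sub_one_of_pos hs0
    linarith
  have hlog0 : 0 ≤ Real.log s := by linarith
  set T := tri p q r with hTdef
  set n := nB T with hn
  have hpi := Real.pi_pos
  -- areas
  have haT : 0 < area T := lt_of_lt_of_le (by positivity) (hT.le_area hs0.le)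
  have haB : 0 < area B := lt_of_lt_of_le (by positivity) (hB.le_area hS0.le)
  have haB' := hB.area_le hS0.le
  have haT' := hT.le_area hs0.le
  have hD0 : 0 < dP T n := dP_pos hT.measurable haT n nB_le
  have hDB : 0 < dP B (nB B) := dP_pos hB.measurable haB (nB B) nB_le
  have henT : 0 ≤ en T := by
    have := Real.log_nonpos hD0.le (dP_le_one T n)
    unfold en
    rw [← hn]
    linarith
  -- the gap
  set L := Real.sqrt (30 * Real.log s) with hL
  have hLpos : 0 < L := Real.sqrt_pos.2 (by positivity)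
  have hLsq : L ^ 2 = 30 * Real.log s := Real.sq_sqrt (by positivity)
  have hLs : 100 * L ≤ s := by
    apply le_of_sq_le_sq _ hs0.le
    · rw [mul_pow, hLsq]
      nlinarith
  have hLe : L ≤ 6 * Real.sqrt (Real.log s) := by
    rw [hL, Real.sqrt_mul (by norm_num)]
    have : Real.sqrt 30 ≤ 6 := by
      rw [Real.sqrt_le_left (by norm_num)]
      norm_num
    gcongr
  have hsS : 400 * s ≤ S := by nlinarith
  obtain ⟨K, a, e, he, haB1, hsep, hK1, hK2⟩ := pack hs0 hLpos hLs hsS hT hB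
  rw [← hTdef] at hK1 hK2
  obtain ⟨f, hf, hfd, hfp⟩ := good hs0 hT
  -- the number of points
  have hx0 : 0 ≤ 100 * L / s := by positivity
  have hx1 : 100 * L / s ≤ 1 := by
    rw [div_le_one hs0]
    exact hLs
  have hKT : (K : ℝ) * area T ≤ area B := by
    refine le_trans ?_ hK1
    have h1 : (1 : ℝ) ≤ (1 + 100 * L / s) ^ 2 := by
      apply one_le_pow₀
      linarith
    have h2 : area T ≤ (1 + 100 * L / s) ^ 2 * area T := le_mul_of_one_le_left haT.le h1
    gcongr
  have hnT : Real.pi * n ≤ area T := nB_le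
  have hnT2 : area T < Real.pi * (n + 1) := lt_nB
  have hn1B : Real.pi * ((K * n : ℕ) : ℝ) ≤ area B := by
    push_cast
    calc Real.pi * (K * n) = K * (Real.pi * n) := by ring
      _ ≤ K * area T := by gcongr
      _ ≤ area B := hKT
  have hn1S : ((K * n : ℕ) : ℝ) ≤ S ^ 2 := by
    have h1 : Real.pi * ((K * n : ℕ) : ℝ) ≤ Real.pi * S ^ 2 := hn1B.trans haB'
    exact le_of_mul_le_mul_left h1 hpi
  have hn1nB : K * n ≤ nB B := by
    unfold nB
    apply Nat.le_floor
    rw [le_div_iff₀ hpi]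
    linarith
  have hn1s : ((K * n : ℕ) : ℝ) ≤ s ^ 8 := by
    calc ((K * n : ℕ) : ℝ) ≤ S ^ 2 := hn1S
      _ ≤ (s ^ 4) ^ 2 := by gcongr
      _ = s ^ 8 := by ring
  -- the configuration
  set Z : (Σ _ : Fin K, Fin n) → ℂ := fun x => a x.1 + e x.1 * f x.2 with hZ
  have hZB : ∀ x, Z x ∈ B := fun x => haB1 x.1 (f x.2) (hf x.2)
  have hcard : Fintype.card (Σ _ : Fin K, Fin n) = K * n := by simp
  have hexp : Real.exp (-(L ^ 2) / 2) = 1 / s ^ 15 := by
    have e1 : -(L ^ 2) / 2 = -(((15 : ℕ) : ℝ) * Real.log s) := by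
      rw [hLsq]
      push_cast
      ring
    rw [e1, Real.exp_neg, Real.exp_nat_mul, Real.exp_log hs0, one_div]
  have hsep' := separated (A := gram kp Z) (kp_psd Z).isHermitian
    (lam := 1 / (2 * s ^ 4)) (η := 1 / s ^ 7) (by positivity)
    (by
      apply one_div_lt_one_div_of_lt (by positivity)
      have h3 : 2 < s ^ 3 := by
        calc (2 : ℝ) < 300000 := by norm_num
          _ ≤ s := hs
          _ = s ^ 1 := (pow_one s).symm
          _ ≤ s ^ 3 := pow_le_pow_right₀ (by linarith) (by norm_num)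
      calc 2 * s ^ 4 < s ^ 3 * s ^ 4 := by gcongr
        _ = s ^ 7 := by ring)
    (fun k => psd_kp_mv (a k) (e k) (he k) f (1 / (2 * s ^ 4)) hfp)
    (fun x => by
      calc ∑ y : (Σ _ : Fin K, Fin n), (if x.1 = y.1 then 0 else ‖gram kp Z x y‖)
          ≤ ∑ _y : (Σ _ : Fin K, Fin n), 1 / s ^ 15 := by
            apply Finset.sum_le_sum
            intro y _
            split_ifs with hxy
            · positivity
            · have h1 : gram kp Z x y = kp (Z x) (Z y) := rfl
              rw [h1, norm_kp, ← hexp]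
              apply Real.exp_le_exp.2
              have h2 := hsep x.1 y.1 hxy (f x.2) (hf x.2) (f y.2) (hf y.2)
              have h3 : L ^ 2 ≤ ‖Z x - Z y‖ ^ 2 := by
                apply pow_le_pow_left₀ hLpos.le
                exact h2
              linarith
        _ = ((K * n : ℕ) : ℝ) * (1 / s ^ 15) := by
            rw [Finset.sum_const, Finset.card_univ, hcard, nsmul_eq_mul]
        _ ≤ s ^ 8 * (1 / s ^ 15) := by gcongr
        _ = 1 / s ^ 7 := by
            field_simp)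
  obtain ⟨-, hdet⟩ := hsep'
  have hprod : ∏ k : Fin K, ((gram kp Z).submatrix (Sigma.mk k) (Sigma.mk k)).det.re =
      gdet kp f ^ K := by
    have h1 : ∀ k : Fin K, ((gram kp Z).submatrix (Sigma.mk k) (Sigma.mk k)).det.re =
        gdet kp f := fun k => gdet_kp_mv (a k) (e k) (he k) f
    rw [Finset.prod_congr rfl (fun k _ => h1 k), Finset.prod_const, Finset.card_univ,
      Fintype.card_fin]
  rw [hprod, hcard] at hdet
  have hη : (1 / s ^ 7) / (1 / (2 * s ^ 4)) = 2 / s ^ 3 := by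
    field_simp
  rw [hη] at hdet
  set x : ℝ := 2 / s ^ 3 with hx
  have hx00 : 0 ≤ x := by positivity
  have hx11 : x ≤ 1 / 2 := by
    rw [hx, div_le_iff₀ (by positivity)]
    have h3 : (4 : ℝ) ≤ s ^ 3 := by
      calc (4 : ℝ) ≤ 300000 := by norm_num
        _ ≤ s := hs
        _ = s ^ 1 := (pow_one s).symm
        _ ≤ s ^ 3 := pow_le_pow_right₀ (by linarith) (by norm_num)
    linarith
  have hgd := gdet_le_dP Z hZB
  rw [hcard] at hgd
  have hchain := dP_chain hS0 hB hn1nB le_rfl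
  have hmain : (1 - x) ^ (K * n) * (dP T n / 2) ^ K ≤ (S ^ 2) ^ (nB B - K * n) * dP B (nB B) := by
    calc (1 - x) ^ (K * n) * (dP T n / 2) ^ K
        ≤ (1 - x) ^ (K * n) * gdet kp f ^ K := by
          have h1 : 0 ≤ 1 - x := by linarith
          gcongr
      _ ≤ (gram kp Z).det.re := hdet
      _ = gdet kp Z := rfl
      _ ≤ dP B (K * n) := hgd
      _ ≤ _ := hchain
  have h1x : 0 < 1 - x := by linarith
  have hlogm := Real.log_le_log (by positivity) hmain
  rw [Real.log_mul (by positivity) (by positivity), Real.log_mul (by positivity) (by positivity),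
    Real.log_pow, Real.log_pow, Real.log_pow, Real.log_pow, Real.log_div hD0.ne' two_ne_zero,
    Nat.cast_sub hn1nB] at hlogm
  have henB : en B = - Real.log (dP B (nB B)) := rfl
  have henT' : en T = - Real.log (dP T n) := rfl
  have hlogS : Real.log S ≤ 4 * Real.log s := by
    have h1 := Real.log_le_log hS0 hS2
    rw [Real.log_pow] at h1
    push_cast at h1
    exact h1
  have hlogS0 : 0 ≤ Real.log S := by
    apply Real.log_nonneg
    linarith only [hsS, hs]
  -- the error terms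
  have hneg := neg_log_le hx00 hx11
  have hsq1 : 1 ≤ Real.sqrt (Real.log s) := by
    rw [Real.one_le_sqrt]
    exact hlog1
  have her : 1 ≤ er s := by
    unfold er
    exact one_le_mul_of_one_le_of_one_le hlog1 hsq1
  set q0 : ℝ := S ^ 2 / s with hq0
  have hq0pos : 0 < q0 := by positivity
  have t1 : ((K * n : ℕ) : ℝ) * (-Real.log (1 - x)) ≤ q0 := by
    calc ((K * n : ℕ) : ℝ) * (-Real.log (1 - x)) ≤ S ^ 2 * (2 * x) := by
          have h0 : 0 ≤ -Real.log (1 - x) := by
            have := Real.log_nonpos h1x.le (by linarith)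
            linarith
          gcongr
      _ = S ^ 2 / s * (4 / s ^ 2) := by
          rw [hx]
          field_simp
          norm_num
      _ ≤ S ^ 2 / s * 1 := by
          have h4 : 4 / s ^ 2 ≤ 1 := by
            rw [div_le_one (by positivity)]
            have h5 : (300000 : ℝ) ^ 2 ≤ s ^ 2 := by gcongr
            linarith only [h5]
          gcongr
      _ = q0 := by rw [hq0, mul_one]
  have t2 : (K : ℝ) ≤ 10000 * (S ^ 2 / s ^ 2) := by
    have h1 : (K : ℝ) * (Real.pi * (s / 100) ^ 2) ≤ Real.pi * S ^ 2 := by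
      calc (K : ℝ) * (Real.pi * (s / 100) ^ 2) ≤ K * area T := by gcongr
        _ ≤ area B := hKT
        _ ≤ _ := haB'
    have h2 : (K : ℝ) * (s / 100) ^ 2 ≤ S ^ 2 := by
      have h3 : Real.pi * ((K : ℝ) * (s / 100) ^ 2) ≤ Real.pi * S ^ 2 := by linarith
      exact le_of_mul_le_mul_left h3 hpi
    have h4 : (K : ℝ) ≤ S ^ 2 / (s / 100) ^ 2 := by
      rw [le_div_iff₀ (by positivity)]
      exact h2
    calc (K : ℝ) ≤ S ^ 2 / (s / 100) ^ 2 := h4
      _ = _ := by
        field_simp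
        norm_num
  have t3 : (K : ℝ) ≤ q0 := by
    calc (K : ℝ) ≤ 10000 * (S ^ 2 / s ^ 2) := t2
      _ = q0 * (10000 / s) := by
        rw [hq0]
        field_simp
      _ ≤ q0 * 1 := by
        have h4 : 10000 / s ≤ 1 := by
          rw [div_le_one hs0]
          linarith
        gcongr
      _ = q0 := mul_one _
  have t4 : ((nB B : ℕ) : ℝ) - ((K * n : ℕ) : ℝ) ≤ 3000 * (q0 * Real.sqrt (Real.log s)) := by
    have h1 : Real.pi * nB B ≤ area B := nB_le
    have h2 : area B ≤ K * ((1 + 100 * L / s) ^ 2 * area T) + 800 * Real.pi * (s * S) := by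
      linarith only [hK2]
    have h3 : (1 + 100 * L / s) ^ 2 ≤ 1 + 3 * (100 * L / s) := by
      have h30 : (1 + 100 * L / s) ^ 2 = 1 + 2 * (100 * L / s) + (100 * L / s) * (100 * L / s) := by
        ring
      have h31 : (100 * L / s) * (100 * L / s) ≤ (100 * L / s) * 1 := by gcongr
      linarith only [h30, h31]
    have h4 : (K : ℝ) * ((1 + 100 * L / s) ^ 2 * area T) ≤
        K * area T + 3 * (100 * L / s) * (Real.pi * S ^ 2) := by
      calc (K : ℝ) * ((1 + 100 * L / s) ^ 2 * area T)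
          ≤ K * ((1 + 3 * (100 * L / s)) * area T) := by gcongr
        _ = K * area T + 3 * (100 * L / s) * (K * area T) := by ring
        _ ≤ K * area T + 3 * (100 * L / s) * (Real.pi * S ^ 2) := by
          have h5 : (K : ℝ) * area T ≤ Real.pi * S ^ 2 := hKT.trans haB'
          gcongr
    have h5 : (K : ℝ) * area T ≤ K * (Real.pi * (n + 1)) := by gcongr
    have h6 : Real.pi * (((nB B : ℕ) : ℝ) - ((K * n : ℕ) : ℝ)) ≤
        Real.pi * (K + 3 * (100 * L / s) * S ^ 2 + 800 * (s * S)) := by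
      push_cast
      linarith only [h1, h2, h4, h5]
    have h7 : ((nB B : ℕ) : ℝ) - ((K * n : ℕ) : ℝ) ≤
        K + 3 * (100 * L / s) * S ^ 2 + 800 * (s * S) := le_of_mul_le_mul_left h6 hpi
    have h8 : s * S ≤ q0 := by
      rw [hq0, le_div_iff₀ hs0]
      calc s * S * s = S * s ^ 2 := by ring
        _ ≤ S * S := by gcongr
        _ = S ^ 2 := by ring
    have h9 : 3 * (100 * L / s) * S ^ 2 ≤ 1800 * (q0 * Real.sqrt (Real.log s)) := by
      calc 3 * (100 * L / s) * S ^ 2 = 300 * (q0 * L) := by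
            rw [hq0]
            ring
        _ ≤ 300 * (q0 * (6 * Real.sqrt (Real.log s))) := by gcongr
        _ = _ := by ring
    have h10 : q0 ≤ q0 * Real.sqrt (Real.log s) := le_mul_of_one_le_right hq0pos.le hsq1
    linarith only [h7, h8, h9, h10, t3]
  have t4' : 0 ≤ ((nB B : ℕ) : ℝ) - ((K * n : ℕ) : ℝ) := by
    have : ((K * n : ℕ) : ℝ) ≤ nB B := by exact_mod_cast hn1nB
    linarith
  have t5 : (((nB B : ℕ) : ℝ) - ((K * n : ℕ) : ℝ)) * (((2 : ℕ) : ℝ) * Real.log S) ≤
      24000 * (q0 * er s) := by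
    calc (((nB B : ℕ) : ℝ) - ((K * n : ℕ) : ℝ)) * (((2 : ℕ) : ℝ) * Real.log S)
        ≤ (3000 * (q0 * Real.sqrt (Real.log s))) * (((2 : ℕ) : ℝ) * (4 * Real.log s)) := by
          gcongr
      _ = 24000 * (q0 * er s) := by
          unfold er
          push_cast
          ring
  have t6 : (K : ℝ) * en T ≤ area B / area T * en T := by
    have h1 : (K : ℝ) ≤ area B / area T := by
      rw [le_div_iff₀ haT]
      exact hKT
    gcongr
  have t7 : (K : ℝ) * Real.log 2 ≤ q0 := by
    have h1 : Real.log 2 ≤ 1 := by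
      have := Real.log_two_lt_d9
      linarith
    calc (K : ℝ) * Real.log 2 ≤ K * 1 := by
          gcongr
      _ = K := mul_one _
      _ ≤ q0 := t3
  have t8 : q0 ≤ q0 * er s := le_mul_of_one_le_right hq0pos.le her
  rw [henB]
  have hfin : -Real.log (dP B (nB B)) ≤
      (((nB B : ℕ) : ℝ) - ((K * n : ℕ) : ℝ)) * (((2 : ℕ) : ℝ) * Real.log S) +
      ((K * n : ℕ) : ℝ) * (-Real.log (1 - x)) + ((K : ℝ) * en T + K * Real.log 2) := by
    rw [henT']
    linarith only [hlogm]
  have t9 : 0 ≤ q0 * er s := hq0pos.le.trans t8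
  linarith only [hfin, t1, t5, t6, t7, t8, t9]

end Pool.Agent.LE60
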