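import Pool.Agent.LE60.CV
import Pool.Agent.LE60.PK

/-!
# LE60/Lim: the planar energy constant

PROOF. For a fat set `B` of size `S` put `φ(B) = π en B/area B` (`area B ≥ π S²/10⁴ > 0`). Divide `cv`, `pk` by
`area B/π`: with `ψ(s) = 10⁴ C er s/s` (`C` the larger constant, `s₀` the larger threshold, also large)
(i) `φ(B) ≥ φ(T) - ψ(s)` for `T` fat triangle of size `s ≥ s₀`, `B` fat of size `S ≥ s²`;
(ii) `φ(B) ≤ φ(T) + ψ(s)` if moreover `S ≤ s⁴`.
`ψ(s²) ≤ ψ(s)/2` for `s ≥ 6` (`er (s²) = 2√2 er s`). Reference triangles `R_S = tri 0 S (S i)` (`fat_ref`).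
(iii) For `T` fat triangle of size `s`, `s_j = s^{2^j}`: `φ(R_{s_j}) ≤ φ(T) + 2 ψ(s)` for all `j ≥ 1`: induction
`φ(R_{s_j}) ≤ φ(T) + ψ(s)(1 + 1/2 + ... + 1/2^{j-1})` by (ii) (`s_{j+1} = s_j²`).
Let `e₀ = sup {φ(T) - ψ(s) : s ≥ s₀, T fat triangle of size s}`. Bounded above: fix `T₀ = R_{s₀}`; given `T, s` choose `j` with
`s₀^{2^j} ≥ s²`, then `φ(T) - ψ(s) ≤ φ(R_{s₀^{2^j}}) ≤ φ(T₀) + 2ψ(s₀)` by (i), (iii). Upper bound:
`φ(T) ≤ e₀ + ψ(s)`. Lower bound: for any `T₂, s₂` take `j` with `s_j ≥ s₂²`: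
`φ(T₂) - ψ(s₂) ≤ φ(R_{s_j}) ≤ φ(T) + 2ψ(s)`; supremum: `e₀ ≤ φ(T) + 2ψ(s)`. `e₀ ≥ 0`: `φ ≥ 0` (`dP ≤ 1`), so
`e₀ ≥ -ψ(s)` for all `s ≥ s₀` and `ψ(s) → 0`. Multiply by `area T/π ≤ s²`:
`|en T - e₀ area T/π| ≤ 2 ψ(s) s² = 2 · 10⁴ C s er s`.
-/

set_option autoImplicit false

namespace Pool.Agent.LE60

private theorem er_nonneg' {s : ℝ} (hs : 1 ≤ s) : 0 ≤ er s :=
  mul_nonneg (Real.log_nonneg hs) (Real.sqrt_nonneg _)

private theorem er_sq' {s : ℝ} (hs : 1 ≤ s) : er (s ^ 2) ≤ 3 * er s := by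
  have h0 : 0 ≤ Real.log s := Real.log_nonneg hs
  unfold er
  have h1 : Real.log (s ^ 2) = 2 * Real.log s := by
    rw [Real.log_pow]
    norm_num
  rw [h1]
  have h2 : Real.sqrt (2 * Real.log s) ≤ 3 / 2 * Real.sqrt (Real.log s) := by
    rw [Real.sqrt_le_left (by positivity), mul_pow, Real.sq_sqrt h0]
    linarith
  calc 2 * Real.log s * Real.sqrt (2 * Real.log s)
      ≤ 2 * Real.log s * (3 / 2 * Real.sqrt (Real.log s)) :=
        mul_le_mul_of_nonneg_left h2 (by positivity)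
    _ = 3 * (Real.log s * Real.sqrt (Real.log s)) := by ring

private theorem en_nonneg' (B : Set ℂ) : 0 ≤ en B := by
  unfold en
  have h := Real.log_nonpos (dP_nonneg B (nB B)) (dP_le_one B (nB B))
  linarith

private theorem area_pos' {s : ℝ} (hs : 0 < s) {B : Set ℂ} (h : Fat s B) : 0 < area B :=
  lt_of_lt_of_le (by positivity) (Fat.le_area hs.le h)

/-- the error term after division by the area -/
private theorem err' {C s S : ℝ} (hC : 0 ≤ C) (hs : 1 ≤ s) (hS : 0 < S) {B : Set ℂ}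
    (hB : Fat S B) : Real.pi * (C * (S ^ 2 / s * er s)) / area B ≤ 10 ^ 4 * C * er s / s := by
  have hX := area_pos' hS hB
  have h1 : Real.pi * S ^ 2 / area B ≤ 10 ^ 4 := by
    rw [div_le_iff₀ hX]
    have h2 := Fat.le_area hS.le hB
    have h3 : Real.pi * (S / 100) ^ 2 = Real.pi * S ^ 2 / 10 ^ 4 := by ring
    rw [h3, div_le_iff₀ (by norm_num)] at h2
    linarith
  have h4 : 0 ≤ C * er s / s := by
    have := er_nonneg' hs
    positivity
  calc Real.pi * (C * (S ^ 2 / s * er s)) / area B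
      = Real.pi * S ^ 2 / area B * (C * er s / s) := by ring
    _ ≤ 10 ^ 4 * (C * er s / s) := mul_le_mul_of_nonneg_right h1 h4
    _ = 10 ^ 4 * C * er s / s := by ring

theorem planar : ∃ e₀ C s₀ : ℝ, 0 ≤ e₀ ∧ 0 ≤ C ∧ 3 ≤ s₀ ∧ ∀ s : ℝ, s₀ ≤ s →
    ∀ p q r : ℂ, Fat s (tri p q r) →
    |en (tri p q r) - e₀ * (area (tri p q r) / Real.pi)| ≤ C * (s * er s) := by
  obtain ⟨C1, s1, hC1, hs1, h1⟩ := cv
  obtain ⟨C2, s2, hC2, hs2, h2⟩ := pk
  have hpi : 0 < Real.pi := Real.pi_pos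
  set C := max C1 C2 with hC
  have hC0 : 0 ≤ C := hC1.trans (le_max_left _ _)
  set s0 := max (max s1 s2) 6 with hs0
  have hs06 : 6 ≤ s0 := le_max_right _ _
  have hs01 : s1 ≤ s0 := (le_max_left _ _).trans (le_max_left _ _)
  have hs02 : s2 ≤ s0 := (le_max_right _ _).trans (le_max_left _ _)
  set φ : Set ℂ → ℝ := fun B => Real.pi * en B / area B with hφ
  set ψ : ℝ → ℝ := fun s => 10 ^ 4 * C * er s / s with hψ
  have hψ0 : ∀ s, s0 ≤ s → 0 ≤ ψ s := by
    intro s hs
    have h3 := er_nonneg' (show 1 ≤ s by linarith)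
    have h4 : 0 < s := by linarith
    simp only [hψ]
    positivity
  have hψ2 : ∀ s, s0 ≤ s → ψ (s ^ 2) ≤ ψ s / 2 := by
    intro s hs
    have hs1' : 1 ≤ s := by linarith
    have h3 := er_nonneg' hs1'
    have h4 := er_sq' hs1'
    have h5 : 0 < s := by linarith
    simp only [hψ]
    rw [div_div, div_le_div_iff₀ (by positivity) (by positivity)]
    have h6 : 10 ^ 4 * C * er (s ^ 2) ≤ 10 ^ 4 * C * (3 * er s) :=
      mul_le_mul_of_nonneg_left h4 (by positivity)
    calc 10 ^ 4 * C * er (s ^ 2) * (s * 2) ≤ 10 ^ 4 * C * (3 * er s) * (s * 2) :=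
          mul_le_mul_of_nonneg_right h6 (by positivity)
      _ = 10 ^ 4 * C * er s * s * 6 := by ring
      _ ≤ 10 ^ 4 * C * er s * s * s :=
          mul_le_mul_of_nonneg_left (by linarith) (by positivity)
      _ = 10 ^ 4 * C * er s * s ^ 2 := by ring
  have hφ0 : ∀ s, s0 ≤ s → ∀ B, Fat s B → 0 ≤ φ B := by
    intro s hs B hB
    have h3 := en_nonneg' B
    have h4 := area_pos' (show 0 < s by linarith) hB
    simp only [hφ]
    positivity
  -- (i)
  have hi : ∀ s, s0 ≤ s → ∀ S, s ^ 2 ≤ S → ∀ p q r : ℂ, Fat s (tri p q r) → ∀ B, Fat S B →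
      φ (tri p q r) - ψ s ≤ φ B := by
    intro s hs S hS p q r hT B hB
    have hspos : 0 < s := by linarith
    have hSpos : 0 < S := lt_of_lt_of_le (by positivity) hS
    have hX := area_pos' hSpos hB
    have hY := area_pos' hspos hT
    have h3 := h1 s (hs01.trans hs) S hS p q r hT B hB
    have h4 : 0 ≤ S ^ 2 / s * er s := by
      have := er_nonneg' (show 1 ≤ s by linarith)
      positivity
    have h5 : C1 * (S ^ 2 / s * er s) ≤ C * (S ^ 2 / s * er s) :=
      mul_le_mul_of_nonneg_right (le_max_left _ _) h4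
    have h6 : area B / area (tri p q r) * en (tri p q r) - C * (S ^ 2 / s * er s) ≤ en B := by
      linarith
    have h7 := err' hC0 (show 1 ≤ s by linarith) hSpos hB
    have h8 : Real.pi * (area B / area (tri p q r) * en (tri p q r) - C * (S ^ 2 / s * er s)) /
        area B ≤ Real.pi * en B / area B :=
      div_le_div_of_nonneg_right (mul_le_mul_of_nonneg_left h6 hpi.le) hX.le
    have h9 : Real.pi * (area B / area (tri p q r) * en (tri p q r) - C * (S ^ 2 / s * er s)) /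
        area B = Real.pi * en (tri p q r) / area (tri p q r) -
          Real.pi * (C * (S ^ 2 / s * er s)) / area B := by
      field_simp
    simp only [hφ, hψ]
    linarith
  -- (ii)
  have hii : ∀ s, s0 ≤ s → ∀ S, s ^ 2 ≤ S → S ≤ s ^ 4 → ∀ p q r : ℂ, Fat s (tri p q r) →
      ∀ B, Fat S B → φ B ≤ φ (tri p q r) + ψ s := by
    intro s hs S hS hS4 p q r hT B hB
    have hspos : 0 < s := by linarith
    have hSpos : 0 < S := lt_of_lt_of_le (by positivity) hS
    have hX := area_pos' hSpos hB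
    have hY := area_pos' hspos hT
    have h3 := h2 s (hs02.trans hs) S hS hS4 p q r hT B hB
    have h4 : 0 ≤ S ^ 2 / s * er s := by
      have := er_nonneg' (show 1 ≤ s by linarith)
      positivity
    have h5 : C2 * (S ^ 2 / s * er s) ≤ C * (S ^ 2 / s * er s) :=
      mul_le_mul_of_nonneg_right (le_max_right _ _) h4
    have h6 : en B ≤ area B / area (tri p q r) * en (tri p q r) + C * (S ^ 2 / s * er s) := by
      linarith
    have h7 := err' hC0 (show 1 ≤ s by linarith) hSpos hB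
    have h8 : Real.pi * en B / area B ≤
        Real.pi * (area B / area (tri p q r) * en (tri p q r) + C * (S ^ 2 / s * er s)) /
        area B :=
      div_le_div_of_nonneg_right (mul_le_mul_of_nonneg_left h6 hpi.le) hX.le
    have h9 : Real.pi * (area B / area (tri p q r) * en (tri p q r) + C * (S ^ 2 / s * er s)) /
        area B = Real.pi * en (tri p q r) / area (tri p q r) +
          Real.pi * (C * (S ^ 2 / s * er s)) / area B := by
      field_simp
    simp only [hφ, hψ]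
    linarith
  -- reference triangles
  set T : ℝ → Set ℂ := fun S => tri 0 (S : ℂ) (S * Complex.I) with hT
  have hsq : ∀ s, s0 ≤ s → s0 ≤ s ^ 2 := by
    intro s hs
    nlinarith
  -- (iii)
  have hiii : ∀ j : ℕ, ∀ s, s0 ≤ s → ∀ p q r : ℂ, Fat s (tri p q r) →
      φ (T (s ^ (2 ^ (j + 1)))) ≤ φ (tri p q r) + 2 * ψ s := by
    intro j
    induction j with
    | zero =>
      intro s hs p q r hF
      have hspos : 0 < s := by linarith
      have h3 := hii s hs (s ^ 2) le_rfl (pow_le_pow_right₀ (by linarith) (by norm_num)) p q r hF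
        (T (s ^ 2)) (fat_ref (by positivity))
      have h4 := hψ0 s hs
      have e : s ^ (2 ^ (0 + 1)) = s ^ 2 := by norm_num
      rw [e]
      linarith
    | succ j ih =>
      intro s hs p q r hF
      have hspos : 0 < s := by linarith
      have hfat : Fat (s ^ 2) (T (s ^ 2)) := fat_ref (by positivity)
      have h3 := hii s hs (s ^ 2) le_rfl (pow_le_pow_right₀ (by linarith) (by norm_num)) p q r hF
        (T (s ^ 2)) hfat
      have h4 := ih (s ^ 2) (hsq s hs) 0 ((s ^ 2 : ℝ) : ℂ) (((s ^ 2 : ℝ) : ℂ) * Complex.I) hfat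
      have h5 := hψ2 s hs
      have e : (s ^ 2) ^ (2 ^ (j + 1)) = s ^ (2 ^ (j + 1 + 1)) := by
        rw [← pow_mul]
        congr 1
        ring
      rw [e] at h4
      have h6 : φ (tri 0 ((s ^ 2 : ℝ) : ℂ) (((s ^ 2 : ℝ) : ℂ) * Complex.I)) = φ (T (s ^ 2)) := rfl
      rw [h6] at h4
      linarith
  -- comparison of two triangles
  have hcomp : ∀ s, s0 ≤ s → ∀ p q r : ℂ, Fat s (tri p q r) → ∀ s', s0 ≤ s' →
      ∀ p' q' r' : ℂ, Fat s' (tri p' q' r') →
      φ (tri p' q' r') - ψ s' ≤ φ (tri p q r) + 2 * ψ s := by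
    intro s hs p q r hF s' hs' p' q' r' hF'
    have hs1' : 1 < s := by linarith
    obtain ⟨n, hn⟩ := pow_unbounded_of_one_lt (s' ^ 2) hs1'
    have h3 : s' ^ 2 ≤ s ^ (2 ^ (n + 1)) := by
      refine hn.le.trans (pow_le_pow_right₀ hs1'.le ?_)
      exact (Nat.lt_two_pow_self).le.trans (Nat.pow_le_pow_right (by norm_num) (by omega))
    have hpos : 0 < s ^ (2 ^ (n + 1)) := by positivity
    have h4 := hi s' hs' _ h3 p' q' r' hF' (T (s ^ (2 ^ (n + 1)))) (fat_ref hpos)
    exact h4.trans (hiii n s hs p q r hF)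
  set A : Set ℝ := {x | ∃ s, s0 ≤ s ∧ ∃ p q r : ℂ, Fat s (tri p q r) ∧
    x = φ (tri p q r) - ψ s} with hA
  have hs0pos : 0 < s0 := by linarith
  have hfat0 : Fat s0 (T s0) := fat_ref hs0pos
  have hAne : A.Nonempty := ⟨_, s0, le_rfl, 0, (s0 : ℂ), (s0 : ℂ) * Complex.I, hfat0, rfl⟩
  have hAbdd : BddAbove A := by
    refine ⟨φ (T s0) + 2 * ψ s0, ?_⟩
    rintro x ⟨s', hs', p', q', r', hF', rfl⟩
    exact hcomp s0 le_rfl _ _ _ hfat0 s' hs' p' q' r' hF'
  refine ⟨max (sSup A) 0, 2 * (10 ^ 4 * C), s0, le_max_right _ _, by positivity, by linarith, ?_⟩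
  intro s hs p q r hF
  have hspos : 0 < s := by linarith
  have hY := area_pos' hspos hF
  have hψs := hψ0 s hs
  have hφs := hφ0 s hs _ hF
  have hup : φ (tri p q r) - ψ s ≤ max (sSup A) 0 :=
    (le_csSup hAbdd ⟨s, hs, p, q, r, hF, rfl⟩).trans (le_max_left _ _)
  have hlow : max (sSup A) 0 ≤ φ (tri p q r) + 2 * ψ s := by
    refine max_le (csSup_le hAne ?_) (by linarith)
    rintro x ⟨s', hs', p', q', r', hF', rfl⟩
    exact hcomp s hs p q r hF s' hs' p' q' r' hF'
  have habs : |φ (tri p q r) - max (sSup A) 0| ≤ 2 * ψ s := by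
    rw [abs_le]
    constructor <;> linarith
  have hle : area (tri p q r) / Real.pi ≤ s ^ 2 := by
    rw [div_le_iff₀ hpi]
    have := Fat.area_le hspos.le hF
    linarith
  have e1 : en (tri p q r) - max (sSup A) 0 * (area (tri p q r) / Real.pi) =
      (area (tri p q r) / Real.pi) * (φ (tri p q r) - max (sSup A) 0) := by
    simp only [hφ]
    field_simp
  rw [e1, abs_mul, abs_of_pos (by positivity : 0 < area (tri p q r) / Real.pi)]
  calc area (tri p q r) / Real.pi * |φ (tri p q r) - max (sSup A) 0|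
      ≤ s ^ 2 * (2 * ψ s) := mul_le_mul hle habs (abs_nonneg _) (by positivity)
    _ = 2 * (10 ^ 4 * C) * (s * er s) := by
        simp only [hψ]
        field_simp

end Pool.Agent.LE60
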