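import Pool.Agent.LE60.Cells
import Pool.Agent.LE60.CurvL
import Pool.Agent.LE60.LB

/-!
# LE60/LowC: spherical points in one cell, upper bound of the determinant

PROOF. `C₁, s₁` from `lb`. `n' = N - 1`, `ν = n' + δ`, `ρ = 1/m²`, `ε = e^{-δ}`, `A = AA (√ν/2) p X`, fat of size `s = √ν/m` (`AA_fat`).
For each `i`: `x = hopf (f i)` (norm 1) is in the cone, so `hgt p x > 0` (`Cen.cone_pos`) and `g = ell/hgt ∈ TT` (`Cen.cone_iff`);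
`w_i = cb/ca` (`chart_gnomonic`): `g = 2 w_i/(1-|w_i|²)`, i.e. `w_i = ((1-|w_i|²)/2) g`, `|w_i| ≤ |g|/2 ≤ 1/m` (`Cen.ball_out`), so `|w_i|² ≤ ρ`
and `√ν w_i = (√ν/2)(1-|w_i|²) g ∈ A` (`mem_AA`). `gdet (ks n') f = gdet (kw n') w` (`gdet_chart`).
Apply `curvL` with `M = dP A (nB A) exp (4 log s (nB A - card ι) + C₁ s er s)`, `q = s⁴ = exp (4 log s)`: for `S ⊆ ι` the Gram determinant is
`≤ dP A |S|` (`gdet_le_dP`, `Fintype.card {i // i ∈ S} = S.card`) `≤ dP A (nB A) exp (4 log s (nB A - |S|) + C₁ s er s) = M q^{card ι - |S|}` (`lb`).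
Result: `gdet (kw n') w (1-ε)^n ≤ M (1 + n ε q)^n`, `n = card ι ≤ N`. `N ε ≤ 1/4` (as `4 N² s⁴ ε ≤ 1`, `s ≥ 3`), so `(1-ε)^n ≥ 1 - N ε ≥ 3/4`, and
`(1 + nεq)^n ≤ exp (N² ε s⁴) ≤ e^{1/4} ≤ 2`; `M ≥ 0`. So `gdet ≤ 3 M`.
-/

set_option autoImplicit false

namespace Pool.Agent.LE60

/-- the chart coordinate of a point of the cone over a cell -/
private theorem chart_cell {m : ℕ} (hm : 40 ≤ m) {p : ℂ × ℂ} {X : Fin 3 → E3} (hc : Cen m p X)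
    {u : ℂ × ℂ} (hu : Unit2 u) (h : ∃ t : Fin 3 → ℝ, (∀ k, 0 ≤ t k) ∧ hopf u = ∑ k, t k • X k) :
    ca p u ≠ 0 ∧ ‖cb p u / ca p u‖ ^ 2 ≤ 1 / (m : ℝ) ^ 2 ∧
      ∃ g ∈ TT p X, cb p u / ca p u =
        (((1 - ‖cb p u / ca p u‖ ^ 2) / 2 : ℝ) : ℂ) * g := by
  have hm0 : (0 : ℝ) < m := by
    exact_mod_cast (by omega : 0 < m)
  have hx0 : hopf u ≠ 0 := by
    intro h0
    have := norm_hopf hu
    rw [h0, norm_zero] at this
    exact zero_ne_one this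
  obtain ⟨t, ht, hxt⟩ := h
  have hpos := Cen.cone_pos hm hc hx0 ht hxt
  have hg := (Cen.cone_iff hm hc hpos).1 ⟨t, ht, hxt⟩
  obtain ⟨h1, h2, h3⟩ := chart_gnomonic hc.unit hu hpos
  obtain ⟨w, hw⟩ : ∃ w, w = cb p u / ca p u := ⟨_, rfl⟩
  obtain ⟨g, hge⟩ : ∃ g, g = ell p (hopf u) / (hgt p (hopf u) : ℂ) := ⟨_, rfl⟩
  rw [← hw] at h2 h3 ⊢
  rw [← hge] at hg h3
  have h4 : 0 < 1 - ‖w‖ ^ 2 := by nlinarith [norm_nonneg w]
  have h5 : w = (((1 - ‖w‖ ^ 2) / 2 : ℝ) : ℂ) * g := by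
    rw [h3]
    have h6 : ((1 - ‖w‖ ^ 2 : ℝ) : ℂ) ≠ 0 := by
      exact_mod_cast h4.ne'
    push_cast at h6 ⊢
    field_simp
  refine ⟨h1, ?_, g, hg, h5⟩
  have h7 : ‖g‖ ≤ 2 / m := by
    have := Cen.ball_out hm hc hg
    simpa using this
  have h8 : ‖w‖ = (1 - ‖w‖ ^ 2) / 2 * ‖g‖ := by
    conv_lhs => rw [h5]
    rw [norm_mul, Complex.norm_real, Real.norm_eq_abs, abs_of_pos (by linarith)]
  have h9 : ‖w‖ ≤ 1 / m := by
    have h10 : (1 - ‖w‖ ^ 2) / 2 * ‖g‖ ≤ 1 / 2 * (2 / m) :=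
      mul_le_mul (by nlinarith [sq_nonneg ‖w‖]) h7 (norm_nonneg _) (by norm_num)
    rw [← h8] at h10
    refine h10.trans_eq ?_
    ring
  calc ‖w‖ ^ 2 ≤ (1 / (m : ℝ)) ^ 2 := pow_le_pow_left₀ (norm_nonneg _) h9 2
    _ = 1 / (m : ℝ) ^ 2 := by rw [div_pow, one_pow]

theorem low_cell : ∃ C₁ s₁ : ℝ, 0 ≤ C₁ ∧ 3 ≤ s₁ ∧ ∀ (N δ m : ℕ) (s : ℝ), 1 ≤ N → 40 ≤ m →
    s = Real.sqrt (((N - 1 : ℕ) : ℝ) + δ) / m → s₁ ≤ s → 220 * (N : ℝ) ≤ δ * (m : ℝ) ^ 4 →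
    4 * (N : ℝ) ^ 2 * s ^ 4 * Real.exp (-(δ : ℝ)) ≤ 1 →
    ∀ (p : ℂ × ℂ) (X : Fin 3 → E3), Cen m p X →
    ∀ (ι : Type) [Fintype ι] [DecidableEq ι] (f : ι → ℂ × ℂ), (∀ i, Unit2 (f i)) →
    Fintype.card ι ≤ N →
    (∀ i, ∃ t : Fin 3 → ℝ, (∀ k, 0 ≤ t k) ∧ hopf (f i) = ∑ k, t k • X k) →
    gdet (ks (N - 1)) f ≤ 3 * (dP (AA (Real.sqrt (((N - 1 : ℕ) : ℝ) + δ) / 2) p X)
        (nB (AA (Real.sqrt (((N - 1 : ℕ) : ℝ) + δ) / 2) p X)) *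
      Real.exp (4 * Real.log s *
        ((nB (AA (Real.sqrt (((N - 1 : ℕ) : ℝ) + δ) / 2) p X) : ℝ) - Fintype.card ι)
        + C₁ * (s * er s))) := by
  obtain ⟨C₁, s₀, hC, hs₀, hlb⟩ := lb
  refine ⟨C₁, s₀, hC, hs₀, ?_⟩
  intro N δ m s hN hm hs hs1 h220 hsmall p X hc ι _ _ f hf hcard hcone
  have hm0 : (0 : ℝ) < m := by
    exact_mod_cast (by omega : 0 < m)
  have hm40 : (40 : ℝ) ≤ m := by exact_mod_cast hm
  have hs3 : 3 ≤ s := hs₀.trans hs1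
  have hspos : 0 < s := by linarith
  obtain ⟨R, hR⟩ : ∃ R, R = Real.sqrt (((N - 1 : ℕ) : ℝ) + δ) := ⟨_, rfl⟩
  rw [← hR] at hs ⊢
  have hRpos : 0 < R := by
    have : R = s * m := by rw [hs]; field_simp
    rw [this]; positivity
  obtain ⟨A, hA⟩ : ∃ A, A = AA (R / 2) p X := ⟨_, rfl⟩
  have hfat : Fat s A := by
    have h := AA_fat hm hc (t := R / 2) (by positivity)
    have e : 2 * (R / 2) / (m : ℝ) = s := by rw [hs]; ring
    rw [e] at h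
    rw [hA]; exact h
  rw [← hA]
  obtain ⟨w, hw⟩ : ∃ w : ι → ℂ, w = fun i => cb p (f i) / ca p (f i) := ⟨_, rfl⟩
  have hch := fun i => chart_cell hm hc (hf i) (hcone i)
  have hgd : gdet (ks (N - 1)) f = gdet (kw (N - 1)) w := by
    rw [hw]; exact gdet_chart (N - 1) hc.unit f hf (fun i => (hch i).1)
  have hwρ : ∀ i, ‖w i‖ ^ 2 ≤ 1 / (m : ℝ) ^ 2 := by
    intro i; rw [hw]; exact (hch i).2.1
  have hwA : ∀ i, (R : ℂ) * w i ∈ A := by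
    intro i
    obtain ⟨g, hg, hge⟩ := (hch i).2.2
    have hwi : w i = cb p (f i) / ca p (f i) := by rw [hw]
    rw [← hwi] at hge
    have h1 : ‖w i‖ ^ 2 ≤ 1 := by
      refine (hwρ i).trans ?_
      rw [div_le_one (by positivity)]
      nlinarith
    have h2 := mem_AA hm hc (t := R / 2) (r := R / 2 * (1 - ‖w i‖ ^ 2)) (by positivity)
      (mul_nonneg (by positivity) (by linarith))
      (by nlinarith [sq_nonneg ‖w i‖]) hg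
    rw [← hA] at h2
    have e : (R : ℂ) * w i = ((R / 2 * (1 - ‖w i‖ ^ 2) : ℝ) : ℂ) * g := by
      conv_lhs => rw [hge]
      push_cast
      ring
    rw [e]; exact h2
  obtain ⟨E, hE⟩ : ∃ E : ℝ, E = Real.exp (4 * Real.log s * ((nB A : ℝ) - Fintype.card ι)
        + C₁ * (s * er s)) := ⟨_, rfl⟩
  rw [← hE]
  have hM0 : 0 ≤ dP A (nB A) * E := mul_nonneg (dP_nonneg _ _) (by rw [hE]; exact (Real.exp_pos _).le)
  have hq : s ^ 4 = Real.exp (4 * Real.log s) := by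
    have : (4 : ℝ) * Real.log s = ((4 : ℕ) : ℝ) * Real.log s := by norm_num
    rw [this, Real.exp_nat_mul, Real.exp_log hspos]
  have hS : ∀ S : Finset ι,
      gdet kp (fun i : {i // i ∈ S} => ((Real.sqrt (((N - 1 : ℕ) : ℝ) + δ) : ℝ) : ℂ) * w i)
      ≤ dP A (nB A) * E * (s ^ 4) ^ (Fintype.card ι - S.card) := by
    intro S
    rw [← hR]
    have h1 := gdet_le_dP (B := A) (fun i : {i // i ∈ S} => (R : ℂ) * w i) (fun i => hwA i)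
    rw [Fintype.card_coe] at h1
    refine h1.trans ((hlb s hs1 A hfat S.card).trans_eq ?_)
    have hSc : S.card ≤ Fintype.card ι := Finset.card_le_univ S
    rw [hE, hq, ← Real.exp_nat_mul, mul_assoc (dP A (nB A)), ← Real.exp_add, Nat.cast_sub hSc]
    congr 2
    ring
  have hN1 : (1 : ℝ) ≤ N := by exact_mod_cast hN
  have hcN : (Fintype.card ι : ℝ) ≤ N := by exact_mod_cast hcard
  have hc0 : (0 : ℝ) ≤ Fintype.card ι := Nat.cast_nonneg _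
  have hN1' : ((N - 1 : ℕ) : ℝ) ≤ N := by exact_mod_cast Nat.sub_le N 1
  have hcur := curvL (N - 1) δ (ρ := 1 / (m : ℝ) ^ 2) (by positivity)
    (by
      rw [div_le_div_iff₀ (by positivity) (by norm_num)]
      nlinarith)
    (by
      have e : (220 : ℝ) * ((N - 1 : ℕ) : ℝ) * (1 / (m : ℝ) ^ 2) ^ 2 =
          220 * ((N - 1 : ℕ) : ℝ) / (m : ℝ) ^ 4 := by
        rw [div_pow, one_pow, ← pow_mul]; ring
      rw [e, div_le_iff₀ (by positivity)]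
      linarith) w hwρ (dP A (nB A) * E) (s ^ 4) hS
  obtain ⟨ε, hε⟩ : ∃ ε, ε = Real.exp (-(δ : ℝ)) := ⟨_, rfl⟩
  rw [← hε] at hcur hsmall
  have hε0 : 0 < ε := by rw [hε]; exact Real.exp_pos _
  obtain ⟨n, hn⟩ : ∃ n, n = Fintype.card ι := ⟨_, rfl⟩
  rw [← hn] at hcur hcN hc0
  obtain ⟨q, hqe⟩ : ∃ q, q = s ^ 4 := ⟨_, rfl⟩
  rw [← hqe] at hcur hsmall
  have hq81 : 81 ≤ q := by
    rw [hqe]
    calc (81 : ℝ) = 3 ^ 4 := by norm_num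
      _ ≤ s ^ 4 := pow_le_pow_left₀ (by norm_num) hs3 4
  have hN2 : (N : ℝ) ≤ (N : ℝ) ^ 2 := by nlinarith
  have hNε : (N : ℝ) * ε ≤ 1 / 4 := by
    have h1 : (N : ℝ) * ε ≤ (N : ℝ) ^ 2 * q * ε := by
      have h2 : (N : ℝ) ≤ (N : ℝ) ^ 2 * q := by nlinarith
      exact mul_le_mul_of_nonneg_right h2 hε0.le
    linarith
  have hnε : (n : ℝ) * ε ≤ 1 / 4 := (mul_le_mul_of_nonneg_right hcN hε0.le).trans hNε
  have hε1 : ε ≤ 1 / 4 := by nlinarith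
  have hlow : 3 / 4 ≤ (1 - ε) ^ n := by
    have h1 := one_add_mul_le_pow (a := -ε) (by linarith) n
    have h2 : (1 : ℝ) + -ε = 1 - ε := by ring
    rw [h2] at h1
    linarith
  have hup : (1 + (n : ℝ) * ε * q) ^ n ≤ 4 / 3 := by
    have h1 : (n : ℝ) * ((n : ℝ) * ε * q) ≤ 1 / 4 := by
      have h2 : (n : ℝ) * n ≤ (N : ℝ) ^ 2 := by nlinarith
      have h3 : (n : ℝ) * ((n : ℝ) * ε * q) = (n : ℝ) * n * (ε * q) := by ring
      rw [h3]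
      have h4 := mul_le_mul_of_nonneg_right h2 (show 0 ≤ ε * q by positivity)
      linarith
    have h5 : (1 + (n : ℝ) * ε * q) ^ n ≤ Real.exp ((n : ℝ) * ((n : ℝ) * ε * q)) := by
      rw [Real.exp_nat_mul]
      refine pow_le_pow_left₀ (by positivity) ?_ n
      have := Real.add_one_le_exp ((n : ℝ) * ε * q)
      linarith
    refine h5.trans ((Real.exp_le_exp.2 h1).trans ?_)
    have h6 := Real.add_one_le_exp (-(1 / 4 : ℝ))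
    have h7 : Real.exp (1 / 4) = (Real.exp (-(1 / 4 : ℝ)))⁻¹ := by
      rw [Real.exp_neg, inv_inv]
    rw [h7]
    have h8 : (3 / 4 : ℝ) ≤ Real.exp (-(1 / 4 : ℝ)) := by linarith
    calc (Real.exp (-(1 / 4 : ℝ)))⁻¹ ≤ (3 / 4 : ℝ)⁻¹ := inv_anti₀ (by norm_num) h8
      _ = 4 / 3 := by norm_num
  rw [hgd]
  by_cases hg0 : gdet (kw (N - 1)) w ≤ 0
  · linarith
  · rw [not_le] at hg0
    have h1 : gdet (kw (N - 1)) w * (3 / 4) ≤ gdet (kw (N - 1)) w * (1 - ε) ^ n :=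
      mul_le_mul_of_nonneg_left hlow hg0.le
    have h2 : dP A (nB A) * E * (1 + (n : ℝ) * ε * q) ^ n ≤ dP A (nB A) * E * (4 / 3) :=
      mul_le_mul_of_nonneg_left hup hM0
    linarith

end Pool.Agent.LE60
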