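import Pool.Agent.LE60.Defs

/-!
# LE60/MatA: monotonicity of the determinant, trace bounds

PROOFS.
* `det_re_nonneg`: `Matrix.PosSemidef.det_nonneg` (complex order: real part ≥ 0, imaginary part 0).
* `det_mono`: if `det A = 0` use `det_re_nonneg` for `B = A + (B - A)`. Otherwise `A` is PosDef
  (`PosSemidef.posDef_iff_det_ne_zero`). Let `S = CFC.sqrt A` (Hermitian, invertible, `S * S = A`),
  `Q = S⁻¹ (B - A) S⁻¹`, PSD. `B = S (1 + Q) S`, so `det B = det A * det (1 + Q)`, and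
  `det (1 + Q) = ∏ (1 + λ_i) ≥ 1`, `λ_i ≥ 0` the eigenvalues of `Q` (spectral theorem, or: the
  eigenvalues of the Hermitian matrix `1 + Q` are `≥ 1` because `(1 + Q) - 1` is PSD, and
  `IsHermitian.det_eq_prod_eigenvalues`).
* `quad_le_trace`: `x* A x ≤ λ_max |x|²`, `λ_max ≤ ∑ λ_i = tr A`. Or: `A = M* M`,
  `x* A x = |M x|² ≤ |M|_HS² |x|²` (Cauchy-Schwarz for each row), `|M|_HS² = tr A`.
* `sub_trace_inv`: spectral theorem: `G = U diag(λ) U*`, `G⁻¹` has trace `∑ 1/λ_j =: t`, each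
  `λ_i ≥ 1/t`, so `G - (1/t) 1 = U diag(λ_i - 1/t) U*` is PSD. (If `ι` is empty everything is trivial.)
  Alternatively: `G⁻¹ ≤ t · 1` by `quad_le_trace`, then with `v = G y`-substitutions
  `y* G y = v* G⁻¹ v`, Cauchy-Schwarz `|y|^4 = |y* G^{1/2} G^{-1/2} y|^2 ≤ (y* G y)(y* G⁻¹ y)
  ≤ (y* G y) t |y|^2`.
* `posDef_of_sub`: `G - c 1` PSD and `c > 0` imply `G` PosDef.
-/

set_option autoImplicit false

namespace Pool.Agent.LE60

open Matrix
open scoped ComplexOrder ComplexConjugate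

variable {ι : Type*} [Fintype ι] [DecidableEq ι]

open scoped MatrixOrder in
private theorem exists_sq {A : Matrix ι ι ℂ} (hA : A.PosSemidef) :
    ∃ M : Matrix ι ι ℂ, M.IsHermitian ∧ M * M = A :=
  ⟨CFC.sqrt A, (nonneg_iff_posSemidef.1 (CFC.sqrt_nonneg A)).1,
    CFC.sqrt_mul_sqrt_self A (nonneg_iff_posSemidef.2 hA)⟩

private theorem star_dot_self (x : ι → ℂ) : (star x ⬝ᵥ x).re = ∑ i, ‖x i‖ ^ 2 := by
  simp only [dotProduct, Pi.star_apply, Complex.re_sum]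
  refine Finset.sum_congr rfl fun i _ => ?_
  rw [Complex.star_def, ← Complex.normSq_eq_conj_mul_self, Complex.ofReal_re,
    Complex.normSq_eq_norm_sq]

theorem det_re_nonneg {A : Matrix ι ι ℂ} (hA : A.PosSemidef) : 0 ≤ A.det.re := by
  exact (Complex.nonneg_iff.1 hA.det_nonneg).1

theorem det_eq_re {A : Matrix ι ι ℂ} (hA : A.IsHermitian) : A.det = (A.det.re : ℂ) := by
  refine (Complex.conj_eq_iff_re.1 ?_).symm
  have h := Matrix.det_conjTranspose A
  rw [hA.eq] at h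
  exact h.symm

private theorem evec_norm {A : Matrix ι ι ℂ} (hA : A.IsHermitian) (i : ι) :
    ∑ j, ‖(hA.eigenvectorBasis i).ofLp j‖ ^ 2 = 1 := by
  have h := hA.eigenvectorBasis.orthonormal.1 i
  have h2 := EuclideanSpace.norm_sq_eq (hA.eigenvectorBasis i)
  rw [h] at h2
  rw [← h2]
  norm_num

private theorem evec_val {A : Matrix ι ι ℂ} (hA : A.IsHermitian) (i : ι) :
    hA.eigenvalues i = (star (hA.eigenvectorBasis i).ofLp ⬝ᵥ
      (A *ᵥ (hA.eigenvectorBasis i).ofLp)).re := hA.eigenvalues_eq i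

private theorem one_le_det {P : Matrix ι ι ℂ} (hP : P.PosSemidef) : 1 ≤ (1 + P).det.re := by
  have hH : (1 + P).IsHermitian := Matrix.isHermitian_one.add hP.1
  have hev : ∀ i, 1 ≤ hH.eigenvalues i := by
    intro i
    rw [evec_val, Matrix.add_mulVec, Matrix.one_mulVec, dotProduct_add, Complex.add_re,
      star_dot_self, evec_norm]
    have := hP.re_dotProduct_nonneg (hH.eigenvectorBasis i).ofLp
    exact le_add_of_nonneg_right this
  rw [hH.det_eq_prod_eigenvalues]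
  have e : ∏ i, ((hH.eigenvalues i : ℝ) : ℂ) = ((∏ i, hH.eigenvalues i : ℝ) : ℂ) := by
    push_cast
    rfl
  have e2 : (∏ i, (RCLike.ofReal (hH.eigenvalues i) : ℂ)).re = ∏ i, hH.eigenvalues i := by
    change (∏ i, ((hH.eigenvalues i : ℝ) : ℂ)).re = _
    rw [e, Complex.ofReal_re]
  rw [e2]
  calc (1 : ℝ) = ∏ _i : ι, (1 : ℝ) := by simp
    _ ≤ ∏ i, hH.eigenvalues i := Finset.prod_le_prod (fun _ _ => zero_le_one) fun i _ => hev i

theorem det_mono {A B : Matrix ι ι ℂ} (hA : A.PosSemidef) (hAB : (B - A).PosSemidef) :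
    A.det.re ≤ B.det.re := by
  by_cases h0 : A.det = 0
  · rw [h0, Complex.zero_re]
    have hB : B.PosSemidef := by
      have := hA.add hAB
      rwa [add_sub_cancel] at this
    exact det_re_nonneg hB
  have hAd : A.PosDef := (hA.posDef_iff_det_ne_zero).2 h0
  obtain ⟨M, hM, hMM⟩ := exists_sq hAB
  have hP : (M * A⁻¹ * M).PosSemidef := by
    have := hAd.inv.posSemidef.mul_mul_conjTranspose_same M
    rwa [hM.eq] at this
  have hu : IsUnit A.det := isUnit_iff_ne_zero.2 h0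
  have e1 : B = A * (1 + A⁻¹ * M * M) := by
    rw [mul_add, mul_one, mul_assoc A⁻¹, ← mul_assoc A, Matrix.mul_nonsing_inv _ hu, one_mul, hMM,
      add_sub_cancel]
  have e2 : B.det = A.det * (1 + M * A⁻¹ * M).det := by
    rw [e1, Matrix.det_mul, Matrix.det_one_add_mul_comm (A⁻¹ * M) M, ← mul_assoc]
  rw [e2, det_eq_re hA.1, det_eq_re (Matrix.isHermitian_one.add hP.1), ← Complex.ofReal_mul,
    Complex.ofReal_re, Complex.ofReal_re]
  exact le_mul_of_one_le_right (det_re_nonneg hA) (one_le_det hP)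

theorem quad_le_trace {A : Matrix ι ι ℂ} (hA : A.PosSemidef) (x : ι → ℂ) :
    (star x ⬝ᵥ (A *ᵥ x)).re ≤ A.trace.re * ∑ i, ‖x i‖ ^ 2 := by
  obtain ⟨M, hM, hMM⟩ := exists_sq hA
  have e1 : star x ⬝ᵥ (A *ᵥ x) = star (M *ᵥ x) ⬝ᵥ (M *ᵥ x) := by
    rw [← hMM, ← Matrix.mulVec_mulVec, Matrix.star_mulVec, hM.eq, ← Matrix.dotProduct_mulVec]
  have e2 : A.trace.re = ∑ i, ∑ j, ‖M i j‖ ^ 2 := by
    rw [← hMM, Matrix.trace]
    simp only [Matrix.diag_apply, Matrix.mul_apply, Complex.re_sum]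
    refine Finset.sum_congr rfl fun i _ => Finset.sum_congr rfl fun j _ => ?_
    have h1 : M j i = conj (M i j) := (hM.apply j i).symm
    rw [h1, Complex.mul_conj, Complex.ofReal_re, Complex.normSq_eq_norm_sq]
  rw [e1, star_dot_self, e2, Finset.sum_mul]
  refine Finset.sum_le_sum fun i _ => ?_
  have h1 : ‖(M *ᵥ x) i‖ ≤ ∑ j, ‖M i j‖ * ‖x j‖ := by
    rw [Matrix.mulVec, dotProduct]
    refine (norm_sum_le _ _).trans (le_of_eq ?_)
    simp only [norm_mul]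
  calc ‖(M *ᵥ x) i‖ ^ 2 ≤ (∑ j, ‖M i j‖ * ‖x j‖) ^ 2 :=
        pow_le_pow_left₀ (norm_nonneg _) h1 2
    _ ≤ _ := Finset.sum_mul_sq_le_sq_mul_sq _ _ _

theorem sub_trace_inv {G : Matrix ι ι ℂ} (hG : G.PosDef) :
    (G - ((1 / (G⁻¹).trace.re : ℝ) : ℂ) • (1 : Matrix ι ι ℂ)).PosSemidef := by
  set t : ℝ := (G⁻¹).trace.re with ht
  have hH : (G - ((1 / t : ℝ) : ℂ) • (1 : Matrix ι ι ℂ)).IsHermitian := by
    refine hG.1.sub ?_
    unfold Matrix.IsHermitian
    rw [Matrix.conjTranspose_smul, Matrix.conjTranspose_one, Complex.star_def, Complex.conj_ofReal]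
  rw [hH.posSemidef_iff_eigenvalues_nonneg]
  intro i
  set v : ι → ℂ := (hH.eigenvectorBasis i).ofLp with hv
  set μ : ℝ := hH.eigenvalues i with hμ
  change 0 ≤ μ
  have hn : ∑ j, ‖v j‖ ^ 2 = 1 := evec_norm hH i
  have hv0 : v ≠ 0 := by
    intro h
    rw [h] at hn
    simp at hn
  have h1 : (G - ((1 / t : ℝ) : ℂ) • (1 : Matrix ι ι ℂ)) *ᵥ v = μ • v :=
    hH.mulVec_eigenvectorBasis i
  have h2 : G *ᵥ v = ((μ + 1 / t : ℝ) : ℂ) • v := by
    rw [Matrix.sub_mulVec, Matrix.smul_mulVec, Matrix.one_mulVec] at h1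
    rw [sub_eq_iff_eq_add] at h1
    rw [h1, Complex.ofReal_add, add_smul]
    rfl
  have h3 : (star v ⬝ᵥ (G *ᵥ v)).re = μ + 1 / t := by
    rw [h2, dotProduct_smul, smul_eq_mul, Complex.re_ofReal_mul, star_dot_self, hn, mul_one]
  have h4 : 0 < μ + 1 / t := by
    rw [← h3]
    exact hG.re_dotProduct_pos hv0
  have hu : IsUnit G.det := (Matrix.isUnit_iff_isUnit_det _).1 hG.isUnit
  have h5 : G⁻¹ *ᵥ v = ((1 / (μ + 1 / t) : ℝ) : ℂ) • v := by
    have h6 : G⁻¹ *ᵥ (G *ᵥ v) = v := by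
      rw [Matrix.mulVec_mulVec, Matrix.nonsing_inv_mul _ hu, Matrix.one_mulVec]
    rw [h2, Matrix.mulVec_smul] at h6
    have h7 : ((1 / (μ + 1 / t) : ℝ) : ℂ) • (((μ + 1 / t : ℝ) : ℂ) • (G⁻¹ *ᵥ v)) = G⁻¹ *ᵥ v := by
      rw [smul_smul, ← Complex.ofReal_mul, one_div_mul_cancel h4.ne', Complex.ofReal_one, one_smul]
    rw [← h7, h6]
  have h8 := quad_le_trace hG.inv.posSemidef v
  rw [h5, dotProduct_smul, smul_eq_mul, Complex.re_ofReal_mul, star_dot_self, hn, mul_one,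
    mul_one, ← ht] at h8
  have ht0 : 0 < t := lt_of_lt_of_le (by positivity) h8
  have h9 : 1 / t ≤ μ + 1 / t := by
    rw [div_le_iff₀ h4] at h8
    rw [div_le_iff₀ ht0]
    linarith
  linarith

theorem posDef_of_sub {G : Matrix ι ι ℂ} {c : ℝ} (hc : 0 < c)
    (h : (G - (c : ℂ) • (1 : Matrix ι ι ℂ)).PosSemidef) : G.PosDef := by
  have h1 : ((c : ℂ) • (1 : Matrix ι ι ℂ)).PosDef :=
    (Matrix.PosDef.one (n := ι) (R := ℂ)).smul (by exact_mod_cast hc)
  have := Matrix.PosDef.posSemidef_add h h1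
  rwa [sub_add_cancel] at this

end Pool.Agent.LE60
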