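import Pool.Agent.LE60.Defs

/-!
# LE60/Ser: the Taylor series of `(1+t)^κ exp (-(κ-d) t)`

`cf d c` is defined by `a_0 = 1`, `a_1 = d`, `(k+2) a_{k+2} = (d - (k+1)) a_{k+1} - c a_k` (so `a_k` are the Taylor
coefficients of `R(t) = (1+t)^κ e^{-c t}`, `κ = d + c`: `(1+t) R' = (κ - c(1+t)) R = (d - c t) R`).

PROOFS.
* `cf_bound`: `c_k = |a_k| r^k`, `A = |d| r + |c| r²`. `(k+1) c_{k+1} ≤ (|d| + k) r c_k + |c| r² c_{k-1}
  ≤ (A + k/2) max (c_k, c_{k-1})` (`r ≤ 1/2`). If `k + 1 ≥ 2A` then `(A + k/2)/(k+1) ≤ 1`; if `k + 1 < 2A` then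
  `(A + k/2)/(k+1) ≤ 2A/(k+1)` (as `k/2 < A`). So with `Q_k = ∏_{i=1}^k max 1 (2A/i)` (nondecreasing) induction gives
  `c_k ≤ Q_k` (and `c_{k-1} ≤ Q_{k-1} ≤ Q_k`), and `Q_k ≤ e^{2A}`: `Q_k = (2A)^j/j!` with `j = min (k, ⌊2A⌋)`.
* `cf_hasSum`: take `r = 1/2`: the series converges for `‖t‖ < 1/2`. Its sum `G` satisfies
  `(1+t) G' = (d - c t) G`, `G 0 = 1` (termwise differentiation, coefficient comparison by the recurrence), so
  `(G(t) (1+t)^{-κ} e^{c t})' = 0` on the ball, i.e. `G = (1+t)^κ e^{-ct}`. Alternative: formal power series: for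
  `κ ≥ 0`... any proof is fine (e.g. show `iteratedDeriv k R 0 = k! a_k` by Leibniz applied to
  `(1+t) R' = (d - c t) R` and use `Complex.hasSum_taylorSeries_on_ball`, which gives the sum on the unit disc at once).
-/

set_option autoImplicit false

namespace Pool.Agent.LE60

/-- Taylor coefficients of `(1+t)^(d+c) exp (-c t)` -/
noncomputable def cf (d c : ℝ) : ℕ → ℝ
  | 0 => 1
  | 1 => d
  | (k + 2) => ((d - (k + 1)) * cf d c (k + 1) - c * cf d c k) / (k + 2)

private theorem ser_prod (x : ℝ) (hx : 0 ≤ x) (k : ℕ) :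
    ∃ j : ℕ, j ≤ k ∧ (∏ i ∈ Finset.range k, max 1 (x / ((i : ℝ) + 1))) = x ^ j / (j.factorial : ℝ) ∧
      (j < k → x ≤ (j : ℝ) + 1) := by
  induction k with
  | zero => exact ⟨0, le_refl _, by simp, fun h => absurd h (lt_irrefl _)⟩
  | succ k ih =>
    obtain ⟨j, hjk, hj, hjx⟩ := ih
    rw [Finset.prod_range_succ]
    by_cases h : x ≤ (k : ℝ) + 1
    · have h1 : x / ((k : ℝ) + 1) ≤ 1 := by
        rw [div_le_one (by positivity)]
        exact h
      rcases hjk.lt_or_eq with hlt | heq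
      · exact ⟨j, by omega, by rw [max_eq_left h1, mul_one, hj], fun _ => hjx hlt⟩
      · exact ⟨j, by omega, by rw [max_eq_left h1, mul_one, hj], fun _ => by rw [heq]; exact h⟩
    · push Not at h
      have hjk2 : j = k := by
        by_contra hne
        have hlt : j < k := lt_of_le_of_ne hjk hne
        have h1 := hjx hlt
        have h2 : (j : ℝ) + 1 ≤ (k : ℝ) := by exact_mod_cast hlt
        linarith
      subst hjk2
      refine ⟨j + 1, le_refl _, ?_, fun h => absurd h (lt_irrefl _)⟩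
      have h1 : 1 ≤ x / ((j : ℝ) + 1) := by
        rw [le_div_iff₀ (by positivity)]
        linarith
      rw [max_eq_right h1, hj, Nat.factorial_succ]
      push_cast
      have h2 : ((j.factorial : ℕ) : ℝ) ≠ 0 := by exact_mod_cast j.factorial_ne_zero
      have h3 : (j : ℝ) + 1 ≠ 0 := by positivity
      field_simp
      ring

private theorem ser_prod_le (x : ℝ) (hx : 0 ≤ x) (k : ℕ) :
    (∏ i ∈ Finset.range k, max 1 (x / ((i : ℝ) + 1))) ≤ Real.exp x := by
  obtain ⟨j, -, hj, -⟩ := ser_prod x hx k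
  rw [hj]
  exact Real.pow_div_factorial_le_exp x hx j

private theorem ser_prod_mono (x : ℝ) (k : ℕ) :
    (∏ i ∈ Finset.range k, max 1 (x / ((i : ℝ) + 1))) ≤
      (∏ i ∈ Finset.range (k + 1), max 1 (x / ((i : ℝ) + 1))) := by
  rw [Finset.prod_range_succ]
  refine le_mul_of_one_le_right ?_ (le_max_left _ _)
  exact Finset.prod_nonneg fun i _ => (zero_le_one.trans (le_max_left _ _))

private theorem ser_le_prod (d c : ℝ) {r : ℝ} (hr : 0 < r) (hr2 : r ≤ 1 / 2) (k : ℕ) :
    |cf d c k| * r ^ k ≤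
      ∏ i ∈ Finset.range k, max 1 ((2 * (|d| * r + |c| * r ^ 2)) / ((i : ℝ) + 1)) := by
  induction k using Nat.strong_induction_on with
  | _ k ih =>
    match k, ih with
    | 0, _ => simp [cf]
    | 1, _ =>
      simp only [cf, pow_one, Finset.prod_range_one, Nat.cast_zero, zero_add, div_one]
      have h1 : 0 ≤ |c| * r ^ 2 := by positivity
      have h2 : 0 ≤ |d| * r := by positivity
      exact le_max_of_le_right (by linarith)
    | (k + 2), ih =>
      have h1 := ih (k + 1) (by omega)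
      have h0 := ih k (by omega)
      have hm := ser_prod_mono (2 * (|d| * r + |c| * r ^ 2)) k
      have h0' := h0.trans hm
      rw [Finset.prod_range_succ _ (k + 1)]
      set A : ℝ := |d| * r + |c| * r ^ 2 with hA
      set Q : ℝ := ∏ i ∈ Finset.range (k + 1), max 1 ((2 * A) / ((i : ℝ) + 1)) with hQ
      have hQ0 : 0 ≤ Q := le_trans (by positivity) h1
      have hk2 : (0 : ℝ) < (k : ℝ) + 2 := by positivity
      have hA0 : 0 ≤ A := by positivity
      have e1 : |cf d c (k + 2)| * r ^ (k + 2) ≤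
          ((|d| + ((k : ℝ) + 1)) * r * (|cf d c (k + 1)| * r ^ (k + 1)) +
            |c| * r ^ 2 * (|cf d c k| * r ^ k)) / ((k : ℝ) + 2) := by
        have e2 : |cf d c (k + 2)| ≤ ((|d| + ((k : ℝ) + 1)) * |cf d c (k + 1)| +
            |c| * |cf d c k|) / ((k : ℝ) + 2) := by
          rw [cf, abs_div, abs_of_pos hk2]
          refine div_le_div_of_nonneg_right ?_ hk2.le
          calc |(d - ((k : ℝ) + 1)) * cf d c (k + 1) - c * cf d c k|
              ≤ |(d - ((k : ℝ) + 1)) * cf d c (k + 1)| + |c * cf d c k| := abs_sub _ _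
            _ = |d - ((k : ℝ) + 1)| * |cf d c (k + 1)| + |c| * |cf d c k| := by
                rw [abs_mul, abs_mul]
            _ ≤ _ := by
                gcongr
                calc |d - ((k : ℝ) + 1)| ≤ |d| + |(k : ℝ) + 1| := abs_sub _ _
                  _ = |d| + ((k : ℝ) + 1) := by
                      rw [abs_of_nonneg (by positivity : (0 : ℝ) ≤ (k : ℝ) + 1)]
        calc |cf d c (k + 2)| * r ^ (k + 2)
            ≤ ((|d| + ((k : ℝ) + 1)) * |cf d c (k + 1)| +
              |c| * |cf d c k|) / ((k : ℝ) + 2) * r ^ (k + 2) :=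
              mul_le_mul_of_nonneg_right e2 (by positivity)
          _ = _ := by ring
      have e3 : ((|d| + ((k : ℝ) + 1)) * r * (|cf d c (k + 1)| * r ^ (k + 1)) +
            |c| * r ^ 2 * (|cf d c k| * r ^ k)) / ((k : ℝ) + 2) ≤
          ((|d| + ((k : ℝ) + 1)) * r * Q + |c| * r ^ 2 * Q) / ((k : ℝ) + 2) := by
        gcongr
      have e4 : ((|d| + ((k : ℝ) + 1)) * r * Q + |c| * r ^ 2 * Q) / ((k : ℝ) + 2) ≤
          Q * ((A + ((k : ℝ) + 1) / 2) / ((k : ℝ) + 2)) := by
        rw [← mul_div_assoc]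
        refine div_le_div_of_nonneg_right ?_ hk2.le
        have e5 : ((k : ℝ) + 1) * r ≤ ((k : ℝ) + 1) / 2 := by
          have : ((k : ℝ) + 1) * r ≤ ((k : ℝ) + 1) * (1 / 2) :=
            mul_le_mul_of_nonneg_left hr2 (by positivity)
          linarith
        calc (|d| + ((k : ℝ) + 1)) * r * Q + |c| * r ^ 2 * Q
            = Q * (A + ((k : ℝ) + 1) * r) := by rw [hA]; ring
          _ ≤ Q * (A + ((k : ℝ) + 1) / 2) := mul_le_mul_of_nonneg_left (by linarith) hQ0
      refine e1.trans (e3.trans (e4.trans ?_))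
      refine mul_le_mul_of_nonneg_left ?_ hQ0
      push_cast
      have e6 : (k : ℝ) + 1 + 1 = (k : ℝ) + 2 := by ring
      rw [e6]
      by_cases h : 2 * A ≤ (k : ℝ) + 2
      · refine le_max_of_le_left ?_
        rw [div_le_one hk2]
        linarith
      · push Not at h
        refine le_max_of_le_right ?_
        refine div_le_div_of_nonneg_right ?_ hk2.le
        linarith

theorem cf_bound (d c : ℝ) {r : ℝ} (hr : 0 < r) (hr2 : r ≤ 1 / 2) (k : ℕ) :
    |cf d c k| * r ^ k ≤ Real.exp (2 * (|d| * r + |c| * r ^ 2)) :=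
  (ser_le_prod d c hr hr2 k).trans (ser_prod_le _ (by positivity) k)

private theorem ser_ne {t : ℂ} (ht : t ∈ Metric.ball (0 : ℂ) 1) : 1 + t ≠ 0 := by
  intro h
  have h1 : t = -1 := by linear_combination h
  rw [h1] at ht
  simp at ht

theorem cf_hasSum (κ : ℤ) (d : ℝ) (t : ℂ) (ht : ‖t‖ < 1 / 2) :
    HasSum (fun k : ℕ => (cf d (κ - d) k : ℂ) * t ^ k)
      ((1 + t) ^ κ * Complex.exp (-((κ - d : ℝ) : ℂ) * t)) := by
  set c : ℝ := (κ : ℝ) - d with hc
  set R : ℂ → ℂ := fun t => (1 + t) ^ κ * Complex.exp (-(c : ℂ) * t) with hR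
  have hderR : ∀ z ∈ Metric.ball (0 : ℂ) 1, HasDerivAt R
      ((κ : ℂ) * (1 + z) ^ (κ - 1) * Complex.exp (-(c : ℂ) * z) +
        (1 + z) ^ κ * (Complex.exp (-(c : ℂ) * z) * (-(c : ℂ)))) z := by
    intro z hz
    have hne := ser_ne hz
    have h1 : HasDerivAt (fun t : ℂ => (1 + t) ^ κ) ((κ : ℂ) * (1 + z) ^ (κ - 1)) z := by
      have h2 : HasDerivAt (fun t : ℂ => 1 + t) 1 z := by
        simpa using (hasDerivAt_id z).const_add (1 : ℂ)
      have h3 : HasDerivAt ((fun x : ℂ => x ^ κ) ∘ (fun t : ℂ => 1 + t))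
          ((κ : ℂ) * (1 + z) ^ (κ - 1) * 1) z :=
        (hasDerivAt_zpow κ (1 + z) (Or.inl hne)).comp z h2
      rw [mul_one] at h3
      exact h3
    have h4 : HasDerivAt (fun t : ℂ => Complex.exp (-(c : ℂ) * t))
        (Complex.exp (-(c : ℂ) * z) * (-(c : ℂ))) z := by
      have h5 : HasDerivAt (fun t : ℂ => -(c : ℂ) * t) (-(c : ℂ)) z := by
        simpa using (hasDerivAt_id z).const_mul (-(c : ℂ))
      exact h5.cexp
    exact h1.mul h4
  have hdiff : DifferentiableOn ℂ R (Metric.ball 0 1) := fun z hz =>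
    (hderR z hz).differentiableAt.differentiableWithinAt
  have hdiffn : ∀ n : ℕ, DifferentiableOn ℂ (iteratedDeriv n R) (Metric.ball 0 1) := by
    intro n
    induction n with
    | zero => simpa using hdiff
    | succ n ih =>
      rw [iteratedDeriv_succ]
      exact ih.deriv Metric.isOpen_ball
  have hder : ∀ n : ℕ, ∀ z ∈ Metric.ball (0 : ℂ) 1,
      HasDerivAt (iteratedDeriv n R) (iteratedDeriv (n + 1) R z) z := by
    intro n z hz
    rw [iteratedDeriv_succ]
    exact ((hdiffn n).differentiableAt (Metric.isOpen_ball.mem_nhds hz)).hasDerivAt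
  have hbase : ∀ z ∈ Metric.ball (0 : ℂ) 1,
      (1 + z) * iteratedDeriv 1 R z = ((d : ℂ) - (c : ℂ) * z) * iteratedDeriv 0 R z := by
    intro z hz
    have hne := ser_ne hz
    have h1 : iteratedDeriv 1 R z = (κ : ℂ) * (1 + z) ^ (κ - 1) * Complex.exp (-(c : ℂ) * z) +
        (1 + z) ^ κ * (Complex.exp (-(c : ℂ) * z) * (-(c : ℂ))) := by
      rw [iteratedDeriv_one]
      exact (hderR z hz).deriv
    rw [h1, iteratedDeriv_zero, hR]
    have h2 : (1 + z) ^ (κ - 1) = (1 + z) ^ κ / (1 + z) := by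
      rw [zpow_sub_one₀ hne]; rfl
    have h3 : (κ : ℂ) = (c : ℂ) + (d : ℂ) := by
      rw [hc]; push_cast; ring
    simp only
    rw [h2, h3]
    field_simp
    ring
  have hrec : ∀ n : ℕ, ∀ z ∈ Metric.ball (0 : ℂ) 1,
      (1 + z) * iteratedDeriv (n + 2) R z =
        ((d : ℂ) - ((n : ℂ) + 1) - (c : ℂ) * z) * iteratedDeriv (n + 1) R z -
          ((n : ℂ) + 1) * (c : ℂ) * iteratedDeriv n R z := by
    intro n
    induction n with
    | zero =>
      intro z hz
      have hl : HasDerivAt (fun z => (1 + z) * iteratedDeriv 1 R z)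
          (1 * iteratedDeriv 1 R z + (1 + z) * iteratedDeriv 2 R z) z := by
        have h2 : HasDerivAt (fun t : ℂ => 1 + t) 1 z := by
          simpa using (hasDerivAt_id z).const_add (1 : ℂ)
        exact h2.mul (hder 1 z hz)
      have hr : HasDerivAt (fun z => ((d : ℂ) - (c : ℂ) * z) * iteratedDeriv 0 R z)
          ((-(c : ℂ)) * iteratedDeriv 0 R z + ((d : ℂ) - (c : ℂ) * z) * iteratedDeriv 1 R z) z := by
        have h2 : HasDerivAt (fun z : ℂ => (d : ℂ) - (c : ℂ) * z) (-(c : ℂ)) z := by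
          simpa using ((hasDerivAt_id z).const_mul (c : ℂ)).const_sub (d : ℂ)
        exact h2.mul (hder 0 z hz)
      have heq : (fun z => (1 + z) * iteratedDeriv 1 R z) =ᶠ[nhds z]
          (fun z => ((d : ℂ) - (c : ℂ) * z) * iteratedDeriv 0 R z) := by
        filter_upwards [Metric.isOpen_ball.mem_nhds hz] with w hw
        exact hbase w hw
      have h3 := hl.unique (hr.congr_of_eventuallyEq heq)
      have h4 : (1 + z) * iteratedDeriv 2 R z = (-(c : ℂ)) * iteratedDeriv 0 R z +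
          ((d : ℂ) - (c : ℂ) * z) * iteratedDeriv 1 R z - 1 * iteratedDeriv 1 R z := by
        linear_combination h3
      simp only [Nat.cast_zero, zero_add]
      rw [h4]
      ring
    | succ n ih =>
      intro z hz
      have hl : HasDerivAt (fun z => (1 + z) * iteratedDeriv (n + 2) R z)
          (1 * iteratedDeriv (n + 2) R z + (1 + z) * iteratedDeriv (n + 3) R z) z := by
        have h2 : HasDerivAt (fun t : ℂ => 1 + t) 1 z := by
          simpa using (hasDerivAt_id z).const_add (1 : ℂ)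
        exact h2.mul (hder (n + 2) z hz)
      have hr : HasDerivAt (fun z => ((d : ℂ) - ((n : ℂ) + 1) - (c : ℂ) * z) *
            iteratedDeriv (n + 1) R z - ((n : ℂ) + 1) * (c : ℂ) * iteratedDeriv n R z)
          ((-(c : ℂ)) * iteratedDeriv (n + 1) R z +
            ((d : ℂ) - ((n : ℂ) + 1) - (c : ℂ) * z) * iteratedDeriv (n + 2) R z -
            ((n : ℂ) + 1) * (c : ℂ) * iteratedDeriv (n + 1) R z) z := by
        have h2 : HasDerivAt (fun z : ℂ => (d : ℂ) - ((n : ℂ) + 1) - (c : ℂ) * z) (-(c : ℂ)) z := by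
          simpa using ((hasDerivAt_id z).const_mul (c : ℂ)).const_sub ((d : ℂ) - ((n : ℂ) + 1))
        exact (h2.mul (hder (n + 1) z hz)).sub ((hder n z hz).const_mul _)
      have heq : (fun z => (1 + z) * iteratedDeriv (n + 2) R z) =ᶠ[nhds z]
          (fun z => ((d : ℂ) - ((n : ℂ) + 1) - (c : ℂ) * z) *
            iteratedDeriv (n + 1) R z - ((n : ℂ) + 1) * (c : ℂ) * iteratedDeriv n R z) := by
        filter_upwards [Metric.isOpen_ball.mem_nhds hz] with w hw
        exact ih w hw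
      have h3 := hl.unique (hr.congr_of_eventuallyEq heq)
      have h5 : n + 1 + 2 = n + 3 := rfl
      have h6 : n + 1 + 1 = n + 2 := rfl
      rw [h5, h6]
      push_cast
      linear_combination h3
  have h00 : (0 : ℂ) ∈ Metric.ball (0 : ℂ) 1 := by simp
  have hcoef : ∀ k : ℕ, iteratedDeriv k R 0 = (k.factorial : ℂ) * (cf d c k : ℂ) ∧
      iteratedDeriv (k + 1) R 0 = ((k + 1).factorial : ℂ) * (cf d c (k + 1) : ℂ) := by
    intro k
    induction k with
    | zero =>
      refine ⟨?_, ?_⟩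
      · simp [hR, cf]
      · have h1 := hbase 0 h00
        simp only [add_zero, one_mul, mul_zero, sub_zero, iteratedDeriv_zero] at h1
        simp only [zero_add, Nat.factorial_one, Nat.cast_one, one_mul, cf]
        rw [h1]
        simp [hR]
    | succ k ih =>
      refine ⟨ih.2, ?_⟩
      have h1 := hrec k 0 h00
      simp only [add_zero, one_mul, mul_zero, sub_zero] at h1
      have h5 : k + 1 + 1 = k + 2 := rfl
      rw [h5, h1, ih.1, ih.2]
      have h7 : (cf d c (k + 2) : ℂ) = (((d : ℂ) - ((k : ℂ) + 1)) * (cf d c (k + 1) : ℂ) -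
          (c : ℂ) * (cf d c k : ℂ)) / ((k : ℂ) + 2) := by
        rw [cf]; push_cast; ring
      rw [h7, Nat.factorial_succ (k + 1), Nat.factorial_succ k]
      push_cast
      have h8 : (k : ℂ) + 2 ≠ 0 := by
        have : ((k + 2 : ℕ) : ℂ) ≠ 0 := by exact_mod_cast (by omega : k + 2 ≠ 0)
        push_cast at this
        exact this
      have h9 : (k : ℂ) + 1 + 1 = (k : ℂ) + 2 := by ring
      rw [h9]
      field_simp
  have htb : t ∈ Metric.ball (0 : ℂ) 1 := by
    rw [mem_ball_zero_iff]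
    linarith
  have hS := Complex.hasSum_taylorSeries_on_ball hdiff htb
  have hR2 : R t = (1 + t) ^ κ * Complex.exp (-(c : ℂ) * t) := rfl
  rw [← hR2]
  have hfun : (fun n : ℕ => ((n.factorial : ℕ) : ℂ)⁻¹ • (t - 0) ^ n • iteratedDeriv n R 0) =
      fun k : ℕ => (cf d c k : ℂ) * t ^ k := by
    funext k
    rw [(hcoef k).1]
    simp only [sub_zero, smul_eq_mul]
    have h10 : ((k.factorial : ℕ) : ℂ) ≠ 0 := by exact_mod_cast k.factorial_ne_zero
    field_simp
  rw [hfun] at hS
  exact hS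

end Pool.Agent.LE60
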