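import Pool.Agent.LE60.Simp

/-!
# LE60/Tile: triangles tile the plane by translations and point reflections

PROOF. `u = q - p`, `v = r - p`, linearly independent over `ℝ` as the area is positive. For `z ∈ ℂ` write
`z = p + X u + Y v` (real `X = X(z)`, `Y = Y(z)`, continuous linear up to translation). Index `(i, j, true)`: tile
`{p + X u + Y v : X ≥ i, Y ≥ j, X + Y ≤ i + j + 1} = a + tri` with `a = i u + j v`, `e = 1`; index `(i, j, false)`: tile
`{p + X u + Y v : X ≤ i, Y ≤ j, X + Y ≥ i + j - 1} = a - tri` with `a = 2 p + i u + j v`, `e = -1`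
(`p + X u + Y v = a - (p + (i - X) u + (j - Y) v)`).
`τ z = (⌊X⌋, ⌊Y⌋, true)` if `fract X + fract Y < 1`, and `(⌊X⌋ + 1, ⌊Y⌋ + 1, false)` otherwise. Then `z` is in its
tile. The fibres of `τ` are measurable (floor and fract are measurable); the fibre of `(i,j,true)` is
`{X ∈ [i, i+1), Y ∈ [j, j+1), X + Y < i + j + 1}` and that of `(i,j,false)` is
`{X ∈ [i-1,i), Y ∈ [j-1,j), X + Y ≥ i + j - 1}`: each differs from the closed tile by a subset of three lines, so the
area is `area (tri p q r)` (the closed tile is an isometric image of `tri p q r`). If a small ball around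
`w` lies in the closed tile of `c`, then the three inequalities of the tile are strict at `w` (move `w` a bit
in the direction of `± u`, `± v`, `± (u + v)`), which determines the floors and gives `τ w = c`.
-/

set_option autoImplicit false

namespace Pool.Agent.LE60

open MeasureTheory

/-- determinant -/
private noncomputable def dt (u v : ℂ) : ℝ := u.im * v.re - u.re * v.im

/-- first coordinate -/
private noncomputable def cX (p u v z : ℂ) : ℝ :=
  ((z - p).im * v.re - (z - p).re * v.im) / dt u v

/-- second coordinate -/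
private noncomputable def cY (p u v z : ℂ) : ℝ :=
  ((z - p).re * u.im - (z - p).im * u.re) / dt u v

private theorem cXY_rep {p u v : ℂ} (hD : dt u v ≠ 0) (z : ℂ) :
    z = p + (cX p u v z : ℂ) * u + (cY p u v z : ℂ) * v := by
  unfold cX cY
  apply Complex.ext
  · simp only [Complex.add_re, Complex.mul_re, Complex.ofReal_re, Complex.ofReal_im, Complex.sub_re,
      Complex.sub_im, zero_mul, sub_zero]
    field_simp
    unfold dt
    ring
  · simp only [Complex.add_im, Complex.mul_im, Complex.ofReal_re, Complex.ofReal_im, Complex.sub_re,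
      Complex.sub_im, zero_mul, add_zero]
    field_simp
    unfold dt
    ring

private theorem cX_lin {p u v : ℂ} (hD : dt u v ≠ 0) (z : ℂ) (s t : ℝ) :
    cX p u v (z + s * u + t * v) = cX p u v z + s := by
  unfold cX
  simp only [Complex.add_re, Complex.mul_re, Complex.ofReal_re, Complex.ofReal_im, Complex.sub_re,
      Complex.sub_im, zero_mul, sub_zero, Complex.add_im, Complex.mul_im, add_zero]
  field_simp
  unfold dt
  ring

private theorem cY_lin {p u v : ℂ} (hD : dt u v ≠ 0) (z : ℂ) (s t : ℝ) :
    cY p u v (z + s * u + t * v) = cY p u v z + t := by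
  unfold cY
  simp only [Complex.add_re, Complex.mul_re, Complex.ofReal_re, Complex.ofReal_im, Complex.sub_re,
      Complex.sub_im, zero_mul, sub_zero, Complex.add_im, Complex.mul_im, add_zero]
  field_simp
  unfold dt
  ring

private theorem cX_self {p u v : ℂ} : cX p u v p = 0 := by
  unfold cX
  simp

private theorem cY_self {p u v : ℂ} : cY p u v p = 0 := by
  unfold cY
  simp

private theorem cX_cont (p u v : ℂ) : Continuous (cX p u v) := by
  unfold cX
  refine Continuous.div_const ?_ _
  exact ((Complex.continuous_im.comp (continuous_id.sub continuous_const)).mul continuous_const).sub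
    ((Complex.continuous_re.comp (continuous_id.sub continuous_const)).mul continuous_const)

private theorem cY_cont (p u v : ℂ) : Continuous (cY p u v) := by
  unfold cY
  refine Continuous.div_const ?_ _
  exact ((Complex.continuous_re.comp (continuous_id.sub continuous_const)).mul continuous_const).sub
    ((Complex.continuous_im.comp (continuous_id.sub continuous_const)).mul continuous_const)

private theorem mem_tri_iff {p q r : ℂ} (hD : dt (q - p) (r - p) ≠ 0) (z : ℂ) :
    z ∈ tri p q r ↔ 0 ≤ cX p (q - p) (r - p) z ∧ 0 ≤ cY p (q - p) (r - p) z ∧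
      cX p (q - p) (r - p) z + cY p (q - p) (r - p) z ≤ 1 := by
  rw [mem_tri]
  constructor
  · rintro ⟨a, b, c, ha, hb, hc, hsum, rfl⟩
    have e : (a : ℂ) * p + b * q + c * r = p + b * (q - p) + c * (r - p) := by
      have : (a : ℂ) = 1 - b - c := by
        have h : a = 1 - b - c := by linarith
        rw [h]
        push_cast
        ring
      rw [this]
      ring
    rw [e, cX_lin hD, cY_lin hD, cX_self, cY_self]
    exact ⟨by linarith, by linarith, by linarith⟩
  · rintro ⟨h1, h2, h3⟩
    refine ⟨1 - cX p (q - p) (r - p) z - cY p (q - p) (r - p) z, cX p (q - p) (r - p) z,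
      cY p (q - p) (r - p) z, by linarith, h1, h2, by ring, ?_⟩
    have e := cXY_rep hD (p := p) z
    push_cast
    rw [show (1 - (cX p (q - p) (r - p) z : ℂ) - (cY p (q - p) (r - p) z : ℂ)) * p +
      (cX p (q - p) (r - p) z : ℂ) * q + (cY p (q - p) (r - p) z : ℂ) * r =
      p + (cX p (q - p) (r - p) z : ℂ) * (q - p) + (cY p (q - p) (r - p) z : ℂ) * (r - p) by ring]
    exact e

/-- the tile -/
private def InT (X Y : ℝ) : ℤ × ℤ × Bool → Prop
  | (i, j, true) => (i : ℝ) ≤ X ∧ (j : ℝ) ≤ Y ∧ X + Y ≤ i + j + 1
  | (i, j, false) => X ≤ (i : ℝ) ∧ Y ≤ (j : ℝ) ∧ (i : ℝ) + j - 1 ≤ X + Y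

private noncomputable def ta (p u v : ℂ) : ℤ × ℤ × Bool → ℂ
  | (i, j, true) => i * u + j * v
  | (i, j, false) => 2 * p + i * u + j * v

private noncomputable def te : ℤ × ℤ × Bool → ℂ
  | (_, _, true) => 1
  | (_, _, false) => -1

private noncomputable def tt (X Y : ℝ) : ℤ × ℤ × Bool :=
  if Int.fract X + Int.fract Y < 1 then (⌊X⌋, ⌊Y⌋, true) else (⌊X⌋ + 1, ⌊Y⌋ + 1, false)

private theorem tile_iff {p q r : ℂ} (hD : dt (q - p) (r - p) ≠ 0) (c : ℤ × ℤ × Bool) (z : ℂ) :
    (∃ x ∈ tri p q r, z = ta p (q - p) (r - p) c + te c * x) ↔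
      InT (cX p (q - p) (r - p) z) (cY p (q - p) (r - p) z) c := by
  obtain ⟨i, j, b⟩ := c
  cases b with
  | true =>
    simp only [ta, te, InT, one_mul]
    constructor
    · rintro ⟨x, hx, rfl⟩
      rw [mem_tri_iff hD] at hx
      have e : (i : ℂ) * (q - p) + j * (r - p) + x = x + ((i : ℝ) : ℂ) * (q - p) +
          ((j : ℝ) : ℂ) * (r - p) := by
        push_cast
        ring
      rw [e, cX_lin hD, cY_lin hD]
      exact ⟨by linarith, by linarith, by linarith⟩
    · rintro ⟨h1, h2, h3⟩
      refine ⟨z + ((-i : ℝ) : ℂ) * (q - p) + ((-j : ℝ) : ℂ) * (r - p), ?_, ?_⟩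
      · rw [mem_tri_iff hD, cX_lin hD, cY_lin hD]
        exact ⟨by linarith, by linarith, by linarith⟩
      · push_cast
        ring
  | false =>
    simp only [ta, te, InT]
    have hrefl : ∀ x : ℂ, cX p (q - p) (r - p) (2 * p - x) = - cX p (q - p) (r - p) x ∧
        cY p (q - p) (r - p) (2 * p - x) = - cY p (q - p) (r - p) x := by
      intro x
      have e := cXY_rep hD (p := p) x
      have e2 : 2 * p - x = p + ((-cX p (q - p) (r - p) x : ℝ) : ℂ) * (q - p) +
          ((-cY p (q - p) (r - p) x : ℝ) : ℂ) * (r - p) := by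
        conv_lhs => rw [e]
        push_cast
        ring
      rw [e2]
      constructor
      · rw [cX_lin hD, cX_self, zero_add]
      · rw [cY_lin hD, cY_self, zero_add]
    constructor
    · rintro ⟨x, hx, rfl⟩
      rw [mem_tri_iff hD] at hx
      have e : 2 * p + (i : ℂ) * (q - p) + j * (r - p) + -1 * x = (2 * p - x) +
          ((i : ℝ) : ℂ) * (q - p) + ((j : ℝ) : ℂ) * (r - p) := by
        push_cast
        ring
      rw [e, cX_lin hD, cY_lin hD, (hrefl x).1, (hrefl x).2]
      exact ⟨by linarith, by linarith, by linarith⟩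
    · rintro ⟨h1, h2, h3⟩
      refine ⟨(2 * p - z) + ((i : ℝ) : ℂ) * (q - p) + ((j : ℝ) : ℂ) * (r - p), ?_, ?_⟩
      · rw [mem_tri_iff hD, cX_lin hD, cY_lin hD, (hrefl z).1, (hrefl z).2]
        exact ⟨by linarith, by linarith, by linarith⟩
      · push_cast
        ring

private theorem in_tt (X Y : ℝ) : InT X Y (tt X Y) := by
  unfold tt
  have a1 := Int.floor_add_fract X
  have a2 := Int.floor_add_fract Y
  have b1 := Int.fract_nonneg X
  have b2 := Int.fract_nonneg Y
  have c1 := Int.fract_lt_one X
  have c2 := Int.fract_lt_one Y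
  split_ifs with h
  · simp only [InT]
    exact ⟨by linarith, by linarith, by linarith⟩
  · simp only [InT]
    push_cast
    push Not at h
    exact ⟨by linarith, by linarith, by linarith⟩

private theorem tt_of_nhds {X Y ε : ℝ} (hε : 0 < ε) (c : ℤ × ℤ × Bool)
    (h1 : InT (X + ε) Y c) (h2 : InT (X - ε) Y c) (h3 : InT X (Y + ε) c) (h4 : InT X (Y - ε) c) :
    tt X Y = c := by
  obtain ⟨i, j, b⟩ := c
  cases b with
  | true =>
    simp only [InT] at h1 h2 h3 h4
    have f1 : ⌊X⌋ = i := by
      rw [Int.floor_eq_iff]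
      exact ⟨by linarith [h1.1, h2.1], by linarith [h1.2.1, h1.2.2, h3.2.2]⟩
    have f2 : ⌊Y⌋ = j := by
      rw [Int.floor_eq_iff]
      exact ⟨by linarith [h1.2.1], by linarith [h1.1, h2.1, h1.2.2, h3.2.2]⟩
    unfold tt
    rw [if_pos, f1, f2]
    have a1 := Int.floor_add_fract X
    have a2 := Int.floor_add_fract Y
    rw [f1] at a1
    rw [f2] at a2
    linarith [h1.2.2]
  | false =>
    simp only [InT] at h1 h2 h3 h4
    have f1 : ⌊X⌋ = i - 1 := by
      rw [Int.floor_eq_iff]
      push_cast
      exact ⟨by linarith [h1.2.1, h2.2.2], by linarith [h1.1]⟩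
    have f2 : ⌊Y⌋ = j - 1 := by
      rw [Int.floor_eq_iff]
      push_cast
      exact ⟨by linarith [h3.1, h4.2.2], by linarith [h3.2.1]⟩
    unfold tt
    have a1 := Int.floor_add_fract X
    have a2 := Int.floor_add_fract Y
    rw [f1] at a1
    rw [f2] at a2
    push_cast at a1 a2
    rw [if_neg, f1, f2]
    · simp
    · intro h
      linarith [h2.2.2]

theorem tiling (p q r : ℂ) (h : 0 < area (tri p q r)) :
    ∃ (a e : ℤ × ℤ × Bool → ℂ) (τ : ℂ → ℤ × ℤ × Bool),
      (∀ c, e c = 1 ∨ e c = -1) ∧
      (∀ z, ∃ x ∈ tri p q r, z = a (τ z) + e (τ z) * x) ∧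
      (∀ c, MeasurableSet (τ ⁻¹' {c})) ∧
      (∀ c, area (τ ⁻¹' {c}) = area (tri p q r)) ∧
      (∀ c w δ, 0 < δ → (∀ w', ‖w' - w‖ < δ → ∃ x ∈ tri p q r, w' = a c + e c * x) → τ w = c) := by
  have hA := area_tri p q r
  have hD : dt (q - p) (r - p) ≠ 0 := by
    intro h0
    have e : ((q - p) * (starRingEnd ℂ) (r - p)).im = dt (q - p) (r - p) := by
      unfold dt
      simp only [Complex.mul_im, Complex.conj_re, Complex.conj_im]
      ring
    rw [e, h0] at hA
    simp at hA
    linarith
  set X := cX p (q - p) (r - p) with hX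
  set Y := cY p (q - p) (r - p) with hY
  have hnh : ∀ c w δ, 0 < δ → (∀ w', ‖w' - w‖ < δ → ∃ x ∈ tri p q r,
      w' = ta p (q - p) (r - p) c + te c * x) → tt (X w) (Y w) = c := by
    intro c w δ hδ hw
    obtain ⟨ε, hε, hε1, hε2⟩ : ∃ ε : ℝ, 0 < ε ∧ ε * ‖q - p‖ < δ ∧ ε * ‖r - p‖ < δ := by
      refine ⟨δ / (‖q - p‖ + ‖r - p‖ + 1), by positivity, ?_, ?_⟩
      · rw [div_mul_eq_mul_div, div_lt_iff₀ (by positivity)]
        nlinarith [norm_nonneg (q - p), norm_nonneg (r - p)]
      · rw [div_mul_eq_mul_div, div_lt_iff₀ (by positivity)]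
        nlinarith [norm_nonneg (q - p), norm_nonneg (r - p)]
    have key : ∀ s t : ℝ, ‖(s : ℂ) * (q - p) + (t : ℂ) * (r - p)‖ < δ →
        InT (X w + s) (Y w + t) c := by
      intro s t hst
      have h1 := hw (w + s * (q - p) + t * (r - p)) (by
        rw [show w + s * (q - p) + t * (r - p) - w = (s : ℂ) * (q - p) + (t : ℂ) * (r - p) by ring]
        exact hst)
      rw [tile_iff hD, cX_lin hD, cY_lin hD] at h1
      exact h1
    refine tt_of_nhds hε c ?_ ?_ ?_ ?_
    · have := key ε 0 (by
        rw [Complex.ofReal_zero, zero_mul, add_zero, norm_mul, Complex.norm_real,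
          Real.norm_of_nonneg hε.le]
        exact hε1)
      rwa [add_zero] at this
    · have := key (-ε) 0 (by
        rw [Complex.ofReal_zero, zero_mul, add_zero, norm_mul, Complex.norm_real, norm_neg,
          Real.norm_of_nonneg hε.le]
        exact hε1)
      rwa [add_zero] at this
    · have := key 0 ε (by
        rw [Complex.ofReal_zero, zero_mul, zero_add, norm_mul, Complex.norm_real,
          Real.norm_of_nonneg hε.le]
        exact hε2)
      rwa [add_zero] at this
    · have := key 0 (-ε) (by
        rw [Complex.ofReal_zero, zero_mul, zero_add, norm_mul, Complex.norm_real, norm_neg,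
          Real.norm_of_nonneg hε.le]
        exact hε2)
      rwa [add_zero] at this
  have hXm : Measurable X := (cX_cont _ _ _).measurable
  have hYm : Measurable Y := (cY_cont _ _ _).measurable
  have hmeas : Measurable fun z => tt (X z) (Y z) := by
    unfold tt
    refine Measurable.ite ?_ ?_ ?_
    · exact measurableSet_lt (hXm.fract.add hYm.fract) measurable_const
    · exact (hXm.floor).prodMk ((hYm.floor).prodMk measurable_const)
    · exact (hXm.floor.add measurable_const).prodMk
        ((hYm.floor.add measurable_const).prodMk measurable_const)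
  refine ⟨ta p (q - p) (r - p), te, fun z => tt (X z) (Y z), ?_, ?_, ?_, ?_, hnh⟩
  · rintro ⟨i, j, b⟩
    cases b
    · exact Or.inr rfl
    · exact Or.inl rfl
  · intro z
    rw [tile_iff hD]
    exact in_tt _ _
  · intro c
    exact hmeas (MeasurableSet.singleton c)
  · intro c
    set T : Set ℂ := tri (ta p (q - p) (r - p) c + te c * p) (ta p (q - p) (r - p) c + te c * q)
      (ta p (q - p) (r - p) c + te c * r) with hT
    have hTm : ∀ z, z ∈ T ↔ ∃ x ∈ tri p q r, z = ta p (q - p) (r - p) c + te c * x := by
      intro z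
      rw [hT, mem_tri]
      constructor
      · rintro ⟨x, y, t, hx, hy, ht, hs, rfl⟩
        refine ⟨x * p + y * q + t * r, (mem_tri _ _ _ _).2 ⟨x, y, t, hx, hy, ht, hs, rfl⟩, ?_⟩
        have : ((x : ℂ) + y + t) = 1 := by exact_mod_cast hs
        linear_combination (ta p (q - p) (r - p) c) * this
      · rintro ⟨w, hw, rfl⟩
        obtain ⟨x, y, t, hx, hy, ht, hs, rfl⟩ := (mem_tri _ _ _ _).1 hw
        refine ⟨x, y, t, hx, hy, ht, hs, ?_⟩
        have : ((x : ℂ) + y + t) = 1 := by exact_mod_cast hs
        linear_combination -(ta p (q - p) (r - p) c) * this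
    have he : te c * (starRingEnd ℂ) (te c) = 1 := by
      obtain ⟨i, j, b⟩ := c
      cases b <;> simp [te]
    have hTarea : area T = area (tri p q r) := by
      rw [hT, area_tri, area_tri]
      congr 2
      have : (ta p (q - p) (r - p) c + te c * q - (ta p (q - p) (r - p) c + te c * p)) *
          (starRingEnd ℂ) (ta p (q - p) (r - p) c + te c * r - (ta p (q - p) (r - p) c + te c * p)) =
          (te c * (starRingEnd ℂ) (te c)) * ((q - p) * (starRingEnd ℂ) (r - p)) := by
        simp only [map_sub, map_add, map_mul]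
        ring
      rw [this, he, one_mul]
    have hTconv : Convex ℝ T := convex_convexHull ℝ _
    have hTclosed : IsClosed T := by
      have : (({ta p (q - p) (r - p) c + te c * p, ta p (q - p) (r - p) c + te c * q,
        ta p (q - p) (r - p) c + te c * r} : Set ℂ)).Finite := by
        simp
      have h6 : IsCompact (convexHull ℝ ({ta p (q - p) (r - p) c + te c * p,
        ta p (q - p) (r - p) c + te c * q, ta p (q - p) (r - p) c + te c * r} : Set ℂ)) :=
        this.isCompact_convexHull ℝ
      exact h6.isClosed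
    have h1 : interior T ⊆ (fun z => tt (X z) (Y z)) ⁻¹' {c} := by
      intro w hw
      rw [mem_interior_iff_mem_nhds, Metric.mem_nhds_iff] at hw
      obtain ⟨δ, hδ, hball⟩ := hw
      refine hnh c w δ hδ fun w' hw' => ?_
      rw [← hTm]
      apply hball
      rw [Metric.mem_ball, dist_eq_norm]
      exact hw'
    have h2 : (fun z => tt (X z) (Y z)) ⁻¹' {c} ⊆ T := by
      intro w hw
      rw [hTm, tile_iff hD]
      have : tt (X w) (Y w) = c := hw
      rw [← this]
      exact in_tt _ _
    have h3 : volume T = volume (interior T) := by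
      apply le_antisymm _ (measure_mono interior_subset)
      have h4 : T ⊆ interior T ∪ frontier T := by
        intro z hz
        by_cases hz' : z ∈ interior T
        · exact Or.inl hz'
        · exact Or.inr ⟨subset_closure hz, hz'⟩
      calc volume T ≤ volume (interior T ∪ frontier T) := measure_mono h4
        _ ≤ volume (interior T) + volume (frontier T) := measure_union_le _ _
        _ = volume (interior T) := by rw [hTconv.addHaar_frontier volume, add_zero]
    have h5 : volume ((fun z => tt (X z) (Y z)) ⁻¹' {c}) = volume T :=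
      le_antisymm (measure_mono h2) (h3 ▸ measure_mono h1)
    rw [← hTarea]
    unfold area
    rw [h5]

end Pool.Agent.LE60
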