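import Pool.Agent.LE60.Cells
import Pool.Agent.LE60.CurvU
import Pool.Agent.LE60.LBa

/-!
# LE60/UpC: a well conditioned configuration in one cell

PROOF. `n' = N - 1`, `ν = n' - d`, `A = AA t p X` fat of size `s' = 2t/m`, `n = nB A`. `good` (`s' > 0`): `f : Fin n → A`, `gdet kp f ≥ dP A n/2`,
`G_f - lam 1` PSD with `lam = 1/(2 s'⁴)`. `f i = t g_i`, `g_i ∈ TT` (`AA_mem`); `w_i = f i/√ν = ((1-η)/2) g_i` (`ν > 0` because `t > 0`),
`|w_i|² ≤ (1/m)² = ρ` (`Cen.ball_out`). `√ν w_i = f i`. Apply `curvU` with `ρ = 1/m²`, `ε = e^{-k}`: the hypotheses are given; `ε ≤ 1/4` and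
`n ε ≤ lam/4` follow from `hsmall : 16 N² s'⁴ ε ≤ 1`, `s' ≥ 1`, `n ≤ N`, `N ≥ 2`. Conclusion: `gram (kw n') w - (lam/2) 1` PSD, `lam/2 = 1/(4 s'⁴)`, and
`gdet (kw n') w ≥ (1 - 2nε/lam)^n (1-ε)^n gdet kp f`, where `2nε/lam = 4 n ε s'⁴ ≤ 1/(4N)`, so `(…)^n ≥ 3/4` (Bernoulli,
`one_add_mul_le_pow`), `(1-ε)^n ≥ 1 - Nε ≥ 3/4`; `9/16 · 1/2 ≥ 1/8`.
-/

set_option autoImplicit false

namespace Pool.Agent.LE60

open Matrix
open scoped ComplexOrder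

theorem up_cell {N k d m : ℕ} {t η : ℝ} (hN : 2 ≤ N) (hm : 40 ≤ m) (ht : 0 < t) (hη : 0 ≤ η)
    (hη1 : η < 1) (htd : t = (1 - η) * Real.sqrt (((N - 1 : ℕ) : ℝ) - d) / 2)
    (hd : d ≤ N - 1) (hkd : 4 * k ≤ d) (hkn : 16 * k * N ≤ d ^ 2)
    (htail : 15 * d / (m : ℝ) ^ 2 + 110 * N / (m : ℝ) ^ 4 ≤ k)
    (hn : (N : ℝ) / (m : ℝ) ^ 2 ≤ 2 * d) (hs : 1 ≤ 2 * t / m)
    (hsmall : 16 * (N : ℝ) ^ 2 * (2 * t / m) ^ 4 * Real.exp (-(k : ℝ)) ≤ 1)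
    {p : ℂ × ℂ} {X : Fin 3 → E3} (hc : Cen m p X) (hcard : nB (AA t p X) ≤ N) :
    ∃ w : Fin (nB (AA t p X)) → ℂ,
      (∀ i, ∃ g ∈ TT p X, w i = (((1 - η) / 2 : ℝ) : ℂ) * g) ∧
      (gram (kw (N - 1)) w - ((1 / (4 * (2 * t / m) ^ 4) : ℝ) : ℂ) •
        (1 : Matrix (Fin (nB (AA t p X))) (Fin (nB (AA t p X))) ℂ)).PosSemidef ∧
      dP (AA t p X) (nB (AA t p X)) / 8 ≤ gdet (kw (N - 1)) w := by
  have hm0 : (0 : ℝ) < m := by
    exact_mod_cast (by omega : 0 < m)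
  have hm40 : (40 : ℝ) ≤ m := by exact_mod_cast hm
  have hN2 : (2 : ℝ) ≤ N := by exact_mod_cast hN
  have hfat := AA_fat hm hc ht
  obtain ⟨s, hse⟩ : ∃ s, s = 2 * t / (m : ℝ) := ⟨_, rfl⟩
  rw [← hse] at hfat hs hsmall ⊢
  have hspos : 0 < s := by linarith
  obtain ⟨f, hfA, hf2, hpsd⟩ := good hspos hfat
  have hmem := fun i => AA_mem ht (hfA i)
  choose g hg hfg using hmem
  obtain ⟨R, hR⟩ : ∃ R, R = Real.sqrt (((N - 1 : ℕ) : ℝ) - d) := ⟨_, rfl⟩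
  rw [← hR] at htd
  have hη2 : 0 < 1 - η := by linarith
  have hRw : ∀ i, (R : ℂ) * ((((1 - η) / 2 : ℝ) : ℂ) * g i) = f i := by
    intro i
    rw [hfg i, htd]
    push_cast
    ring
  have hwρ : ∀ i, ‖(((1 - η) / 2 : ℝ) : ℂ) * g i‖ ^ 2 ≤ 1 / (m : ℝ) ^ 2 := by
    intro i
    have h1 : ‖g i‖ ≤ 2 / m := by
      have := Cen.ball_out hm hc (hg i)
      simpa using this
    have h2 : ‖(((1 - η) / 2 : ℝ) : ℂ) * g i‖ ≤ 1 / m := by
      rw [norm_mul, Complex.norm_real, Real.norm_eq_abs, abs_of_pos (by linarith)]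
      calc (1 - η) / 2 * ‖g i‖ ≤ 1 / 2 * (2 / m) :=
            mul_le_mul (by linarith) h1 (norm_nonneg _) (by norm_num)
        _ = 1 / m := by ring
    calc ‖(((1 - η) / 2 : ℝ) : ℂ) * g i‖ ^ 2 ≤ (1 / (m : ℝ)) ^ 2 :=
          pow_le_pow_left₀ (norm_nonneg _) h2 2
      _ = 1 / (m : ℝ) ^ 2 := by rw [div_pow, one_pow]
  have hcn : ((Fintype.card (Fin (nB (AA t p X))) : ℕ) : ℝ) ≤ N := by
    rw [Fintype.card_fin]; exact_mod_cast hcard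
  obtain ⟨ε, hε⟩ : ∃ ε, ε = Real.exp (-(k : ℝ)) := ⟨_, rfl⟩
  have hε0 : 0 < ε := by rw [hε]; exact Real.exp_pos _
  rw [← hε] at hsmall
  have hs4 : 1 ≤ s ^ 4 := one_le_pow₀ hs
  have hN1' : ((N - 1 : ℕ) : ℝ) ≤ N := by exact_mod_cast Nat.sub_le N 1
  -- `4 N s⁴ ε ≤ 1 / (4 N)`
  have hkey : 4 * (N : ℝ) * s ^ 4 * ε ≤ 1 / (4 * N) := by
    rw [le_div_iff₀ (by positivity)]
    nlinarith
  have hkey2 : (N : ℝ) * ε ≤ 1 / 16 := by
    have h1 : (N : ℝ) * ε ≤ (N : ℝ) ^ 2 * s ^ 4 * ε := by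
      have h2 : (N : ℝ) ≤ (N : ℝ) ^ 2 * s ^ 4 := by nlinarith
      exact mul_le_mul_of_nonneg_right h2 hε0.le
    linarith
  have hcur := curvU (N - 1) k d (ρ := 1 / (m : ℝ) ^ 2) (by positivity)
    (by
      rw [div_le_div_iff₀ (by positivity) (by norm_num)]
      nlinarith) hd hkd
    (le_trans (Nat.mul_le_mul_left _ (Nat.sub_le N 1)) hkn)
    (by
      have e : (15 : ℝ) * d * (1 / (m : ℝ) ^ 2) + 110 * ((N - 1 : ℕ) : ℝ) * (1 / (m : ℝ) ^ 2) ^ 2 =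
          15 * d / (m : ℝ) ^ 2 + 110 * ((N - 1 : ℕ) : ℝ) / (m : ℝ) ^ 4 := by
        rw [div_pow, one_pow, ← pow_mul]; ring
      rw [e]
      refine le_trans ?_ htail
      have : (110 : ℝ) * ((N - 1 : ℕ) : ℝ) / (m : ℝ) ^ 4 ≤ 110 * N / (m : ℝ) ^ 4 :=
        div_le_div_of_nonneg_right (by linarith) (by positivity)
      linarith)
    (by
      rw [mul_one_div]
      refine le_trans ?_ hn
      exact div_le_div_of_nonneg_right hN1' (by positivity))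
    (fun i => (((1 - η) / 2 : ℝ) : ℂ) * g i) hwρ (lam := 1 / (2 * s ^ 4)) (by positivity)
    (by rw [← hε]; nlinarith)
    (by
      rw [← hε]
      have h1 : (1 : ℝ) / (2 * s ^ 4) / 4 = 1 / (8 * s ^ 4) := by
        field_simp; norm_num
      rw [h1, le_div_iff₀ (by positivity)]
      have h2 : ((Fintype.card (Fin (nB (AA t p X))) : ℕ) : ℝ) * ε ≤ N * ε :=
        mul_le_mul_of_nonneg_right hcn hε0.le
      have h3 : ((Fintype.card (Fin (nB (AA t p X))) : ℕ) : ℝ) * ε * (8 * s ^ 4) ≤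
          N * ε * (8 * s ^ 4) := mul_le_mul_of_nonneg_right h2 (by positivity)
      have h4 : (N : ℝ) * ε * (8 * s ^ 4) ≤ 16 * (N : ℝ) ^ 2 * s ^ 4 * ε := by
        have h5 : (N : ℝ) * 8 ≤ 16 * (N : ℝ) ^ 2 := by nlinarith
        have h6 := mul_le_mul_of_nonneg_right h5 (show 0 ≤ s ^ 4 * ε by positivity)
        nlinarith
      linarith)
    (by
      rw [← hR]
      simp only [hRw]
      exact hpsd)
  obtain ⟨hc1, hc2⟩ := hcur
  refine ⟨fun i => (((1 - η) / 2 : ℝ) : ℂ) * g i, fun i => ⟨g i, hg i, rfl⟩, ?_, ?_⟩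
  · have e : (1 : ℝ) / (2 * s ^ 4) / 2 = 1 / (4 * s ^ 4) := by
      field_simp; norm_num
    rw [e] at hc1
    exact hc1
  · rw [← hR, ← hε, Fintype.card_fin] at hc2
    simp only [hRw] at hc2
    rw [Fintype.card_fin] at hcn
    refine le_trans ?_ hc2
    obtain ⟨τ, hτ⟩ : ∃ τ, τ = 2 * (nB (AA t p X) : ℝ) * ε / (1 / (2 * s ^ 4)) := ⟨_, rfl⟩
    have hτ2 : τ = 4 * (nB (AA t p X) : ℝ) * s ^ 4 * ε := by
      rw [hτ]; field_simp; ring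
    have hτ0 : 0 ≤ τ := by rw [hτ2]; positivity
    have hτ1 : τ ≤ 1 / (4 * N) := by
      refine le_trans ?_ hkey
      rw [hτ2]
      have h2 := mul_le_mul_of_nonneg_right hcn (show 0 ≤ 4 * (s ^ 4 * ε) by positivity)
      nlinarith
    have hτ3 : (nB (AA t p X) : ℝ) * τ ≤ 1 / 4 := by
      calc (nB (AA t p X) : ℝ) * τ ≤ N * (1 / (4 * N)) :=
            mul_le_mul hcn hτ1 hτ0 (by linarith)
        _ = 1 / 4 := by field_simp
    have hτ4 : τ ≤ 1 := by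
      refine hτ1.trans ?_
      rw [div_le_one (by positivity)]
      linarith
    rw [← hτ]
    have ha : 3 / 4 ≤ (1 - τ) ^ nB (AA t p X) := by
      have h1 := one_add_mul_le_pow (a := -τ) (by linarith) (nB (AA t p X))
      have h2 : (1 : ℝ) + -τ = 1 - τ := by ring
      rw [h2] at h1
      linarith
    have hb : 3 / 4 ≤ (1 - ε) ^ nB (AA t p X) := by
      have h1 := one_add_mul_le_pow (a := -ε) (by nlinarith) (nB (AA t p X))
      have h2 : (1 : ℝ) + -ε = 1 - ε := by ring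
      rw [h2] at h1
      have h3 : (nB (AA t p X) : ℝ) * ε ≤ N * ε := mul_le_mul_of_nonneg_right hcn hε0.le
      linarith
    have hd0 := dP_nonneg (AA t p X) (nB (AA t p X))
    have hab : 9 / 16 ≤ (1 - τ) ^ nB (AA t p X) * (1 - ε) ^ nB (AA t p X) := by nlinarith
    have hg0 : 0 ≤ gdet kp f := by linarith
    have hfin := mul_le_mul_of_nonneg_right hab hg0
    linarith

end Pool.Agent.LE60
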