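import Pool.Agent.LE60.UpC
import Pool.Agent.LE60.MatS

/-!
# LE60/UpS: the configurations of all cells together

PROOF. For each `c` take `w_c` from `up_cell` and put `u (c, i) = ci (p c) (w_c i)`, unit vectors (`ci_unit`). Let `s' = 2t/m`,
`lam = 1/(4 s'⁴)`, `D = η/(288 m)`, `e = N exp (-(N-1) D²/8)`, so `e ≤ lam/(2N)` by `hsep`. Apply `separated` to
`A = gram (ks (N-1)) u` on `Σ c, Fin (nB A_c)` (`Fintype.card ≤ N` by `hcard`): the blocks are `gram (kw (N-1)) w_c` (`gram_ci`), so `A_c - lam 1` is PSD;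
OFF-DIAGONAL: `c ≠ c'`, `x = hopf (u (c,i))`, `x' = hopf (u (c',j))`. With `w = w_c i = ((1-η)/2) g`, `|w|² ≤ 1/m² ≤ η/2`: by `ci_gnomonic`
`hgt x > 0` and the gnomonic coordinate is `2w/(1-|w|²) = (1-η)/(1-|w|²) g = (1 - η/2) g₂`, `g₂ = θ g`,
`0 ≤ θ = (1-η)/((1-|w|²)(1-η/2)) ≤ 1`, so `g₂ ∈ TT` (`smul_mem_tri`, `0 ∈ TT` by `Cen.ball_in`). `x'` is in the cone of `c'` by `Cen.cone_iff` (its gnomonic coordinate is a
multiple in `[0,1]` of an element of `TT`). `cell_sep` with `η/2`: `‖x - x'‖ ≥ (η/2)/(144 m) = D`. `ks_decay`: entries `≤ exp (-(N-1) D²/8)`; row sums `≤ e`.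
Conclusion: `gdet u ≥ (1 - e/lam)^{card} ∏ gdet (kw) w_c ≥ (1 - N e/lam) ∏ … ≥ (1/2) ∏ (dP A_c (nB A_c)/8)`.
-/

set_option autoImplicit false

namespace Pool.Agent.LE60

open Matrix
open scoped ComplexOrder

/-- the image of a point of the shrunken cell -/
private theorem ups_in {m : ℕ} (hm : 40 ≤ m) {p : ℂ × ℂ} {X : Fin 3 → E3} (h : Cen m p X)
    {η : ℝ} (hη : 2 / (m : ℝ) ^ 2 ≤ η) (hη1 : η ≤ 1 / 2) {w g : ℂ} (hg : g ∈ TT p X)
    (hw : w = (((1 - η) / 2 : ℝ) : ℂ) * g) :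
    0 < hgt p (hopf (ci p w)) ∧
      (∃ g₂ ∈ TT p X, ell p (hopf (ci p w)) / (hgt p (hopf (ci p w)) : ℂ) =
        ((1 - η / 2 : ℝ) : ℂ) * g₂) ∧
      ell p (hopf (ci p w)) / (hgt p (hopf (ci p w)) : ℂ) ∈ TT p X := by
  have hm0 : (40 : ℝ) ≤ m := by exact_mod_cast hm
  have hm1 : (0 : ℝ) < m := by linarith
  have hη0 : 0 < η := lt_of_lt_of_le (by positivity) hη
  have hgn : ‖g‖ ≤ 2 / m := by
    have := h.ball_out hm hg
    rwa [Metric.mem_closedBall, dist_zero_right] at this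
  have hwn : ‖w‖ ≤ 1 / m := by
    rw [hw, norm_mul, Complex.norm_real, Real.norm_eq_abs, abs_of_nonneg (by linarith)]
    calc (1 - η) / 2 * ‖g‖ ≤ 1 / 2 * (2 / m) :=
          mul_le_mul (by linarith) hgn (norm_nonneg _) (by norm_num)
      _ = 1 / m := by ring
  have hw2 : ‖w‖ ^ 2 ≤ η / 2 := by
    calc ‖w‖ ^ 2 ≤ (1 / (m : ℝ)) ^ 2 := pow_le_pow_left₀ (norm_nonneg _) hwn 2
      _ = (2 / (m : ℝ) ^ 2) / 2 := by ring
      _ ≤ η / 2 := by linarith
  have hw0 : 0 ≤ ‖w‖ ^ 2 := by positivity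
  have hw1 : ‖w‖ < 1 := by
    by_contra hc
    push Not at hc
    nlinarith
  obtain ⟨e1, e2⟩ := ci_gnomonic h.unit hw1
  have hd : 0 < 1 - ‖w‖ ^ 2 := by linarith
  have hpos : 0 < hgt p (hopf (ci p w)) := by
    rw [e1]
    exact div_pos hd (by linarith)
  have h0T : (0 : ℂ) ∈ TT p X := h.ball_in hm (Metric.mem_closedBall_self (by positivity))
  have hconv : Convex ℝ (TT p X) := convex_convexHull ℝ _
  have hval : 2 * w / ((1 - ‖w‖ ^ 2 : ℝ) : ℂ) = (((1 - η) / (1 - ‖w‖ ^ 2) : ℝ) : ℂ) * g := by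
    rw [hw]
    push_cast
    ring
  have hd2 : 0 < 1 - η / 2 := by linarith
  refine ⟨hpos, ⟨(((1 - η) / ((1 - ‖w‖ ^ 2) * (1 - η / 2)) : ℝ) : ℂ) * g, ?_, ?_⟩, ?_⟩
  · have hs : ((1 - η) / ((1 - ‖w‖ ^ 2) * (1 - η / 2)) : ℝ) ∈ Set.Icc (0 : ℝ) 1 := by
      constructor
      · exact div_nonneg (by linarith) (mul_pos hd hd2).le
      · rw [div_le_one (mul_pos hd hd2)]
        nlinarith
    have := hconv.smul_mem_of_zero_mem h0T hg hs
    rwa [Complex.real_smul] at this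
  · rw [e2, hval, ← mul_assoc, ← Complex.ofReal_mul]
    congr 2
    have hd3 : (2 - η) ≠ 0 := by linarith
    field_simp
  · rw [e2, hval]
    have hs : ((1 - η) / (1 - ‖w‖ ^ 2) : ℝ) ∈ Set.Icc (0 : ℝ) 1 := by
      constructor
      · exact div_nonneg (by linarith) hd.le
      · rw [div_le_one hd]
        linarith
    have := hconv.smul_mem_of_zero_mem h0T hg hs
    rwa [Complex.real_smul] at this

theorem up_conf {N k d m K : ℕ} {t η : ℝ} (hN : 2 ≤ N) (hm : 40 ≤ m) (ht : 0 < t)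
    (hη : 2 / (m : ℝ) ^ 2 ≤ η) (hη1 : η ≤ 1 / 2)
    (htd : t = (1 - η) * Real.sqrt (((N - 1 : ℕ) : ℝ) - d) / 2)
    (hd : d ≤ N - 1) (hkd : 4 * k ≤ d) (hkn : 16 * k * N ≤ d ^ 2)
    (htail : 15 * d / (m : ℝ) ^ 2 + 110 * N / (m : ℝ) ^ 4 ≤ k)
    (hn : (N : ℝ) / (m : ℝ) ^ 2 ≤ 2 * d) (hs : 1 ≤ 2 * t / m)
    (hsmall : 16 * (N : ℝ) ^ 2 * (2 * t / m) ^ 4 * Real.exp (-(k : ℝ)) ≤ 1)
    (hsep : (N : ℝ) * Real.exp (-(((N - 1 : ℕ) : ℝ) * (η / (288 * m)) ^ 2) / 8)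
      ≤ 1 / (8 * N * (2 * t / m) ^ 4))
    {p : Fin K → ℂ × ℂ} {X : Fin K → Fin 3 → E3} (hD : Dec m K p X)
    (hcard : ∑ c, nB (AA t (p c) (X c)) ≤ N) :
    ∃ u : (Σ c : Fin K, Fin (nB (AA t (p c) (X c)))) → ℂ × ℂ, (∀ i, Unit2 (u i)) ∧
      (1 / 2) * ∏ c, (dP (AA t (p c) (X c)) (nB (AA t (p c) (X c))) / 8)
        ≤ gdet (ks (N - 1)) u := by
  have hm0 : (40 : ℝ) ≤ m := by exact_mod_cast hm
  have hm1 : (0 : ℝ) < m := by linarith
  have hN0 : (2 : ℝ) ≤ N := by exact_mod_cast hN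
  have hη0 : 0 < η := lt_of_lt_of_le (by positivity) hη
  have hcell : ∀ c, nB (AA t (p c) (X c)) ≤ N := fun c =>
    (Finset.single_le_sum (f := fun c => nB (AA t (p c) (X c))) (fun _ _ => Nat.zero_le _)
      (Finset.mem_univ c)).trans hcard
  choose w hw1 hw2 hw3 using fun c => up_cell hN hm ht hη0.le (by linarith) htd hd hkd hkn htail hn
    hs hsmall (hD.cen c) (hcell c)
  set s' : ℝ := 2 * t / m with hs'
  have hs0 : 0 < s' := by linarith
  set lam : ℝ := 1 / (4 * s' ^ 4) with hlam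
  have hlam0 : 0 < lam := by positivity
  set q : ℝ := Real.exp (-(((N - 1 : ℕ) : ℝ) * (η / (288 * m)) ^ 2) / 8) with hq
  have hq0 : 0 < q := Real.exp_pos _
  have hel : (N : ℝ) * q ≤ lam / (2 * N) := by
    refine hsep.trans (le_of_eq ?_)
    rw [hlam]
    field_simp
    ring
  let u : (Σ c : Fin K, Fin (nB (AA t (p c) (X c)))) → ℂ × ℂ := fun i => ci (p i.1) (w i.1 i.2)
  have hu : ∀ i, Unit2 (u i) := fun i => ci_unit (hD.cen i.1).unit _
  refine ⟨u, hu, ?_⟩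
  have hcardE : Fintype.card (Σ c : Fin K, Fin (nB (AA t (p c) (X c)))) =
      ∑ c, nB (AA t (p c) (X c)) := by
    rw [Fintype.card_sigma]
    simp
  have hcardN : (Fintype.card (Σ c : Fin K, Fin (nB (AA t (p c) (X c)))) : ℝ) ≤ N := by
    rw [hcardE]
    exact_mod_cast hcard
  have hsub : ∀ c, (gram (ks (N - 1)) u).submatrix (Sigma.mk c) (Sigma.mk c) =
      gram (kw (N - 1)) (w c) := by
    intro c
    rw [← gram_ci (N - 1) (hD.cen c).unit (w c)]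
    rfl
  have hsepd : ∀ x y : (Σ c : Fin K, Fin (nB (AA t (p c) (X c)))), x.1 ≠ y.1 →
      ‖gram (ks (N - 1)) u x y‖ ≤ q := by
    intro x y hxy
    have h1 : ‖gram (ks (N - 1)) u x y‖ ≤
        Real.exp (-(((N - 1 : ℕ) : ℝ) * ‖hopf (u x) - hopf (u y)‖ ^ 2) / 8) :=
      ks_decay (N - 1) (hu x) (hu y)
    refine h1.trans (Real.exp_le_exp.2 ?_)
    obtain ⟨g, hg, hwg⟩ := hw1 x.1 x.2
    obtain ⟨g', hg', hwg'⟩ := hw1 y.1 y.2
    obtain ⟨a1, ⟨g₂, hg₂, a2⟩, -⟩ := ups_in hm (hD.cen x.1) hη hη1 hg hwg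
    obtain ⟨b1, -, b3⟩ := ups_in hm (hD.cen y.1) hη hη1 hg' hwg'
    have hcone := ((hD.cen y.1).cone_iff hm b1).2 b3
    have h2 := cell_sep hm hD.cen hD.dis hxy (η := η / 2) (by linarith) (by linarith)
      (norm_hopf (hu x)) (norm_hopf (hu y)) a1 hg₂ a2 hcone
    have h3 : η / 2 / (144 * m) = η / (288 * m) := by
      field_simp
      norm_num
    rw [h3] at h2
    have h4 : (η / (288 * m)) ^ 2 ≤ ‖hopf (u x) - hopf (u y)‖ ^ 2 :=
      pow_le_pow_left₀ (by positivity) h2 2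
    have h5 : (0 : ℝ) ≤ ((N - 1 : ℕ) : ℝ) := Nat.cast_nonneg _
    have h6 := mul_le_mul_of_nonneg_left h4 h5
    linarith
  have hoff : ∀ x : (Σ c : Fin K, Fin (nB (AA t (p c) (X c)))),
      ∑ y, (if x.1 = y.1 then 0 else ‖gram (ks (N - 1)) u x y‖) ≤ N * q := by
    intro x
    have h1 : ∀ y ∈ (Finset.univ : Finset (Σ c : Fin K, Fin (nB (AA t (p c) (X c))))),
        (if x.1 = y.1 then 0 else ‖gram (ks (N - 1)) u x y‖) ≤ q := by
      intro y _
      split_ifs with h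
      · exact hq0.le
      · exact hsepd x y h
    refine (Finset.sum_le_sum h1).trans ?_
    rw [Finset.sum_const, Finset.card_univ, nsmul_eq_mul]
    exact mul_le_mul_of_nonneg_right hcardN hq0.le
  have hNq : (N : ℝ) * q < lam := by
    refine lt_of_le_of_lt hel ?_
    rw [div_lt_iff₀ (by linarith)]
    nlinarith
  have hblock : ∀ c, ((gram (ks (N - 1)) u).submatrix (Sigma.mk c) (Sigma.mk c)
      - (lam : ℂ) • (1 : Matrix (Fin (nB (AA t (p c) (X c)))) (Fin (nB (AA t (p c) (X c)))) ℂ)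
        ).PosSemidef := by
    intro c
    rw [hsub c]
    exact hw2 c
  have hmain := (separated (ks_psd (N - 1) u).isHermitian (by positivity) hNq hblock hoff).2
  have hpow : 1 / 2 ≤ (1 - N * q / lam) ^
      (Fintype.card (Σ c : Fin K, Fin (nB (AA t (p c) (X c))))) := by
    have h0 : N * q / lam ≤ 1 / (2 * N) := by
      rw [div_le_iff₀ hlam0]
      calc (N : ℝ) * q ≤ lam / (2 * N) := hel
        _ = 1 / (2 * N) * lam := by ring
    have h00 : 0 ≤ N * q / lam := by positivity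
    have h01 : 1 / (2 * (N : ℝ)) ≤ 1 / 4 := by
      apply one_div_le_one_div_of_le
      · norm_num
      · linarith
    have h1 := one_add_mul_le_pow (a := -(N * q / lam)) (by linarith)
      (Fintype.card (Σ c : Fin K, Fin (nB (AA t (p c) (X c)))))
    rw [← sub_eq_add_neg] at h1
    refine le_trans ?_ h1
    have h2 : (Fintype.card (Σ c : Fin K, Fin (nB (AA t (p c) (X c)))) : ℝ) * (N * q / lam) ≤
        N * (1 / (2 * N)) :=
      mul_le_mul hcardN h0 h00 (by linarith)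
    have h3 : (N : ℝ) * (1 / (2 * N)) = 1 / 2 := by
      field_simp
    rw [h3] at h2
    linarith
  have hprod : ∏ c, (dP (AA t (p c) (X c)) (nB (AA t (p c) (X c))) / 8) ≤
      ∏ c, ((gram (ks (N - 1)) u).submatrix (Sigma.mk c) (Sigma.mk c)).det.re := by
    apply Finset.prod_le_prod
    · intro c _
      have := dP_nonneg (AA t (p c) (X c)) (nB (AA t (p c) (X c)))
      positivity
    · intro c _
      rw [hsub c]
      exact hw3 c
  have hprod0 : 0 ≤ ∏ c, (dP (AA t (p c) (X c)) (nB (AA t (p c) (X c))) / 8) := by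
    apply Finset.prod_nonneg
    intro c _
    have := dP_nonneg (AA t (p c) (X c)) (nB (AA t (p c) (X c)))
    positivity
  calc (1 / 2) * ∏ c, (dP (AA t (p c) (X c)) (nB (AA t (p c) (X c))) / 8)
      ≤ (1 - N * q / lam) ^ (Fintype.card (Σ c : Fin K, Fin (nB (AA t (p c) (X c))))) *
        ∏ c, ((gram (ks (N - 1)) u).submatrix (Sigma.mk c) (Sigma.mk c)).det.re :=
        mul_le_mul hpow hprod hprod0 (by linarith)
    _ ≤ gdet (ks (N - 1)) u := hmain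

end Pool.Agent.LE60
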